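import Pool.Agent.H93.Ch.Kern

/-! Module V: local sizes `vv m h t` and the weighted norm `VV m h`.

Notation: `κ = kap m`, `ω = om m`, `c ω^(-8) ≤ κ ≤ C ω^(-8)`; `vv m h t = sqrt (m ∫ h(s)^2 κ(s-t) ds)`. -/

set_option autoImplicit false

namespace Pool.Agent.H93.Ch

open Real MeasureTheory

/-! ### helper lemmas -/

theorem vm_int_mono {f g : ℝ → ℝ} (hf : Continuous f) (hg : Continuous g) (h : ∀ x, f x ≤ g x) :
    ∫ s in (-π)..π, f s ≤ ∫ s in (-π)..π, g s :=
  intervalIntegral.integral_mono (by linarith [pi_pos]) (hf.intervalIntegrable _ _)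
    (hg.intervalIntegrable _ _) h

theorem vm_int_nonneg {f : ℝ → ℝ} (h : ∀ x, 0 ≤ f x) : 0 ≤ ∫ s in (-π)..π, f s :=
  intervalIntegral.integral_nonneg (by linarith [pi_pos]) (fun x _ => h x)

theorem vm_cs {f g : ℝ → ℝ} (hf : Continuous f) (hg : Continuous g) :
    (∫ s in (-π)..π, f s * g s) ^ 2 ≤ (∫ s in (-π)..π, f s ^ 2) * ∫ s in (-π)..π, g s ^ 2 := by
  have h1 : ∀ x : ℝ, 0 ≤ (∫ s in (-π)..π, f s ^ 2) * (x * x) +
      (2 * ∫ s in (-π)..π, f s * g s) * x + ∫ s in (-π)..π, g s ^ 2 := by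
    intro x
    have h2 : (∫ s in (-π)..π, f s ^ 2) * (x * x) +
      (2 * ∫ s in (-π)..π, f s * g s) * x + ∫ s in (-π)..π, g s ^ 2 =
        ∫ s in (-π)..π, (f s * x + g s) ^ 2 := by
      have e1 : ∀ s, (f s * x + g s) ^ 2 =
          (f s ^ 2 * (x * x) + 2 * (f s * g s) * x) + g s ^ 2 := fun s => by ring
      simp_rw [e1]
      rw [intervalIntegral.integral_add, intervalIntegral.integral_add,
        intervalIntegral.integral_mul_const, intervalIntegral.integral_mul_const,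
        intervalIntegral.integral_const_mul]
      all_goals exact Continuous.intervalIntegrable (by fun_prop) _ _
    rw [h2]
    exact vm_int_nonneg fun s => sq_nonneg _
  have h3 := discrim_le_zero h1
  unfold discrim at h3
  nlinarith [h3]

theorem vm_kap_nonneg (m : ℕ) (θ : ℝ) : 0 ≤ kap m θ := by
  unfold kap
  positivity

theorem vm_kap_continuous {m : ℕ} (hm : 1 ≤ m) : Continuous (kap m) :=
  (kap_TP hm).contDiff.continuous

theorem vm_Fej_continuous {m : ℕ} (hm : 1 ≤ m) : Continuous (Fej m) :=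
  (Fej_TP hm).contDiff.continuous

theorem vm_om_pos (m : ℕ) (θ : ℝ) : 0 < om m θ := lt_of_lt_of_le one_pos (one_le_om m θ)

theorem vm_om_inv_continuous (m n : ℕ) : Continuous fun θ => (om m θ ^ n)⁻¹ :=
  ((om_continuous m).pow n).inv₀ fun θ => (pow_pos (vm_om_pos m θ) n).ne'

theorem vm_TP_continuous {d : ℕ} {h : ℝ → ℝ} (hh : TP d h) : Continuous h :=
  hh.contDiff.continuous

theorem vv_nonneg (m : ℕ) (h : ℝ → ℝ) (t : ℝ) : 0 ≤ vv m h t := Real.sqrt_nonneg _

theorem vv_sq {m : ℕ} (h : ℝ → ℝ) (t : ℝ) :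
    vv m h t ^ 2 = m * ∫ s in (-π)..π, (h s) ^ 2 * kap m (s - t) := by
  unfold vv
  rw [Real.sq_sqrt]
  exact mul_nonneg (Nat.cast_nonneg _)
    (vm_int_nonneg fun s => mul_nonneg (sq_nonneg _) (vm_kap_nonneg _ _))

theorem vv_continuous {m : ℕ} (hm : 1 ≤ m) {h : ℝ → ℝ} (hh : Continuous h) :
    Continuous (vv m h) := by
  have hk := vm_kap_continuous hm
  unfold vv
  refine Real.continuous_sqrt.comp (continuous_const.mul ?_)
  exact intervalIntegral.continuous_parametric_intervalIntegral_of_continuous' (by fun_prop) _ _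

theorem vv_periodic {m : ℕ} (hm : 1 ≤ m) {h : ℝ → ℝ} :
    Function.Periodic (vv m h) (2 * π) := by
  intro t
  unfold vv
  have hp : Function.Periodic (kap m) (2 * π) := (kap_TP hm).periodic
  have : ∀ s, kap m (s - (t + 2 * π)) = kap m (s - t) := fun s => by
    rw [← sub_sub]; exact hp.sub_eq _
  simp_rw [this]

/-- (V0) pointwise bound.  Proof: `h t * Fej(0)^8 = 1/(2π) ∫ h s Fej(t-s)^8 D_{d+8m}(t-s)`
(apply `dirichlet` at degree `d+8m` to `s ↦ h s * Fej(t-s)^8`), `|D| ≤ C Λ m`, Cauchy-Schwarz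
with `∫ Fej^8 ≤ ∫ Fej = 2π/m`, `Fej^4(t-s) ≤ kap(s-t)`. -/
theorem abs_le_vv (Λ : ℝ) (hΛ : 1 ≤ Λ) : ∃ C : ℝ, 0 < C ∧ ∀ (m d : ℕ) (h : ℝ → ℝ), 1 ≤ m →
    (d : ℝ) ≤ Λ * m → TP d h → ∀ t, |h t| ≤ C * vv m h t := by
  refine ⟨2 * Λ + 9, by positivity, ?_⟩
  intro m d h hm hd hh t
  have hm' : (1 : ℝ) ≤ m := by exact_mod_cast hm
  have hm0 : (0 : ℝ) < m := by linarith
  have hhc := vm_TP_continuous hh
  have hFc := vm_Fej_continuous hm
  -- the product
  have hF4 : TP (4 * (m - 1)) (fun s => Fej m (s - t) ^ 4) := ((Fej_TP hm).pow 4).comp_sub t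
  have hg : TP (d + 4 * (m - 1)) (fun s => h s * Fej m (s - t) ^ 4) := hh.mul hF4
  obtain ⟨D, hDc, hDb, hD⟩ := dirichlet (d + 4 * (m - 1))
  have e1 := hD _ hg t
  simp only [sub_self, Fej_zero hm, one_pow, mul_one] at e1
  -- bound of D
  have hDb' : ∀ θ, |D θ| ≤ (2 * Λ + 9) * m := by
    intro θ
    refine (hDb θ).trans ?_
    have : ((d + 4 * (m - 1) : ℕ) : ℝ) ≤ Λ * m + 4 * m := by
      push_cast [Nat.cast_sub hm]
      linarith
    nlinarith
  have h1 : |h t| ≤ 1 / (2 * π) * ((2 * Λ + 9) * m *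
      ∫ s in (-π)..π, |h s| * Fej m (s - t) ^ 4) := by
    rw [e1, abs_mul, abs_of_pos (by positivity : 0 < 1 / (2 * π))]
    refine mul_le_mul_of_nonneg_left ?_ (by positivity)
    rw [← intervalIntegral.integral_const_mul]
    refine (intervalIntegral.abs_integral_le_integral_abs (by linarith [pi_pos])).trans ?_
    refine vm_int_mono (by fun_prop) (by fun_prop) fun s => ?_
    rw [abs_mul, abs_mul, abs_of_nonneg (pow_nonneg (Fej_nonneg m _) 4)]
    have := hDb' (t - s)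
    have h2 : 0 ≤ |h s| * Fej m (s - t) ^ 4 :=
      mul_nonneg (abs_nonneg _) (pow_nonneg (Fej_nonneg m _) 4)
    nlinarith
  -- Cauchy-Schwarz
  have hcs := vm_cs (f := fun s => |h s| * Fej m (s - t) ^ 2) (g := fun s => Fej m (s - t) ^ 2)
    (by fun_prop) (by fun_prop)
  have e2 : ∀ s, (|h s| * Fej m (s - t) ^ 2) * Fej m (s - t) ^ 2 = |h s| * Fej m (s - t) ^ 4 :=
    fun s => by ring
  simp_rw [e2] at hcs
  have h3 : ∫ s in (-π)..π, (|h s| * Fej m (s - t) ^ 2) ^ 2 ≤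
      ∫ s in (-π)..π, h s ^ 2 * kap m (s - t) := by
    have hkc := vm_kap_continuous hm
    refine vm_int_mono (by fun_prop) (by fun_prop) fun s => ?_
    rw [mul_pow, sq_abs]
    refine mul_le_mul_of_nonneg_left ?_ (sq_nonneg _)
    unfold kap
    have : (0 : ℝ) ≤ Fej m (s - t - π / m) ^ 4 := pow_nonneg (Fej_nonneg m _) 4
    nlinarith
  have h4 : ∫ s in (-π)..π, (Fej m (s - t) ^ 2) ^ 2 ≤ 2 * π / m := by
    have hper : Function.Periodic (Fej m) (2 * π) := (Fej_TP hm).periodic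
    rw [← int_Fej hm, ← int_shift hper t]
    refine vm_int_mono (by fun_prop) (by fun_prop) fun s => ?_
    have h0 := Fej_nonneg m (s - t)
    have h1 := Fej_le_one m (s - t)
    have : (Fej m (s - t) ^ 2) ^ 2 = Fej m (s - t) * Fej m (s - t) ^ 3 := by ring
    rw [this]
    exact mul_le_of_le_one_right h0 (pow_le_one₀ h0 h1)
  set I := ∫ s in (-π)..π, |h s| * Fej m (s - t) ^ 4 with hI
  have hI0 : 0 ≤ I := vm_int_nonneg fun s => mul_nonneg (abs_nonneg _) (pow_nonneg (Fej_nonneg m _) 4)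
  have hJ : ∫ s in (-π)..π, h s ^ 2 * kap m (s - t) = vv m h t ^ 2 / m := by
    rw [vv_sq]; field_simp
  rw [hJ] at h3
  have h5 : I ^ 2 ≤ (2 * π) * (vv m h t / m) ^ 2 := by
    calc I ^ 2 ≤ _ := hcs
      _ ≤ (vv m h t ^ 2 / m) * (2 * π / m) := by
        refine mul_le_mul h3 h4 (vm_int_nonneg fun s => sq_nonneg _) (by positivity)
      _ = _ := by field_simp
  have h6 : I ≤ (2 * π) * (vv m h t / m) := by
    have hv := vv_nonneg m h t
    refine abs_le_of_sq_le_sq' ?_ (by positivity) |>.2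
    refine h5.trans ?_
    rw [mul_pow]
    refine mul_le_mul_of_nonneg_right ?_ (sq_nonneg _)
    nlinarith [pi_gt_three]
  calc |h t| ≤ _ := h1
    _ ≤ 1 / (2 * π) * ((2 * Λ + 9) * m * ((2 * π) * (vv m h t / m))) := by
      gcongr
    _ = _ := by field_simp

theorem vm_deriv_aux {m d : ℕ} (hm : 1 ≤ m) {h k : ℝ → ℝ} (hh : TP d h)
    (hk : TP (2 * m) k) (t : ℝ) (B : ℝ)
    (hkk : ∀ s, (deriv k s) ^ 2 ≤ B * kap m (s - t)) :
    ∫ s in (-π)..π, (deriv h s * k s) ^ 2 ≤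
      2 * (d + 2 * m) ^ 2 * (∫ s in (-π)..π, (h s * k s) ^ 2) +
        2 * B * ∫ s in (-π)..π, h s ^ 2 * kap m (s - t) := by
  have hp := hh.mul hk
  have hL := hp.L2_deriv
  have hhc := vm_TP_continuous hh
  have hkc := vm_TP_continuous hk
  have hhd := vm_TP_continuous hh.deriv
  have hkd := vm_TP_continuous hk.deriv
  have hkap := vm_kap_continuous hm
  have hpd := vm_TP_continuous hp.deriv
  have hdh : Differentiable ℝ h := hh.contDiff.differentiable (by simp)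
  have hdk : Differentiable ℝ k := hk.contDiff.differentiable (by simp)
  have e1 : ∀ s, deriv (fun θ => h θ * k θ) s = deriv h s * k s + h s * deriv k s := fun s =>
    deriv_fun_mul (hdh s) (hdk s)
  have e2 : ∫ s in (-π)..π, (deriv h s * k s) ^ 2 ≤
      ∫ s in (-π)..π, (2 * (deriv (fun θ => h θ * k θ) s) ^ 2 + 2 * B * (h s ^ 2 * kap m (s - t))) := by
    refine vm_int_mono (by fun_prop) (by fun_prop) fun s => ?_
    have h1 : (deriv h s * k s) ^ 2 ≤ 2 * (deriv h s * k s + h s * deriv k s) ^ 2 +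
        2 * (h s * deriv k s) ^ 2 := by nlinarith [sq_nonneg (deriv h s * k s + 2 * (h s * deriv k s))]
    rw [e1]
    have h2 : (h s * deriv k s) ^ 2 ≤ B * (h s ^ 2 * kap m (s - t)) := by
      rw [mul_pow]
      have := mul_le_mul_of_nonneg_left (hkk s) (sq_nonneg (h s))
      linarith
    linarith
  rw [intervalIntegral.integral_add (Continuous.intervalIntegrable (by fun_prop) _ _)
    (Continuous.intervalIntegrable (by fun_prop) _ _), intervalIntegral.integral_const_mul,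
    intervalIntegral.integral_const_mul] at e2
  push_cast at hL
  linarith

/-- (V1) derivative.  Proof: `h' κa = (h κa)' - h κa'` for the two windows `κa = Fej^2(.-t)`,
`κb = Fej^2(.-t-π/m)`, `L2_deriv` for the product and `deriv_win_le`. -/
theorem vv_deriv_le (Λ : ℝ) (hΛ : 1 ≤ Λ) : ∃ C : ℝ, 0 < C ∧ ∀ (m d : ℕ) (h : ℝ → ℝ), 1 ≤ m →
    (d : ℝ) ≤ Λ * m → TP d h → ∀ t, vv m (deriv h) t ≤ C * m * vv m h t := by
  obtain ⟨C0, hC0, hwin⟩ := deriv_win_le
  refine ⟨Real.sqrt (2 * (Λ + 2) ^ 2 + 4 * C0), by positivity, ?_⟩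
  intro m d h hm hd hh t
  have hm' : (1 : ℝ) ≤ m := by exact_mod_cast hm
  have hm0 : (0 : ℝ) < m := by linarith
  have hhc := vm_TP_continuous hh
  have hFc := vm_Fej_continuous hm
  have hkapc := vm_kap_continuous hm
  have hhd := vm_TP_continuous hh.deriv
  have hka : TP (2 * m) (fun s => Fej m (s - t) ^ 2) :=
    ((((Fej_TP hm).pow 2).mono (by omega : 2 * (m - 1) ≤ 2 * m))).comp_sub t
  have hkb : TP (2 * m) (fun s => Fej m (s - t - π / m) ^ 2) := by
    have := ((((Fej_TP hm).pow 2).mono (by omega : 2 * (m - 1) ≤ 2 * m))).comp_sub (t + π / m)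
    simpa only [← sub_sub] using this
  have hda : ∀ s, deriv (fun s => Fej m (s - t) ^ 2) s = deriv (fun θ => Fej m θ ^ 2) (s - t) :=
    fun s => deriv_comp_sub_const (f := fun θ => Fej m θ ^ 2) t s
  have hdb : ∀ s, deriv (fun s => Fej m (s - t - π / m) ^ 2) s =
      deriv (fun θ => Fej m (θ - π / m) ^ 2) (s - t) :=
    fun s => deriv_comp_sub_const (f := fun θ => Fej m (θ - π / m) ^ 2) t s
  have ha := vm_deriv_aux hm hh hka t (C0 * (m : ℝ) ^ 2)
    (fun s => by rw [hda]; exact (hwin m hm (s - t)).1)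
  have hb := vm_deriv_aux hm hh hkb t (C0 * (m : ℝ) ^ 2)
    (fun s => by rw [hdb]; exact (hwin m hm (s - t)).2)
  have hsplit : ∀ g : ℝ → ℝ, Continuous g →
      ∫ s in (-π)..π, g s ^ 2 * kap m (s - t) =
        (∫ s in (-π)..π, (g s * Fej m (s - t) ^ 2) ^ 2) +
          ∫ s in (-π)..π, (g s * Fej m (s - t - π / m) ^ 2) ^ 2 := by
    intro g hg
    rw [← intervalIntegral.integral_add (Continuous.intervalIntegrable (by fun_prop) _ _)
      (Continuous.intervalIntegrable (by fun_prop) _ _)]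
    refine intervalIntegral.integral_congr fun s _ => ?_
    simp only [kap]
    ring
  have h1 := hsplit _ hhd
  have h2 := hsplit _ hhc
  have h0 := vm_int_nonneg (f := fun s => h s ^ 2 * kap m (s - t))
    fun s => mul_nonneg (sq_nonneg _) (vm_kap_nonneg _ _)
  have h3 : ∫ s in (-π)..π, (deriv h s) ^ 2 * kap m (s - t) ≤
      (2 * (Λ + 2) ^ 2 + 4 * C0) * (m : ℝ) ^ 2 * ∫ s in (-π)..π, h s ^ 2 * kap m (s - t) := by
    have hd2 : ((d : ℝ) + 2 * m) ^ 2 ≤ (Λ + 2) ^ 2 * (m : ℝ) ^ 2 := by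
      rw [← mul_pow]
      have : (0 : ℝ) ≤ d := Nat.cast_nonneg _
      exact pow_le_pow_left₀ (by positivity) (by linarith) 2
    rw [h1]
    have h4 : 2 * ((d : ℝ) + 2 * m) ^ 2 * (∫ s in (-π)..π, h s ^ 2 * kap m (s - t)) ≤
        2 * ((Λ + 2) ^ 2 * (m : ℝ) ^ 2) * (∫ s in (-π)..π, h s ^ 2 * kap m (s - t)) := by
      gcongr
    rw [h2] at h4 ha hb ⊢
    nlinarith
  have hfin : vv m (deriv h) t ^ 2 ≤
      (Real.sqrt (2 * (Λ + 2) ^ 2 + 4 * C0) * m * vv m h t) ^ 2 := by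
    rw [mul_pow, mul_pow, Real.sq_sqrt (by positivity), vv_sq, vv_sq]
    have := mul_le_mul_of_nonneg_left h3 hm0.le
    linarith
  exact abs_le_of_sq_le_sq' hfin (mul_nonneg (by positivity) (vv_nonneg _ _ _)) |>.2

/-- (V2) slow variation -/
theorem vv_shift : ∃ C : ℝ, 0 < C ∧ ∀ (m : ℕ) (h : ℝ → ℝ), 1 ≤ m → Continuous h →
    ∀ t t', vv m h t ≤ C * om m (t - t') ^ 4 * vv m h t' := by
  obtain ⟨C0, hC0, hu⟩ := kap_le
  obtain ⟨c0, hc0, hl⟩ := le_kap
  refine ⟨Real.sqrt (C0 / c0), by positivity, ?_⟩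
  intro m h hm hh t t'
  have hkapc := vm_kap_continuous hm
  have ho := vm_om_pos m (t - t')
  have hfin : vv m h t ^ 2 ≤ (Real.sqrt (C0 / c0) * om m (t - t') ^ 4 * vv m h t') ^ 2 := by
    rw [mul_pow, mul_pow, Real.sq_sqrt (by positivity), vv_sq, vv_sq]
    have h1 : ∫ s in (-π)..π, h s ^ 2 * kap m (s - t) ≤
        ∫ s in (-π)..π, C0 / c0 * (om m (t - t') ^ 4) ^ 2 * (h s ^ 2 * kap m (s - t')) := by
      refine vm_int_mono (by fun_prop) (by fun_prop) fun s => ?_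
      have h2 : kap m (s - t) ≤ C0 / c0 * (om m (t - t') ^ 4) ^ 2 * kap m (s - t') := by
        have o1 := vm_om_pos m (s - t)
        have o2 := vm_om_pos m (s - t')
        have h3 : om m (s - t') ≤ om m (s - t) * om m (t - t') := by
          have := om_add_le m (s - t) (t - t')
          rwa [sub_add_sub_cancel] at this
        have h4 : om m (s - t') ^ 8 ≤ om m (s - t) ^ 8 * om m (t - t') ^ 8 := by
          rw [← mul_pow]; exact pow_le_pow_left₀ o2.le h3 8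
        calc kap m (s - t) ≤ C0 / om m (s - t) ^ 8 := hu m hm _
          _ ≤ C0 * (om m (t - t') ^ 8 / om m (s - t') ^ 8) := by
            rw [← mul_div_assoc, div_le_div_iff₀ (by positivity) (by positivity)]
            nlinarith [mul_le_mul_of_nonneg_left h4 hC0.le]
          _ = C0 / c0 * (om m (t - t') ^ 4) ^ 2 * (c0 / om m (s - t') ^ 8) := by
            field_simp
          _ ≤ _ := by
            refine mul_le_mul_of_nonneg_left (hl m hm _) (by positivity)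
      calc h s ^ 2 * kap m (s - t) ≤ h s ^ 2 * _ := mul_le_mul_of_nonneg_left h2 (sq_nonneg _)
        _ = _ := by ring
    rw [intervalIntegral.integral_const_mul] at h1
    calc (m : ℝ) * ∫ s in (-π)..π, h s ^ 2 * kap m (s - t) ≤ m * _ :=
          mul_le_mul_of_nonneg_left h1 (Nat.cast_nonneg _)
      _ = _ := by ring
  exact abs_le_of_sq_le_sq' hfin (mul_nonneg (by positivity) (vv_nonneg _ _ _)) |>.2

/-- (V3) averaging: from (V2) and `le_int_om` -/
theorem vv_le_avg : ∃ C : ℝ, 0 < C ∧ ∀ (m : ℕ) (h : ℝ → ℝ), 1 ≤ m → Continuous h →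
    ∀ t, vv m h t ≤ C * m * ∫ s in (-π)..π, vv m h s * (om m (t - s) ^ 4)⁻¹ := by
  obtain ⟨C, hC, hs⟩ := vv_shift
  refine ⟨20 * C, by positivity, ?_⟩
  intro m h hm hh t
  have hm' : (1 : ℝ) ≤ m := by exact_mod_cast hm
  have hm0 : (0 : ℝ) < m := by linarith
  have hvc := vv_continuous hm hh
  have ho4 := vm_om_inv_continuous m 4
  have ho8 := vm_om_inv_continuous m 8
  have h1 : vv m h t * ∫ s in (-π)..π, (om m (s - t) ^ 8)⁻¹ ≤
      C * ∫ s in (-π)..π, vv m h s * (om m (t - s) ^ 4)⁻¹ := by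
    rw [← intervalIntegral.integral_const_mul, ← intervalIntegral.integral_const_mul]
    have c8 : Continuous fun s => (om m (s - t) ^ 8)⁻¹ := ho8.comp (continuous_id.sub continuous_const)
    have c4 : Continuous fun s => (om m (t - s) ^ 4)⁻¹ := ho4.comp (continuous_const.sub continuous_id)
    refine vm_int_mono (continuous_const.mul c8) (continuous_const.mul (hvc.mul c4)) fun s => ?_
    have hom : om m (s - t) = om m (t - s) := by rw [← om_neg, neg_sub]
    have o1 := vm_om_pos m (t - s)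
    rw [hom]
    have h2 := hs m h hm hh t s
    have h3 : om m (t - s) ^ 4 * (om m (t - s) ^ 8)⁻¹ = (om m (t - s) ^ 4)⁻¹ := by
      field_simp
    calc vv m h t * (om m (t - s) ^ 8)⁻¹ ≤
        (C * om m (t - s) ^ 4 * vv m h s) * (om m (t - s) ^ 8)⁻¹ :=
          mul_le_mul_of_nonneg_right h2 (by positivity)
      _ = C * (vv m h s * (om m (t - s) ^ 4 * (om m (t - s) ^ 8)⁻¹)) := by ring
      _ = _ := by rw [h3]
  have h4 := le_int_om hm t
  have h5 : vv m h t * (1 / (20 * m)) ≤ C * ∫ s in (-π)..π, vv m h s * (om m (t - s) ^ 4)⁻¹ :=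
    (mul_le_mul_of_nonneg_left h4 (vv_nonneg _ _ _)).trans h1
  calc vv m h t = (20 * m) * (vv m h t * (1 / (20 * m))) := by field_simp
    _ ≤ (20 * m) * (C * ∫ s in (-π)..π, vv m h s * (om m (t - s) ^ 4)⁻¹) :=
      mul_le_mul_of_nonneg_left h5 (by positivity)
    _ = _ := by ring

/-- (V5) the local `L²` size is bounded by a local `L¹` size:
`v(t)^2 = m ∫ h^2 κ ≤ m ∫ |h| C v(s) κ(s-t) ≤ C v(t) m ∫ |h| ω^(4-8)`. -/
theorem vv_le_int_abs (Λ : ℝ) (hΛ : 1 ≤ Λ) : ∃ C : ℝ, 0 < C ∧ ∀ (m d : ℕ) (h : ℝ → ℝ), 1 ≤ m →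
    (d : ℝ) ≤ Λ * m → TP d h →
    ∀ t, vv m h t ≤ C * m * ∫ s in (-π)..π, |h s| * (om m (t - s) ^ 4)⁻¹ := by
  obtain ⟨C1, hC1, ha⟩ := abs_le_vv Λ hΛ
  obtain ⟨C2, hC2, hs⟩ := vv_shift
  obtain ⟨C0, hC0, hu⟩ := kap_le
  refine ⟨C1 * C2 * C0, by positivity, ?_⟩
  intro m d h hm hd hh t
  have hm' : (1 : ℝ) ≤ m := by exact_mod_cast hm
  have hm0 : (0 : ℝ) < m := by linarith
  have hhc := vm_TP_continuous hh
  have hkapc := vm_kap_continuous hm
  have ho4 := vm_om_inv_continuous m 4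
  have c4 : Continuous fun s => (om m (t - s) ^ 4)⁻¹ := ho4.comp (continuous_const.sub continuous_id)
  have hI0 : 0 ≤ ∫ s in (-π)..π, |h s| * (om m (t - s) ^ 4)⁻¹ :=
    vm_int_nonneg fun s => mul_nonneg (abs_nonneg _) (by have := vm_om_pos m (t - s); positivity)
  rcases (vv_nonneg m h t).eq_or_lt with h0 | h0
  · rw [← h0]; positivity
  have h1 : ∫ s in (-π)..π, h s ^ 2 * kap m (s - t) ≤
      ∫ s in (-π)..π, (C1 * C2 * C0 * vv m h t) * (|h s| * (om m (t - s) ^ 4)⁻¹) := by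
    refine vm_int_mono (by fun_prop) (continuous_const.mul (hhc.abs.mul c4)) fun s => ?_
    have hom : om m (s - t) = om m (t - s) := by rw [← om_neg, neg_sub]
    have o1 := vm_om_pos m (t - s)
    have h2 : |h s| ≤ C1 * (C2 * om m (t - s) ^ 4 * vv m h t) := by
      have := hs m h hm hhc s t
      rw [hom] at this
      exact (ha m d h hm hd hh s).trans (mul_le_mul_of_nonneg_left this hC1.le)
    have h3 : kap m (s - t) ≤ C0 / om m (t - s) ^ 8 := by
      rw [← hom]; exact hu m hm _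
    have h4 : h s ^ 2 = |h s| * |h s| := by rw [← sq, sq_abs]
    rw [h4]
    calc |h s| * |h s| * kap m (s - t) ≤
        |h s| * (C1 * (C2 * om m (t - s) ^ 4 * vv m h t)) * (C0 / om m (t - s) ^ 8) := by
          refine mul_le_mul (mul_le_mul_of_nonneg_left h2 (abs_nonneg _)) h3 (vm_kap_nonneg _ _) ?_
          positivity
      _ = _ := by field_simp
  rw [intervalIntegral.integral_const_mul] at h1
  have h5 := vv_sq (m := m) h t
  have h6 : vv m h t * vv m h t ≤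
      vv m h t * (C1 * C2 * C0 * m * ∫ s in (-π)..π, |h s| * (om m (t - s) ^ 4)⁻¹) := by
    calc vv m h t * vv m h t = vv m h t ^ 2 := by ring
      _ = m * ∫ s in (-π)..π, h s ^ 2 * kap m (s - t) := h5
      _ ≤ m * _ := mul_le_mul_of_nonneg_left h1 hm0.le
      _ = _ := by ring
  exact le_of_mul_le_mul_left h6 h0

/-- integrating (V5): `VV m h ≤ C ∫ |h| W` (Fubini and `int_om_W`) -/
theorem VV_le_int_abs (Λ : ℝ) (hΛ : 1 ≤ Λ) : ∃ C : ℝ, 0 < C ∧ ∀ (m d : ℕ) (h : ℝ → ℝ), 1 ≤ m →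
    (d : ℝ) ≤ Λ * m → TP d h →
    VV m h ≤ C * ∫ s in (-π)..π, |h s| * W m s := by
  obtain ⟨C, hC, hv⟩ := vv_le_int_abs Λ hΛ
  refine ⟨C * (4 * π), by positivity, ?_⟩
  intro m d h hm hd hh
  have hm' : (1 : ℝ) ≤ m := by exact_mod_cast hm
  have hm0 : (0 : ℝ) < m := by linarith
  have hhc := vm_TP_continuous hh
  have hvc := vv_continuous hm hhc
  have hWc := W_continuous m
  have ho4 := vm_om_inv_continuous m 4
  have c4 : Continuous (Function.uncurry fun t s : ℝ => (om m (t - s) ^ 4)⁻¹) :=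
    ho4.comp (continuous_fst.sub continuous_snd)
  have hF : Continuous (Function.uncurry fun t s : ℝ => |h s| * (om m (t - s) ^ 4)⁻¹ * W m t) :=
    ((hhc.abs.comp continuous_snd).mul c4).mul (hWc.comp continuous_fst)
  have hF' : Continuous (Function.uncurry fun t s : ℝ => |h s| * (om m (t - s) ^ 4)⁻¹) :=
    ((hhc.abs.comp continuous_snd).mul c4)
  have hI : Continuous fun t => ∫ s in (-π)..π, |h s| * (om m (t - s) ^ 4)⁻¹ :=
    intervalIntegral.continuous_parametric_intervalIntegral_of_continuous' hF' _ _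
  have h1 : VV m h ≤ C * m * ∫ t in (-π)..π, ∫ s in (-π)..π,
      |h s| * (om m (t - s) ^ 4)⁻¹ * W m t := by
    unfold VV
    rw [← intervalIntegral.integral_const_mul]
    have hI2 : Continuous fun t => ∫ s in (-π)..π, |h s| * (om m (t - s) ^ 4)⁻¹ * W m t :=
      intervalIntegral.continuous_parametric_intervalIntegral_of_continuous' hF _ _
    refine vm_int_mono (hvc.mul hWc) (continuous_const.mul hI2) fun t => ?_
    rw [intervalIntegral.integral_mul_const, ← mul_assoc]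
    exact mul_le_mul_of_nonneg_right (hv m d h hm hd hh t) (W_pos hm t).le
  have h2 : ∫ t in (-π)..π, ∫ s in (-π)..π, |h s| * (om m (t - s) ^ 4)⁻¹ * W m t =
      ∫ s in (-π)..π, ∫ t in (-π)..π, |h s| * (om m (t - s) ^ 4)⁻¹ * W m t := by
    apply MeasureTheory.intervalIntegral_intervalIntegral_swap
    refine (hF.continuousOn.integrableOn_compact
      ((isCompact_uIcc (a := -π) (b := π)).prod (isCompact_uIcc (a := -π) (b := π)))).mono_set ?_
    exact Set.prod_mono Set.uIoc_subset_uIcc Set.uIoc_subset_uIcc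
  have h3 : ∫ s in (-π)..π, ∫ t in (-π)..π, |h s| * (om m (t - s) ^ 4)⁻¹ * W m t ≤
      ∫ s in (-π)..π, 4 * π / m * (|h s| * W m s) := by
    have hFs : Continuous (Function.uncurry fun s t : ℝ => |h s| * (om m (t - s) ^ 4)⁻¹ * W m t) :=
      hF.comp continuous_swap
    have hI3 : Continuous fun s => ∫ t in (-π)..π, |h s| * (om m (t - s) ^ 4)⁻¹ * W m t :=
      intervalIntegral.continuous_parametric_intervalIntegral_of_continuous' hFs _ _
    refine vm_int_mono hI3 (continuous_const.mul (hhc.abs.mul hWc)) fun s => ?_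
    have e1 : ∀ t, |h s| * (om m (t - s) ^ 4)⁻¹ * W m t =
        |h s| * ((om m (t - s) ^ 4)⁻¹ * W m t) := fun t => by ring
    simp_rw [e1]
    rw [intervalIntegral.integral_const_mul]
    calc |h s| * ∫ t in (-π)..π, (om m (t - s) ^ 4)⁻¹ * W m t ≤ |h s| * (4 * π / m * W m s) :=
          mul_le_mul_of_nonneg_left (int_om_W hm s) (abs_nonneg _)
      _ = _ := by ring
  rw [intervalIntegral.integral_const_mul] at h3
  calc VV m h ≤ _ := h1
    _ ≤ C * m * (4 * π / m * ∫ s in (-π)..π, |h s| * W m s) := by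
      rw [h2]
      exact mul_le_mul_of_nonneg_left h3 (by positivity)
    _ = _ := by field_simp

theorem vm_VV_mono {m : ℕ} (hm : 1 ≤ m) {f : ℝ → ℝ} {h : ℝ → ℝ} (hf : Continuous f)
    (hh : Continuous h) (C : ℝ) (hle : ∀ t, f t ≤ C * vv m h t) :
    ∫ t in (-π)..π, f t * W m t ≤ C * VV m h := by
  have hvc := vv_continuous hm hh
  have hWc := W_continuous m
  unfold VV
  rw [← intervalIntegral.integral_const_mul]
  refine vm_int_mono (hf.mul hWc) (continuous_const.mul (hvc.mul hWc)) fun t => ?_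
  rw [← mul_assoc]
  exact mul_le_mul_of_nonneg_right (hle t) (W_pos hm t).le

/-- weighted `L¹` Bernstein inequality: from (V0), (V1) and the previous one -/
theorem int_abs_deriv_W_le (Λ : ℝ) (hΛ : 1 ≤ Λ) : ∃ C : ℝ, 0 < C ∧ ∀ (m d : ℕ) (h : ℝ → ℝ),
    1 ≤ m → (d : ℝ) ≤ Λ * m → TP d h →
    ∫ s in (-π)..π, |deriv h s| * W m s ≤ C * m * ∫ s in (-π)..π, |h s| * W m s := by
  obtain ⟨C1, hC1, ha⟩ := abs_le_vv Λ hΛ
  obtain ⟨C2, hC2, hb⟩ := vv_deriv_le Λ hΛ
  obtain ⟨C3, hC3, hc⟩ := VV_le_int_abs Λ hΛ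
  refine ⟨C1 * C2 * C3, by positivity, ?_⟩
  intro m d h hm hd hh
  have hm0 : (0 : ℝ) < m := by exact_mod_cast hm
  have hhc := vm_TP_continuous hh
  have hhd := vm_TP_continuous hh.deriv
  have h1 := vm_VV_mono hm hhd.abs hhc (C1 * C2 * m) fun t => by
    calc |deriv h t| ≤ C1 * vv m (deriv h) t := ha m d _ hm hd hh.deriv t
      _ ≤ C1 * (C2 * m * vv m h t) := mul_le_mul_of_nonneg_left (hb m d h hm hd hh t) hC1.le
      _ = _ := by ring
  calc ∫ s in (-π)..π, |deriv h s| * W m s ≤ _ := h1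
    _ ≤ C1 * C2 * m * (C3 * ∫ s in (-π)..π, |h s| * W m s) :=
      mul_le_mul_of_nonneg_left (hc m d h hm hd hh) (by positivity)
    _ = _ := by ring

/-- from (V0) -/
theorem int_abs_W_le_VV (Λ : ℝ) (hΛ : 1 ≤ Λ) : ∃ C : ℝ, 0 < C ∧ ∀ (m d : ℕ) (h : ℝ → ℝ),
    1 ≤ m → (d : ℝ) ≤ Λ * m → TP d h →
    ∫ s in (-π)..π, |h s| * W m s ≤ C * VV m h := by
  obtain ⟨C1, hC1, ha⟩ := abs_le_vv Λ hΛ
  refine ⟨C1, hC1, ?_⟩
  intro m d h hm hd hh
  have hhc := vm_TP_continuous hh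
  exact vm_VV_mono hm hhc.abs hhc C1 fun t => ha m d h hm hd hh t

/-- from (V3), using `W ≥ 1/m`, `om ≥ 1` -/
theorem vv_le_VV : ∃ C : ℝ, 0 < C ∧ ∀ (m : ℕ) (h : ℝ → ℝ), 1 ≤ m → Continuous h →
    ∀ t, vv m h t ≤ C * (m : ℝ) ^ 2 * VV m h := by
  obtain ⟨C, hC, hv⟩ := vv_le_avg
  refine ⟨C, hC, ?_⟩
  intro m h hm hh t
  have hm0 : (0 : ℝ) < m := by exact_mod_cast hm
  have hvc := vv_continuous hm hh
  have hWc := W_continuous m
  have ho4 := vm_om_inv_continuous m 4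
  have c4 : Continuous fun s => (om m (t - s) ^ 4)⁻¹ := ho4.comp (continuous_const.sub continuous_id)
  have h1 : ∫ s in (-π)..π, vv m h s * (om m (t - s) ^ 4)⁻¹ ≤
      ∫ s in (-π)..π, m * (vv m h s * W m s) := by
    refine vm_int_mono (hvc.mul c4) (continuous_const.mul (hvc.mul hWc)) fun s => ?_
    have hv0 := vv_nonneg m h s
    have h2 : (om m (t - s) ^ 4)⁻¹ ≤ 1 := inv_le_one_of_one_le₀ (one_le_pow₀ (one_le_om m _))
    have h3 : 1 ≤ m * W m s := by
      unfold W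
      have : 0 ≤ m * |sin s| := by positivity
      have e : (m : ℝ) * (1 / m) = 1 := by field_simp
      nlinarith
    calc vv m h s * (om m (t - s) ^ 4)⁻¹ ≤ vv m h s * 1 := mul_le_mul_of_nonneg_left h2 hv0
      _ ≤ vv m h s * (m * W m s) := mul_le_mul_of_nonneg_left h3 hv0
      _ = _ := by ring
  rw [intervalIntegral.integral_const_mul] at h1
  calc vv m h t ≤ _ := hv m h hm hh t
    _ ≤ C * m * (m * ∫ s in (-π)..π, vv m h s * W m s) :=
      mul_le_mul_of_nonneg_left h1 (by positivity)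
    _ = _ := by unfold VV; ring

/-- sup norm Bernstein inequality (up to a constant): from (V0), (V1) and `vv ≤ C sup|h|` -/
theorem sup_deriv_le (Λ : ℝ) (hΛ : 1 ≤ Λ) : ∃ C : ℝ, 0 < C ∧ ∀ (m d : ℕ) (h : ℝ → ℝ) (S : ℝ),
    1 ≤ m → (d : ℝ) ≤ Λ * m → TP d h → (∀ θ, |h θ| ≤ S) → ∀ θ, |deriv h θ| ≤ C * m * S := by
  obtain ⟨C1, hC1, ha⟩ := abs_le_vv Λ hΛ
  obtain ⟨C2, hC2, hb⟩ := vv_deriv_le Λ hΛ
  obtain ⟨C0, hC0, hu⟩ := kap_le
  refine ⟨C1 * C2 * Real.sqrt (C0 * (2 * π)), by positivity, ?_⟩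
  intro m d h S hm hd hh hS t
  have hm0 : (0 : ℝ) < m := by exact_mod_cast hm
  have hhc := vm_TP_continuous hh
  have hkapc := vm_kap_continuous hm
  have hS0 : 0 ≤ S := (abs_nonneg _).trans (hS t)
  have ho2 := vm_om_inv_continuous m 2
  have c2 : Continuous fun s => (om m (s - t) ^ 2)⁻¹ := ho2.comp (continuous_id.sub continuous_const)
  have h1 : ∫ s in (-π)..π, h s ^ 2 * kap m (s - t) ≤
      ∫ s in (-π)..π, (S ^ 2 * C0) * (om m (s - t) ^ 2)⁻¹ := by
    refine vm_int_mono (by fun_prop) (continuous_const.mul c2) fun s => ?_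
    have h2 : h s ^ 2 ≤ S ^ 2 := sq_le_sq' (by linarith [(abs_le.mp (hS s)).1]) (abs_le.mp (hS s)).2
    have o1 := one_le_om m (s - t)
    have h3 : kap m (s - t) ≤ C0 * (om m (s - t) ^ 2)⁻¹ := by
      refine (hu m hm _).trans ?_
      rw [div_eq_mul_inv]
      refine mul_le_mul_of_nonneg_left ?_ hC0.le
      exact inv_anti₀ (by positivity) (pow_le_pow_right₀ o1 (by norm_num))
    calc h s ^ 2 * kap m (s - t) ≤ S ^ 2 * (C0 * (om m (s - t) ^ 2)⁻¹) :=
          mul_le_mul h2 h3 (vm_kap_nonneg _ _) (sq_nonneg _)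
      _ = _ := by ring
  rw [intervalIntegral.integral_const_mul] at h1
  have h4 : vv m h t ^ 2 ≤ (Real.sqrt (C0 * (2 * π)) * S) ^ 2 := by
    rw [mul_pow, Real.sq_sqrt (by positivity), vv_sq]
    calc (m : ℝ) * ∫ s in (-π)..π, h s ^ 2 * kap m (s - t) ≤
        m * (S ^ 2 * C0 * (2 * π / m)) := by
          refine mul_le_mul_of_nonneg_left (h1.trans ?_) hm0.le
          exact mul_le_mul_of_nonneg_left (int_om_sq hm t) (by positivity)
      _ = _ := by field_simp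
  have h5 : vv m h t ≤ Real.sqrt (C0 * (2 * π)) * S :=
    abs_le_of_sq_le_sq' h4 (by positivity) |>.2
  calc |deriv h t| ≤ C1 * vv m (deriv h) t := ha m d _ hm hd hh.deriv t
    _ ≤ C1 * (C2 * m * vv m h t) := mul_le_mul_of_nonneg_left (hb m d h hm hd hh t) hC1.le
    _ ≤ C1 * (C2 * m * (Real.sqrt (C0 * (2 * π)) * S)) := by gcongr
    _ = _ := by ring

/-- if the local size vanishes somewhere then `h = 0` -/
theorem vv_pos {m d : ℕ} (hm : 1 ≤ m) {h : ℝ → ℝ} (hh : TP d h) (h0 : ∃ s, h s ≠ 0) (t : ℝ) :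
    0 < vv m h t := by
  obtain ⟨s, hs⟩ := h0
  obtain ⟨C2, hC2, hsh⟩ := vv_shift
  have hm1 : (1 : ℝ) ≤ m := by exact_mod_cast hm
  obtain ⟨C1, hC1, ha⟩ := abs_le_vv (d + 1) (by linarith [(Nat.cast_nonneg d : (0 : ℝ) ≤ d)])
  have h1 : |h s| ≤ C1 * vv m h s := ha m d h hm (by
    have : (0 : ℝ) ≤ d := Nat.cast_nonneg d
    nlinarith) hh s
  have h2 := hsh m h hm (vm_TP_continuous hh) s t
  rcases (vv_nonneg m h t).eq_or_lt with h3 | h3
  · exfalso
    rw [← h3, mul_zero] at h2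
    have h4 : |h s| ≤ 0 := h1.trans (mul_nonpos_of_nonneg_of_nonpos hC1.le h2)
    exact hs (abs_eq_zero.mp (le_antisymm h4 (abs_nonneg _)))
  · exact h3

end Pool.Agent.H93.Ch
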