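import Pool.Agent.H93.Ch.VM

/-! Module P1: one-node gain (calculus) and sums over separated points. -/

set_option autoImplicit false

namespace Pool.Agent.H93.Ch

open Real MeasureTheory

lemma taylor3_pos (f0 f1 f2 f3 : ℝ → ℝ) (h K : ℝ) (hh : 0 ≤ h)
    (hd0 : ∀ t, HasDerivAt f0 (f1 t) t) (hd1 : ∀ t, HasDerivAt f1 (f2 t) t)
    (hd2 : ∀ t, HasDerivAt f2 (f3 t) t) (hK : ∀ t ∈ Set.Icc 0 h, |f3 t| ≤ K) :
    |f0 h - f0 0 - f1 0 * h - f2 0 * h ^ 2 / 2| ≤ K * h ^ 3 / 6 := by
  have c0 : Continuous f0 := continuous_iff_continuousAt.2 fun t => (hd0 t).continuousAt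
  have c1 : Continuous f1 := continuous_iff_continuousAt.2 fun t => (hd1 t).continuousAt
  have c2 : Continuous f2 := continuous_iff_continuousAt.2 fun t => (hd2 t).continuousAt
  -- step 1
  have s1 : ∀ t ∈ Set.Icc 0 h, ‖f2 t - f2 0‖ ≤ K * t := by
    have hdB : ∀ x, HasDerivAt (fun t : ℝ => K * t) K x := by
      intro x
      simpa using (hasDerivAt_id x).const_mul K
    have := image_norm_le_of_norm_deriv_right_le_deriv_boundary (a := 0) (b := h)
      (f := fun t => f2 t - f2 0) (f' := f3) (B := fun t => K * t) (B' := fun _ => K)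
      ((c2.sub continuous_const).continuousOn)
      (fun x _ => ((hd2 x).sub_const _).hasDerivWithinAt) (by simp) hdB
      (fun x hx => hK x ⟨hx.1, hx.2.le⟩)
    intro t ht
    exact this ht
  have s2 : ∀ t ∈ Set.Icc 0 h, ‖f1 t - f1 0 - f2 0 * t‖ ≤ K * t ^ 2 / 2 := by
    have hdB : ∀ x : ℝ, HasDerivAt (fun t : ℝ => K * t ^ 2 / 2) (K * x) x := by
      intro x
      exact (((hasDerivAt_pow 2 x).const_mul K).div_const 2).congr_deriv (by push_cast; ring)
    have := image_norm_le_of_norm_deriv_right_le_deriv_boundary (a := 0) (b := h)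
      (f := fun t => f1 t - f1 0 - f2 0 * t) (f' := fun t => f2 t - f2 0)
      (B := fun t => K * t ^ 2 / 2) (B' := fun t => K * t)
      (((c1.sub continuous_const).sub (continuous_const.mul continuous_id)).continuousOn)
      (fun x _ => by
        have h1 := ((hd1 x).sub_const (f1 0)).sub ((hasDerivAt_id x).const_mul (f2 0))
        rw [mul_one] at h1
        exact h1.hasDerivWithinAt) (by simp) hdB
      (fun x hx => s1 x ⟨hx.1, hx.2.le⟩)
    intro t ht
    exact this ht
  have s3 : ∀ t ∈ Set.Icc 0 h, ‖f0 t - f0 0 - f1 0 * t - f2 0 * t ^ 2 / 2‖ ≤ K * t ^ 3 / 6 := by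
    have hdB : ∀ x : ℝ, HasDerivAt (fun t : ℝ => K * t ^ 3 / 6) (K * x ^ 2 / 2) x := by
      intro x
      exact (((hasDerivAt_pow 3 x).const_mul K).div_const 6).congr_deriv (by push_cast; ring)
    have := image_norm_le_of_norm_deriv_right_le_deriv_boundary (a := 0) (b := h)
      (f := fun t => f0 t - f0 0 - f1 0 * t - f2 0 * t ^ 2 / 2)
      (f' := fun t => f1 t - f1 0 - f2 0 * t)
      (B := fun t => K * t ^ 3 / 6) (B' := fun t => K * t ^ 2 / 2)
      (by
        apply Continuous.continuousOn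
        exact ((c0.sub continuous_const).sub (continuous_const.mul continuous_id)).sub
          ((continuous_const.mul (continuous_id.pow 2)).div_const 2))
      (fun x _ => by
        have h1 := (((hd0 x).sub_const (f0 0)).sub ((hasDerivAt_id x).const_mul (f1 0))).sub
          (((hasDerivAt_pow 2 x).const_mul (f2 0)).div_const 2)
        rw [mul_one, show f2 0 * (((2:ℕ):ℝ) * x ^ (2 - 1)) / 2 = f2 0 * x by push_cast; ring] at h1
        exact h1.hasDerivWithinAt) (by simp) hdB
      (fun x hx => s2 x ⟨hx.1, hx.2.le⟩)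
    intro t ht
    exact this ht
  exact s3 h ⟨hh, le_rfl⟩

lemma taylor3 (f : ℝ → ℝ) (hf : ContDiff ℝ 3 f) (x u r K : ℝ) (hu : |u| ≤ r)
    (h3 : ∀ y, |y - x| ≤ r → |deriv (deriv (deriv f)) y| ≤ K) :
    |f (x + u) - f x - deriv f x * u - deriv (deriv f) x * u ^ 2 / 2| ≤ K * |u| ^ 3 / 6 := by
  have e0 : ∀ t, HasDerivAt f (deriv f t) t := fun t =>
    ((hf.differentiable (by norm_num)) t).hasDerivAt
  have hf1 : ContDiff ℝ 2 (deriv f) := by
    have : ContDiff ℝ (2 + 1) f := by
      have h3' : ((2:WithTop ℕ∞) + 1) = 3 := by norm_num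
      rw [h3']; exact hf
    exact ((contDiff_succ_iff_deriv).1 this).2.2
  have e1 : ∀ t, HasDerivAt (deriv f) (deriv (deriv f) t) t := fun t =>
    ((hf1.differentiable (by norm_num)) t).hasDerivAt
  have hf2 : ContDiff ℝ 1 (deriv (deriv f)) := by
    have : ContDiff ℝ (1 + 1) (deriv f) := by
      have h3' : ((1:WithTop ℕ∞) + 1) = 2 := by norm_num
      rw [h3']; exact hf1
    exact ((contDiff_succ_iff_deriv).1 this).2.2
  have e2 : ∀ t, HasDerivAt (deriv (deriv f)) (deriv (deriv (deriv f)) t) t := fun t =>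
    ((hf2.differentiable (by norm_num)) t).hasDerivAt
  rcases le_total 0 u with h | h
  · have := taylor3_pos (fun t => f (x + t)) (fun t => deriv f (x + t))
      (fun t => deriv (deriv f) (x + t)) (fun t => deriv (deriv (deriv f)) (x + t)) u K h
      (fun t => (e0 (x + t)).comp_const_add x t) (fun t => (e1 (x + t)).comp_const_add x t)
      (fun t => (e2 (x + t)).comp_const_add x t) (fun t ht => by
        apply h3
        rw [add_sub_cancel_left, abs_of_nonneg ht.1]
        rw [abs_of_nonneg h] at hu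
        exact ht.2.trans hu)
    simp only [add_zero] at this
    rwa [abs_of_nonneg h]
  · have := taylor3_pos (fun t => f (x - t)) (fun t => -deriv f (x - t))
      (fun t => deriv (deriv f) (x - t)) (fun t => -deriv (deriv (deriv f)) (x - t)) (-u) K
      (by linarith)
      (fun t => (e0 (x - t)).comp_const_sub x t)
      (fun t => by
        have := ((e1 (x - t)).comp_const_sub x t).neg
        rwa [neg_neg] at this)
      (fun t => (e2 (x - t)).comp_const_sub x t) (fun t ht => by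
        rw [abs_neg]
        apply h3
        rw [show x - t - x = -t by ring, abs_neg, abs_of_nonneg ht.1]
        rw [abs_of_nonpos h] at hu
        exact ht.2.trans hu)
    simp only [sub_zero] at this
    rw [show x - -u = x + u by ring] at this
    rw [abs_of_nonpos h]
    convert this using 2
    ring

lemma key_scalar (p c σ d s : ℝ) (hp1 : |p| ≤ 1) (hc1 : |c| ≤ 1) (hσ : |σ| ≤ 1) (hpσ' : 0 ≤ p * σ)
    (hd : d = max c 0) (hs : s = (p + d * σ) / 4) :
    p ^ 2 / 8 + d ^ 3 * σ ^ 2 / 64 ≤ p * s + c * s ^ 2 / 2 - |s| ^ 3 / 6 := by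
  have hcm0 : 0 ≤ d := by rw [hd]; exact le_max_right _ _
  have hcm1 : d ≤ 1 := by rw [hd]; exact max_le (le_of_abs_le hc1) zero_le_one
  have hcσ : |d * σ| ≤ 1 := by
    rw [abs_mul, abs_of_nonneg hcm0]
    exact mul_le_one₀ hcm1 (abs_nonneg _) hσ
  have hsabs : |s| ≤ (|p| + |d * σ|) / 4 := by
    rw [hs, abs_div, abs_of_pos (by norm_num : (0:ℝ) < 4)]
    gcongr
    exact abs_add_le _ _
  have hs3 : |s| ^ 3 ≤ (|p| ^ 3 + |d * σ| ^ 3) / 16 := by
    have ha := abs_nonneg p
    have hb := abs_nonneg (d * σ)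
    calc |s| ^ 3 ≤ ((|p| + |d * σ|) / 4) ^ 3 := pow_le_pow_left₀ (abs_nonneg _) hsabs 3
      _ ≤ (|p| ^ 3 + |d * σ| ^ 3) / 16 := by
        have : (|p| + |d * σ|) ^ 3 ≤ 4 * (|p| ^ 3 + |d * σ| ^ 3) := by
          nlinarith [mul_nonneg (add_nonneg ha hb) (sq_nonneg (|p| - |d * σ|))]
        rw [div_pow]
        linarith
  have hp3 : |p| ^ 3 ≤ p ^ 2 := by
    rw [← sq_abs p]
    exact pow_le_pow_of_le_one (abs_nonneg _) hp1 (by norm_num)
  have hq3 : |d * σ| ^ 3 ≤ d ^ 3 * σ ^ 2 := by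
    rw [abs_mul, abs_of_nonneg hcm0, mul_pow]
    apply mul_le_mul_of_nonneg_left _ (by positivity)
    rw [← sq_abs σ]
    exact pow_le_pow_of_le_one (abs_nonneg _) hσ (by norm_num)
  have hps : p * s = p ^ 2 / 4 + d * (p * σ) / 4 := by rw [hs]; ring
  have hps0 : 0 ≤ d * (p * σ) := mul_nonneg hcm0 hpσ'
  have h7 : 0 ≤ p ^ 2 := sq_nonneg p
  rcases le_total 0 c with h | h
  · have hmc : d = c := by rw [hd]; exact max_eq_left h
    subst hmc
    have hss : (p ^ 2 + d ^ 2 * σ ^ 2) / 16 ≤ s ^ 2 := by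
      have : s ^ 2 = (p ^ 2 + d ^ 2 * σ ^ 2) / 16 + 2 * (d * (p * σ)) / 16 := by rw [hs]; ring
      linarith
    have hcs : d * ((p ^ 2 + d ^ 2 * σ ^ 2) / 16) ≤ d * s ^ 2 := mul_le_mul_of_nonneg_left hss h
    have h5 : 0 ≤ d * p ^ 2 := mul_nonneg h (sq_nonneg _)
    have h6 : 0 ≤ d ^ 3 * σ ^ 2 := by positivity
    have h8 : d * ((p ^ 2 + d ^ 2 * σ ^ 2) / 16) = d * p ^ 2 / 16 + d ^ 3 * σ ^ 2 / 16 := by ring
    rw [hps]
    linarith
  · have hmc : d = 0 := by rw [hd]; exact max_eq_right h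
    subst hmc
    have hs' : s = p / 4 := by rw [hs]; ring
    have h9 : -1 ≤ c := (abs_le.1 hc1).1
    have h10 : -(p ^ 2) / 32 ≤ c * s ^ 2 / 2 := by
      rw [hs']
      nlinarith
    have h11 : p * s = p ^ 2 / 4 := by rw [hs']; ring
    rw [h11]
    have h13 : (0:ℝ) ^ 3 * σ ^ 2 = 0 := by norm_num
    rw [h13] at hq3
    rw [h13]
    linarith

/-- one-node gain: explicit selection of helper89.  `p = f'(x)/(mV)`, `c = f''(x)/(m²V)`,
`σ ∈ [-1,1]` with `p σ ≥ 0`, displacement `s/m`, `s = (p + c⁺ σ)/4`.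
Taylor: `f(x+s/m) - f(x) ≥ V (p s + c s²/2 - |s|³/6)`. -/
theorem gain_point (f : ℝ → ℝ) (hf : ContDiff ℝ 3 f) (x V m σ : ℝ) (hV : 0 < V) (hm : 0 < m)
    (h1 : |deriv f x| ≤ m * V) (h2 : |deriv (deriv f) x| ≤ m ^ 2 * V)
    (h3 : ∀ y, |y - x| ≤ 1 / m → |deriv (deriv (deriv f)) y| ≤ m ^ 3 * V)
    (hσ : |σ| ≤ 1) (hpσ : 0 ≤ deriv f x * σ) :
    V * ((deriv f x / (m * V)) ^ 2 / 8 + (max (deriv (deriv f) x / (m ^ 2 * V)) 0) ^ 3 * σ ^ 2 / 64)
      ≤ f (x + (deriv f x / (m * V) + max (deriv (deriv f) x / (m ^ 2 * V)) 0 * σ) / 4 / m) - f x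
      := by
  set p := deriv f x / (m * V) with hp
  set c := deriv (deriv f) x / (m ^ 2 * V) with hc
  set s := (p + max c 0 * σ) / 4 with hs
  have hp1 : |p| ≤ 1 := by
    rw [hp, abs_div, abs_of_pos (by positivity : 0 < m * V), div_le_one (by positivity)]
    exact h1
  have hc1 : |c| ≤ 1 := by
    rw [hc, abs_div, abs_of_pos (by positivity : 0 < m ^ 2 * V), div_le_one (by positivity)]
    exact h2
  have hpσ' : 0 ≤ p * σ := by
    rw [hp, div_mul_eq_mul_div]
    positivity
  have hfp : deriv f x = m * V * p := by rw [hp]; field_simp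
  have hfc : deriv (deriv f) x = m ^ 2 * V * c := by rw [hc]; field_simp
  have hcm0 : 0 ≤ max c 0 := le_max_right _ _
  have hcm1 : max c 0 ≤ 1 := max_le (le_of_abs_le hc1) zero_le_one
  have hcσ : |max c 0 * σ| ≤ 1 := by
    rw [abs_mul, abs_of_nonneg hcm0]
    exact mul_le_one₀ hcm1 (abs_nonneg _) hσ
  have hsabs : |s| ≤ (|p| + |max c 0 * σ|) / 4 := by
    rw [hs, abs_div, abs_of_pos (by norm_num : (0:ℝ) < 4)]
    gcongr
    exact abs_add_le _ _
  have hs1 : |s| ≤ 1 := by linarith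
  have hT := taylor3 f hf x (s / m) (1 / m) (m ^ 3 * V) (by
    rw [abs_div, abs_of_pos hm]; gcongr) h3
  have hT2 := (abs_le.1 hT).1
  have e1 : deriv f x * (s / m) = V * (p * s) := by rw [hfp]; field_simp
  have e2 : deriv (deriv f) x * (s / m) ^ 2 / 2 = V * (c * s ^ 2 / 2) := by rw [hfc]; field_simp
  have e3 : m ^ 3 * V * |s / m| ^ 3 / 6 = V * (|s| ^ 3 / 6) := by
    rw [abs_div, abs_of_pos hm]; field_simp
  rw [e1, e2, e3] at hT2
  have key : p ^ 2 / 8 + (max c 0) ^ 3 * σ ^ 2 / 64 ≤ p * s + c * s ^ 2 / 2 - |s| ^ 3 / 6 :=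
    key_scalar p c σ (max c 0) s hp1 hc1 hσ hpσ' rfl hs
  have := mul_le_mul_of_nonneg_left key hV.le
  linarith

/-- sum of `v` over a separated set of far points: if the points `x i`, `i ∈ s`, satisfy
`|sin (x i)| ≥ A/m`, lie in `[0,π]` and are pairwise at distance `≥ κ/m`, `0 < κ ≤ 1`, then
`Σ v(x i) ≤ C m²/(κ A) VV`. -/
theorem sum_sep_le : ∃ C : ℝ, 0 < C ∧ ∀ (N m : ℕ) (x : Fin N → ℝ) (s : Finset (Fin N))
    (κ A : ℝ) (h : ℝ → ℝ), 1 ≤ m → 0 < κ → κ ≤ 1 → 2 ≤ A → Continuous h →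
    Function.Periodic h (2 * π) → (∀ i, x i ∈ Set.Icc 0 π) → (∀ i ∈ s, A / m ≤ |sin (x i)|) →
    (∀ i ∈ s, ∀ j ∈ s, i ≠ j → κ / m ≤ |x i - x j|) →
    ∑ i ∈ s, vv m h (x i) ≤ C * m ^ 2 / (κ * A) * VV m h := by
  obtain ⟨C, hC, hshift⟩ := vv_shift
  refine ⟨C * (5 / 4) ^ 4 * 2, by positivity, ?_⟩
  intro N m x s κ A h hm hκ hκ1 hA hh hper hx hfar hsep
  have hm' : (0:ℝ) < m := by exact_mod_cast hm
  have hA0 : 0 < A := by linarith
  set I : Fin N → Set ℝ := fun i => Set.Ioo (x i - κ / (2 * m)) (x i + κ / (2 * m)) with hI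
  have hdisj : (s : Set (Fin N)).PairwiseDisjoint I := by
    intro i hi j hj hij
    rw [Function.onFun, Set.disjoint_left]
    intro t hti htj
    have := hsep i hi j hj hij
    have h1 : |x i - x j| < κ / m := by
      rw [abs_lt]
      have e : κ / (m:ℝ) = κ / (2 * m) + κ / (2 * m) := by field_simp; ring
      constructor
      · have := hti.2; have := htj.1
        rw [e]; linarith
      · have := hti.1; have := htj.2
        rw [e]; linarith
    linarith
  have hxm : ∀ i ∈ s, 2 / m ≤ x i ∧ x i ≤ π - 2 / m := by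
    intro i hi
    have h1 := hfar i hi
    have h0 : 2 / (m:ℝ) ≤ A / m := by gcongr
    have hxi := hx i
    have hs0 : 0 ≤ sin (x i) := sin_nonneg_of_mem_Icc hxi
    rw [abs_of_nonneg hs0] at h1
    constructor
    · exact h0.trans (h1.trans (sin_le hxi.1))
    · have : sin (π - x i) ≤ π - x i := sin_le (by linarith [hxi.2])
      rw [sin_pi_sub] at this
      linarith
  have hIsub : ∀ i ∈ s, I i ⊆ Set.Ioc (-π) π := by
    intro i hi t ht
    obtain ⟨h1, h2⟩ := hxm i hi
    have h3 : κ / (2 * m) ≤ 2 / m := by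
      rw [div_le_div_iff₀ (by positivity) hm']
      nlinarith
    have h4 : (0:ℝ) < 2 / m := by positivity
    constructor
    · have := ht.1; linarith [pi_pos]
    · have := ht.2; linarith
  have hcont : Continuous fun t => vv m h t * W m t :=
    (vv_continuous hm hh).mul (W_continuous m)
  have hnn : ∀ t, 0 ≤ vv m h t * W m t := fun t => mul_nonneg (vv_nonneg _ _ _) (W_pos hm t).le
  have hintO : IntegrableOn (fun t => vv m h t * W m t) (Set.Ioc (-π) π) :=
    (hcont.integrableOn_Icc).mono_set Set.Ioc_subset_Icc_self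
  -- each piece
  have hpiece : ∀ i ∈ s, vv m h (x i) * (κ * A / (2 * m ^ 2)) ≤
      (C * (5 / 4) ^ 4) * ∫ t in I i, vv m h t * W m t := by
    intro i hi
    have hlow : ∀ t ∈ I i, vv m h (x i) / (C * (5 / 4) ^ 4) * (A / (2 * m)) ≤ vv m h t * W m t := by
      intro t ht
      have habs : |x i - t| ≤ (1 / 2) / m := by
        rw [abs_le]
        have h3 : κ / (2 * m) ≤ (1 / 2) / m := by
          rw [div_le_div_iff₀ (by positivity) hm']
          nlinarith
        constructor
        · have := ht.2; linarith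
        · have := ht.1; linarith
      have hom := om_le_of_abs_le m habs hm
      have h1 := hshift m h hm hh (x i) t
      have hvt := vv_nonneg m h t
      have hom4 : om m (x i - t) ^ 4 ≤ (5 / 4) ^ 4 := by
        apply pow_le_pow_left₀ (zero_le_one.trans (one_le_om _ _))
        linarith
      have h2 : vv m h (x i) / (C * (5 / 4) ^ 4) ≤ vv m h t := by
        rw [div_le_iff₀ (by positivity)]
        calc vv m h (x i) ≤ C * om m (x i - t) ^ 4 * vv m h t := h1
          _ ≤ C * (5 / 4) ^ 4 * vv m h t := by gcongr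
          _ = vv m h t * (C * (5 / 4) ^ 4) := by ring
      have h4 : A / (2 * m) ≤ W m t := by
        have h5 : |sin (x i)| - |sin t| ≤ |x i - t| := by
          have h6 : |sin (x i) - sin t| ≤ |x i - t| := by
            have := abs_sin_sub_sin_le (x i) t
            exact this
          have := abs_sub_abs_le_abs_sub (sin (x i)) (sin t)
          linarith
        have h7 := hfar i hi
        have h8 : A / (2 * m) ≤ A / m - (1 / 2) / m := by
          rw [← sub_div, div_le_div_iff₀ (by positivity) hm']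
          nlinarith
        have h9 : (0:ℝ) ≤ 1 / m := by positivity
        simp only [W]
        linarith
      calc vv m h (x i) / (C * (5 / 4) ^ 4) * (A / (2 * m)) ≤ vv m h t * (A / (2 * m)) := by gcongr
        _ ≤ vv m h t * W m t := by gcongr
    have hmeas : volume.real (I i) = κ / m := by
      rw [hI]
      simp only
      rw [Real.volume_real_Ioo_of_le]
      · field_simp; ring
      · have : 0 < κ / (2 * m) := by positivity
        linarith
    have hI1 := setIntegral_mono_on (μ := volume) (s := I i)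
      (f := fun _ => vv m h (x i) / (C * (5 / 4) ^ 4) * (A / (2 * m)))
      (g := fun t => vv m h t * W m t)
      (integrableOn_const (by simp [hI]))
      (hintO.mono_set (hIsub i hi)) measurableSet_Ioo hlow
    rw [setIntegral_const, hmeas, smul_eq_mul] at hI1
    calc vv m h (x i) * (κ * A / (2 * m ^ 2))
        = (C * (5 / 4) ^ 4) * (κ / m * (vv m h (x i) / (C * (5 / 4) ^ 4) * (A / (2 * m)))) := by
          field_simp
      _ ≤ _ := by gcongr
  have hsum : ∑ i ∈ s, ∫ t in I i, vv m h t * W m t ≤ VV m h := by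
    rw [← integral_biUnion_finset s (fun i _ => measurableSet_Ioo) hdisj
      (fun i hi => hintO.mono_set (hIsub i hi))]
    rw [VV, intervalIntegral.integral_of_le (by linarith [pi_pos])]
    apply setIntegral_mono_set hintO
    · exact Filter.Eventually.of_forall hnn
    · apply LE.le.eventuallyLE
      intro t ht
      simp only [Set.mem_iUnion] at ht
      obtain ⟨i, hi, hti⟩ := ht
      exact hIsub i hi hti
  have h1 : (∑ i ∈ s, vv m h (x i)) * (κ * A / (2 * m ^ 2)) ≤ (C * (5 / 4) ^ 4) * VV m h := by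
    rw [Finset.sum_mul]
    calc ∑ i ∈ s, vv m h (x i) * (κ * A / (2 * m ^ 2))
        ≤ ∑ i ∈ s, (C * (5 / 4) ^ 4) * ∫ t in I i, vv m h t * W m t := Finset.sum_le_sum hpiece
      _ = (C * (5 / 4) ^ 4) * ∑ i ∈ s, ∫ t in I i, vv m h t * W m t := by rw [Finset.mul_sum]
      _ ≤ _ := by gcongr
  calc ∑ i ∈ s, vv m h (x i)
      = (∑ i ∈ s, vv m h (x i)) * (κ * A / (2 * m ^ 2)) * (2 * m ^ 2 / (κ * A)) := by
        field_simp
    _ ≤ (C * (5 / 4) ^ 4) * VV m h * (2 * m ^ 2 / (κ * A)) := by gcongr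
    _ = _ := by ring

end Pool.Agent.H93.Ch
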