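import Pool.Agent.H93.Ch.TPB

/-! Module G: growth lemma (Chebyshev).  Uses Mathlib's extremal property of the Chebyshev
polynomials outside `[-1,1]`. -/

set_option autoImplicit false

namespace Pool.Agent.H93.Ch

open Real MeasureTheory Polynomial

/-- one-sided growth bound at a point `x ≥ 1` for polynomials bounded by `1` on `[-1,1]` -/
theorem abs_eval_le_exp {n : ℕ} (Q : ℝ[X]) (hQ : Q.natDegree ≤ n)
    (hb : ∀ x ∈ Set.Icc (-1 : ℝ) 1, |Q.eval x| ≤ 1) {x : ℝ} (hx : 1 ≤ x) :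
    |Q.eval x| ≤ Real.exp (n * arcosh x) := by
  have hT : (Chebyshev.T ℝ n).eval x ≤ Real.exp (n * arcosh x) := by
    have h1 : (Chebyshev.T ℝ n).eval x = Real.cosh (n * arcosh x) := by
      have := Chebyshev.T_real_cosh (arcosh x) (n : ℤ)
      rw [cosh_arcosh hx] at this
      simpa using this
    rw [h1, Real.cosh_eq]
    have h2 : 0 ≤ (n : ℝ) * arcosh x := mul_nonneg (Nat.cast_nonneg _) (arcosh_nonneg hx)
    have h3 : Real.exp (-(n * arcosh x)) ≤ Real.exp (n * arcosh x) :=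
      Real.exp_le_exp.2 (by linarith)
    linarith
  have hdeg : Q.degree ≤ n := Polynomial.natDegree_le_iff_degree_le.1 hQ
  have h1 := Chebyshev.eval_iterate_derivative_le_of_forall_abs_le_one (k := 0) hx hdeg hb
  have h2 := Chebyshev.eval_iterate_derivative_le_of_forall_abs_le_one (k := 0) (P := -Q) hx
    (by rwa [Polynomial.degree_neg]) (by simpa using hb)
  simp only [Function.iterate_zero, id, eval_neg] at h1 h2
  rw [abs_le]
  constructor <;> linarith

theorem poly_growth {n : ℕ} (P : ℝ[X]) (hP : P.natDegree ≤ n) {c S y : ℝ} (hc : 0 < c)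
    (hS : 0 < S) (hb : ∀ x, |x| ≤ c → |P.eval x| ≤ S) (hy : c ≤ |y|) :
    |P.eval y| ≤ S * Real.exp (n * arcosh (|y| / c)) := by
  obtain ⟨s, hs1, hs2⟩ : ∃ s : ℝ, |s| = 1 ∧ s * |y| = y := by
    rcases le_total 0 y with h | h
    · exact ⟨1, by simp, by rw [abs_of_nonneg h, one_mul]⟩
    · exact ⟨-1, by simp, by rw [abs_of_nonpos h]; ring⟩
  set Q : ℝ[X] := C S⁻¹ * P.comp (C (s * c) * X) with hQd
  have hQeval : ∀ x, Q.eval x = S⁻¹ * P.eval (s * c * x) := by
    intro x; simp [hQd]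
  have hQdeg : Q.natDegree ≤ n := by
    refine (natDegree_C_mul_le _ _).trans ((natDegree_comp_le).trans ?_)
    have : (C (s * c) * X : ℝ[X]).natDegree ≤ 1 := by
      refine (natDegree_C_mul_le _ _).trans ?_
      simp
    calc P.natDegree * (C (s * c) * X : ℝ[X]).natDegree ≤ n * 1 := Nat.mul_le_mul hP this
      _ = n := mul_one n
  have hQb : ∀ x ∈ Set.Icc (-1 : ℝ) 1, |Q.eval x| ≤ 1 := by
    intro x hx
    rw [hQeval, abs_mul, abs_of_pos (inv_pos.2 hS), inv_mul_le_iff₀ hS, mul_one]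
    apply hb
    rw [abs_mul, abs_mul, hs1, one_mul, abs_of_pos hc]
    have : |x| ≤ 1 := abs_le.2 hx
    nlinarith
  have h1 := abs_eval_le_exp Q hQdeg hQb (x := |y| / c) (by rwa [le_div_iff₀ hc, one_mul])
  rw [hQeval] at h1
  have h2 : s * c * (|y| / c) = y := by
    field_simp
    exact hs2
  rw [h2, abs_mul, abs_of_pos (inv_pos.2 hS), inv_mul_le_iff₀ hS] at h1
  exact h1

theorem growth {d : ℕ} {g : ℝ → ℝ} (hg : TP d g) {a S : ℝ} (ha : 0 < a) (ha2 : a ≤ 1 / 2)
    (hS : 0 ≤ S) (h : ∀ θ, a ≤ |sin θ| → |g θ| ≤ S) :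
    ∀ θ, |g θ| ≤ 2 * S * Real.exp (3 * d * a) := by
  -- it suffices to treat `S > 0`
  suffices H : ∀ S : ℝ, 0 < S → (∀ θ, a ≤ |sin θ| → |g θ| ≤ S) →
      ∀ θ, |g θ| ≤ 2 * S * Real.exp (3 * d * a) by
    intro θ
    refine le_of_forall_pos_le_add fun ε hε => ?_
    have he : 0 < Real.exp (3 * d * a) := Real.exp_pos _
    have h1 := H (S + ε / (2 * Real.exp (3 * d * a))) (by positivity) (fun θ hθ =>
      (h θ hθ).trans (by linarith [show 0 ≤ ε / (2 * Real.exp (3 * d * a)) by positivity])) θ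
    refine h1.trans (le_of_eq ?_)
    field_simp
  intro S hS h θ
  have hG : TP (d + d) (fun θ => g θ * g θ + g (-θ) * g (-θ)) :=
    (hg.mul hg).add (hg.comp_neg.mul hg.comp_neg)
  obtain ⟨P, hPdeg, hP⟩ := hG.even_eq_poly (by intro θ; simp only [neg_neg]; ring)
  set c : ℝ := Real.sqrt (1 - a ^ 2) with hc
  have hc2 : c ^ 2 = 1 - a ^ 2 := Real.sq_sqrt (by nlinarith)
  have hc34 : 3 / 4 ≤ c ^ 2 := by rw [hc2]; nlinarith
  have hc0 : 0 < c := by
    rcases (Real.sqrt_nonneg (1 - a ^ 2)).lt_or_eq with h | h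
    · exact h
    · rw [hc, ← h] at hc34; norm_num at hc34
  have hPb : ∀ x, |x| ≤ c → |P.eval x| ≤ 2 * S ^ 2 := by
    intro x hx
    have hc1 : c ≤ 1 := by nlinarith
    have hx1 : -1 ≤ x ∧ x ≤ 1 := abs_le.1 (hx.trans hc1)
    have hcos : cos (arccos x) = x := Real.cos_arccos hx1.1 hx1.2
    have hsin : a ≤ |sin (arccos x)| := by
      apply le_of_sq_le_sq _ (abs_nonneg _)
      rw [sq_abs, Real.sin_sq, hcos]
      have : x ^ 2 ≤ c ^ 2 := by rw [← sq_abs x]; exact pow_le_pow_left₀ (abs_nonneg _) hx 2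
      linarith
    have h1 := h (arccos x) hsin
    have h2 := h (-arccos x) (by rwa [Real.sin_neg, abs_neg])
    have h3 := hP (arccos x)
    rw [hcos] at h3
    rw [← h3]
    rw [abs_of_nonneg (by nlinarith [mul_self_nonneg (g (arccos x)), mul_self_nonneg (g (-arccos x))])]
    rw [abs_le] at h1 h2
    nlinarith
  have hEg : g θ ^ 2 ≤ 2 * S ^ 2 * Real.exp (3 * d * a) := by
    have hE1 : 1 ≤ Real.exp (3 * d * a) := Real.one_le_exp (by positivity)
    have h0 : g θ ^ 2 ≤ P.eval (cos θ) := by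
      rw [← hP θ]; nlinarith [mul_self_nonneg (g (-θ))]
    rcases le_or_gt |cos θ| c with hle | hgt
    · have h1 := hPb _ hle
      have h2 := (abs_le.1 h1).2
      nlinarith [sq_nonneg S]
    · have h1 := poly_growth P hPdeg hc0 (S := 2 * S ^ 2) (by positivity) hPb hgt.le
      have h2 := (abs_le.1 h1).2
      have h3 : arcosh (|cos θ| / c) ≤ 3 / 2 * a := by
        have hx1 : 1 ≤ |cos θ| / c := by rw [le_div_iff₀ hc0, one_mul]; exact hgt.le
        have h4 : arcosh (|cos θ| / c) ≤ Real.sqrt ((|cos θ| / c) ^ 2 - 1) := by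
          rw [← sinh_arcosh hx1]
          exact Real.self_le_sinh_iff.2 (arcosh_nonneg hx1)
        refine h4.trans ?_
        apply Real.sqrt_le_iff.2
        refine ⟨by positivity, ?_⟩
        have h5 : (|cos θ| / c) ^ 2 ≤ 1 / c ^ 2 := by
          rw [div_pow]
          apply div_le_div_of_nonneg_right _ (by positivity)
          rw [sq_abs]
          exact Real.cos_sq_le_one θ
        have h6 : 1 / c ^ 2 - 1 = a ^ 2 / c ^ 2 := by
          field_simp
          rw [hc2]; ring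
        have h7 : a ^ 2 / c ^ 2 ≤ a ^ 2 / (3 / 4) := by
          apply div_le_div_of_nonneg_left (by positivity) (by norm_num) hc34
        nlinarith [sq_nonneg a]
      have h8 : Real.exp (((d + d : ℕ) : ℝ) * arcosh (|cos θ| / c)) ≤ Real.exp (3 * d * a) := by
        apply Real.exp_le_exp.2
        push_cast
        have : (0 : ℝ) ≤ d := Nat.cast_nonneg _
        nlinarith
      calc g θ ^ 2 ≤ _ := h0
        _ ≤ _ := h2
        _ ≤ _ := by
          apply mul_le_mul_of_nonneg_left h8 (by positivity)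
  have hexp : Real.exp (3 * d * a) ≤ Real.exp (3 * d * a) ^ 2 := by
    have hE1 : 1 ≤ Real.exp (3 * d * a) := Real.one_le_exp (by positivity)
    nlinarith
  apply abs_le_of_sq_le_sq _ (by positivity)
  calc g θ ^ 2 ≤ _ := hEg
    _ ≤ 2 * S ^ 2 * Real.exp (3 * d * a) ^ 2 := by
        apply mul_le_mul_of_nonneg_left hexp (by positivity)
    _ ≤ (2 * S * Real.exp (3 * d * a)) ^ 2 := by
        rw [mul_pow, mul_pow]
        have : 0 ≤ S ^ 2 * Real.exp (3 * d * a) ^ 2 := by positivity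
        nlinarith

end Pool.Agent.H93.Ch
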