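import Pool.Agent.H93.Ch.CapDefs
import Pool.Agent.H93.Ch.Growth

/-! Module L: local bounds and comparison of norms. -/

set_option autoImplicit false

namespace Pool.Agent.H93.Ch

open Real MeasureTheory

theorem bb_TP {m n : ℕ} (hn : 1 ≤ n) : TP (2 * m) (bb m n) := by
  have h1 := (BB_TP (m / n)).pow n
  have h2 : n * (2 * (m / n)) ≤ 2 * m := by
    have := Nat.mul_div_le m n
    calc n * (2 * (m / n)) = 2 * (n * (m / n)) := by ring
      _ ≤ 2 * m := Nat.mul_le_mul_left 2 this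
  exact h1.mono h2

theorem ff_TP {q : ℕ} {P : Polynomial ℝ} (hP : P.natDegree ≤ q) : TP q (ff P) :=
  TP.poly_cos P hP

theorem l42_hasDerivAt_ff (P : Polynomial ℝ) (θ : ℝ) :
    HasDerivAt (ff P) (P.derivative.eval (cos θ) * (-sin θ)) θ :=
  (P.hasDerivAt (cos θ)).comp θ (hasDerivAt_cos θ)

theorem gg_TP {m q : ℕ} {P : Polynomial ℝ} (hP : P.natDegree ≤ q) : TP q (gg m P) := by
  have h1 : gg m P = fun θ => (m : ℝ)⁻¹ * deriv (ff P) θ := by
    funext θ
    rw [(l42_hasDerivAt_ff P θ).deriv, gg, div_eq_inv_mul]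
    ring
  rw [h1]
  exact (ff_TP hP).deriv.const_mul _

theorem hh_TP {m n q : ℕ} (hn : 1 ≤ n) {P : Polynomial ℝ} (hP : P.natDegree ≤ q) :
    TP (q + 2 * m) (hh m n P) := by
  have h1 := (bb_TP (m := m) hn).mul (gg_TP (m := m) hP)
  exact h1.mono (by omega)

theorem deriv_ff {m : ℕ} (hm : 1 ≤ m) (P : Polynomial ℝ) :
    deriv (ff P) = fun θ => m * gg m P θ := by
  funext θ
  have hm0 : (m : ℝ) ≠ 0 := by exact_mod_cast (by omega : m ≠ 0)
  rw [(l42_hasDerivAt_ff P θ).deriv, gg]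
  field_simp

/-- `h` is not identically zero if `P` is not constant -/
theorem hh_ne_zero {m n : ℕ} (hm : 1 ≤ m) (hn : 1 ≤ n) (hnm : n ≤ m) {P : Polynomial ℝ}
    (hP : 0 < P.natDegree) : ∃ s, hh m n P s ≠ 0 := by
  have hr : 1 ≤ m / n := (Nat.one_le_div_iff (by omega)).2 hnm
  have hP' : P.derivative ≠ 0 := by
    intro h
    have := Polynomial.derivative_eq_zero.1 h
    omega
  obtain ⟨y, hy, hy'⟩ : ∃ y ∈ Set.Ioo (-1 : ℝ) 1, P.derivative.eval y ≠ 0 := by
    by_contra hcon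
    push Not at hcon
    have hinf : Set.Infinite (Set.Ioo (-1 : ℝ) 1) := Set.Ioo_infinite (by norm_num)
    exact hP' (Polynomial.eq_zero_of_infinite_isRoot _ (hinf.mono fun y hy => hcon y hy))
  refine ⟨arccos y, ?_⟩
  have h1 : cos (arccos y) = y := cos_arccos hy.1.le hy.2.le
  have h2 : 0 < sin (arccos y) := by
    rw [sin_arccos]
    apply Real.sqrt_pos.2
    nlinarith [hy.1, hy.2]
  have h3 : 0 < BB (m / n) (arccos y) := by
    refine lt_of_lt_of_le ?_ (le_BB hr _)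
    have : 0 < ((m / n : ℕ) : ℝ) * sin (arccos y) := by
      have : (0 : ℝ) < ((m / n : ℕ) : ℝ) := by exact_mod_cast hr
      positivity
    have h4 : 0 < min 1 ((((m / n : ℕ) : ℝ) * sin (arccos y)) ^ 2) := lt_min one_pos (by positivity)
    positivity
  rw [hh, bb, gg, h1]
  have hm0 : (m : ℝ) ≠ 0 := by exact_mod_cast (by omega : m ≠ 0)
  exact mul_ne_zero (pow_ne_zero _ h3.ne')
    (div_ne_zero (neg_ne_zero.2 (mul_ne_zero h2.ne' hy')) hm0)

/-- size of `r = m / n` -/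
theorem l42_div_ge {m n : ℕ} (hn : 1 ≤ n) (hm : n ≤ m) :
    (m : ℝ) ≤ 2 * n * ((m / n : ℕ) : ℝ) := by
  have h1 : m < n * (m / n) + n := by
    have := Nat.lt_mul_div_succ m (by omega : 0 < n)
    rwa [mul_add, mul_one] at this
  have h2 : 1 ≤ m / n := (Nat.one_le_div_iff (by omega)).2 hm
  have h3 : m ≤ 2 * n * (m / n) := by nlinarith
  exact_mod_cast h3

theorem l42_BB_ge {r : ℕ} (hr : 1 ≤ r) {θ : ℝ} (h : 1 / (r : ℝ) ≤ |sin θ|) : 1 / 8 ≤ BB r θ := by
  have hr0 : (0 : ℝ) < r := by exact_mod_cast hr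
  have h1 := le_BB hr θ
  have h2 : 1 ≤ ((r : ℝ) * sin θ) ^ 2 := by
    rw [← sq_abs, abs_mul, Nat.abs_cast]
    rw [div_le_iff₀ hr0] at h
    have : 1 ≤ (r : ℝ) * |sin θ| := by linarith
    exact one_le_pow₀ this
  rw [min_eq_left h2] at h1
  linarith

theorem l42_gg_le {m n : ℕ} (hn : 1 ≤ n) (hm : n ≤ m) (P : Polynomial ℝ) {θ : ℝ}
    (h : 1 / ((m / n : ℕ) : ℝ) ≤ |sin θ|) : |gg m P θ| ≤ 8 ^ n * |hh m n P θ| := by
  have hr : 1 ≤ m / n := (Nat.one_le_div_iff (by omega)).2 hm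
  have h1 := l42_BB_ge hr h
  have h2 : (1 / 8 : ℝ) ^ n ≤ bb m n θ := by
    rw [bb]
    gcongr
  have h3 : |hh m n P θ| = bb m n θ * |gg m P θ| := by
    rw [hh, abs_mul, abs_of_nonneg]
    exact pow_nonneg (BB_nonneg _ _) _
  rw [h3]
  have h4 : 1 ≤ 8 ^ n * bb m n θ := by
    calc (1 : ℝ) = 8 ^ n * (1 / 8) ^ n := by rw [← mul_pow]; norm_num
      _ ≤ 8 ^ n * bb m n θ := by gcongr
  nlinarith [abs_nonneg (gg m P θ)]

/-- growth lemma applied to `g`: with `r = m/n ≥ m/(2n)`, `a = 1/r ≤ 1/2`; on `|sin| ≥ 1/r`,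
`b ≥ 8^(-n)`, so `|g| ≤ 8^n |h|` there. -/
theorem gg_le_sup (Λ : ℝ) (hΛ : 1 ≤ Λ) {m n q : ℕ} (hn : 1 ≤ n) (hm : 4 * n ≤ m) {P : Polynomial ℝ}
    (hP : P.natDegree ≤ q) (hq : (q : ℝ) ≤ Λ * m) (S : ℝ) (hS : ∀ θ, |hh m n P θ| ≤ S) :
    ∀ θ, |gg m P θ| ≤ 2 * Real.exp (6 * Λ * n) * 8 ^ n * S := by
  have hS0 : 0 ≤ S := (abs_nonneg _).trans (hS 0)
  have hr : 4 ≤ m / n := (Nat.le_div_iff_mul_le (by omega)).2 hm
  have hr' : (4 : ℝ) ≤ ((m / n : ℕ) : ℝ) := by exact_mod_cast hr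
  set r : ℝ := ((m / n : ℕ) : ℝ) with hrdef
  have hr0 : 0 < r := by linarith
  have h1 := growth (gg_TP (m := m) hP) (a := 1 / r) (S := 8 ^ n * S) (by positivity)
    (by rw [div_le_div_iff₀ hr0 (by norm_num)]; linarith) (by positivity)
    (fun θ hθ => (l42_gg_le hn (by omega) P hθ).trans (by gcongr; exact hS θ))
  intro θ
  refine (h1 θ).trans ?_
  have h2 : 3 * (q : ℝ) * (1 / r) ≤ 6 * Λ * n := by
    have h3 := l42_div_ge hn (by omega : n ≤ m)
    rw [← hrdef] at h3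
    rw [mul_one_div, div_le_iff₀ hr0]
    have h4 : (q : ℝ) ≤ Λ * (2 * n * r) := hq.trans (by gcongr)
    linarith
  calc 2 * (8 ^ n * S) * Real.exp (3 * q * (1 / r))
      ≤ 2 * (8 ^ n * S) * Real.exp (6 * Λ * n) := by gcongr
    _ = _ := by ring

/-- Gronwall type comparison -/
theorem l42_gronwall {b : ℝ → ℝ} (hb : Differentiable ℝ b) {K : ℝ} {x y : ℝ}
    (h : ∀ s ∈ Set.uIcc x y, |deriv b s| ≤ K * b s) :
    b x * Real.exp (-(K * |y - x|)) ≤ b y := by
  rcases le_total x y with hxy | hxy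
  · rw [Set.uIcc_of_le hxy] at h
    rw [abs_of_nonneg (by linarith)]
    have hd : ∀ s, HasDerivAt (fun s => b s * Real.exp (K * s))
        (deriv b s * Real.exp (K * s) + b s * (Real.exp (K * s) * K)) s := by
      intro s
      have h1 : HasDerivAt (fun s => K * s) K s := by simpa using (hasDerivAt_id s).const_mul K
      exact (hb s).hasDerivAt.fun_mul h1.exp
    have hmono : MonotoneOn (fun s => b s * Real.exp (K * s)) (Set.Icc x y) := by
      apply monotoneOn_of_deriv_nonneg (convex_Icc x y)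
      · exact fun s _ => (hd s).continuousAt.continuousWithinAt
      · exact fun s _ => (hd s).differentiableAt.differentiableWithinAt
      · intro s hs
        rw [interior_Icc] at hs
        rw [(hd s).deriv]
        have h2 := h s ⟨hs.1.le, hs.2.le⟩
        have h3 := (abs_le.1 h2).1
        have h4 : 0 ≤ (deriv b s + K * b s) * Real.exp (K * s) := by
          apply mul_nonneg _ (Real.exp_pos _).le
          linarith
        linarith
    have h5 := hmono (Set.left_mem_Icc.2 hxy) (Set.right_mem_Icc.2 hxy) hxy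
    simp only at h5
    have h6 : b x * Real.exp (-(K * (y - x))) = b x * Real.exp (K * x) * Real.exp (-(K * y)) := by
      rw [mul_assoc, ← Real.exp_add]
      congr 2
      ring
    rw [h6]
    calc b x * Real.exp (K * x) * Real.exp (-(K * y)) ≤ b y * Real.exp (K * y) * Real.exp (-(K * y)) := by
          gcongr
      _ = b y := by rw [mul_assoc, ← Real.exp_add]; simp
  · rw [Set.uIcc_of_ge hxy] at h
    rw [abs_of_nonpos (by linarith)]
    have hd : ∀ s, HasDerivAt (fun s => b s * Real.exp (-(K * s)))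
        (deriv b s * Real.exp (-(K * s)) + b s * (Real.exp (-(K * s)) * (-K))) s := by
      intro s
      have h0 : HasDerivAt (fun s => K * s) K s := by simpa using (hasDerivAt_id s).const_mul K
      have h1 : HasDerivAt (fun s => -(K * s)) (-K) s := h0.fun_neg
      exact (hb s).hasDerivAt.fun_mul h1.exp
    have hmono : AntitoneOn (fun s => b s * Real.exp (-(K * s))) (Set.Icc y x) := by
      apply antitoneOn_of_deriv_nonpos (convex_Icc y x)
      · exact fun s _ => (hd s).continuousAt.continuousWithinAt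
      · exact fun s _ => (hd s).differentiableAt.differentiableWithinAt
      · intro s hs
        rw [interior_Icc] at hs
        rw [(hd s).deriv]
        have h2 := h s ⟨hs.1.le, hs.2.le⟩
        have h3 := (abs_le.1 h2).2
        have h4 : 0 ≤ (K * b s - deriv b s) * Real.exp (-(K * s)) := by
          apply mul_nonneg _ (Real.exp_pos _).le
          linarith
        linarith
    have h5 := hmono (Set.left_mem_Icc.2 hxy) (Set.right_mem_Icc.2 hxy) hxy
    simp only at h5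
    have h6 : b x * Real.exp (-(K * -(y - x))) = b x * Real.exp (-(K * x)) * Real.exp (K * y) := by
      rw [mul_assoc, ← Real.exp_add]
      congr 2
      ring
    rw [h6]
    calc b x * Real.exp (-(K * x)) * Real.exp (K * y) ≤ b y * Real.exp (-(K * y)) * Real.exp (K * y) := by
          gcongr
      _ = b y := by rw [mul_assoc, ← Real.exp_add]; simp

theorem l42_bb_pos {m n : ℕ} (hn : 1 ≤ n) (hnm : n ≤ m) {x : ℝ} (hx : sin x ≠ 0) : 0 < bb m n x := by
  have hr : 1 ≤ m / n := (Nat.one_le_div_iff (by omega)).2 hnm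
  have hr0 : (0 : ℝ) < ((m / n : ℕ) : ℝ) := by exact_mod_cast hr
  have h1 := le_BB hr x
  have h2 : 0 < BB (m / n) x := by
    refine lt_of_lt_of_le ?_ h1
    have : 0 < min 1 ((((m / n : ℕ) : ℝ) * sin x) ^ 2) :=
      lt_min one_pos (by positivity)
    positivity
  exact pow_pos h2 n

/-- derivatives of a quotient, written for a product -/
theorem l42_prod_deriv {b g : ℝ → ℝ} (hb : ContDiff ℝ (⊤ : ℕ∞) b) (hg : ContDiff ℝ (⊤ : ℕ∞) g) (y : ℝ) :
    deriv (fun θ => b θ * g θ) y = deriv b y * g y + b y * deriv g y ∧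
    deriv (deriv (fun θ => b θ * g θ)) y =
      deriv (deriv b) y * g y + 2 * (deriv b y * deriv g y) + b y * deriv (deriv g) y := by
  have hb1 : Differentiable ℝ b := hb.differentiable (by simp)
  have hg1 : Differentiable ℝ g := hg.differentiable (by simp)
  have hb2 : Differentiable ℝ (deriv b) :=
    (contDiff_infty_iff_deriv.1 hb).2.differentiable (by simp)
  have hg2 : Differentiable ℝ (deriv g) :=
    (contDiff_infty_iff_deriv.1 hg).2.differentiable (by simp)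
  have h1 : deriv (fun θ => b θ * g θ) = fun θ => deriv b θ * g θ + b θ * deriv g θ :=
    funext fun θ => ((hb1 θ).hasDerivAt.fun_mul (hg1 θ).hasDerivAt).deriv
  refine ⟨congrFun h1 y, ?_⟩
  rw [h1]
  have h2 := ((hb2 y).hasDerivAt.fun_mul (hg1 y).hasDerivAt).fun_add
    ((hb1 y).hasDerivAt.fun_mul (hg2 y).hasDerivAt)
  rw [h2.deriv]
  ring

/-- local bounds: at `x` with `|sin x| ≥ A/m`, `V = C v_h(x)/b(x)` bounds `|g|`, `|g'|/m`,
`|g''|/m²` on `|y - x| ≤ 1/m`.
Proof: on `|sin| ≥ (A-1)/m ≥ A/(2m)`: `|b'| ≤ 12 Nε m b`, `|b''| ≤ 240 Nε² m² b`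
(`logderiv_BB_pow_le`, `deriv2_BB_pow_le` with `r = m/n`, `n = Nε A`), so
`b(y) ≥ e^(-12 Nε) b(x)`; `g = h/b`, `g' = (h' - g b')/b`, `g'' = (h'' - 2 g' b' - g b'')/b`;
`|h|, |h'|/m, |h''|/m² ≤ C v(y) ≤ C' v(x)` (`abs_le_vv`, `vv_deriv_le`, `vv_shift`). -/
theorem locV (Λ : ℝ) (hΛ : 1 ≤ Λ) (Nε : ℕ) (hNε : 1 ≤ Nε) : ∃ C : ℝ, 0 < C ∧
    ∀ (A m q : ℕ) (P : Polynomial ℝ), 2 ≤ A → Nε * A ≤ m → ((q : ℝ) + 2 * m) ≤ Λ * m →
    P.natDegree ≤ q → ∀ x y : ℝ, (A : ℝ) / m ≤ |sin x| → |y - x| ≤ 1 / m →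
    0 < bb m (Nε * A) x ∧
    |gg m P y| ≤ C * vv m (hh m (Nε * A) P) x / bb m (Nε * A) x ∧
    |deriv (gg m P) y| ≤ m * (C * vv m (hh m (Nε * A) P) x / bb m (Nε * A) x) ∧
    |deriv (deriv (gg m P)) y| ≤ m ^ 2 * (C * vv m (hh m (Nε * A) P) x / bb m (Nε * A) x) := by
  obtain ⟨C0, hC0, h0⟩ := abs_le_vv Λ hΛ
  obtain ⟨C1, hC1, h1⟩ := vv_deriv_le Λ hΛ
  obtain ⟨C2, hC2, h2⟩ := vv_shift
  set D := 6 * C0 * C2 * (1 + C1 + C1 ^ 2) with hD
  have hD0 : 0 < D := by positivity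
  have hNε0 : (1 : ℝ) ≤ Nε := by exact_mod_cast hNε
  set K2 : ℝ := 1 + 24 * Nε * (1 + 12 * Nε) + 240 * (Nε : ℝ) ^ 2 with hK2
  have hK21 : 1 ≤ K2 := by
    have : 0 ≤ 24 * (Nε : ℝ) * (1 + 12 * Nε) + 240 * (Nε : ℝ) ^ 2 := by positivity
    linarith
  have hK22 : 1 + 12 * (Nε : ℝ) ≤ K2 := by nlinarith
  refine ⟨K2 * D * Real.exp (12 * Nε), by positivity, ?_⟩
  intro A m q P hA hAm hq hP x y hx hyx
  set n := Nε * A with hn
  have hn1 : 1 ≤ n := Nat.mul_pos (by omega) (by omega)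
  have hm1 : 1 ≤ m := by omega
  have hm0 : (0 : ℝ) < m := by exact_mod_cast hm1
  have hA0 : (2 : ℝ) ≤ A := by exact_mod_cast hA
  have hr : 1 ≤ m / n := (Nat.one_le_div_iff (by omega)).2 hAm
  have hsx : sin x ≠ 0 := by
    intro h
    rw [h, abs_zero] at hx
    have : 0 < (A : ℝ) / m := by positivity
    linarith
  have hbx : 0 < bb m n x := l42_bb_pos hn1 hAm hsx
  refine ⟨hbx, ?_⟩
  -- sin on the segment
  set a : ℝ := A / (2 * m) with ha
  have ha0 : 0 < a := by positivity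
  have hseg : ∀ s ∈ Set.uIcc x y, a ≤ |sin s| := by
    intro s hs
    have e1 : |s - x| ≤ 1 / m := by
      refine le_trans ?_ hyx
      rcases Set.mem_uIcc.1 hs with ⟨e1, e2⟩ | ⟨e1, e2⟩
      · rw [abs_of_nonneg (by linarith), abs_of_nonneg (by linarith)]; linarith
      · rw [abs_of_nonpos (by linarith), abs_of_nonpos (by linarith)]; linarith
    have e2 : |sin s - sin x| ≤ |s - x| := abs_sin_sub_sin_le s x
    have e3 : |sin x| ≤ |sin s| + |sin s - sin x| := by
      have := abs_sub_abs_le_abs_sub (sin x) (sin s)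
      rw [abs_sub_comm] at this
      linarith
    have e4 : (A : ℝ) / m - 1 / m ≤ |sin s| := by linarith
    refine le_trans ?_ e4
    rw [ha, ← sub_div, div_le_div_iff₀ (by positivity) hm0]
    nlinarith
  have hmax : max (((m / n : ℕ) : ℝ)) (1 / a) ≤ 2 * m / A := by
    apply max_le
    · have e1 : (((m / n : ℕ) : ℝ)) ≤ m / n := Nat.cast_div_le
      refine e1.trans ?_
      rw [div_le_div_iff₀ (by exact_mod_cast hn1) (by positivity), hn]
      push_cast
      nlinarith [mul_pos hm0 (by linarith : (0 : ℝ) < A)]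
    · rw [ha, one_div_div]
  have hmax0 : 0 ≤ max (((m / n : ℕ) : ℝ)) (1 / a) := le_max_of_le_left (Nat.cast_nonneg _)
  have hbnn : ∀ s, 0 ≤ bb m n s := fun s => pow_nonneg (BB_nonneg _ _) _
  have hb' : ∀ s ∈ Set.uIcc x y, |deriv (bb m n) s| ≤ 12 * Nε * m * bb m n s := by
    intro s hs
    have e1 := logderiv_BB_pow_le hr hn1 ha0 (hseg s hs)
    refine e1.trans ?_
    have e2 : 6 * (n : ℝ) * max (((m / n : ℕ) : ℝ)) (1 / a) ≤ 12 * Nε * m := by
      calc 6 * (n : ℝ) * max (((m / n : ℕ) : ℝ)) (1 / a) ≤ 6 * n * (2 * m / A) := by gcongr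
        _ = 12 * Nε * m := by
            rw [hn]; push_cast
            field_simp
            ring
    exact mul_le_mul_of_nonneg_right e2 (hbnn s)
  have hb'' : |deriv (deriv (bb m n)) y| ≤ 240 * (Nε : ℝ) ^ 2 * m ^ 2 * bb m n y := by
    have e1 := deriv2_BB_pow_le hr hn1 ha0 (hseg y Set.right_mem_uIcc)
    refine e1.trans ?_
    have e2 : 60 * (n : ℝ) ^ 2 * max (((m / n : ℕ) : ℝ)) (1 / a) ^ 2 ≤ 240 * (Nε : ℝ) ^ 2 * m ^ 2 := by
      calc 60 * (n : ℝ) ^ 2 * max (((m / n : ℕ) : ℝ)) (1 / a) ^ 2 ≤ 60 * n ^ 2 * (2 * m / A) ^ 2 := by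
            gcongr
        _ = 240 * (Nε : ℝ) ^ 2 * m ^ 2 := by
            rw [hn]; push_cast
            field_simp
            ring
    exact mul_le_mul_of_nonneg_right e2 (hbnn y)
  have hbc : ContDiff ℝ (⊤ : ℕ∞) (bb m n) := (bb_TP hn1).contDiff
  have hgc : ContDiff ℝ (⊤ : ℕ∞) (gg m P) := (gg_TP hP).contDiff
  have hcomp : bb m n x * Real.exp (-(12 * Nε)) ≤ bb m n y := by
    have e1 := l42_gronwall (hbc.differentiable (by simp)) hb'
    refine le_trans ?_ e1
    have e2 : 12 * (Nε : ℝ) * m * |y - x| ≤ 12 * Nε := by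
      calc 12 * (Nε : ℝ) * m * |y - x| ≤ 12 * Nε * m * (1 / m) := by gcongr
        _ = 12 * Nε := by field_simp
    exact mul_le_mul_of_nonneg_left (Real.exp_le_exp.2 (neg_le_neg e2)) hbx.le
  have hby : 0 < bb m n y := lt_of_lt_of_le (by positivity) hcomp
  -- bounds for h
  set h := hh m n P with hh'
  have hTP : TP (q + 2 * m) h := hh_TP hn1 hP
  have hdeg : ((q + 2 * m : ℕ) : ℝ) ≤ Λ * m := by push_cast; exact hq
  set v := vv m h x with hv
  have hv0 : 0 ≤ v := vv_nonneg m h x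
  have hvy : vv m h y ≤ 6 * C2 * v := by
    have e1 := h2 m h hm1 hTP.contDiff.continuous y x
    have e2 := om_le_of_abs_le m hyx hm1
    have e3 : om m (y - x) ^ 4 ≤ 6 := by
      have := one_le_om m (y - x)
      calc om m (y - x) ^ 4 ≤ (1 + 1 / 2) ^ 4 := by gcongr
        _ ≤ 6 := by norm_num
    calc vv m h y ≤ C2 * om m (y - x) ^ 4 * vv m h x := e1
      _ ≤ C2 * 6 * vv m h x := by gcongr
      _ = 6 * C2 * v := by ring
  have hy0 : |h y| ≤ D * v := by
    calc |h y| ≤ C0 * vv m h y := h0 m _ h hm1 hdeg hTP y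
      _ ≤ C0 * (6 * C2 * v) := by gcongr
      _ = 6 * C0 * C2 * 1 * v := by ring
      _ ≤ D * v := by
          rw [hD]
          gcongr
          nlinarith
  have hy1 : |deriv h y| ≤ m * (D * v) := by
    calc |deriv h y| ≤ C0 * vv m (deriv h) y := h0 m _ _ hm1 hdeg hTP.deriv y
      _ ≤ C0 * (C1 * m * (6 * C2 * v)) := by
          gcongr
          exact (h1 m _ h hm1 hdeg hTP y).trans (by gcongr)
      _ = m * (6 * C0 * C2 * C1 * v) := by ring
      _ ≤ m * (D * v) := by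
          rw [hD]
          gcongr
          nlinarith
  have hy2 : |deriv (deriv h) y| ≤ m ^ 2 * (D * v) := by
    calc |deriv (deriv h) y| ≤ C0 * vv m (deriv (deriv h)) y :=
          h0 m _ _ hm1 hdeg hTP.deriv.deriv y
      _ ≤ C0 * (C1 * m * (C1 * m * (6 * C2 * v))) := by
          gcongr
          refine (h1 m _ _ hm1 hdeg hTP.deriv y).trans ?_
          gcongr
          exact (h1 m _ h hm1 hdeg hTP y).trans (by gcongr)
      _ = m ^ 2 * (6 * C0 * C2 * C1 ^ 2 * v) := by ring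
      _ ≤ m ^ 2 * (D * v) := by
          rw [hD]
          gcongr
          nlinarith
  have hprod := l42_prod_deriv hbc hgc y
  have hheq : h = fun θ => bb m n θ * gg m P θ := rfl
  rw [← hheq] at hprod
  obtain ⟨hp1, hp2⟩ := hprod
  set B := bb m n y with hB
  set G := gg m P y with hG
  set G1 := deriv (gg m P) y with hG1
  set G2 := deriv (deriv (gg m P)) y with hG2
  have hh0 : h y = B * G := rfl
  have b1 := hb' y Set.right_mem_uIcc
  -- bounds times B
  have g0 : B * |G| ≤ D * v := by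
    rw [← abs_of_pos hby, ← abs_mul, ← hh0]
    exact hy0
  have g1 : B * |G1| ≤ m * ((1 + 12 * Nε) * (D * v)) := by
    have e1 : B * G1 = deriv h y - deriv (bb m n) y * G := by rw [hp1]; ring
    calc B * |G1| = |B * G1| := by rw [abs_mul, abs_of_pos hby]
      _ ≤ |deriv h y| + |deriv (bb m n) y * G| := by rw [e1]; exact abs_sub _ _
      _ ≤ m * (D * v) + 12 * Nε * m * B * |G| := by
          rw [abs_mul]
          gcongr
      _ = m * (D * v) + 12 * Nε * m * (B * |G|) := by ring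
      _ ≤ m * (D * v) + 12 * Nε * m * (D * v) := by gcongr
      _ = _ := by ring
  have g2 : B * |G2| ≤ m ^ 2 * (K2 * (D * v)) := by
    have e1 : B * G2 = deriv (deriv h) y - deriv (deriv (bb m n)) y * G -
        2 * (deriv (bb m n) y * G1) := by rw [hp2]; ring
    calc B * |G2| = |B * G2| := by rw [abs_mul, abs_of_pos hby]
      _ ≤ |deriv (deriv h) y| + |deriv (deriv (bb m n)) y * G| + |2 * (deriv (bb m n) y * G1)| := by
          rw [e1]
          exact (abs_sub _ _).trans (by gcongr; exact abs_sub _ _)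
      _ ≤ m ^ 2 * (D * v) + 240 * (Nε : ℝ) ^ 2 * m ^ 2 * B * |G| +
          2 * (12 * Nε * m * B * |G1|) := by
          rw [abs_mul, abs_mul, abs_mul, abs_two]
          gcongr
      _ = m ^ 2 * (D * v) + 240 * (Nε : ℝ) ^ 2 * m ^ 2 * (B * |G|) +
          24 * Nε * m * (B * |G1|) := by ring
      _ ≤ m ^ 2 * (D * v) + 240 * (Nε : ℝ) ^ 2 * m ^ 2 * (D * v) +
          24 * Nε * m * (m * ((1 + 12 * Nε) * (D * v))) := by gcongr
      _ = _ := by rw [hK2]; ring
  -- conclusion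
  have fin : ∀ (T M : ℝ), 0 ≤ T → B * T ≤ M → M / B ≤ M * Real.exp (12 * Nε) / bb m n x →
      T ≤ M * Real.exp (12 * Nε) / bb m n x := by
    intro T M _ hT hM
    refine le_trans ?_ hM
    rw [le_div_iff₀ hby]
    linarith
  have fin2 : ∀ M : ℝ, 0 ≤ M → M / B ≤ M * Real.exp (12 * Nε) / bb m n x := by
    intro M hM
    rw [div_le_div_iff₀ hby hbx]
    have e1 : bb m n x ≤ Real.exp (12 * Nε) * B := by
      calc bb m n x = Real.exp (12 * Nε) * (bb m n x * Real.exp (-(12 * Nε))) := by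
            rw [mul_comm (bb m n x), ← mul_assoc, ← Real.exp_add]; simp
        _ ≤ Real.exp (12 * Nε) * B := by gcongr
    calc M * bb m n x ≤ M * (Real.exp (12 * Nε) * B) := by gcongr
      _ = _ := by ring
  have hDv : 0 ≤ D * v := by positivity
  refine ⟨?_, ?_, ?_⟩
  · have e1 := fin |G| (K2 * (D * v)) (abs_nonneg _) (g0.trans (by nlinarith)) (fin2 _ (by positivity))
    refine e1.trans (le_of_eq ?_)
    ring
  · have e1 := fin |G1| (m * (K2 * (D * v))) (abs_nonneg _) (g1.trans (by gcongr))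
      (fin2 _ (by positivity))
    refine e1.trans (le_of_eq ?_)
    ring
  · have e1 := fin |G2| (m ^ 2 * (K2 * (D * v))) (abs_nonneg _) g2 (fin2 _ (by positivity))
    refine e1.trans (le_of_eq ?_)
    ring

/-- the end zones are covered by the two weights -/
theorem l42_ind {m n : ℕ} (hn : 1 ≤ n) (hnm : n ≤ m) {θ : ℝ}
    (h : |sin θ| < 1 / ((m / n : ℕ) : ℝ)) :
    1 ≤ 9 * (n : ℝ) ^ 2 * ((om m (θ - 0) ^ 2)⁻¹ + (om m (θ - π) ^ 2)⁻¹) := by
  have hr : 1 ≤ m / n := (Nat.one_le_div_iff (by omega)).2 hnm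
  have hr0 : (0 : ℝ) < ((m / n : ℕ) : ℝ) := by exact_mod_cast hr
  have hn0 : (1 : ℝ) ≤ n := by exact_mod_cast hn
  have hm0 : (0 : ℝ) < m := by exact_mod_cast (by omega : 0 < m)
  have h1 : (m : ℝ) * |sin θ| ≤ 2 * n := by
    have e1 := l42_div_ge hn hnm
    have e2 : ((m / n : ℕ) : ℝ) * |sin θ| ≤ 1 := by
      rw [lt_div_iff₀ hr0] at h
      linarith
    calc (m : ℝ) * |sin θ| ≤ 2 * n * ((m / n : ℕ) : ℝ) * |sin θ| := by gcongr
      _ = 2 * n * (((m / n : ℕ) : ℝ) * |sin θ|) := by ring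
      _ ≤ 2 * n * 1 := by gcongr
      _ = 2 * n := mul_one _
  have h2 : |sin θ| = 2 * |sin (θ / 2)| * |cos (θ / 2)| := by
    have : sin θ = 2 * sin (θ / 2) * cos (θ / 2) := by
      rw [← sin_two_mul]; congr 1; ring
    rw [this, abs_mul, abs_mul, abs_two]
  have h3 : ∀ t : ℝ, m * |sin ((θ - t) / 2)| ≤ 2 * n → 1 ≤ 9 * (n : ℝ) ^ 2 * (om m (θ - t) ^ 2)⁻¹ := by
    intro t ht
    have e1 : om m (θ - t) ≤ 3 * n := by
      rw [om]
      linarith
    have e0 := one_le_om m (θ - t)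
    rw [← div_eq_mul_inv, le_div_iff₀ (by positivity), one_mul]
    calc om m (θ - t) ^ 2 ≤ (3 * n) ^ 2 := by gcongr
      _ = 9 * (n : ℝ) ^ 2 := by ring
  have hsc : sin (θ / 2) ^ 2 + cos (θ / 2) ^ 2 = 1 := sin_sq_add_cos_sq _
  rcases le_total |sin (θ / 2)| |cos (θ / 2)| with hc | hc
  · have e1 : 1 / 2 ≤ |cos (θ / 2)| := by
      by_contra hcon
      push Not at hcon
      have e2 : |sin (θ / 2)| < 1 / 2 := lt_of_le_of_lt hc hcon
      rw [← sq_abs, ← sq_abs (cos (θ / 2))] at hsc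
      nlinarith [abs_nonneg (sin (θ / 2)), abs_nonneg (cos (θ / 2))]
    have e2 : m * |sin ((θ - 0) / 2)| ≤ 2 * n := by
      rw [sub_zero]
      refine le_trans ?_ h1
      rw [h2]
      have e3 : 0 ≤ (m : ℝ) * |sin (θ / 2)| := by positivity
      nlinarith
    have e3 := h3 0 e2
    have e4 : 0 ≤ 9 * (n : ℝ) ^ 2 * (om m (θ - π) ^ 2)⁻¹ := by positivity
    rw [mul_add]
    linarith
  · have e1 : 1 / 2 ≤ |sin (θ / 2)| := by
      by_contra hcon
      push Not at hcon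
      have e2 : |cos (θ / 2)| < 1 / 2 := lt_of_le_of_lt hc hcon
      rw [← sq_abs, ← sq_abs (cos (θ / 2))] at hsc
      nlinarith [abs_nonneg (sin (θ / 2)), abs_nonneg (cos (θ / 2))]
    have e2 : m * |sin ((θ - π) / 2)| ≤ 2 * n := by
      have e5 : |sin ((θ - π) / 2)| = |cos (θ / 2)| := by
        have : (θ - π) / 2 = θ / 2 - π / 2 := by ring
        rw [this, sin_sub_pi_div_two, abs_neg]
      rw [e5]
      refine le_trans ?_ h1
      rw [h2]
      have e3 : 0 ≤ (m : ℝ) * |cos (θ / 2)| := by positivity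
      nlinarith
    have e3 := h3 π e2
    have e4 : 0 ≤ 9 * (n : ℝ) ^ 2 * (om m (θ - 0) ^ 2)⁻¹ := by positivity
    rw [mul_add]
    linarith

/-- comparison of the unkilled `L¹` norm with `VV`, constant depending on `n`.
Proof: where `|sin| ≥ 1/r`, `|g| ≤ 8^n |h|` and `int_abs_W_le_VV`; the rest has
`∫_{|sin| < 1/r} W ≤ C n²/m²`, `|g| ≤ C(n) sup |h| ≤ C'(n) m² VV` (`gg_le_sup`, `abs_le_vv`,
`vv_le_VV`). -/
theorem int_g_le (Λ : ℝ) (hΛ : 1 ≤ Λ) (n : ℕ) (hn : 1 ≤ n) : ∃ C : ℝ, 0 < C ∧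
    ∀ (m q : ℕ) (P : Polynomial ℝ), 4 * n ≤ m → ((q : ℝ) + 2 * m) ≤ Λ * m →
    P.natDegree ≤ q → ∫ θ in (-π)..π, |gg m P θ| * W m θ ≤ C * VV m (hh m n P) := by
  obtain ⟨C0, hC0, h0⟩ := abs_le_vv Λ hΛ
  obtain ⟨C3, hC3, h3⟩ := vv_le_VV
  obtain ⟨C4, hC4, h4⟩ := int_abs_W_le_VV Λ hΛ
  set Q : ℝ := 2 * Real.exp (6 * Λ * n) * 8 ^ n * (C0 * C3) with hQ
  have hn0 : (1 : ℝ) ≤ n := by exact_mod_cast hn
  have hpi := pi_pos
  refine ⟨8 ^ n * C4 + Q * (3 * n) * (9 * (n : ℝ) ^ 2) * (4 * π), by positivity, ?_⟩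
  intro m q P hm hq hP
  have hm1 : 1 ≤ m := by omega
  have hm0 : (0 : ℝ) < m := by exact_mod_cast hm1
  set h := hh m n P with hh'
  have hTP : TP (q + 2 * m) h := hh_TP hn hP
  have hdeg : ((q + 2 * m : ℕ) : ℝ) ≤ Λ * m := by push_cast; exact hq
  have hVV : 0 ≤ VV m h := by
    apply intervalIntegral.integral_nonneg (by linarith)
    intro t _
    exact mul_nonneg (vv_nonneg m h t) (W_pos hm1 t).le
  have hsup : ∀ θ, |h θ| ≤ C0 * C3 * m ^ 2 * VV m h := by
    intro θ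
    calc |h θ| ≤ C0 * vv m h θ := h0 m _ h hm1 hdeg hTP θ
      _ ≤ C0 * (C3 * m ^ 2 * VV m h) := by
          gcongr
          exact h3 m h hm1 hTP.contDiff.continuous θ
      _ = _ := by ring
  have hgsup := gg_le_sup Λ hΛ hn hm hP (by linarith) _ hsup
  have hgQ : ∀ θ, |gg m P θ| ≤ Q * m ^ 2 * VV m h := by
    intro θ
    refine (hgsup θ).trans (le_of_eq ?_)
    rw [hQ]
    ring
  set w : ℝ → ℝ := fun θ => (om m (θ - 0) ^ 2)⁻¹ + (om m (θ - π) ^ 2)⁻¹ with hw
  have hw0 : ∀ θ, 0 ≤ w θ := fun θ => by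
    have e1 := one_le_om m (θ - 0)
    have e2 := one_le_om m (θ - π)
    positivity
  have hpt : ∀ θ, |gg m P θ| * W m θ ≤ 8 ^ n * (|h θ| * W m θ) +
      Q * m ^ 2 * VV m h * (3 * n / m) * (9 * (n : ℝ) ^ 2) * w θ := by
    intro θ
    have hW := (W_pos hm1 θ).le
    have hQ0 : 0 ≤ Q := by positivity
    rcases le_or_gt (1 / ((m / n : ℕ) : ℝ)) |sin θ| with hc | hc
    · have e1 := l42_gg_le hn (by omega) P hc
      have e2 : 0 ≤ Q * m ^ 2 * VV m h * (3 * n / m) * (9 * (n : ℝ) ^ 2) * w θ := by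
        have := hw0 θ
        positivity
      calc |gg m P θ| * W m θ ≤ 8 ^ n * |h θ| * W m θ := by gcongr
        _ = 8 ^ n * (|h θ| * W m θ) := by ring
        _ ≤ _ := by linarith
    · have e1 := l42_ind hn (by omega : n ≤ m) hc
      have e2 : W m θ ≤ 3 * n / m := by
        have hr0 : (0 : ℝ) < ((m / n : ℕ) : ℝ) := by
          exact_mod_cast (Nat.div_pos (by omega : n ≤ m) (by omega))
        have e3 := l42_div_ge hn (by omega : n ≤ m)
        have e4 : 1 / ((m / n : ℕ) : ℝ) ≤ 2 * n / m := by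
          rw [div_le_div_iff₀ hr0 hm0]
          linarith
        have e5 : (2 * n / m : ℝ) + 1 / m ≤ 3 * n / m := by
          rw [← add_div]
          gcongr
          linarith
        rw [W]
        linarith
      have e3 : 0 ≤ 8 ^ n * (|h θ| * W m θ) := by positivity
      calc |gg m P θ| * W m θ ≤ (Q * m ^ 2 * VV m h) * (3 * n / m) := by
            gcongr
            exact hgQ θ
        _ = Q * m ^ 2 * VV m h * (3 * n / m) * 1 := by ring
        _ ≤ Q * m ^ 2 * VV m h * (3 * n / m) * (9 * (n : ℝ) ^ 2 * w θ) := by gcongr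
        _ = Q * m ^ 2 * VV m h * (3 * n / m) * (9 * (n : ℝ) ^ 2) * w θ := by ring
        _ ≤ _ := by linarith
  have hcg : Continuous (gg m P) := (gg_TP (m := m) hP).contDiff.continuous
  have hch : Continuous h := hTP.contDiff.continuous
  have hcw1 : Continuous fun θ => (om m (θ - 0) ^ 2)⁻¹ := by
    apply Continuous.inv₀
    · exact ((om_continuous m).comp (continuous_id.sub continuous_const)).pow 2
    · intro θ
      have := one_le_om m (θ - 0)
      positivity
  have hcw2 : Continuous fun θ => (om m (θ - π) ^ 2)⁻¹ := by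
    apply Continuous.inv₀
    · exact ((om_continuous m).comp (continuous_id.sub continuous_const)).pow 2
    · intro θ
      have := one_le_om m (θ - π)
      positivity
  have hint : ∫ θ in (-π)..π, w θ ≤ 4 * π / m := by
    rw [hw, intervalIntegral.integral_add (hcw1.intervalIntegrable _ _)
      (hcw2.intervalIntegrable _ _)]
    have e1 := int_om_sq hm1 0
    have e2 := int_om_sq hm1 π
    have e3 : 4 * π / (m : ℝ) = 2 * π / m + 2 * π / m := by ring
    rw [e3]
    exact add_le_add e1 e2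
  have hi1 : IntervalIntegrable (fun θ => 8 ^ n * (|h θ| * W m θ)) volume (-π) π :=
    (continuous_const.mul (hch.abs.mul (W_continuous m))).intervalIntegrable _ _
  have hi2 : IntervalIntegrable (fun θ => Q * m ^ 2 * VV m h * (3 * n / m) * (9 * (n : ℝ) ^ 2) * w θ)
      volume (-π) π := (continuous_const.mul (hcw1.add hcw2)).intervalIntegrable _ _
  calc ∫ θ in (-π)..π, |gg m P θ| * W m θ
      ≤ ∫ θ in (-π)..π, (8 ^ n * (|h θ| * W m θ) +
          Q * m ^ 2 * VV m h * (3 * n / m) * (9 * (n : ℝ) ^ 2) * w θ) := by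
        apply intervalIntegral.integral_mono_on (by linarith)
        · exact (hcg.abs.mul (W_continuous m)).intervalIntegrable _ _
        · exact hi1.add hi2
        · exact fun θ _ => hpt θ
    _ = 8 ^ n * (∫ θ in (-π)..π, |h θ| * W m θ) +
          Q * m ^ 2 * VV m h * (3 * n / m) * (9 * (n : ℝ) ^ 2) * ∫ θ in (-π)..π, w θ := by
        rw [intervalIntegral.integral_add hi1 hi2, intervalIntegral.integral_const_mul,
          intervalIntegral.integral_const_mul]
    _ ≤ 8 ^ n * (C4 * VV m h) +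
          Q * m ^ 2 * VV m h * (3 * n / m) * (9 * (n : ℝ) ^ 2) * (4 * π / m) := by
        have hQ0 : 0 ≤ Q := by positivity
        gcongr
        exact h4 m _ h hm1 hdeg hTP
    _ = _ := by field_simp

end Pool.Agent.H93.Ch
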