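import Pool.Agent.H93.Ch.Cap
import Pool.Agent.H93.Ch.LocV
import Pool.Agent.H93.Ch.Gain1

/-! Module P2: the moves and the positivity.

Proof of `positivity`.  Constants: `cap` gives `C, Nε, A₁`; `locV` gives `CV`; choose `ε`
small depending on `C`, `CV` and `mu_vv_le`; then `A` large depending also on `c₀`; `n = Nε A`;
then `δ₀` from `cap`, `int_g_le` (`K₂`).
For `P` with `0 < natDegree P ≤ q` put `v = vv m h`, `V_i = CV v(x_i)/b(x_i)`, and for far nodes
(`A/m ≤ |sin x_i|`) `p_i = g(x_i)/V_i`, `c_i = g'(x_i)/(m V_i)`, `σ_i = clamp(p_i/η)`.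
(1) `gain_point`: `Γ := Σ f(x_i + u_i) - Σ f(x_i) ≥ Σ_far V_i (p_i²/8 + (c_i⁺)³ σ_i²/64)`.
(2) `Σ_far b V (|p| + c⁺) ≤ (8/ε + 64/ε²) Γ + 2 ε Σ_far b V + Σ_bad b V`, where
    `bad = {far, |p_i| < η, c_i > ε}` and `b V = CV v` (`point_ineq`).
(3) bad nodes are `ε/(2m)`-separated if `η` is small (`bad_sep`).
    So `Σ_bad v ≤ C m²/(ε A) VV` (`sum_sep_le`), `≤ C/(ε A c₀) N VV`.
(4) `Σ_far v ≤ 2 N mu v ≤ C N VV` (`mu_vv_le`).
(5) `cap`: `N VV ≤ C Σ_far b(|g| + (g')⁺/m) = C Σ_far b V(|p| + c⁺)` (the summand is even);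
    absorbing: `N VV ≤ K₅ Γ`.
(6) `|Σ f(x_i) - N sg f| ≤ N (δ₀/m) ∫ |f'| W = N δ₀ ∫ |g| W ≤ N δ₀ K₂ VV < Γ` since `VV > 0`. -/

set_option autoImplicit false

namespace Pool.Agent.H93.Ch

open Real MeasureTheory

/-- the local majorant at a node -/
noncomputable def VX (CV : ℝ) (m n : ℕ) (P : Polynomial ℝ) (y : ℝ) : ℝ :=
  CV * vv m (hh m n P) y / bb m n y

/-- displacement (in units `1/m`) of a node at `y`: zero in the end zones -/
noncomputable def mv (CV η : ℝ) (A m n : ℕ) (P : Polynomial ℝ) (y : ℝ) : ℝ :=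
  if (A : ℝ) / m ≤ |sin y| then
    (gg m P y / VX CV m n P y + max (deriv (gg m P) y / (m * VX CV m n P y)) 0 *
      max (-1) (min 1 (gg m P y / VX CV m n P y / η))) / 4
  else 0

/-- positive lower bound on a finite set -/
theorem exists_pos_le {ι : Type*} (s : Finset ι) (f : ι → ℝ) (hf : ∀ i ∈ s, 0 < f i) :
    ∃ c : ℝ, 0 < c ∧ ∀ i ∈ s, c ≤ f i := by
  classical
  induction s using Finset.induction_on with
  | empty => exact ⟨1, one_pos, by simp⟩
  | insert a s ha ih =>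
    obtain ⟨c, hc, h⟩ := ih (fun i hi => hf i (Finset.mem_insert_of_mem hi))
    refine ⟨min c (f a), lt_min hc (hf a (Finset.mem_insert_self _ _)), ?_⟩
    intro i hi
    rcases Finset.mem_insert.mp hi with rfl | hi
    · exact min_le_right _ _
    · exact (min_le_left _ _).trans (h i hi)

theorem gg_neg (m : ℕ) (P : Polynomial ℝ) (θ : ℝ) : gg m P (-θ) = -gg m P θ := by
  simp only [gg, sin_neg, cos_neg]
  ring

theorem deriv_gg_neg (m : ℕ) (P : Polynomial ℝ) (θ : ℝ) :
    deriv (gg m P) (-θ) = deriv (gg m P) θ := by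
  have h1 : deriv (fun x => gg m P (-x)) θ = - deriv (gg m P) (-θ) := deriv_comp_neg _ _
  have h2 : (fun x => gg m P (-x)) = fun x => -gg m P x := funext (gg_neg m P)
  rw [h2, deriv.fun_neg] at h1
  linarith

theorem bb_neg (m n : ℕ) (θ : ℝ) : bb m n (-θ) = bb m n θ := by
  simp only [bb, BB_neg]

theorem bb_nonneg (m n : ℕ) (θ : ℝ) : 0 ≤ bb m n θ := pow_nonneg (BB_nonneg _ _) _

theorem bb_le_one (m n : ℕ) (θ : ℝ) : bb m n θ ≤ 1 := pow_le_one₀ (BB_nonneg _ _) (BB_le_one _ _)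

theorem gg_contDiff (m : ℕ) (P : Polynomial ℝ) : ContDiff ℝ (⊤ : ℕ∞) (gg m P) :=
  (gg_TP (m := m) (le_refl P.natDegree)).contDiff

theorem ff_contDiff (P : Polynomial ℝ) : ContDiff ℝ (⊤ : ℕ∞) (ff P) :=
  (ff_TP (le_refl P.natDegree)).contDiff

theorem ff_neg (P : Polynomial ℝ) (θ : ℝ) : ff P (-θ) = ff P θ := by simp [ff]

/-- `mu` of an even function -/
theorem mu_even {N : ℕ} (x : Fin N → ℝ) {F : ℝ → ℝ} (hF : ∀ θ, F (-θ) = F θ) :
    mu x F = (∑ i, F (x i)) / N := by
  unfold mu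
  simp only [hF]
  rw [Finset.sum_add_distrib]
  rcases Nat.eq_zero_or_pos N with rfl | hN
  · simp
  · have : (N : ℝ) ≠ 0 := by exact_mod_cast hN.ne'
    field_simp
    ring

/-- the pointwise inequality (2) -/
theorem point_ineq {b V p c s ε η : ℝ} (hb0 : 0 ≤ b) (hb : b ≤ 1) (hV : 0 ≤ V) (hε : 0 < ε)
    (hη : 0 < η) (hc1 : c ≤ 1) (hs : s = max (-1) (min 1 (p / η))) :
    b * V * (|p| + max c 0) ≤ (8 / ε + 64 / ε ^ 2) * (V * (p ^ 2 / 8 + (max c 0) ^ 3 * s ^ 2 / 64))
      + 2 * ε * (b * V) + (if |p| < η ∧ ε < c then b * V else 0) := by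
  have hbV : 0 ≤ b * V := mul_nonneg hb0 hV
  have hbV1 : b * V ≤ V := by nlinarith
  have hcp : 0 ≤ max c 0 := le_max_right _ _
  -- the first term
  have h1 : |p| ≤ p ^ 2 / ε + ε := by
    have h := sq_nonneg (|p| - ε)
    have h2 : |p| ^ 2 = p ^ 2 := sq_abs p
    have h3 : ε * |p| ≤ p ^ 2 + ε ^ 2 := by nlinarith [abs_nonneg p]
    have h4 : p ^ 2 / ε + ε = (p ^ 2 + ε ^ 2) / ε := by field_simp
    rw [h4, le_div_iff₀ hε]
    linarith
  -- the second term
  have h2 : max c 0 ≤ (max c 0) ^ 3 * s ^ 2 / ε ^ 2 + ε + (if |p| < η ∧ ε < c then 1 else 0) := by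
    have hnn : 0 ≤ (max c 0) ^ 3 * s ^ 2 / ε ^ 2 := by positivity
    by_cases hcε : c ≤ ε
    · have h5 : max c 0 ≤ ε := max_le hcε hε.le
      have h6 : (0 : ℝ) ≤ (if |p| < η ∧ ε < c then 1 else 0) := by split_ifs <;> norm_num
      linarith
    · push Not at hcε
      by_cases hp : |p| < η
      · rw [if_pos ⟨hp, hcε⟩]
        have h5 : max c 0 ≤ 1 := max_le hc1 zero_le_one
        linarith
      · rw [if_neg (fun h => hp h.1)]
        push Not at hp
        have hs2 : s ^ 2 = 1 := by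
          rcases le_abs.mp hp with h | h
          · have : 1 ≤ p / η := by rw [le_div_iff₀ hη]; linarith
            rw [hs, min_eq_left this]
            norm_num
          · have h7 : p / η ≤ -1 := by rw [div_le_iff₀ hη]; linarith
            rw [hs, min_eq_right (by linarith), max_eq_left h7]
            norm_num
        have hm : max c 0 = c := max_eq_left (by linarith)
        rw [hs2, hm, mul_one]
        have : c ≤ c ^ 3 / ε ^ 2 := by
          rw [le_div_iff₀ (by positivity)]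
          have hc0 : 0 < c := by linarith
          nlinarith [mul_pos hc0 hε, mul_self_nonneg (c - ε), mul_pos hc0 hc0]
        linarith
  have h3 : b * V * (|p| + max c 0) ≤ b * V * (p ^ 2 / ε + ε + ((max c 0) ^ 3 * s ^ 2 / ε ^ 2 + ε
      + (if |p| < η ∧ ε < c then 1 else 0))) := by
    apply mul_le_mul_of_nonneg_left _ hbV
    linarith
  have h4 : b * V * (if |p| < η ∧ ε < c then 1 else 0) = if |p| < η ∧ ε < c then b * V else 0 := by
    split_ifs <;> simp
  have h5 : b * V * (p ^ 2 / ε) ≤ V * (p ^ 2 / ε) :=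
    mul_le_mul_of_nonneg_right hbV1 (by positivity)
  have h6 : b * V * ((max c 0) ^ 3 * s ^ 2 / ε ^ 2) ≤ V * ((max c 0) ^ 3 * s ^ 2 / ε ^ 2) :=
    mul_le_mul_of_nonneg_right hbV1 (by positivity)
  have h7 : V * (p ^ 2 / ε) = 8 / ε * (V * (p ^ 2 / 8)) := by field_simp
  have h8 : V * ((max c 0) ^ 3 * s ^ 2 / ε ^ 2)
      = 64 / ε ^ 2 * (V * ((max c 0) ^ 3 * s ^ 2 / 64)) := by field_simp
  have h9 : 0 ≤ 8 / ε * (V * ((max c 0) ^ 3 * s ^ 2 / 64)) := by positivity
  have h10 : 0 ≤ 64 / ε ^ 2 * (V * (p ^ 2 / 8)) := by positivity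
  nlinarith [h3, h4, h5, h6, h7, h8, h9, h10]

/-- bad nodes are separated -/
theorem bad_sep {g : ℝ → ℝ} (hg : ContDiff ℝ (⊤ : ℕ∞) g) {m ε V W η x y γ : ℝ} (hm : 0 < m)
    (hε0 : 0 < ε) (hε1 : ε ≤ 1) (hV : 0 < V)
    (h2 : ∀ z, |z - x| ≤ 1 / m → |deriv (deriv g) z| ≤ m ^ 2 * V)
    (hgx : |g x| < η * V) (hgy : |g y| < η * W) (hc : ε < deriv g x / (m * V))
    (hγ : γ ≤ |y - x|) (hη : η * (V + W) ≤ ε / 2 * m * V * γ) : ε / 2 / m ≤ |y - x| := by
  by_contra hlt
  push Not at hlt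
  have hmV : 0 < m * V := mul_pos hm hV
  rw [lt_div_iff₀ hmV] at hc
  have hg1 : Differentiable ℝ g := (contDiff_infty_iff_deriv.mp hg).1
  have hg2 : Differentiable ℝ (deriv g) :=
    (contDiff_infty_iff_deriv.mp (contDiff_infty_iff_deriv.mp hg).2).1
  have hr1 : ε / 2 / m ≤ 1 / m := by
    apply div_le_div_of_nonneg_right _ hm.le
    linarith
  have hconv : Convex ℝ (Metric.closedBall x (ε / 2 / m)) := convex_closedBall _ _
  have hr0 : 0 < ε / 2 / m := by positivity
  have hxb : x ∈ Metric.closedBall x (ε / 2 / m) := Metric.mem_closedBall_self hr0.le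
  have hyb : y ∈ Metric.closedBall x (ε / 2 / m) := by
    rw [Metric.mem_closedBall, Real.dist_eq]; exact hlt.le
  have hder : ∀ z ∈ Metric.closedBall x (ε / 2 / m), ε / 2 * (m * V) ≤ deriv g z := by
    intro z hz
    have hz' : |z - x| ≤ ε / 2 / m := by rwa [Metric.mem_closedBall, Real.dist_eq] at hz
    have h3 := hconv.norm_image_sub_le_of_norm_deriv_le (f := deriv g) (C := m ^ 2 * V)
      (fun w _ => hg2 w) (fun w hw => by
        rw [Metric.mem_closedBall, Real.dist_eq] at hw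
        rw [Real.norm_eq_abs]
        exact h2 w (hw.trans hr1)) hxb hz
    rw [Real.norm_eq_abs, Real.norm_eq_abs] at h3
    have h4 : m ^ 2 * V * |z - x| ≤ m ^ 2 * V * (ε / 2 / m) :=
      mul_le_mul_of_nonneg_left hz' (by positivity)
    have h5 : m ^ 2 * V * (ε / 2 / m) = ε / 2 * (m * V) := by field_simp
    have h6 := (abs_le.mp (h3.trans (h4.trans h5.le))).1
    linarith
  have hmono : MonotoneOn (fun t => g t - ε / 2 * (m * V) * t) (Metric.closedBall x (ε / 2 / m)) := by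
    apply monotoneOn_of_deriv_nonneg hconv
    · exact ((hg1.continuous).sub (continuous_const.mul continuous_id)).continuousOn
    · intro t _
      exact ((hg1 t).sub ((differentiableAt_id).const_mul _)).differentiableWithinAt
    · intro t ht
      have ht' := interior_subset ht
      have : deriv (fun t => g t - ε / 2 * (m * V) * t) t = deriv g t - ε / 2 * (m * V) := by
        have h7 : HasDerivAt (fun t => g t - ε / 2 * (m * V) * t)
            (deriv g t - ε / 2 * (m * V) * 1) t :=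
          (hg1 t).hasDerivAt.sub ((hasDerivAt_id t).const_mul _)
        rw [h7.deriv]; ring
      rw [this]
      linarith [hder t ht']
  have hlow : ε / 2 * (m * V) * |y - x| ≤ |g y - g x| := by
    rcases le_total x y with hxy | hxy
    · have h8 := hmono hxb hyb hxy
      simp only at h8
      rw [abs_of_nonneg (sub_nonneg.mpr hxy)]
      have h9 := le_abs_self (g y - g x)
      nlinarith
    · have h8 := hmono hyb hxb hxy
      simp only at h8
      rw [abs_of_nonpos (sub_nonpos.mpr hxy)]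
      have h9 := neg_abs_le (g y - g x)
      nlinarith
  have hup : |g y - g x| < η * (V + W) := by
    have h9 := abs_sub (g y) (g x)
    linarith
  have h10 : ε / 2 * (m * V) * γ ≤ ε / 2 * (m * V) * |y - x| :=
    mul_le_mul_of_nonneg_left hγ (by positivity)
  nlinarith

theorem VV_pos {m n q : ℕ} (hm : 1 ≤ m) (hn : 1 ≤ n) (hnm : n ≤ m) {P : Polynomial ℝ}
    (hP : P.natDegree ≤ q) (hP0 : 0 < P.natDegree) : 0 < VV m (hh m n P) := by
  have hTP := hh_TP (m := m) hn hP
  have hc : Continuous (hh m n P) := hTP.contDiff.continuous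
  unfold VV
  apply intervalIntegral.intervalIntegral_pos_of_pos_on
  · exact ((vv_continuous hm hc).mul (W_continuous m)).intervalIntegrable _ _
  · intro t _
    exact mul_pos (vv_pos hm hTP (hh_ne_zero hm hn hnm hP0) t) (W_pos hm t)
  · linarith [pi_pos]

/-- total gain is positive and beats the quadrature error.  `c₀ m² ≤ N`. -/
theorem positivity (Λ c₀ : ℝ) (hΛ : 1 ≤ Λ) (hc₀ : 0 < c₀) :
    ∃ (CV δ₀ : ℝ) (A n m₀ : ℕ), 0 < CV ∧ 0 < δ₀ ∧ 1 ≤ A ∧ 1 ≤ n ∧
    ∀ (N p m q : ℕ) (x : Fin N → ℝ), 0 < N → 1 ≤ m → m₀ ≤ m → (p : ℝ) ≤ Λ * m → q + 7 * m ≤ p →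
    c₀ * m ^ 2 ≤ N → NE p m δ₀ x → (∀ i, x i ∈ Set.Icc 0 π) → Function.Injective x →
    (∀ i, (A : ℝ) / m ≤ |sin (x i)| → 0 < bb m n (x i)) ∧
    ∃ η : ℝ, 0 < η ∧ ∀ P : Polynomial ℝ, P.natDegree ≤ q → 0 < P.natDegree →
      N * sg (ff P) < ∑ i, ff P (x i + mv CV η A m n P (x i) / m) := by
  classical
  obtain ⟨C₁, Nε, A₁, hC₁, hNε, hA₁, hcap⟩ := cap Λ hΛ
  obtain ⟨CV, hCV, hloc⟩ := locV Λ hΛ Nε hNε
  obtain ⟨C₂, hC₂, hmu⟩ := mu_vv_le
  obtain ⟨C₃, hC₃, hsep⟩ := sum_sep_le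
  obtain ⟨C₄, hC₄, hshift⟩ := vv_shift
  -- choice of `ε`
  obtain ⟨ε, hε0, hε1, hεC⟩ : ∃ ε : ℝ, 0 < ε ∧ ε ≤ 1 ∧ 16 * C₁ * CV * C₂ * ε ≤ 1 := by
    refine ⟨min 1 (1 / (16 * C₁ * CV * C₂)), by positivity, min_le_left _ _, ?_⟩
    have h := min_le_right 1 (1 / (16 * C₁ * CV * C₂))
    have hpos : 0 < 16 * C₁ * CV * C₂ := by positivity
    calc 16 * C₁ * CV * C₂ * min 1 (1 / (16 * C₁ * CV * C₂))
        ≤ 16 * C₁ * CV * C₂ * (1 / (16 * C₁ * CV * C₂)) := mul_le_mul_of_nonneg_left h hpos.le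
      _ = 1 := by field_simp
  -- choice of `A`
  obtain ⟨A₂, hA₂⟩ := exists_nat_ge (8 * C₁ * CV * C₃ / (ε * c₀))
  set A : ℕ := max (max A₁ 2) A₂ with hAdef
  have hAA₁ : A₁ ≤ A := (le_max_left _ _).trans (le_max_left _ _)
  have hA2 : 2 ≤ A := (le_max_right _ _).trans (le_max_left _ _)
  have hA2' : (2 : ℝ) ≤ A := by exact_mod_cast hA2
  have hA0 : (0 : ℝ) < A := by linarith
  have hAε : 8 * C₁ * CV * C₃ ≤ A * (ε * c₀) := by
    have h : (A₂ : ℝ) ≤ A := by exact_mod_cast le_max_right _ _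
    have h2 := hA₂.trans h
    rwa [div_le_iff₀ (by positivity)] at h2
  obtain ⟨δ₁, m₁, hδ₁, hδ₁1, hcapA⟩ := hcap A hAA₁
  set n : ℕ := Nε * A with hndef
  have hn : 1 ≤ n := Nat.one_le_iff_ne_zero.mpr (by positivity)
  obtain ⟨K₂, hK₂, hint⟩ := int_g_le Λ hΛ n hn
  set K₄ : ℝ := 8 / ε + 64 / ε ^ 2 with hK₄
  have hK₄0 : 0 < K₄ := by positivity
  set K₅ : ℝ := 2 * C₁ * K₄ with hK₅
  have hK₅0 : 0 < K₅ := by positivity
  set δ₀ : ℝ := min δ₁ (1 / (2 * K₂ * K₅)) with hδ₀
  have hδ₀0 : 0 < δ₀ := by positivity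
  have hδ₀1 : δ₀ ≤ δ₁ := min_le_left _ _
  have hδ₀K : δ₀ * (2 * K₂ * K₅) ≤ 1 := by
    have h := min_le_right δ₁ (1 / (2 * K₂ * K₅))
    calc δ₀ * (2 * K₂ * K₅) ≤ 1 / (2 * K₂ * K₅) * (2 * K₂ * K₅) :=
          mul_le_mul_of_nonneg_right h (by positivity)
      _ = 1 := by field_simp
  refine ⟨CV, δ₀, A, n, max m₁ (4 * n), hCV, hδ₀0, by omega, hn, ?_⟩
  intro N p m q x hN hm1 hm₀ hpΛ hqp hc₀N hNE hx hinj
  have hm : (0 : ℝ) < m := by exact_mod_cast hm1
  have hm1' : (1 : ℝ) ≤ m := by exact_mod_cast hm1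
  have hNr : (0 : ℝ) < N := by exact_mod_cast hN
  have hmm₁ : m₁ ≤ m := (le_max_left _ _).trans hm₀
  have h4n : 4 * n ≤ m := (le_max_right _ _).trans hm₀
  have hnm : n ≤ m := by omega
  have hq2 : (q : ℝ) + 2 * m ≤ Λ * m := by
    refine le_trans ?_ hpΛ
    exact_mod_cast (by omega : q + 2 * m ≤ p)
  have h2mp : 2 * m ≤ p := by omega
  have hqp' : q ≤ p := by omega
  -- positivity of `b` at the far nodes
  have hbpos : ∀ i, (A : ℝ) / m ≤ |sin (x i)| → 0 < bb m n (x i) := by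
    intro i hi
    exact (hloc A m q 0 hA2 hnm hq2 (by simp) (x i) (x i) hi (by simp)).1
  refine ⟨hbpos, ?_⟩
  -- the parameters `β`, `γ`, `D`, `η`
  obtain ⟨β, hβ0, hβ⟩ := exists_pos_le (Finset.univ.filter fun i => (A : ℝ) / m ≤ |sin (x i)|)
    (fun i => bb m n (x i)) (fun i hi => hbpos i (Finset.mem_filter.mp hi).2)
  obtain ⟨γ, hγ0, hγ⟩ := exists_pos_le
    ((Finset.univ : Finset (Fin N × Fin N)).filter fun z => z.1 ≠ z.2)
    (fun z => |x z.2 - x z.1|) (fun z hz => by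
      have hne := (Finset.mem_filter.mp hz).2
      exact abs_pos.mpr (sub_ne_zero.mpr (fun h => hne (hinj h).symm)))
  set D : ℝ := C₄ * (1 + m) ^ 4 / β with hD
  have hD0 : 0 < D := by positivity
  set η : ℝ := ε / 2 * m * γ / (1 + D) with hη
  have hη0 : 0 < η := by positivity
  refine ⟨η, hη0, ?_⟩
  intro P hPq hP0
  -- abbreviations
  set h := hh m n P with hhdef
  have hhTP : TP (q + 2 * m) h := hh_TP hn hPq
  have hhc : Continuous h := hhTP.contDiff.continuous
  have hhp : Function.Periodic h (2 * π) := hhTP.periodic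
  have hhne := hh_ne_zero hm1 hn hnm hP0
  set v : ℝ → ℝ := vv m h with hv
  have hvpos : ∀ t, 0 < v t := fun t => vv_pos hm1 hhTP hhne t
  set V : Fin N → ℝ := fun i => VX CV m n P (x i) with hVdef
  have hVV : 0 < VV m h := VV_pos hm1 hn hnm hPq hP0
  have hV : ∀ i, V i = CV * v (x i) / bb m n (x i) := fun i => rfl
  have hVpos : ∀ i, (A : ℝ) / m ≤ |sin (x i)| → 0 < V i := by
    intro i hi
    have := hbpos i hi
    have := hvpos (x i)
    rw [hV]; positivity
  have hbV : ∀ i, (A : ℝ) / m ≤ |sin (x i)| → bb m n (x i) * V i = CV * v (x i) := by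
    intro i hi
    have := (hbpos i hi).ne'
    rw [hV]; field_simp
  have hL : ∀ i, (A : ℝ) / m ≤ |sin (x i)| → ∀ y, |y - x i| ≤ 1 / m →
      |gg m P y| ≤ V i ∧ |deriv (gg m P) y| ≤ m * V i ∧
      |deriv (deriv (gg m P)) y| ≤ m ^ 2 * V i := by
    intro i hi y hy
    exact (hloc A m q P hA2 hnm hq2 hPq (x i) y hi hy).2
  set g := gg m P with hg
  set f := ff P with hf
  have hfd : deriv f = fun θ => m * g θ := deriv_ff hm1 P
  have hfd2 : deriv (deriv f) = fun θ => m * deriv g θ := by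
    rw [hfd]; ext θ; exact deriv_const_mul_field _
  have hfd3 : deriv (deriv (deriv f)) = fun θ => m * deriv (deriv g) θ := by
    rw [hfd2]; ext θ; exact deriv_const_mul_field _
  have hfC : ContDiff ℝ 3 f := (ff_contDiff P).of_le (by
    have : ((3 : ℕ∞) : WithTop ℕ∞) ≤ ((⊤ : ℕ∞) : WithTop ℕ∞) := WithTop.coe_le_coe.mpr le_top
    exact this)
  -- the gains
  set Γ : Fin N → ℝ := fun i => f (x i + mv CV η A m n P (x i) / m) - f (x i) with hΓ
  set σ : Fin N → ℝ := fun i => max (-1) (min 1 (g (x i) / V i / η)) with hσ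
  have hσ1 : ∀ i, |σ i| ≤ 1 := by
    intro i
    rw [abs_le]
    exact ⟨le_max_left _ _, max_le (by norm_num) (min_le_left _ _)⟩
  have hgain : ∀ i, (A : ℝ) / m ≤ |sin (x i)| →
      V i * ((g (x i) / V i) ^ 2 / 8 + (max (deriv g (x i) / (m * V i)) 0) ^ 3 * σ i ^ 2 / 64)
        ≤ Γ i := by
    intro i hi
    have hVi := hVpos i hi
    have hLi := hL i hi (x i) (by rw [sub_self, abs_zero]; positivity)
    have hσs : 0 ≤ deriv f (x i) * σ i := by
      rw [hfd]
      show 0 ≤ m * g (x i) * σ i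
      rcases le_total 0 (g (x i)) with hg0 | hg0
      · have : 0 ≤ σ i := le_max_of_le_right (le_min zero_le_one (by positivity))
        positivity
      · have h1 : g (x i) / V i / η ≤ 0 :=
          div_nonpos_of_nonpos_of_nonneg (div_nonpos_of_nonpos_of_nonneg hg0 hVi.le) hη0.le
        have h2 : σ i ≤ 0 := max_le (by norm_num) ((min_le_right _ _).trans h1)
        have := mul_nonneg_of_nonpos_of_nonpos hg0 h2
        calc 0 ≤ m * (g (x i) * σ i) := by positivity
          _ = _ := by ring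
    have key := gain_point f hfC (x i) (V i) m (σ i) hVi hm
      (by rw [hfd]; show |(m : ℝ) * g (x i)| ≤ m * V i
          rw [abs_mul, abs_of_pos hm]; exact mul_le_mul_of_nonneg_left hLi.1 hm.le)
      (by rw [hfd2]; show |(m : ℝ) * deriv g (x i)| ≤ m ^ 2 * V i
          rw [abs_mul, abs_of_pos hm, pow_two, mul_assoc]
          exact mul_le_mul_of_nonneg_left hLi.2.1 hm.le)
      (by
        intro y hy
        rw [hfd3]; show |(m : ℝ) * deriv (deriv g) y| ≤ m ^ 3 * V i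
        rw [abs_mul, abs_of_pos hm, pow_succ' (m : ℝ) 2, mul_assoc]
        exact mul_le_mul_of_nonneg_left (hL i hi y hy).2.2 hm.le)
      (hσ1 i) hσs
    have e1 : deriv f (x i) / (m * V i) = g (x i) / V i := by
      rw [hfd]; show m * g (x i) / (m * V i) = _
      rw [mul_div_mul_left _ _ hm.ne']
    have e2 : deriv (deriv f) (x i) / (m ^ 2 * V i) = deriv g (x i) / (m * V i) := by
      rw [hfd2]; show m * deriv g (x i) / (m ^ 2 * V i) = _
      rw [pow_two, mul_assoc, mul_div_mul_left _ _ hm.ne']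
    rw [e1, e2] at key
    refine key.trans (le_of_eq ?_)
    rw [hΓ]
    show f _ - f _ = f _ - f _
    congr 3
    unfold mv
    rw [if_pos hi]
  have hnogain : ∀ i, ¬ (A : ℝ) / m ≤ |sin (x i)| → Γ i = 0 := by
    intro i hi
    rw [hΓ]
    simp only [mv, if_neg hi, zero_div, add_zero, sub_self]
  -- bad nodes
  set bad : Finset (Fin N) := Finset.univ.filter fun i => (A : ℝ) / m ≤ |sin (x i)| ∧
    (|g (x i) / V i| < η ∧ ε < deriv g (x i) / (m * V i)) with hbad
  have hVcomp : ∀ i j, (A : ℝ) / m ≤ |sin (x i)| → (A : ℝ) / m ≤ |sin (x j)| → V j ≤ D * V i := by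
    intro i j hi hj
    have hbi := hbpos i hi
    have hβj : β ≤ bb m n (x j) := hβ j (Finset.mem_filter.mpr ⟨Finset.mem_univ _, hj⟩)
    have hbj := hbpos j hj
    have hvi := hvpos (x i)
    have h1 : v (x j) ≤ C₄ * om m (x j - x i) ^ 4 * v (x i) := hshift m h hm1 hhc (x j) (x i)
    have h2 : om m (x j - x i) ≤ 1 + m := by
      unfold om
      have := abs_sin_le_one ((x j - x i) / 2)
      nlinarith
    have h3 : om m (x j - x i) ^ 4 ≤ (1 + m) ^ 4 :=
      pow_le_pow_left₀ (zero_le_one.trans (one_le_om _ _)) h2 4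
    have h4 : v (x j) ≤ C₄ * (1 + m) ^ 4 * v (x i) :=
      h1.trans (mul_le_mul_of_nonneg_right (mul_le_mul_of_nonneg_left h3 hC₄.le) hvi.le)
    have h5 : v (x i) ≤ v (x i) / bb m n (x i) := by
      rw [le_div_iff₀ hbi]
      nlinarith [bb_le_one m n (x i)]
    rw [hV j, hV i, hD]
    calc CV * v (x j) / bb m n (x j) ≤ CV * v (x j) / β := by
          apply div_le_div_of_nonneg_left _ hβ0 hβj
          exact mul_nonneg hCV.le (hvpos _).le
      _ ≤ CV * (C₄ * (1 + m) ^ 4 * v (x i)) / β := by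
          apply div_le_div_of_nonneg_right _ hβ0.le
          exact mul_le_mul_of_nonneg_left h4 hCV.le
      _ ≤ CV * (C₄ * (1 + m) ^ 4 * (v (x i) / bb m n (x i))) / β := by
          apply div_le_div_of_nonneg_right _ hβ0.le
          apply mul_le_mul_of_nonneg_left _ hCV.le
          exact mul_le_mul_of_nonneg_left h5 (by positivity)
      _ = _ := by ring
  have hbadsep : ∀ i ∈ bad, ∀ j ∈ bad, i ≠ j → ε / 2 / m ≤ |x i - x j| := by
    intro i hi j hj hij
    obtain ⟨hif, hip, hic⟩ := (Finset.mem_filter.mp hi).2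
    obtain ⟨hjf, hjp, -⟩ := (Finset.mem_filter.mp hj).2
    have hVi := hVpos i hif
    have hVj := hVpos j hjf
    rw [abs_sub_comm]
    refine bad_sep (g := g) (gg_contDiff m P) hm hε0 hε1 hVi (η := η) (W := V j) (γ := γ)
      (fun z hz => (hL i hif z hz).2.2) ?_ ?_ hic ?_ ?_
    · rwa [abs_div, abs_of_pos hVi, div_lt_iff₀ hVi] at hip
    · rwa [abs_div, abs_of_pos hVj, div_lt_iff₀ hVj] at hjp
    · exact hγ (i, j) (Finset.mem_filter.mpr ⟨Finset.mem_univ _, hij⟩)
    · calc η * (V i + V j) ≤ η * (V i + D * V i) := by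
            apply mul_le_mul_of_nonneg_left _ hη0.le
            linarith [hVcomp i j hif hjf]
        _ = η * (1 + D) * V i := by ring
        _ = ε / 2 * m * γ * V i := by rw [hη]; field_simp
        _ = ε / 2 * m * V i * γ := by ring
        _ ≤ _ := le_refl _
  have hbadsum : ∑ i ∈ bad, v (x i) ≤ C₃ * m ^ 2 / (ε / 2 * A) * VV m h :=
    hsep N m x bad (ε / 2) A h hm1 (by positivity) (by linarith) hA2' hhc hhp hx
      (fun i hi => (Finset.mem_filter.mp hi).2.1) hbadsep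
  -- the sum over all nodes
  have hallsum : ∑ i, v (x i) ≤ 2 * N * (C₂ * VV m h) := by
    have h1 := hmu N p m x δ₀ h hm1 h2mp hδ₀0.le (hδ₀1.trans hδ₁1) hNE hhc hhp
    unfold mu at h1
    rw [div_le_iff₀ (by positivity)] at h1
    have h2 : ∑ i, v (x i) ≤ ∑ i, (vv m h (x i) + vv m h (-x i)) :=
      Finset.sum_le_sum fun i _ => by
        have := vv_nonneg m h (-x i)
        show vv m h (x i) ≤ _
        linarith
    linarith
  -- the capacity inequality
  set φ : ℝ → ℝ := fun θ => if (A : ℝ) / m ≤ |sin θ| then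
      bb m n θ * (|g θ| + max (deriv g θ / m) 0) else 0 with hφ
  have hφe : ∀ θ, φ (-θ) = φ θ := by
    intro θ
    simp only [hφ, sin_neg, abs_neg, bb_neg, hg, gg_neg, deriv_gg_neg]
  have hcap1 : VV m h ≤ C₁ * ((∑ i, φ (x i)) / N) := by
    have h1 := hcapA N p m q x δ₀ P hN hm1 hmm₁ hpΛ hqp hδ₀0.le hδ₀1 hNE hPq
    rw [← mu_even x hφe]
    exact h1
  have hpoint : ∀ i, φ (x i) ≤ K₄ * Γ i + 2 * ε * (CV * v (x i))
      + (if i ∈ bad then CV * v (x i) else 0) := by
    intro i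
    have hvi := hvpos (x i)
    by_cases hi : (A : ℝ) / m ≤ |sin (x i)|
    · have hVi := hVpos i hi
      have hbVi := hbV i hi
      have hLi := hL i hi (x i) (by rw [sub_self, abs_zero]; positivity)
      have hc1 : deriv g (x i) / (m * V i) ≤ 1 := by
        rw [div_le_one (by positivity)]
        exact (le_abs_self _).trans hLi.2.1
      have h1 := point_ineq (b := bb m n (x i)) (V := V i) (p := g (x i) / V i)
        (c := deriv g (x i) / (m * V i)) (s := σ i) (ε := ε) (η := η) (bb_nonneg _ _ _)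
        (bb_le_one _ _ _) hVi.le hε0 hη0 hc1 rfl
      have h2 : φ (x i) = bb m n (x i) * V i *
          (|g (x i) / V i| + max (deriv g (x i) / (m * V i)) 0) := by
        have e1 : |g (x i) / V i| = |g (x i)| / V i := by rw [abs_div, abs_of_pos hVi]
        have e2 : max (deriv g (x i) / (m * V i)) 0 = max (deriv g (x i) / m) 0 / V i := by
          rw [← max_div_div_right hVi.le, zero_div, div_div]
        rw [e1, e2]
        simp only [hφ, if_pos hi]
        field_simp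
      have h3 : (i ∈ bad) ↔ (|g (x i) / V i| < η ∧ ε < deriv g (x i) / (m * V i)) := by
        rw [hbad, Finset.mem_filter]
        simp [hi]
      rw [h2]
      refine h1.trans ?_
      rw [hbVi]
      have h4 := mul_le_mul_of_nonneg_left (hgain i hi) hK₄0.le
      have h5 : (if |g (x i) / V i| < η ∧ ε < deriv g (x i) / (m * V i) then CV * v (x i) else 0)
          = if i ∈ bad then CV * v (x i) else 0 := by
        by_cases hb : i ∈ bad
        · rw [if_pos hb, if_pos (h3.mp hb)]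
        · rw [if_neg hb, if_neg (fun h => hb (h3.mpr h))]
      rw [h5]
      linarith
    · have h1 : φ (x i) = 0 := by simp only [hφ, if_neg hi]
      have h2 : (0 : ℝ) ≤ if i ∈ bad then CV * v (x i) else 0 := by
        split_ifs
        · positivity
        · exact le_refl _
      rw [h1, hnogain i hi]
      have : 0 ≤ 2 * ε * (CV * v (x i)) := by positivity
      linarith
  have hsumφ : ∑ i, φ (x i) ≤ K₄ * (∑ i, Γ i) + 2 * ε * (CV * ∑ i, v (x i))
      + CV * ∑ i ∈ bad, v (x i) := by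
    calc ∑ i, φ (x i) ≤ ∑ i, (K₄ * Γ i + 2 * ε * (CV * v (x i))
          + (if i ∈ bad then CV * v (x i) else 0)) := Finset.sum_le_sum fun i _ => hpoint i
      _ = _ := by
        rw [Finset.sum_add_distrib, Finset.sum_add_distrib, ← Finset.mul_sum, ← Finset.mul_sum,
          ← Finset.mul_sum, Finset.sum_ite_mem, Finset.univ_inter, ← Finset.mul_sum]
  -- absorbing
  set G : ℝ := ∑ i, Γ i with hG
  have habs : N * VV m h ≤ K₅ * G := by
    have h1 : N * VV m h ≤ C₁ * ∑ i, φ (x i) := by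
      have : C₁ * ((∑ i, φ (x i)) / N) * N = C₁ * ∑ i, φ (x i) := by field_simp
      nlinarith [mul_le_mul_of_nonneg_right hcap1 hNr.le]
    have h2 : C₁ * (2 * ε * (CV * ∑ i, v (x i))) ≤ 1 / 4 * (N * VV m h) := by
      calc C₁ * (2 * ε * (CV * ∑ i, v (x i)))
          ≤ C₁ * (2 * ε * (CV * (2 * N * (C₂ * VV m h)))) := by
            have := hallsum
            gcongr
        _ = (16 * C₁ * CV * C₂ * ε) * (1 / 4 * (N * VV m h)) := by ring
        _ ≤ 1 * (1 / 4 * (N * VV m h)) := mul_le_mul_of_nonneg_right hεC (by positivity)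
        _ = _ := one_mul _
    have h3 : C₁ * (CV * ∑ i ∈ bad, v (x i)) ≤ 1 / 4 * (N * VV m h) := by
      calc C₁ * (CV * ∑ i ∈ bad, v (x i))
          ≤ C₁ * (CV * (C₃ * m ^ 2 / (ε / 2 * A) * VV m h)) := by
            have := hbadsum
            gcongr
        _ = 8 * C₁ * CV * C₃ * (m ^ 2 / (4 * (ε * A))) * VV m h := by
            field_simp; ring
        _ ≤ A * (ε * c₀) * (m ^ 2 / (4 * (ε * A))) * VV m h := by
            gcongr
        _ = 1 / 4 * (c₀ * m ^ 2 * VV m h) := by field_simp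
        _ ≤ _ := by gcongr
    have h4 : C₁ * (K₄ * G + 2 * ε * (CV * ∑ i, v (x i)) + CV * ∑ i ∈ bad, v (x i))
        = C₁ * K₄ * G + C₁ * (2 * ε * (CV * ∑ i, v (x i))) + C₁ * (CV * ∑ i ∈ bad, v (x i)) := by
      ring
    have h5 := mul_le_mul_of_nonneg_left hsumφ hC₁.le
    rw [h4] at h5
    have h6 : N * VV m h ≤ C₁ * K₄ * G + 1 / 4 * (N * VV m h) + 1 / 4 * (N * VV m h) := by
      linarith
    rw [hK₅]
    linarith
  -- the quadrature error
  have hquad : |(∑ i, f (x i)) / N - sg f| ≤ δ₀ * (K₂ * VV m h) := by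
    have h1 := hNE f ((ff_TP hPq).mono hqp')
    rw [mu_even x (ff_neg P)] at h1
    refine h1.trans ?_
    have h2 : ∫ θ in (-π)..π, |deriv f θ| * W m θ = m * ∫ θ in (-π)..π, |g θ| * W m θ := by
      rw [← intervalIntegral.integral_const_mul]
      congr 1
      ext θ
      rw [hfd]
      show |(m : ℝ) * g θ| * W m θ = _
      rw [abs_mul, abs_of_pos hm]; ring
    rw [h2]
    have h3 := hint m q P h4n hq2 hPq
    calc δ₀ / m * (m * ∫ θ in (-π)..π, |g θ| * W m θ) = δ₀ * ∫ θ in (-π)..π, |g θ| * W m θ := by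
          field_simp
      _ ≤ _ := mul_le_mul_of_nonneg_left h3 hδ₀0.le
  have hfin : N * sg f - ∑ i, f (x i) < G := by
    have h1 : sg f - (∑ i, f (x i)) / N ≤ δ₀ * (K₂ * VV m h) := by
      have := (abs_le.mp hquad).1
      linarith
    have h2 : N * sg f - ∑ i, f (x i) ≤ N * (δ₀ * (K₂ * VV m h)) := by
      have h3 := mul_le_mul_of_nonneg_left h1 hNr.le
      have h4 : (N : ℝ) * (sg f - (∑ i, f (x i)) / N) = N * sg f - ∑ i, f (x i) := by
        field_simp
      linarith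
    have h5 : 0 < N * VV m h := by positivity
    have h6 : K₅ * (N * (δ₀ * (K₂ * VV m h))) ≤ 1 / 2 * (N * VV m h) := by
      calc K₅ * (N * (δ₀ * (K₂ * VV m h))) = (δ₀ * (2 * K₂ * K₅)) * (1 / 2 * (N * VV m h)) := by ring
        _ ≤ 1 * (1 / 2 * (N * VV m h)) := mul_le_mul_of_nonneg_right hδ₀K (by positivity)
        _ = _ := one_mul _
    have h7 : K₅ * (N * (δ₀ * (K₂ * VV m h))) < K₅ * G := by linarith
    have h8 := lt_of_mul_lt_mul_left h7 hK₅0.le
    linarith
  have hGs : G = (∑ i, f (x i + mv CV η A m n P (x i) / m)) - ∑ i, f (x i) := by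
    rw [hG, hΓ, Finset.sum_sub_distrib]
  linarith

end Pool.Agent.H93.Ch
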