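import Pool.Agent.H93.Ch.Cap02

/-! Module C0: from the `L²` sampling inequality to the weighted `L¹` capacity inequality.

Proof.  Fix `t₀`, windows `κ_a(s) = Fej(s-t₀)²`, `κ_b(s) = Fej(s-t₀-π/m)²`, `G = h κ_i`
(degree `≤ d + 2m`), `e(t₀) = ω(t₀)^(-4) + ω(t₀-π)^(-4)`.
* For `|sin θ| < K A/m`: `ω(θ)` or `ω(θ-π)` is `≤ C K A`, so
  `ω(θ-t₀)^(-4) ≤ (C K A)^4 e(t₀)`; hence `|G θ| ≤ C K⁴ A⁴ S e(t₀)` there.
* `samp` for both windows (`G' = h' κ_i + h κ_i'`, `κ_i'² ≤ C m² kap`, `κ_i² ≤ kap`) gives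
  `v(t₀)² ≤ C m mu((h² + h'²/m²) kap(.-t₀)/MA) + C A^11 S² e(t₀)²`.
* nodes with `|sin θ| < A/m` contribute at most `C m (m/A) mu_near S² A^8 e(t₀)² ≤ C A^9 S² e(t₀)²`
  (`mu_near`); on the others `MA = |sin θ|`, `|h|, |h'|/m ≤ C v(θ)` (`abs_le_vv`,
  `vv_deriv_le`), `v(θ) ≤ C ω(θ-t₀)^4 v(t₀)` (`vv_shift`), so
  `v(t₀)² ≤ C v(t₀) m I(t₀) + (C A^6 S e(t₀))²`,
  `I(t₀) = mu(1_{far} (|h|+|h'|/m)/|sin θ| ω(θ-t₀)^(-4))`, hence
  `v(t₀) ≤ C m I(t₀) + C A^6 S e(t₀)`.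
* integrate against `W(t₀)`: `∫ ω(θ-t₀)^(-4) W(t₀) dt₀ ≤ (4π/m) W(θ)` (`int_om_W`),
  `W(θ)/|sin θ| ≤ 2` for far `θ`, `∫ e W ≤ 8π/m²`. -/

set_option autoImplicit false

namespace Pool.Agent.H93.Ch

open Real MeasureTheory

/-- the local estimate at `t` -/
theorem cap_local (Λ : ℝ) (hΛ : 1 ≤ Λ) : ∃ C₂ C₃ K A₀ δ₀ : ℝ, 0 < C₂ ∧ 0 < C₃ ∧ 1 ≤ K ∧
    1 ≤ A₀ ∧ 0 < δ₀ ∧ δ₀ ≤ 1 ∧
    ∀ (N p m d : ℕ) (x : Fin N → ℝ) (A δ S : ℝ) (h : ℝ → ℝ), 0 < N → 1 ≤ m →
    (p : ℝ) ≤ Λ * m → d + 5 * m ≤ p → A₀ ≤ A → 2 * K * A ≤ m → 0 ≤ δ → δ ≤ δ₀ →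
    NE p m δ x → TP d h → 0 ≤ S →
    (∀ θ, |sin θ| < K * A / m → |h θ| ≤ S ∧ |deriv h θ| ≤ m * S) →
    ∀ t, vv m h t ≤ C₂ * (m * mu x (fun θ => if A / m ≤ |sin θ| then
        (|h θ| + |deriv h θ| / m) / |sin θ| * (om m (θ - t) ^ 4)⁻¹ else 0))
      + C₃ * (A ^ 6 * S * C0.ee m t) := by
  obtain ⟨C₁, K, A₀, δ₀, hC₁, hK, hA₀, hδ₀, hδ₁, hs⟩ := samp Λ hΛ
  obtain ⟨Ck, hCk, hkap⟩ := kap_le
  obtain ⟨Cd, hCd, hder⟩ := deriv_win_le
  obtain ⟨Cv, hCv, hv0⟩ := abs_le_vv Λ hΛ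
  obtain ⟨Cw, hCw, hv1⟩ := vv_deriv_le Λ hΛ
  obtain ⟨Cs, hCs, hv2⟩ := vv_shift
  obtain ⟨Cm, hCm, hmn⟩ := mu_near
  set D : ℝ := 4 * C₁ * (3 + 2 * Cd) * Ck * Cm * (2 * K) ^ 8
    + 2 * 1296 ^ 2 * C₁ * (2 * K) ^ 8 with hD
  have hK0 : 0 < K := by linarith
  have hD0 : 0 < D := by positivity
  refine ⟨2 * C₁ * (3 + 2 * Cd) * (Ck * (Cv * (1 + Cw) * Cs)), 1 + D, K, A₀, δ₀,
    by positivity, by positivity, hK, hA₀, hδ₀, hδ₁, ?_⟩
  intro N p m d x A δ S h hN hm hp hdp hA hKm hδ hδ' hNE hh hS hnear t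
  have hm' : (0 : ℝ) < m := by exact_mod_cast hm
  have hA1 : 1 ≤ A := hA₀.trans hA
  have hA0 : 0 < A := by linarith
  have hhc : Continuous h := hh.contDiff.continuous
  have hdp' : (d : ℝ) ≤ Λ * m := by
    have : (d : ℝ) ≤ p := by exact_mod_cast (by omega : d ≤ p)
    linarith
  have hKA : 1 ≤ K * A := by nlinarith
  have hep := C0.ee_pos m t
  set v := vv m h t with hv
  have hv00 : 0 ≤ v := vv_nonneg m h t
  -- far estimate of `|h| + |h'|/m`
  have hc2 : ∀ θ, |h θ| + |deriv h θ| / m ≤ (Cv * (1 + Cw) * Cs * v) * om m (θ - t) ^ 4 := by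
    intro θ
    have a1 := hv0 m d h hm hdp' hh θ
    have a2 := hv0 m d (deriv h) hm hdp' hh.deriv θ
    have a3 := hv1 m d h hm hdp' hh θ
    have a4 := hv2 m h hm hhc θ t
    have a5 : |deriv h θ| / m ≤ Cv * Cw * vv m h θ := by
      rw [div_le_iff₀ hm']
      calc |deriv h θ| ≤ Cv * vv m (deriv h) θ := a2
        _ ≤ Cv * (Cw * m * vv m h θ) := mul_le_mul_of_nonneg_left a3 hCv.le
        _ = Cv * Cw * vv m h θ * m := by ring
    calc |h θ| + |deriv h θ| / m ≤ Cv * vv m h θ + Cv * Cw * vv m h θ := add_le_add a1 a5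
      _ = Cv * (1 + Cw) * vv m h θ := by ring
      _ ≤ Cv * (1 + Cw) * (Cs * om m (θ - t) ^ 4 * v) :=
          mul_le_mul_of_nonneg_left a4 (by positivity)
      _ = _ := by ring
  set I : ℝ := mu x (fun θ => if A / m ≤ |sin θ| then
        (|h θ| + |deriv h θ| / m) / |sin θ| * (om m (θ - t) ^ 4)⁻¹ else 0) with hI
  set E : ℝ := (2 * (K * A)) ^ 4 * C0.ee m t with hE
  have hE0 : 0 < E := by positivity
  have hI0 : 0 ≤ I := by
    apply mu_nonneg
    intro θ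
    have := C0.omp m (θ - t)
    split_ifs
    · positivity
    · exact le_rfl
  -- bound of the sampled density
  have hP : mu x (C0.PP m A h t) ≤ 2 * S ^ 2 * Ck * E ^ 2 * (m / A) * (Cm * (A / m) ^ 2)
      + Ck * (Cv * (1 + Cw) * Cs * v) * I := by
    have b1 : mu x (C0.PP m A h t) ≤ mu x (fun θ =>
        2 * S ^ 2 * Ck * E ^ 2 * (m / A) * (if |sin θ| < A / m then 1 else 0)
        + Ck * (Cv * (1 + Cw) * Cs * v) * (if A / m ≤ |sin θ| then
        (|h θ| + |deriv h θ| / m) / |sin θ| * (om m (θ - t) ^ 4)⁻¹ else 0)) :=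
      mu_mono fun θ => C0.PP_le hm hA1 hK hCk (hkap m hm) hS hnear hc2 θ
    rw [mu_add, mu_const_mul, mu_const_mul] at b1
    refine b1.trans (add_le_add ?_ le_rfl)
    apply mul_le_mul_of_nonneg_left _ (by positivity)
    exact hmn N p m x δ hm (by omega) hδ (hδ'.trans hδ₁) hNE A hA1
  -- a single window
  have hwin : ∀ κ : ℝ → ℝ, TP (2 * m) κ → (∀ θ, κ θ ^ 2 ≤ kap m (θ - t)) →
      (∀ θ, (deriv κ θ) ^ 2 ≤ Cd * (m : ℝ) ^ 2 * kap m (θ - t)) →
      (∀ θ, |κ θ| ≤ 1296 * (om m (θ - t) ^ 4)⁻¹) →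
      ∫ s in (-π)..π, (h s * κ s) ^ 2 ≤ C₁ * ((3 + 2 * Cd) * mu x (C0.PP m A h t)
        + A ^ 3 / m * (S * (1296 * E)) ^ 2) := by
    intro κ hκ k1 k2 k3
    have hG : TP (d + 2 * m) (fun θ => h θ * κ θ) := hh.mul hκ
    have hbd : ∀ θ, |sin θ| < K * A / m → |h θ * κ θ| ≤ S * (1296 * E) := by
      intro θ hθ
      rw [abs_mul]
      apply mul_le_mul (hnear θ hθ).1 _ (abs_nonneg _) hS
      refine (k3 θ).trans ?_
      apply mul_le_mul_of_nonneg_left _ (by norm_num)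
      exact C0.inv_om_near hm hKA hθ t
    have := hs N p m (d + 2 * m) x A δ (S * (1296 * E)) (fun θ => h θ * κ θ) hN hm hp
      (by omega) (by omega) hA hKm hδ hδ' hNE hG (by positivity) hbd
    refine this.trans ?_
    apply mul_le_mul_of_nonneg_left _ hC₁.le
    exact add_le_add (C0.one_window hm hh hκ hCd k1 k2 hA0 x) le_rfl
  -- the two windows
  have hFTP : TP (2 * m) (fun θ => Fej m θ ^ 2) := by
    have := (Fej_TP hm).pow 2
    exact this.mono (by omega)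
  have hwa := hwin (fun θ => Fej m (θ - t) ^ 2) (hFTP.comp_sub t) (fun θ => by
      unfold kap
      have := Fej_nonneg m (θ - t - π / m)
      have : 0 ≤ Fej m (θ - t - π / m) ^ 4 := by positivity
      nlinarith) (fun θ => by
      have h1 := (hder m hm (θ - t)).1
      have h2 : deriv (fun θ => Fej m (θ - t) ^ 2) θ
          = deriv (fun θ => Fej m θ ^ 2) (θ - t) :=
        deriv_comp_sub_const (fun θ => Fej m θ ^ 2) t θ
      rw [h2]; exact h1) (fun θ => by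
      rw [abs_of_nonneg (sq_nonneg _)]; exact (C0.window_le hm (θ - t)).1)
  have hwb := hwin (fun θ => Fej m (θ - t - π / m) ^ 2)
      ((hFTP.comp_sub (π / m)).comp_sub t) (fun θ => by
      unfold kap
      have := Fej_nonneg m (θ - t)
      have : 0 ≤ Fej m (θ - t) ^ 4 := by positivity
      nlinarith) (fun θ => by
      have h1 := (hder m hm (θ - t)).2
      have h2 : deriv (fun θ => Fej m (θ - t - π / m) ^ 2) θ
          = deriv (fun θ => Fej m (θ - π / m) ^ 2) (θ - t) :=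
        deriv_comp_sub_const (fun θ => Fej m (θ - π / m) ^ 2) t θ
      rw [h2]; exact h1) (fun θ => by
      rw [abs_of_nonneg (sq_nonneg _)]; exact (C0.window_le hm (θ - t)).2)
  -- `v²` as the sum of the two windows
  have hFc : Continuous (Fej m) := (Fej_TP hm).contDiff.continuous
  have hsq : v ^ 2 = m * ((∫ s in (-π)..π, (h s * Fej m (s - t) ^ 2) ^ 2)
      + ∫ s in (-π)..π, (h s * Fej m (s - t - π / m) ^ 2) ^ 2) := by
    rw [hv, vv_sq, ← intervalIntegral.integral_add]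
    · congr 2; ext s; unfold kap; ring
    · apply Continuous.intervalIntegrable
      exact (hhc.mul ((hFc.comp (continuous_id.sub continuous_const)).pow 2)).pow 2
    · apply Continuous.intervalIntegrable
      exact (hhc.mul ((hFc.comp ((continuous_id.sub continuous_const).sub
        continuous_const)).pow 2)).pow 2
  have hmain : v ^ 2 ≤ (2 * C₁ * (3 + 2 * Cd) * (Ck * (Cv * (1 + Cw) * Cs)) * (m * I)) * v
      + ((1 + D) * (A ^ 6 * S * C0.ee m t)) ^ 2 := by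
    have s1 : v ^ 2 ≤ m * (2 * (C₁ * ((3 + 2 * Cd) * mu x (C0.PP m A h t)
        + A ^ 3 / m * (S * (1296 * E)) ^ 2))) := by
      rw [hsq]
      apply mul_le_mul_of_nonneg_left _ hm'.le
      linarith
    have s2 : m * (2 * (C₁ * ((3 + 2 * Cd) * mu x (C0.PP m A h t)
        + A ^ 3 / m * (S * (1296 * E)) ^ 2)))
        ≤ m * (2 * (C₁ * ((3 + 2 * Cd) * (2 * S ^ 2 * Ck * E ^ 2 * (m / A) * (Cm * (A / m) ^ 2)
      + Ck * (Cv * (1 + Cw) * Cs * v) * I)
        + A ^ 3 / m * (S * (1296 * E)) ^ 2))) := by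
      apply mul_le_mul_of_nonneg_left _ hm'.le
      apply mul_le_mul_of_nonneg_left _ (by norm_num)
      apply mul_le_mul_of_nonneg_left _ hC₁.le
      apply add_le_add _ le_rfl
      exact mul_le_mul_of_nonneg_left hP (by positivity)
    have s3 := C0.num_eq (A := A) (C₁ := C₁) (Cd := Cd) (Ck := Ck) (Cm := Cm)
      (Q := Cv * (1 + Cw) * Cs) (E := E) (S := S) (I := I) (v := v) (m := m) hA0.ne' hm'.ne'
    have s4 := C0.num_bound (S := S) hA1 hK0 hC₁ hCd hCk hCm hD hE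
    rw [s3] at s2
    exact s1.trans (s2.trans (add_le_add le_rfl s4))
  exact C0.le_of_sq_le hv00 (by positivity) (by positivity) hmain

theorem cap0 (Λ : ℝ) (hΛ : 1 ≤ Λ) : ∃ C K A₀ δ₀ : ℝ, 0 < C ∧ 1 ≤ K ∧ 1 ≤ A₀ ∧ 0 < δ₀ ∧ δ₀ ≤ 1 ∧
    ∀ (N p m d : ℕ) (x : Fin N → ℝ) (A δ S : ℝ) (h : ℝ → ℝ), 0 < N → 1 ≤ m →
    (p : ℝ) ≤ Λ * m → d + 5 * m ≤ p → A₀ ≤ A → 2 * K * A ≤ m → 0 ≤ δ → δ ≤ δ₀ →
    NE p m δ x → TP d h → 0 ≤ S →
    (∀ θ, |sin θ| < K * A / m → |h θ| ≤ S ∧ |deriv h θ| ≤ m * S) →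
    VV m h ≤ C * (mu x (fun θ => if A / m ≤ |sin θ| then |h θ| + |deriv h θ| / m else 0)
      + A ^ 6 / m ^ 2 * S) := by
  obtain ⟨C₂, C₃, K, A₀, δ₀, hC₂, hC₃, hK, hA₀, hδ₀, hδ₁, hloc⟩ := cap_local Λ hΛ
  have hpi := Real.pi_pos
  refine ⟨8 * π * (C₂ + C₃), K, A₀, δ₀, by positivity, hK, hA₀, hδ₀, hδ₁, ?_⟩
  intro N p m d x A δ S h hN hm hp hdp hA hKm hδ hδ' hNE hh hS hnear
  have hm' : (0 : ℝ) < m := by exact_mod_cast hm
  have hA1 : 1 ≤ A := hA₀.trans hA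
  have hA0 : 0 < A := by linarith
  have hhc : Continuous h := hh.contDiff.continuous
  have hl := hloc N p m d x A δ S h hN hm hp hdp hA hKm hδ hδ' hNE hh hS hnear
  set Ph : ℝ → ℝ → ℝ := fun t θ => if A / m ≤ |sin θ| then
        (|h θ| + |deriv h θ| / m) / |sin θ| * (om m (θ - t) ^ 4)⁻¹ else 0 with hPh
  have hPc : ∀ θ, Continuous (fun t => Ph t θ) := by
    intro θ
    rw [hPh]
    by_cases hc : A / m ≤ |sin θ|
    · simp only [hc, if_true]
      refine Continuous.mul continuous_const (Continuous.inv₀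
        (((om_continuous m).comp (continuous_const.sub continuous_id)).pow 4) fun t => ?_)
      exact pow_ne_zero _ (C0.omp m _).ne'
    · simp only [hc, if_false]; exact continuous_const
  have hmuc : Continuous (fun t => mu x (Ph t)) := by
    unfold mu
    apply Continuous.div_const
    exact continuous_finsetSum _ fun i _ => (hPc _).add (hPc _)
  have hvc : Continuous (fun t => vv m h t * W m t) :=
    (vv_continuous hm hhc).mul (W_continuous m)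
  have hc1 : Continuous (fun t => mu x (Ph t) * W m t) := hmuc.mul (W_continuous m)
  have hc2 : Continuous (fun t => C0.ee m t * W m t) :=
    (C0.ee_continuous m).mul (W_continuous m)
  have hle : VV m h ≤ ∫ t in (-π)..π, (C₂ * m * (mu x (Ph t) * W m t)
      + C₃ * (A ^ 6 * S) * (C0.ee m t * W m t)) := by
    unfold VV
    apply intervalIntegral.integral_mono_on (by linarith)
      (hvc.intervalIntegrable _ _)
      (((hc1.const_mul _).add (hc2.const_mul _)).intervalIntegrable _ _)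
    intro t _
    have hW := (W_pos hm t).le
    calc vv m h t * W m t ≤ (C₂ * (m * mu x (Ph t)) + C₃ * (A ^ 6 * S * C0.ee m t)) * W m t :=
          mul_le_mul_of_nonneg_right (hl t) hW
      _ = C₂ * m * (mu x (Ph t) * W m t) + C₃ * (A ^ 6 * S) * (C0.ee m t * W m t) := by ring
  rw [intervalIntegral.integral_add ((hc1.const_mul _).intervalIntegrable _ _)
    ((hc2.const_mul _).intervalIntegrable _ _), intervalIntegral.integral_const_mul,
    intervalIntegral.integral_const_mul] at hle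
  have hfar := C0.int_far hm hA1 x (fun θ => |h θ| + |deriv h θ| / m)
    (fun θ => by positivity)
  have hee := C0.int_ee hm
  have hM0 : 0 ≤ mu x (fun θ => if A / m ≤ |sin θ| then |h θ| + |deriv h θ| / m else 0) := by
    apply mu_nonneg
    intro θ
    split_ifs
    · positivity
    · exact le_rfl
  set M := mu x (fun θ => if A / m ≤ |sin θ| then |h θ| + |deriv h θ| / m else 0) with hM
  calc VV m h ≤ _ := hle
    _ ≤ C₂ * m * (8 * π / m * M) + C₃ * (A ^ 6 * S) * (8 * π / m ^ 2) :=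
        add_le_add (mul_le_mul_of_nonneg_left hfar (by positivity))
          (mul_le_mul_of_nonneg_left hee (by positivity))
    _ = 8 * π * (C₂ * M + C₃ * (A ^ 6 / m ^ 2 * S)) := by field_simp
    _ ≤ 8 * π * ((C₂ + C₃) * M + (C₂ + C₃) * (A ^ 6 / m ^ 2 * S)) := by
        apply mul_le_mul_of_nonneg_left _ (by positivity)
        have : 0 ≤ A ^ 6 / (m : ℝ) ^ 2 * S := by positivity
        nlinarith [mul_nonneg hC₃.le hM0, mul_nonneg hC₂.le this]
    _ = _ := by ring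

end Pool.Agent.H93.Ch
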