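import Pool.Agent.H93.Ch.TPB

/-! Module B: the killing factor `B_r(θ) = (1/r) Σ_{l=1}^r sin²(lθ)`. -/

set_option autoImplicit false

namespace Pool.Agent.H93.Ch

open Real MeasureTheory

/-- vanishes quadratically at multiples of `π` at scale `1/r` and is bounded below elsewhere -/
noncomputable def BB (r : ℕ) (θ : ℝ) : ℝ := (∑ l ∈ Finset.Icc 1 r, sin (l * θ) ^ 2) / r

theorem BB_TP (r : ℕ) : TP (2 * r) (BB r) := by
  have h1 : ∀ l ∈ Finset.Icc 1 r, TP (2 * r) (fun θ => sin (l * θ) ^ 2) := by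
    intro l hl
    exact ((TP.sin_mul l).pow 2).mono (Nat.mul_le_mul_left 2 (Finset.mem_Icc.1 hl).2)
  have h2 := (TP.sum (Finset.Icc 1 r) (fun l θ => sin (l * θ) ^ 2) h1).const_mul (r : ℝ)⁻¹
  have h3 : BB r = fun θ => (r : ℝ)⁻¹ * ∑ l ∈ Finset.Icc 1 r, sin (l * θ) ^ 2 := by
    funext θ
    rw [BB, div_eq_inv_mul]
  rw [h3]
  exact h2

theorem BB_nonneg (r : ℕ) (θ : ℝ) : 0 ≤ BB r θ :=
  div_nonneg (Finset.sum_nonneg fun _ _ => sq_nonneg _) (Nat.cast_nonneg _)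

theorem BB_le_one (r : ℕ) (θ : ℝ) : BB r θ ≤ 1 := by
  rw [BB]
  apply div_le_one_of_le₀ _ (Nat.cast_nonneg _)
  calc ∑ l ∈ Finset.Icc 1 r, sin (l * θ) ^ 2 ≤ ∑ l ∈ Finset.Icc 1 r, (1 : ℝ) :=
        Finset.sum_le_sum fun l _ => sin_sq_le_one _
    _ = r := by simp

theorem BB_neg (r : ℕ) (θ : ℝ) : BB r (-θ) = BB r θ := by
  rw [BB, BB]
  congr 1
  refine Finset.sum_congr rfl fun l _ => ?_
  rw [mul_neg, sin_neg, neg_sq]

theorem k42_abs_sin_nat_mul_le (l : ℕ) (θ : ℝ) : |sin (l * θ)| ≤ l * |sin θ| := by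
  induction l with
  | zero => simp
  | succ l ih =>
    have h1 : ((l + 1 : ℕ) : ℝ) * θ = l * θ + θ := by push_cast; ring
    rw [h1, sin_add]
    calc |sin (l * θ) * cos θ + cos (l * θ) * sin θ|
        ≤ |sin (l * θ) * cos θ| + |cos (l * θ) * sin θ| := abs_add_le _ _
      _ ≤ |sin (l * θ)| * 1 + 1 * |sin θ| := by
          rw [abs_mul, abs_mul]
          gcongr
          · exact abs_cos_le_one θ
          · exact abs_cos_le_one _
      _ ≤ l * |sin θ| * 1 + 1 * |sin θ| := by gcongr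
      _ = ((l + 1 : ℕ) : ℝ) * |sin θ| := by push_cast; ring

theorem BB_le (r : ℕ) (θ : ℝ) : BB r θ ≤ (r * sin θ) ^ 2 := by
  rcases Nat.eq_zero_or_pos r with h | h
  · subst h
    simp [BB]
  rw [BB, div_le_iff₀ (by exact_mod_cast h)]
  calc ∑ l ∈ Finset.Icc 1 r, sin (l * θ) ^ 2 ≤ ∑ l ∈ Finset.Icc 1 r, (r * sin θ) ^ 2 := by
        refine Finset.sum_le_sum fun l hl => ?_
        rw [← sq_abs (sin (l * θ)), ← sq_abs ((r : ℝ) * sin θ), abs_mul, Nat.abs_cast]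
        have h1 : (l : ℝ) ≤ r := by exact_mod_cast (Finset.mem_Icc.1 hl).2
        have h2 := k42_abs_sin_nat_mul_le l θ
        have h3 : |sin (l * θ)| ≤ r * |sin θ| :=
          h2.trans (mul_le_mul_of_nonneg_right h1 (abs_nonneg _))
        gcongr
    _ = (r * sin θ) ^ 2 * r := by simp [mul_comm]

/-- the sum of cosines -/
theorem k42_sum_cos (r : ℕ) (θ : ℝ) :
    2 * sin θ * ∑ l ∈ Finset.Icc 1 r, cos (2 * l * θ) = sin ((2 * r + 1) * θ) - sin θ := by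
  induction r with
  | zero => simp
  | succ r ih =>
    rw [Finset.sum_Icc_succ_top (by omega), mul_add, ih]
    have h1 : sin ((2 * ((r + 1 : ℕ) : ℝ) + 1) * θ) = sin (2 * ((r + 1 : ℕ) : ℝ) * θ) * cos θ +
        cos (2 * ((r + 1 : ℕ) : ℝ) * θ) * sin θ := by
      rw [← sin_add]; congr 1; ring
    have h2 : sin ((2 * (r : ℝ) + 1) * θ) = sin (2 * ((r + 1 : ℕ) : ℝ) * θ) * cos θ -
        cos (2 * ((r + 1 : ℕ) : ℝ) * θ) * sin θ := by
      rw [← sin_sub]; congr 1; push_cast; ring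
    rw [h1, h2]
    ring

/-- reduction of an angle to `[-π/2, π/2]` modulo `π` -/
theorem k42_red_pi (θ : ℝ) : ∃ k : ℤ, |θ - k * π| ≤ π / 2 := by
  refine ⟨round (θ / π), ?_⟩
  have h1 := abs_sub_round (θ / π)
  have h2 : θ - round (θ / π) * π = (θ / π - round (θ / π)) * π := by
    field_simp
  rw [h2, abs_mul, abs_of_pos pi_pos]
  calc |θ / π - round (θ / π)| * π ≤ 1 / 2 * π := by gcongr
    _ = π / 2 := by ring

theorem k42_abs_sin_sub_int (x : ℝ) (k : ℤ) : |sin (x - k * π)| = |sin x| := by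
  rw [sin_sub_int_mul_pi, abs_mul, abs_zpow, abs_neg, abs_one, one_zpow, one_mul]

theorem k42_jordan_abs {x : ℝ} (hx : |x| ≤ π / 2) : 2 / π * |x| ≤ |sin x| := by
  rcases le_total 0 x with h | h
  · rw [abs_of_nonneg h] at hx ⊢
    exact (mul_le_sin h hx).trans (le_abs_self _)
  · rw [abs_of_nonpos h] at hx ⊢
    have := mul_le_sin (neg_nonneg.2 h) hx
    rw [sin_neg] at this
    exact this.trans (neg_le_abs _)

/-- for `|sin θ| ≥ 1/r` use `Σ cos 2lθ = sin((2r+1)θ)/(2 sin θ) - 1/2`; for small `θ` (mod `π`),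
`|θ| ≤ π/(2r)`, use `sin² x ≥ (2x/π)²` -/
theorem le_BB {r : ℕ} (hr : 1 ≤ r) (θ : ℝ) : 1 / 8 * min 1 ((r * sin θ) ^ 2) ≤ BB r θ := by
  have hr0 : (0 : ℝ) < r := by exact_mod_cast hr
  rcases le_total (1 / (r : ℝ)) |sin θ| with h | h
  · have hs : 0 < |sin θ| := lt_of_lt_of_le (by positivity) h
    have h1 : ∑ l ∈ Finset.Icc 1 r, sin (l * θ) ^ 2 =
        r / 2 - 1 / 2 * ∑ l ∈ Finset.Icc 1 r, cos (2 * l * θ) := by
      have h2 : ∀ l ∈ Finset.Icc 1 r, sin (l * θ) ^ 2 = 1 / 2 - 1 / 2 * cos (2 * l * θ) := by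
        intro l _
        rw [sin_sq_eq_half_sub]
        congr 2
        ring_nf
      rw [Finset.sum_congr rfl h2, Finset.sum_sub_distrib, ← Finset.mul_sum]
      simp
      ring
    have hsne : sin θ ≠ 0 := abs_pos.1 hs
    have h3 : ∑ l ∈ Finset.Icc 1 r, cos (2 * l * θ) ≤ ((r : ℝ) - 1) / 2 := by
      have h4 := k42_sum_cos r θ
      have h5 : ∑ l ∈ Finset.Icc 1 r, cos (2 * l * θ) =
          sin ((2 * r + 1) * θ) / (2 * sin θ) - 1 / 2 := by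
        have h6 : sin ((2 * r + 1) * θ) / (2 * sin θ) - 1 / 2 =
            (sin ((2 * r + 1) * θ) - sin θ) / (2 * sin θ) := by
          field_simp
        rw [h6, ← h4, mul_div_cancel_left₀]
        exact mul_ne_zero two_ne_zero hsne
      have h7 : sin ((2 * r + 1) * θ) / (2 * sin θ) ≤ r / 2 := by
        refine (le_abs_self _).trans ?_
        rw [abs_div, abs_mul, abs_two, div_le_div_iff₀ (by positivity) (by norm_num)]
        have h8 : (1 : ℝ) ≤ r * |sin θ| := by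
          rw [div_le_iff₀ hr0] at h
          linarith
        have h9 := abs_sin_le_one ((2 * r + 1) * θ)
        nlinarith
      rw [h5]
      linarith
    have h4 : (1 : ℝ) / 4 ≤ BB r θ := by
      rw [BB, h1, le_div_iff₀ hr0]
      linarith
    have h5 : min 1 (((r : ℝ) * sin θ) ^ 2) ≤ 1 := min_le_left _ _
    linarith
  · obtain ⟨k, hk⟩ := k42_red_pi θ
    set t := θ - k * π with ht
    have hst : |sin t| = |sin θ| := k42_abs_sin_sub_int θ k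
    have hjt := k42_jordan_abs hk
    rw [hst] at hjt
    have hpi := pi_pos
    have ht1 : |t| ≤ π / 2 * |sin θ| := by
      have : |t| = π / 2 * (2 / π * |t|) := by field_simp
      rw [this]
      gcongr
    have h1 : ∀ l ∈ Finset.Icc 1 r, 4 / π ^ 2 * sin θ ^ 2 * (l : ℝ) ^ 2 ≤ sin (l * θ) ^ 2 := by
      intro l hl
      have hlr : (l : ℝ) ≤ r := by exact_mod_cast (Finset.mem_Icc.1 hl).2
      have h2 : |sin (l * θ)| = |sin (l * t)| := by
        have : (l : ℝ) * t = l * θ - ((l * k : ℤ) : ℝ) * π := by rw [ht]; push_cast; ring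
        rw [this, k42_abs_sin_sub_int]
      have h3 : |(l : ℝ) * t| ≤ π / 2 := by
        rw [abs_mul, Nat.abs_cast]
        calc (l : ℝ) * |t| ≤ r * (π / 2 * |sin θ|) := by gcongr
          _ ≤ r * (π / 2 * (1 / r)) := by gcongr
          _ = π / 2 := by field_simp
      have h4 := k42_jordan_abs h3
      rw [← h2, abs_mul, Nat.abs_cast] at h4
      have h5 : 2 / π * (l * |sin θ|) ≤ |sin (l * θ)| := by
        refine le_trans ?_ h4
        have h6 : |sin θ| ≤ |t| := by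
          rw [← hst]
          exact abs_sin_le_abs
        gcongr
      calc 4 / π ^ 2 * sin θ ^ 2 * (l : ℝ) ^ 2 = (2 / π * (l * |sin θ|)) ^ 2 := by
            rw [← sq_abs (sin θ)]; ring
        _ ≤ |sin (l * θ)| ^ 2 := by gcongr
        _ = sin (l * θ) ^ 2 := sq_abs _
    have h2 : (r : ℝ) ^ 3 / 3 ≤ ∑ l ∈ Finset.Icc 1 r, (l : ℝ) ^ 2 := by
      have : ∀ n : ℕ, (n : ℝ) ^ 3 / 3 ≤ ∑ l ∈ Finset.Icc 1 n, (l : ℝ) ^ 2 := by
        intro n
        induction n with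
        | zero => simp
        | succ n ih =>
          rw [Finset.sum_Icc_succ_top (by omega)]
          push_cast
          have hn : (0 : ℝ) ≤ n := Nat.cast_nonneg n
          nlinarith
      exact this r
    have h3 : 4 / π ^ 2 * sin θ ^ 2 * ((r : ℝ) ^ 3 / 3) ≤ ∑ l ∈ Finset.Icc 1 r, sin (l * θ) ^ 2 := by
      calc 4 / π ^ 2 * sin θ ^ 2 * ((r : ℝ) ^ 3 / 3)
          ≤ 4 / π ^ 2 * sin θ ^ 2 * ∑ l ∈ Finset.Icc 1 r, (l : ℝ) ^ 2 := by gcongr
        _ = ∑ l ∈ Finset.Icc 1 r, 4 / π ^ 2 * sin θ ^ 2 * (l : ℝ) ^ 2 := Finset.mul_sum _ _ _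
        _ ≤ _ := Finset.sum_le_sum h1
    have h4 : 1 / 8 * (r * sin θ) ^ 2 ≤ BB r θ := by
      rw [BB, le_div_iff₀ hr0]
      refine le_trans ?_ h3
      have h5 : (1 : ℝ) / 8 ≤ 4 / π ^ 2 / 3 := by
        rw [div_div, div_le_div_iff₀ (by norm_num) (by positivity)]
        nlinarith [pi_lt_d2, pi_gt_three]
      have h6 : 0 ≤ sin θ ^ 2 * (r : ℝ) ^ 3 := by positivity
      calc 1 / 8 * (r * sin θ) ^ 2 * r = 1 / 8 * (sin θ ^ 2 * (r : ℝ) ^ 3) := by ring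
        _ ≤ 4 / π ^ 2 / 3 * (sin θ ^ 2 * (r : ℝ) ^ 3) := by gcongr
        _ = _ := by ring
    refine le_trans ?_ h4
    gcongr
    exact min_le_right _ _

/-- derivative of the summands -/
theorem k42_hasDerivAt_sin_sq (l : ℕ) (θ : ℝ) :
    HasDerivAt (fun θ => sin (l * θ) ^ 2) (2 * l * (sin (l * θ) * cos (l * θ))) θ := by
  have h1 : HasDerivAt (fun θ : ℝ => (l : ℝ) * θ) l θ := by
    simpa using (hasDerivAt_id θ).const_mul (l : ℝ)
  have h2 := (h1.sin).fun_pow 2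
  refine h2.congr_deriv ?_
  push_cast
  ring

theorem hasDerivAt_BB (r : ℕ) (θ : ℝ) :
    HasDerivAt (BB r) ((∑ l ∈ Finset.Icc 1 r, 2 * l * (sin (l * θ) * cos (l * θ))) / r) θ := by
  have h1 := HasDerivAt.fun_sum (u := Finset.Icc 1 r) (A := fun l θ => sin ((l : ℝ) * θ) ^ 2)
    (A' := fun l => 2 * l * (sin (l * θ) * cos (l * θ))) (x := θ)
    (fun l _ => k42_hasDerivAt_sin_sq l θ)
  exact h1.div_const _

theorem deriv_BB (r : ℕ) : deriv (BB r) = fun θ =>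
    (∑ l ∈ Finset.Icc 1 r, 2 * l * (sin (l * θ) * cos (l * θ))) / r :=
  funext fun θ => (hasDerivAt_BB r θ).deriv

/-- Cauchy-Schwarz: `|B'| = |(1/r) Σ 2 l sin(lθ) cos(lθ)| ≤ 2 r √B` -/
theorem deriv_BB_le (r : ℕ) (θ : ℝ) : |deriv (BB r) θ| ≤ 2 * r * Real.sqrt (BB r θ) := by
  rcases Nat.eq_zero_or_pos r with h | h
  · subst h
    rw [deriv_BB]
    simp
  have hr0 : (0 : ℝ) < r := by exact_mod_cast h
  rw [deriv_BB]
  simp only
  have h1 : |(∑ l ∈ Finset.Icc 1 r, 2 * l * (sin (l * θ) * cos (l * θ))) / r| ≤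
      2 * ∑ l ∈ Finset.Icc 1 r, |sin (l * θ)| := by
    rw [abs_div, Nat.abs_cast, div_le_iff₀ hr0, Finset.mul_sum, Finset.sum_mul]
    refine (Finset.abs_sum_le_sum_abs _ _).trans (Finset.sum_le_sum fun l hl => ?_)
    have hlr : (l : ℝ) ≤ r := by exact_mod_cast (Finset.mem_Icc.1 hl).2
    rw [abs_mul, abs_mul, abs_mul, abs_two, Nat.abs_cast]
    calc 2 * (l : ℝ) * (|sin (l * θ)| * |cos (l * θ)|) ≤ 2 * r * (|sin (l * θ)| * 1) := by
          gcongr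
          exact abs_cos_le_one _
      _ = 2 * |sin (l * θ)| * r := by ring
  have h2 : (∑ l ∈ Finset.Icc 1 r, |sin (l * θ)|) ^ 2 ≤ r * (r * BB r θ) := by
    have h3 := sq_sum_le_card_mul_sum_sq (s := Finset.Icc 1 r) (f := fun l : ℕ => |sin (l * θ)|)
    have h4 : r * BB r θ = ∑ l ∈ Finset.Icc 1 r, sin (l * θ) ^ 2 := by
      rw [BB, mul_div_cancel₀]
      exact hr0.ne'
    rw [h4]
    simpa using h3
  have h3 : ∑ l ∈ Finset.Icc 1 r, |sin (l * θ)| ≤ r * Real.sqrt (BB r θ) := by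
    apply abs_le_of_sq_le_sq' _ (by positivity) |>.2
    rw [mul_pow, Real.sq_sqrt (BB_nonneg r θ)]
    linarith [h2]
  linarith

theorem hasDerivAt_deriv_BB (r : ℕ) (θ : ℝ) :
    HasDerivAt (deriv (BB r)) ((∑ l ∈ Finset.Icc 1 r, 2 * (l : ℝ) ^ 2 * cos (2 * l * θ)) / r) θ := by
  rw [deriv_BB]
  have h0 : ∀ l : ℕ, HasDerivAt (fun θ => 2 * (l : ℝ) * (sin (l * θ) * cos (l * θ)))
      (2 * (l : ℝ) ^ 2 * cos (2 * l * θ)) θ := by
    intro l
    have h1 : HasDerivAt (fun θ : ℝ => (l : ℝ) * θ) l θ := by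
      simpa using (hasDerivAt_id θ).const_mul (l : ℝ)
    have h2 := ((h1.sin).fun_mul (h1.cos)).const_mul (2 * (l : ℝ))
    refine h2.congr_deriv ?_
    have h3 : 2 * (l : ℝ) * θ = 2 * (l * θ) := by ring
    rw [h3, cos_two_mul']
    ring
  have h1 := HasDerivAt.fun_sum (u := Finset.Icc 1 r)
    (A := fun l θ => 2 * (l : ℝ) * (sin ((l : ℝ) * θ) * cos ((l : ℝ) * θ)))
    (A' := fun l => 2 * (l : ℝ) ^ 2 * cos (2 * l * θ)) (x := θ) (fun l _ => h0 l)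
  exact h1.div_const _

theorem deriv2_BB_le (r : ℕ) (θ : ℝ) : |deriv (deriv (BB r)) θ| ≤ 2 * (r : ℝ) ^ 2 := by
  rw [(hasDerivAt_deriv_BB r θ).deriv]
  rcases Nat.eq_zero_or_pos r with h | h
  · subst h
    simp
  have hr0 : (0 : ℝ) < r := by exact_mod_cast h
  rw [abs_div, Nat.abs_cast, div_le_iff₀ hr0]
  calc |∑ l ∈ Finset.Icc 1 r, 2 * (l : ℝ) ^ 2 * cos (2 * l * θ)|
      ≤ ∑ l ∈ Finset.Icc 1 r, |2 * (l : ℝ) ^ 2 * cos (2 * l * θ)| :=
        Finset.abs_sum_le_sum_abs _ _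
    _ ≤ ∑ l ∈ Finset.Icc 1 r, 2 * (r : ℝ) ^ 2 := by
        refine Finset.sum_le_sum fun l hl => ?_
        have hlr : (l : ℝ) ≤ r := by exact_mod_cast (Finset.mem_Icc.1 hl).2
        rw [abs_mul, abs_of_nonneg (by positivity : (0 : ℝ) ≤ 2 * (l : ℝ) ^ 2)]
        calc 2 * (l : ℝ) ^ 2 * |cos (2 * l * θ)| ≤ 2 * (r : ℝ) ^ 2 * 1 := by
              gcongr
              exact abs_cos_le_one _
          _ = 2 * (r : ℝ) ^ 2 := mul_one _
    _ = 2 * (r : ℝ) ^ 2 * r := by simp [mul_comm]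

theorem hasDerivAt_BB_pow (r n : ℕ) (θ : ℝ) :
    HasDerivAt (fun θ => BB r θ ^ n) (n * BB r θ ^ (n - 1) * deriv (BB r) θ) θ := by
  have h1 : HasDerivAt (BB r) (deriv (BB r) θ) θ := (hasDerivAt_BB r θ).differentiableAt.hasDerivAt
  exact h1.fun_pow n

/-- powers: first derivative, `|(B^n)'| ≤ 2 n r B^(n-1) √B` -/
theorem deriv_BB_pow_le {r n : ℕ} (hn : 1 ≤ n) (θ : ℝ) :
    |deriv (fun θ => BB r θ ^ n) θ| ≤ 2 * n * r * (BB r θ ^ (n - 1) * Real.sqrt (BB r θ)) := by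
  rw [(hasDerivAt_BB_pow r n θ).deriv, abs_mul, abs_mul, Nat.abs_cast,
    abs_of_nonneg (pow_nonneg (BB_nonneg r θ) _)]
  calc (n : ℝ) * BB r θ ^ (n - 1) * |deriv (BB r) θ|
      ≤ n * BB r θ ^ (n - 1) * (2 * r * Real.sqrt (BB r θ)) := by
        have := BB_nonneg r θ
        gcongr
        exact deriv_BB_le r θ
    _ = _ := by ring

/-- lower bound for `B` away from the zeros of `sin` -/
theorem k42_rsq_le {r : ℕ} (hr : 1 ≤ r) {a θ : ℝ} (ha : 0 < a) (h : a ≤ |sin θ|) :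
    (r : ℝ) ^ 2 ≤ 8 * max (r : ℝ) (1 / a) ^ 2 * BB r θ := by
  have hr0 : (0 : ℝ) < r := by exact_mod_cast hr
  have h1 := le_BB hr θ
  have h2 : min 1 (((r : ℝ) * a) ^ 2) ≤ 8 * BB r θ := by
    have h3 : min 1 (((r : ℝ) * a) ^ 2) ≤ min 1 (((r : ℝ) * sin θ) ^ 2) := by
      apply min_le_min_left
      rw [← sq_abs ((r : ℝ) * sin θ), abs_mul, Nat.abs_cast]
      gcongr
    linarith
  set Mx := max (r : ℝ) (1 / a) with hM
  have hM1 : (r : ℝ) ≤ Mx := le_max_left _ _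
  have hM2 : 1 ≤ Mx * a := by
    have : 1 / a ≤ Mx := le_max_right _ _
    rw [div_le_iff₀ ha] at this
    exact this
  have hM0 : 0 < Mx := lt_of_lt_of_le hr0 hM1
  have h3 : (r : ℝ) ^ 2 ≤ Mx ^ 2 * min 1 (((r : ℝ) * a) ^ 2) := by
    rcases min_cases 1 (((r : ℝ) * a) ^ 2) with ⟨h4, _⟩ | ⟨h4, _⟩
    · rw [h4, mul_one]
      gcongr
    · rw [h4]
      have : Mx ^ 2 * ((r : ℝ) * a) ^ 2 = r ^ 2 * (Mx * a) ^ 2 := by ring
      rw [this]
      have h5 : (1 : ℝ) ≤ (Mx * a) ^ 2 := one_le_pow₀ hM2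
      nlinarith [sq_nonneg (r : ℝ)]
  calc (r : ℝ) ^ 2 ≤ Mx ^ 2 * min 1 (((r : ℝ) * a) ^ 2) := h3
    _ ≤ Mx ^ 2 * (8 * BB r θ) := by gcongr
    _ = _ := by ring

/-- logarithmic derivative bound, where `|sin θ| ≥ a > 0`:
`|(B^n)'| ≤ 6 n max(r, 1/a) B^n` -/
theorem logderiv_BB_pow_le {r n : ℕ} (hr : 1 ≤ r) (hn : 1 ≤ n) {a θ : ℝ} (ha : 0 < a)
    (h : a ≤ |sin θ|) :
    |deriv (fun θ => BB r θ ^ n) θ| ≤ 6 * n * max (r : ℝ) (1 / a) * BB r θ ^ n := by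
  refine (deriv_BB_pow_le hn θ).trans ?_
  have hr0 : (0 : ℝ) < r := by exact_mod_cast hr
  have h1 := k42_rsq_le hr ha h
  set Mx := max (r : ℝ) (1 / a) with hM
  have hM0 : 0 < Mx := lt_of_lt_of_le hr0 (le_max_left _ _)
  have hB := BB_nonneg r θ
  have h2 : (r : ℝ) ≤ 3 * Mx * Real.sqrt (BB r θ) := by
    apply abs_le_of_sq_le_sq' _ (by positivity) |>.2
    rw [mul_pow, Real.sq_sqrt hB]
    nlinarith [mul_nonneg (sq_nonneg Mx) hB]
  have h3 : BB r θ ^ n = BB r θ ^ (n - 1) * (Real.sqrt (BB r θ) * Real.sqrt (BB r θ)) := by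
    rw [Real.mul_self_sqrt hB, ← pow_succ, Nat.sub_add_cancel hn]
  rw [h3]
  calc 2 * (n : ℝ) * r * (BB r θ ^ (n - 1) * Real.sqrt (BB r θ))
      ≤ 2 * n * (3 * Mx * Real.sqrt (BB r θ)) * (BB r θ ^ (n - 1) * Real.sqrt (BB r θ)) := by
        gcongr
    _ = _ := by ring

/-- second derivative: `|(B^n)''| ≤ 60 n² max(r, 1/a)² B^n` where `|sin θ| ≥ a > 0` -/
theorem deriv2_BB_pow_le {r n : ℕ} (hr : 1 ≤ r) (hn : 1 ≤ n) {a θ : ℝ} (ha : 0 < a)
    (h : a ≤ |sin θ|) :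
    |deriv (deriv (fun θ => BB r θ ^ n)) θ| ≤ 60 * (n : ℝ) ^ 2 * max (r : ℝ) (1 / a) ^ 2 * BB r θ ^ n
      := by
  have hr0 : (0 : ℝ) < r := by exact_mod_cast hr
  have h1 := k42_rsq_le hr ha h
  set Mx := max (r : ℝ) (1 / a) with hM
  have hM0 : 0 < Mx := lt_of_lt_of_le hr0 (le_max_left _ _)
  have hB := BB_nonneg r θ
  have hd : deriv (fun θ => BB r θ ^ n) = fun θ => n * BB r θ ^ (n - 1) * deriv (BB r) θ :=
    funext fun θ => (hasDerivAt_BB_pow r n θ).deriv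
  rw [hd]
  have h2 : HasDerivAt (fun θ => (n : ℝ) * BB r θ ^ (n - 1) * deriv (BB r) θ)
      (n * (((n - 1 : ℕ) : ℝ) * BB r θ ^ (n - 1 - 1) * deriv (BB r) θ) * deriv (BB r) θ +
        n * BB r θ ^ (n - 1) * deriv (deriv (BB r)) θ) θ := by
    have h3 := ((hasDerivAt_BB_pow r (n - 1) θ).const_mul (n : ℝ)).mul
      (hasDerivAt_deriv_BB r θ)
    rw [(hasDerivAt_deriv_BB r θ).deriv]
    exact h3
  rw [h2.deriv]
  have h4 : (deriv (BB r) θ) ^ 2 ≤ 4 * r ^ 2 * BB r θ := by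
    have h5 := deriv_BB_le r θ
    have h6 : |deriv (BB r) θ| ^ 2 ≤ (2 * r * Real.sqrt (BB r θ)) ^ 2 := by gcongr
    rw [sq_abs, mul_pow, Real.sq_sqrt hB] at h6
    linarith
  have h5 : |(n : ℝ) * (((n - 1 : ℕ) : ℝ) * BB r θ ^ (n - 1 - 1) * deriv (BB r) θ) *
      deriv (BB r) θ| ≤ 4 * n ^ 2 * r ^ 2 * BB r θ ^ (n - 1) := by
    rcases Nat.lt_or_ge 1 n with hn1 | hn1
    · have e1 : (n : ℝ) * (((n - 1 : ℕ) : ℝ) * BB r θ ^ (n - 1 - 1) * deriv (BB r) θ) *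
          deriv (BB r) θ = n * ((n - 1 : ℕ) : ℝ) * BB r θ ^ (n - 1 - 1) * (deriv (BB r) θ) ^ 2 := by
        ring
      have e2 : BB r θ ^ (n - 1) = BB r θ ^ (n - 1 - 1) * BB r θ := by
        rw [← pow_succ, Nat.sub_add_cancel (by omega : 1 ≤ n - 1)]
      rw [e1, abs_of_nonneg (by positivity), e2]
      have e3 : (((n - 1 : ℕ) : ℝ)) ≤ n := by exact_mod_cast Nat.sub_le n 1
      calc (n : ℝ) * ((n - 1 : ℕ) : ℝ) * BB r θ ^ (n - 1 - 1) * (deriv (BB r) θ) ^ 2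
          ≤ n * n * BB r θ ^ (n - 1 - 1) * (4 * r ^ 2 * BB r θ) := by gcongr
        _ = _ := by ring
    · have hn2 : n = 1 := le_antisymm hn1 hn
      subst hn2
      simp
  have h6 : |(n : ℝ) * BB r θ ^ (n - 1) * deriv (deriv (BB r)) θ| ≤
      2 * n * r ^ 2 * BB r θ ^ (n - 1) := by
    rw [abs_mul, abs_of_nonneg (by positivity)]
    calc (n : ℝ) * BB r θ ^ (n - 1) * |deriv (deriv (BB r)) θ|
        ≤ n * BB r θ ^ (n - 1) * (2 * r ^ 2) := by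
          gcongr
          exact deriv2_BB_le r θ
      _ = _ := by ring
  have hn0 : (1 : ℝ) ≤ n := by exact_mod_cast hn
  have h7 : BB r θ ^ n = BB r θ ^ (n - 1) * BB r θ := by
    rw [← pow_succ, Nat.sub_add_cancel hn]
  calc |(n : ℝ) * (((n - 1 : ℕ) : ℝ) * BB r θ ^ (n - 1 - 1) * deriv (BB r) θ) * deriv (BB r) θ +
        n * BB r θ ^ (n - 1) * deriv (deriv (BB r)) θ|
      ≤ 4 * n ^ 2 * r ^ 2 * BB r θ ^ (n - 1) + 2 * n * r ^ 2 * BB r θ ^ (n - 1) :=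
        (abs_add_le _ _).trans (add_le_add h5 h6)
    _ ≤ 6 * n ^ 2 * r ^ 2 * BB r θ ^ (n - 1) := by
        have : 2 * (n : ℝ) * r ^ 2 * BB r θ ^ (n - 1) ≤ 2 * n ^ 2 * r ^ 2 * BB r θ ^ (n - 1) := by
          gcongr
          nlinarith
        linarith
    _ ≤ 6 * n ^ 2 * (8 * Mx ^ 2 * BB r θ) * BB r θ ^ (n - 1) := by gcongr
    _ = 48 * n ^ 2 * Mx ^ 2 * (BB r θ ^ (n - 1) * BB r θ) := by ring
    _ ≤ 60 * n ^ 2 * Mx ^ 2 * (BB r θ ^ (n - 1) * BB r θ) := by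
        gcongr
        norm_num
    _ = _ := by rw [h7]

end Pool.Agent.H93.Ch
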