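import Pool.Agent.H93.Ch.Meas
import Pool.Agent.H93.Ch.Kill

/-! Module O: the one-sided trick. -/

set_option autoImplicit false

namespace Pool.Agent.H93.Ch

open Real MeasureTheory

theorem k42_abs_sin_mono {x y : ℝ} (hxy : |x| ≤ |y|) (hy : |y| ≤ π / 2) : |sin x| ≤ |sin y| := by
  have h1 : ∀ z : ℝ, |z| ≤ π / 2 → |sin z| = sin |z| := by
    intro z hz
    have h2 : 0 ≤ sin |z| := sin_nonneg_of_nonneg_of_le_pi (abs_nonneg z) (by linarith [pi_pos])
    rcases le_total 0 z with h | h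
    · rw [abs_of_nonneg h] at h2 ⊢
      exact abs_of_nonneg h2
    · rw [abs_of_nonpos h] at h2 ⊢
      rw [sin_neg] at h2 ⊢
      exact abs_of_nonpos (by linarith)
  rw [h1 x (hxy.trans hy), h1 y hy]
  exact sin_le_sin_of_le_of_le_pi_div_two (by linarith [abs_nonneg x, pi_pos]) hy hxy

theorem k42_abs_sub_le_of_mem_uIcc {a b s : ℝ} (hs : s ∈ Set.uIcc a b) : |s - a| ≤ |b - a| := by
  rcases Set.mem_uIcc.1 hs with ⟨h1, h2⟩ | ⟨h1, h2⟩
  · rw [abs_of_nonneg (by linarith), abs_of_nonneg (by linarith)]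
    linarith
  · rw [abs_of_nonpos (by linarith), abs_of_nonpos (by linarith)]
    linarith

theorem k42_abs_sub_le_of_mem_uIcc' {a b s : ℝ} (hs : s ∈ Set.uIcc a b) : |s - b| ≤ |b - a| := by
  rw [Set.uIcc_comm] at hs
  rw [abs_sub_comm b a]
  exact k42_abs_sub_le_of_mem_uIcc hs

/-- local comparison -/
theorem k42_cosE_local {h E : ℝ → ℝ} (hh : Differentiable ℝ h) (hE : Differentiable ℝ E)
    (hs : ∀ θ, h θ = sin θ * E θ) {θ : ℝ} {k : ℤ} (hk : |θ - k * π| ≤ π / 2) {S : ℝ}
    (hS : ∀ s ∈ Set.uIcc (k * π) θ, |deriv h s| ≤ S) : |cos θ * E θ| ≤ 2 * S := by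
  have hθS := hS θ Set.right_mem_uIcc
  have hS0 : 0 ≤ S := (abs_nonneg _).trans hθS
  rcases eq_or_ne (sin θ) 0 with h0 | h0
  · have h1 : deriv h θ = cos θ * E θ := by
      have h2 : h = fun θ => sin θ * E θ := funext hs
      have h3 : HasDerivAt (fun θ => sin θ * E θ) (cos θ * E θ + sin θ * deriv E θ) θ :=
        (hasDerivAt_sin θ).fun_mul (hE θ).hasDerivAt
      rw [h2, h3.deriv, h0]
      ring
    rw [← h1]
    linarith
  · have h1 : |h θ| ≤ S * |θ - k * π| := by
      have h2 : h (k * π) = 0 := by rw [hs, sin_int_mul_pi, zero_mul]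
      have h3 := (convex_uIcc ((k : ℝ) * π) θ).norm_image_sub_le_of_norm_deriv_le (f := h)
        (fun x _ => hh x) hS Set.left_mem_uIcc Set.right_mem_uIcc
      rw [h2, sub_zero] at h3
      exact h3
    have h2 := k42_jordan_abs hk
    rw [k42_abs_sin_sub_int] at h2
    have hpi := pi_pos
    have h3 : |θ - k * π| ≤ π / 2 * |sin θ| := by
      have : |θ - k * π| = π / 2 * (2 / π * |θ - k * π|) := by field_simp
      rw [this]
      gcongr
    have h4 : 0 < |sin θ| := abs_pos.2 h0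
    have h5 : |E θ| ≤ π / 2 * S := by
      have h6 : |sin θ| * |E θ| ≤ |sin θ| * (π / 2 * S) := by
        rw [← abs_mul, ← hs]
        calc |h θ| ≤ S * |θ - k * π| := h1
          _ ≤ S * (π / 2 * |sin θ|) := by gcongr
          _ = _ := by ring
      exact le_of_mul_le_mul_left h6 h4
    rw [abs_mul]
    calc |cos θ| * |E θ| ≤ 1 * (π / 2 * S) := by
          gcongr
          exact abs_cos_le_one θ
      _ ≤ 2 * S := by nlinarith [pi_lt_d2]

theorem TP.differentiable42 {d : ℕ} {h : ℝ → ℝ} (hh : TP d h) : Differentiable ℝ h :=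
  hh.contDiff.differentiable (by simp)

theorem TP.continuous42 {d : ℕ} {h : ℝ → ℝ} (hh : TP d h) : Continuous h :=
  hh.contDiff.continuous

/-- `|cos θ E θ| ≤ C m v_h(θ)` for `h = sin · E`.  If `|sin θ| ≥ 1/m` then `|E| ≤ m|h|`;
otherwise compare with the nearest zero `kπ` of `sin`: `|h θ| = |h θ - h(kπ)| ≤
|θ-kπ| sup|h'|`, `|h'| ≤ C m v` nearby; if `sin θ = 0` then `h' θ = cos θ E θ`. -/
theorem cosE_le (Λ : ℝ) (hΛ : 1 ≤ Λ) : ∃ C : ℝ, 0 < C ∧ ∀ (m d : ℕ) (h E : ℝ → ℝ), 1 ≤ m →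
    (d : ℝ) ≤ Λ * m → TP d h → TP d E → (∀ θ, h θ = sin θ * E θ) →
    ∀ θ, |cos θ * E θ| ≤ C * m * vv m h θ := by
  obtain ⟨C0, hC0, h0⟩ := abs_le_vv Λ hΛ
  obtain ⟨C1, hC1, h1⟩ := vv_deriv_le Λ hΛ
  obtain ⟨C2, hC2, h2⟩ := vv_shift
  refine ⟨C0 + 32 * (C0 * C1 * C2), by positivity, ?_⟩
  intro m d h E hm hd hh hE hs θ
  have hm0 : (0 : ℝ) < m := by exact_mod_cast hm
  have hv := vv_nonneg m h θ
  rcases le_or_gt (1 / (m : ℝ)) |sin θ| with hc | hc
  · have hs0 : 0 < |sin θ| := lt_of_lt_of_le (by positivity) hc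
    have e1 : 1 ≤ m * |sin θ| := by
      rw [div_le_iff₀ hm0] at hc
      linarith
    have e2 : |E θ| ≤ m * |h θ| := by
      rw [hs, abs_mul]
      nlinarith [abs_nonneg (E θ)]
    have e3 := h0 m d h hm hd hh θ
    rw [abs_mul]
    calc |cos θ| * |E θ| ≤ 1 * (m * (C0 * vv m h θ)) := by
          gcongr
          · exact abs_cos_le_one θ
          · exact e2.trans (by gcongr)
      _ = C0 * m * vv m h θ := by ring
      _ ≤ (C0 + 32 * (C0 * C1 * C2)) * m * vv m h θ := by
          gcongr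
          have : 0 ≤ 32 * (C0 * C1 * C2) := by positivity
          linarith
  · obtain ⟨k, hk⟩ := k42_red_pi θ
    have hpi := pi_pos
    have e1 : |θ - k * π| ≤ π / 2 / m := by
      have h3 := k42_jordan_abs hk
      rw [k42_abs_sin_sub_int] at h3
      have : |θ - k * π| = π / 2 * (2 / π * |θ - k * π|) := by field_simp
      rw [this]
      calc π / 2 * (2 / π * |θ - k * π|) ≤ π / 2 * (1 / m) := by
            gcongr
            exact h3.trans hc.le
        _ = _ := by ring
    have e2 : ∀ s ∈ Set.uIcc (k * π) θ, |deriv h s| ≤ 16 * (C0 * C1 * C2) * m * vv m h θ := by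
      intro s hs'
      have e3 : |s - θ| ≤ π / 2 / m := (k42_abs_sub_le_of_mem_uIcc' hs').trans e1
      have e4 := om_le_of_abs_le m e3 hm
      have e5 : om m (s - θ) ≤ 2 := by linarith [pi_lt_d2]
      have e6 : om m (s - θ) ^ 4 ≤ 16 := by
        have := one_le_om m (s - θ)
        calc om m (s - θ) ^ 4 ≤ 2 ^ 4 := by gcongr
          _ = 16 := by norm_num
      calc |deriv h s| ≤ C0 * vv m (deriv h) s := h0 m d _ hm hd hh.deriv s
        _ ≤ C0 * (C1 * m * vv m h s) := by gcongr; exact h1 m d h hm hd hh s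
        _ ≤ C0 * (C1 * m * (C2 * om m (s - θ) ^ 4 * vv m h θ)) := by
            gcongr
            exact h2 m h hm hh.continuous42 s θ
        _ ≤ C0 * (C1 * m * (C2 * 16 * vv m h θ)) := by gcongr
        _ = _ := by ring
    have e3 := k42_cosE_local hh.differentiable42 hE.differentiable42 hs hk e2
    refine e3.trans ?_
    have : 0 ≤ C0 * m * vv m h θ := by positivity
    nlinarith

/-- more precise near the ends: bounded by the sup of `|h'|` between `θ` and the nearest zero -/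
theorem cosE_le_sup (m : ℕ) (h E : ℝ → ℝ) (d : ℕ) (hh : TP d h) (hE : TP d E)
    (hs : ∀ θ, h θ = sin θ * E θ) (a S : ℝ) (ha : a ≤ 1) (hS : ∀ θ, |sin θ| < a → |deriv h θ| ≤ S) :
    ∀ θ, |sin θ| < a → |cos θ * E θ| ≤ 2 * S := by
  intro θ hθ
  obtain ⟨k, hk⟩ := k42_red_pi θ
  refine k42_cosE_local hh.differentiable42 hE.differentiable42 hs hk ?_
  intro s hs'
  apply hS
  have e1 := k42_abs_sub_le_of_mem_uIcc hs'
  have e2 := k42_abs_sin_mono e1 hk
  rw [k42_abs_sin_sub_int, k42_abs_sin_sub_int] at e2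
  exact lt_of_le_of_lt e2 hθ

/-- `sg` of `h' + cos · E` vanishes (`(h sin)' = sin (h' + cos E)` on `[0,π]` and `[-π,0]`) -/
theorem sg_onesided (h E : ℝ → ℝ) (d : ℕ) (hh : TP d h) (hE : TP d E)
    (hs : ∀ θ, h θ = sin θ * E θ) : sg (fun θ => deriv h θ + cos θ * E θ) = 0 := by
  have hd : ∀ θ, HasDerivAt (fun θ => h θ * sin θ) ((deriv h θ + cos θ * E θ) * sin θ) θ := by
    intro θ
    have h1 := ((hh.differentiable42 θ).hasDerivAt).fun_mul (hasDerivAt_sin θ)
    refine h1.congr_deriv ?_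
    rw [hs θ]
    ring
  have hcont : Continuous (fun θ => (deriv h θ + cos θ * E θ) * sin θ) :=
    ((hh.deriv.continuous42).add (continuous_cos.mul hE.continuous42)).mul continuous_sin
  have hcont' : Continuous (fun θ => (deriv h θ + cos θ * E θ) * |sin θ|) :=
    ((hh.deriv.continuous42).add (continuous_cos.mul hE.continuous42)).mul continuous_sin.abs
  have hpi := pi_pos
  have e1 : ∫ θ in (0:ℝ)..π, (deriv h θ + cos θ * E θ) * |sin θ| = 0 := by
    have : ∫ θ in (0:ℝ)..π, (deriv h θ + cos θ * E θ) * |sin θ| =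
        ∫ θ in (0:ℝ)..π, (deriv h θ + cos θ * E θ) * sin θ := by
      apply intervalIntegral.integral_congr
      intro θ hθ
      rw [Set.uIcc_of_le hpi.le] at hθ
      simp only
      rw [abs_of_nonneg (sin_nonneg_of_nonneg_of_le_pi hθ.1 hθ.2)]
    rw [this, intervalIntegral.integral_eq_sub_of_hasDerivAt (fun θ _ => hd θ)
      (hcont.intervalIntegrable _ _)]
    simp
  have e2 : ∫ θ in (-π)..0, (deriv h θ + cos θ * E θ) * |sin θ| = 0 := by
    have : ∫ θ in (-π)..0, (deriv h θ + cos θ * E θ) * |sin θ| =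
        ∫ θ in (-π)..0, -((deriv h θ + cos θ * E θ) * sin θ) := by
      apply intervalIntegral.integral_congr
      intro θ hθ
      rw [Set.uIcc_of_le (by linarith)] at hθ
      simp only
      rw [abs_of_nonpos (sin_nonpos_of_nonpos_of_neg_pi_le hθ.2 hθ.1)]
      ring
    rw [this, intervalIntegral.integral_neg,
      intervalIntegral.integral_eq_sub_of_hasDerivAt (fun θ _ => hd θ)
      (hcont.intervalIntegrable _ _)]
    simp
  rw [sg, ← intervalIntegral.integral_add_adjacent_intervals (hcont'.intervalIntegrable (-π) 0)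
    (hcont'.intervalIntegrable 0 π), e1, e2]
  simp

/-- near exactness for `F = h' + cos · E` (degree `≤ d+1 ≤ p`), weighted Bernstein
(`int_abs_deriv_W_le`) and `|F| ≤ C m v_h` -/
theorem onesided (Λ : ℝ) (hΛ : 1 ≤ Λ) : ∃ C : ℝ, 0 < C ∧
    ∀ (N p m d : ℕ) (x : Fin N → ℝ) (δ : ℝ) (h E : ℝ → ℝ), 1 ≤ m →
    (p : ℝ) ≤ Λ * m → d + 1 ≤ p → 0 ≤ δ → NE p m δ x → TP d h → TP d E →
    (∀ θ, h θ = sin θ * E θ) →
    |mu x (fun θ => deriv h θ + cos θ * E θ)| ≤ C * δ * m * VV m h := by
  obtain ⟨C0, hC0, h0⟩ := abs_le_vv Λ hΛ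
  obtain ⟨C1, hC1, h1⟩ := vv_deriv_le Λ hΛ
  obtain ⟨C3, hC3, h3⟩ := cosE_le Λ hΛ
  obtain ⟨C4, hC4, h4⟩ := int_abs_deriv_W_le Λ hΛ
  refine ⟨C4 * (C0 * C1 + C3), by positivity, ?_⟩
  intro N p m d x δ h E hm hp hdp hδ hNE hh hE hs
  have hm0 : (0 : ℝ) < m := by exact_mod_cast hm
  set F : ℝ → ℝ := fun θ => deriv h θ + cos θ * E θ with hF
  have hdm : (d : ℝ) ≤ Λ * m := by
    refine le_trans ?_ hp
    exact_mod_cast (by omega : d ≤ p)
  have hcos : TP (1 + d) (fun θ => cos θ * E θ) := by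
    have e1 : TP 1 cos := by
      have := TP.cos_mul 1
      simpa using this
    exact e1.mul hE
  have hFp : TP p F := (hh.deriv.mono (by omega)).add (hcos.mono (by omega))
  have e1 := hNE F hFp
  rw [sg_onesided h E d hh hE hs, sub_zero] at e1
  have e2 := h4 m p F hm hp hFp
  have e3 : ∫ s in (-π)..π, |F s| * W m s ≤ (C0 * C1 + C3) * m * VV m h := by
    have e4 : ∫ s in (-π)..π, |F s| * W m s ≤
        ∫ s in (-π)..π, (C0 * C1 + C3) * m * (vv m h s * W m s) := by
      apply intervalIntegral.integral_mono_on (by linarith [pi_pos])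
      · exact ((hFp.continuous42.abs).mul (W_continuous m)).intervalIntegrable _ _
      · exact (continuous_const.mul
          ((vv_continuous hm hh.continuous42).mul (W_continuous m))).intervalIntegrable _ _
      · intro s _
        have hW := (W_pos hm s).le
        have e5 : |F s| ≤ (C0 * C1 + C3) * m * vv m h s := by
          calc |F s| ≤ |deriv h s| + |cos s * E s| := abs_add_le _ _
            _ ≤ C0 * (C1 * m * vv m h s) + C3 * m * vv m h s := by
                gcongr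
                · exact (h0 m d _ hm hdm hh.deriv s).trans (by gcongr; exact h1 m d h hm hdm hh s)
                · exact h3 m d h E hm hdm hh hE hs s
            _ = _ := by ring
        calc |F s| * W m s ≤ ((C0 * C1 + C3) * m * vv m h s) * W m s := by gcongr
          _ = _ := by ring
    rw [intervalIntegral.integral_const_mul] at e4
    exact e4
  calc |mu x F| ≤ δ / m * ∫ θ in (-π)..π, |deriv F θ| * W m θ := e1
    _ ≤ δ / m * (C4 * m * ((C0 * C1 + C3) * m * VV m h)) := by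
        gcongr
        exact e2.trans (by gcongr)
    _ = C4 * (C0 * C1 + C3) * δ * m * VV m h := by
        field_simp

end Pool.Agent.H93.Ch
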