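import Pool.Agent.H93.Ch.LocV
import Pool.Agent.H93.Ch.Cap0
import Pool.Agent.H93.Ch.OneSided

/-! Module C: killing at the ends; one-sided capacity inequality. -/

set_option autoImplicit false

namespace Pool.Agent.H93.Ch

open Real MeasureTheory

theorem mu_split {N : ℕ} (x : Fin N → ℝ) (a : ℝ) (F : ℝ → ℝ) :
    mu x F = mu x (fun θ => if a ≤ |sin θ| then F θ else 0)
      + mu x (fun θ => if |sin θ| < a then F θ else 0) := by
  rw [← mu_add]
  congr 1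
  funext θ
  rcases le_or_gt a |sin θ| with h | h
  · rw [if_pos h, if_neg (not_lt.2 h), add_zero]
  · rw [if_neg (not_le.2 h), if_pos h, zero_add]

/-- bound on an integral over the near zone -/
theorem mu_near_le {N : ℕ} (x : Fin N → ℝ) (a S : ℝ) (F : ℝ → ℝ)
    (h : ∀ θ, |sin θ| < a → F θ ≤ S) :
    mu x (fun θ => if |sin θ| < a then F θ else 0)
      ≤ S * mu x (fun θ => if |sin θ| < a then 1 else 0) := by
  rw [← mu_const_mul]
  apply mu_mono
  intro θ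
  split_ifs with h1
  · rw [mul_one]; exact h θ h1
  · rw [mul_zero]

theorem exists_A (c : ℝ) (hc : 0 < c) (D : ℝ) : ∃ A₁ : ℕ, 1 ≤ A₁ ∧ ∀ A : ℕ, A₁ ≤ A →
    D * (A : ℝ) ^ 6 * Real.exp (-(A : ℝ)) ≤ c := by
  have h := Real.tendsto_pow_mul_exp_neg_atTop_nhds_zero 6
  have h2 := (h.const_mul D).comp tendsto_natCast_atTop_atTop
  rw [mul_zero] at h2
  have h3 := h2.eventually (gt_mem_nhds hc)
  obtain ⟨A₁, hA₁⟩ := Filter.eventually_atTop.1 h3
  refine ⟨max A₁ 1, le_max_right _ _, fun A hA => ?_⟩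
  have := (hA₁ A ((le_max_left _ _).trans hA)).le
  simp only [Function.comp] at this
  linarith [this, show D * ((A : ℝ) ^ 6 * Real.exp (-(A : ℝ))) = D * (A : ℝ) ^ 6 * Real.exp (-(A : ℝ))
    by ring]

/-- near-zone bounds for `b`, `b'` : `n = Nε A`, `r = m / n`, `κ = K/Nε ≤ 1` -/
theorem bb_near {m n A : ℕ} (K κ : ℝ) (hn : 1 ≤ n) (hK : 0 ≤ K) (hκ : K * A ≤ κ * n)
    (hκ0 : 0 ≤ κ) {θ : ℝ} (hθ : |sin θ| < K * A / m) (hm : 1 ≤ m) :
    bb m n θ ≤ κ ^ (2 * n) ∧ |deriv (bb m n) θ| ≤ 2 * m * κ ^ (2 * n - 1) := by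
  have hm0 : (0 : ℝ) < m := by exact_mod_cast hm
  have hn0 : (0 : ℝ) < n := by exact_mod_cast hn
  have hr : ((m / n : ℕ) : ℝ) ≤ m / n := Nat.cast_div_le
  have hr0 : (0 : ℝ) ≤ ((m / n : ℕ) : ℝ) := Nat.cast_nonneg _
  have h1 : ((m / n : ℕ) : ℝ) * |sin θ| ≤ κ := by
    calc ((m / n : ℕ) : ℝ) * |sin θ| ≤ (m / n) * (K * A / m) := by
          apply mul_le_mul hr hθ.le (abs_nonneg _) (by positivity)
      _ = K * A / n := by field_simp
      _ ≤ κ := by rw [div_le_iff₀ hn0]; exact hκ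
  have h2 : BB (m / n) θ ≤ κ ^ 2 := by
    refine (BB_le _ _).trans ?_
    rw [← sq_abs, abs_mul, abs_of_nonneg hr0]
    exact pow_le_pow_left₀ (mul_nonneg hr0 (abs_nonneg _)) h1 2
  have h3 : Real.sqrt (BB (m / n) θ) ≤ κ := by
    rw [Real.sqrt_le_left hκ0]; exact h2
  constructor
  · unfold bb
    rw [pow_mul]
    exact pow_le_pow_left₀ (BB_nonneg _ _) h2 n
  · have h4 := deriv_BB_pow_le (r := m / n) (n := n) hn θ
    have h5 : deriv (bb m n) θ = deriv (fun θ => BB (m / n) θ ^ n) θ := rfl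
    rw [h5]
    refine h4.trans ?_
    have h6 : BB (m / n) θ ^ (n - 1) * Real.sqrt (BB (m / n) θ) ≤ κ ^ (2 * n - 1) := by
      have : κ ^ (2 * n - 1) = (κ ^ 2) ^ (n - 1) * κ := by
        rw [← pow_mul, ← pow_succ]; congr 1; omega
      rw [this]
      exact mul_le_mul (pow_le_pow_left₀ (BB_nonneg _ _) h2 _) h3 (Real.sqrt_nonneg _)
        (by positivity)
    have h7 : (n : ℝ) * ((m / n : ℕ) : ℝ) ≤ m := by
      calc (n : ℝ) * ((m / n : ℕ) : ℝ) ≤ n * (m / n) := by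
            apply mul_le_mul_of_nonneg_left hr hn0.le
        _ = m := by field_simp
    calc 2 * (n : ℝ) * ((m / n : ℕ) : ℝ) * (BB (m / n) θ ^ (n - 1) * Real.sqrt (BB (m / n) θ))
        = 2 * ((n : ℝ) * ((m / n : ℕ) : ℝ)) * (BB (m / n) θ ^ (n - 1) * Real.sqrt (BB (m / n) θ)) := by
          ring
      _ ≤ 2 * (m : ℝ) * κ ^ (2 * n - 1) := by
          apply mul_le_mul (by linarith) h6 _ (by positivity)
          exact mul_nonneg (pow_nonneg (BB_nonneg _ _) _) (Real.sqrt_nonneg _)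

/-- far zone: `|b'| ≤ 6 Nε m b` -/
theorem bb_far {m Nε A : ℕ} (hN : 1 ≤ Nε) (hA : 1 ≤ A) (hnm : Nε * A ≤ m) {θ : ℝ}
    (hθ : (A : ℝ) / m ≤ |sin θ|) :
    |deriv (bb m (Nε * A)) θ| ≤ 6 * Nε * m * bb m (Nε * A) θ := by
  have hn : 1 ≤ Nε * A := Nat.one_le_iff_ne_zero.2 (by positivity)
  have hm : 1 ≤ m := hn.trans hnm
  have hm0 : (0 : ℝ) < m := by exact_mod_cast hm
  have hA0 : (0 : ℝ) < A := by exact_mod_cast hA
  have hN0 : (1 : ℝ) ≤ Nε := by exact_mod_cast hN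
  have hn0 : (0 : ℝ) < ((Nε * A : ℕ) : ℝ) := by exact_mod_cast hn
  have hr1 : 1 ≤ m / (Nε * A) := (Nat.one_le_div_iff (by omega)).2 hnm
  have h := logderiv_BB_pow_le (r := m / (Nε * A)) (n := Nε * A) hr1 hn (a := (A : ℝ) / m)
    (by positivity) hθ
  have hb0 : 0 ≤ BB (m / (Nε * A)) θ ^ (Nε * A) := pow_nonneg (BB_nonneg _ _) _
  refine h.trans ?_
  unfold bb
  apply mul_le_mul_of_nonneg_right _ hb0
  have h1 : ((m / (Nε * A) : ℕ) : ℝ) ≤ m / ((Nε * A : ℕ) : ℝ) := Nat.cast_div_le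
  have h2 : ((Nε * A : ℕ) : ℝ) * max ((m / (Nε * A) : ℕ) : ℝ) (1 / ((A : ℝ) / m)) ≤ Nε * m := by
    rw [mul_max_of_nonneg _ _ hn0.le]
    apply max_le
    · calc ((Nε * A : ℕ) : ℝ) * ((m / (Nε * A) : ℕ) : ℝ) ≤ ((Nε * A : ℕ) : ℝ) * (m / ((Nε * A : ℕ) : ℝ)) :=
            mul_le_mul_of_nonneg_left h1 hn0.le
        _ = m := by field_simp
        _ ≤ Nε * m := by nlinarith
    · push_cast
      apply le_of_eq
      field_simp
  calc 6 * ((Nε * A : ℕ) : ℝ) * max ((m / (Nε * A) : ℕ) : ℝ) (1 / ((A : ℝ) / m))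
      = 6 * (((Nε * A : ℕ) : ℝ) * max ((m / (Nε * A) : ℕ) : ℝ) (1 / ((A : ℝ) / m))) := by ring
    _ ≤ 6 * (Nε * m) := by linarith
    _ = 6 * Nε * m := by ring

/-- the algebraic core of (CAP): everything after the near-zone estimates -/
theorem cap_core (Λ : ℝ) (hΛ : 1 ≤ Λ) : ∃ (C₀ K A₀ δ₀ Cos Cn : ℝ), 0 < C₀ ∧ 1 ≤ K ∧ 1 ≤ A₀ ∧
    0 < δ₀ ∧ δ₀ ≤ 1 ∧ 0 < Cos ∧ 0 < Cn ∧
    ∀ (N p m q Nε A : ℕ) (x : Fin N → ℝ) (δ S : ℝ) (P : Polynomial ℝ), 0 < N → 1 ≤ m →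
    1 ≤ Nε → 1 ≤ A → Nε * A ≤ m → A₀ ≤ A → 2 * K * A ≤ m →
    (p : ℝ) ≤ Λ * m → q + 7 * m ≤ p → 0 ≤ δ → δ ≤ δ₀ → NE p m δ x → P.natDegree ≤ q →
    0 ≤ S → (∀ θ, |sin θ| < K * A / m → |hh m (Nε * A) P θ| ≤ S ∧
      |deriv (hh m (Nε * A) P) θ| ≤ m * S) →
    VV m (hh m (Nε * A) P) ≤ C₀ * ((2 + 12 * Nε) * mu x (fun θ => if (A : ℝ) / m ≤ |sin θ| then
      bb m (Nε * A) θ * (|gg m P θ| + max (deriv (gg m P) θ / m) 0) else 0)
      + Cos * δ * VV m (hh m (Nε * A) P) + (3 * Cn + 1) * (A : ℝ) ^ 6 / m ^ 2 * S) := by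
  obtain ⟨C₀, K, A₀, δ₀, hC₀, hK, hA₀, hδ₀, hδ₁, H0⟩ := cap0 Λ hΛ
  obtain ⟨Cos, hCos, H1⟩ := onesided Λ hΛ
  obtain ⟨Cn, hCn, H2⟩ := mu_near
  refine ⟨C₀, K, A₀, δ₀, Cos, Cn, hC₀, hK, hA₀, hδ₀, hδ₁, hCos, hCn, ?_⟩
  intro N p m q Nε A x δ S P hN hm hNε hA hnm hA₀' hKA hpΛ hq hδ hδ' hNE hP hS hnear
  have hn : 1 ≤ Nε * A := Nat.one_le_iff_ne_zero.2 (by positivity)
  have hm0 : (0 : ℝ) < m := by exact_mod_cast hm
  have hA1 : (1 : ℝ) ≤ A := by exact_mod_cast hA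
  have hNε0 : (1 : ℝ) ≤ Nε := by exact_mod_cast hNε
  have hN0 : (0 : ℝ) < N := by exact_mod_cast hN
  set h := hh m (Nε * A) P with hh_def
  set b := bb m (Nε * A) with hb_def
  set g := gg m P with hg_def
  have hTPb : TP (2 * m) b := bb_TP hn
  have hTPg : TP q g := gg_TP hP
  have hTPh : TP (q + 2 * m) h := hh_TP hn hP
  have hb0 : ∀ θ, 0 ≤ b θ := fun θ => pow_nonneg (BB_nonneg _ _) _
  have hhbg : ∀ θ, h θ = b θ * g θ := fun θ => rfl
  have hdiffb : Differentiable ℝ b := hTPb.contDiff.differentiable (by simp)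
  have hdiffg : Differentiable ℝ g := hTPg.contDiff.differentiable (by simp)
  have hder : ∀ θ, deriv h θ = deriv b θ * g θ + b θ * deriv g θ := by
    intro θ
    have : h = fun θ => b θ * g θ := rfl
    rw [this]
    exact deriv_fun_mul (hdiffb θ) (hdiffg θ)
  -- the function `E`
  set E : ℝ → ℝ := fun θ => b θ * (-(P.derivative.eval (cos θ)) / m) with hE_def
  have hsE : ∀ θ, h θ = sin θ * E θ := by
    intro θ
    rw [hhbg]
    simp only [hE_def, hg_def, gg]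
    ring
  have hTPE : TP (q + 2 * m) E := by
    have h1 : TP q (fun θ => (-(1 : ℝ) / m) * P.derivative.eval (cos θ)) :=
      (TP.poly_cos P.derivative ((Polynomial.natDegree_derivative_le P).trans
        ((Nat.sub_le _ _).trans hP))).const_mul _
    have h2 := hTPb.mul h1
    rw [Nat.add_comm] at h2
    convert h2 using 1
    funext θ
    simp only [hE_def]
    ring
  -- cap0
  have hcap := H0 N p m (q + 2 * m) x A δ S h hN hm hpΛ (by omega) hA₀' hKA hδ hδ' hNE hTPh hS hnear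
  -- one-sided
  have hos := H1 N p m (q + 2 * m) x δ h E hm hpΛ (by omega) hδ hNE hTPh hTPE hsE
  have hKAle : (A : ℝ) / m ≤ K * A / m := by
    apply div_le_div_of_nonneg_right _ hm0.le
    nlinarith
  have hAm1 : (A : ℝ) / m ≤ 1 := by
    rw [div_le_one hm0]
    nlinarith
  have hmass : mu x (fun θ => if |sin θ| < (A : ℝ) / m then 1 else 0) ≤ Cn * ((A : ℝ) / m) ^ 2 :=
    H2 N p m x δ hm (by omega) hδ (hδ'.trans hδ₁) hNE A hA1
  have hcosE : ∀ θ, |sin θ| < (A : ℝ) / m → |cos θ * E θ| ≤ 2 * (m * S) := by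
    apply cosE_le_sup m h E (q + 2 * m) hTPh hTPE hsE _ _ hAm1
    intro θ hθ
    exact (hnear θ (hθ.trans_le hKAle)).2
  -- abbreviations for far integrals
  set far : (ℝ → ℝ) → ℝ := fun F => mu x (fun θ => if (A : ℝ) / m ≤ |sin θ| then F θ else 0)
    with hfar_def
  set near : (ℝ → ℝ) → ℝ := fun F => mu x (fun θ => if |sin θ| < (A : ℝ) / m then F θ else 0)
    with hnear_def
  have hsplit : ∀ F : ℝ → ℝ, mu x F = far F + near F := fun F => mu_split x _ F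
  have far_mono : ∀ F G : ℝ → ℝ, (∀ θ, (A : ℝ) / m ≤ |sin θ| → F θ ≤ G θ) → far F ≤ far G := by
    intro F G hFG
    apply mu_mono
    intro θ
    split_ifs with h1
    · exact hFG θ h1
    · exact le_refl _
  have far_add : ∀ F G : ℝ → ℝ, far (fun θ => F θ + G θ) = far F + far G := by
    intro F G
    simp only [hfar_def]
    rw [← mu_add]
    congr 1
    funext θ
    split_ifs <;> simp
  have far_mul : ∀ (c : ℝ) (F : ℝ → ℝ), far (fun θ => c * F θ) = c * far F := by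
    intro c F
    simp only [hfar_def]
    rw [← mu_const_mul]
    congr 1
    funext θ
    split_ifs <;> simp
  have near_le : ∀ (F : ℝ → ℝ) (T : ℝ), 0 ≤ T → (∀ θ, |sin θ| < (A : ℝ) / m → F θ ≤ T) →
      near F ≤ T * (Cn * ((A : ℝ) / m) ^ 2) := by
    intro F T hT hF
    exact (mu_near_le x _ T F hF).trans (mul_le_mul_of_nonneg_left hmass hT)
  -- basic quantities
  set R1 := far (fun θ => b θ * |g θ|) with hR1
  set R2 := far (fun θ => b θ * max (deriv g θ / m) 0) with hR2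
  have hR : mu x (fun θ => if (A : ℝ) / m ≤ |sin θ| then
      b θ * (|g θ| + max (deriv g θ / m) 0) else 0) = R1 + R2 := by
    rw [hR1, hR2, ← far_add]
    simp only [hfar_def]
    congr 1
    funext θ
    split_ifs
    · ring
    · rfl
  rw [hR]
  have hR1_0 : 0 ≤ R1 := by
    apply mu_nonneg
    intro θ
    split_ifs
    · exact mul_nonneg (hb0 θ) (abs_nonneg _)
    · exact le_refl _
  have hbfar : ∀ θ, (A : ℝ) / m ≤ |sin θ| → |deriv b θ| ≤ 6 * Nε * m * b θ := by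
    intro θ hθ
    exact bb_far hNε hA hnm hθ
  -- (i) the one-sided estimate: far (b |g'|) in terms of R1, R2
  have hF : mu x (fun θ => deriv h θ + cos θ * E θ) = far (fun θ => deriv h θ) +
      near (fun θ => deriv h θ) + (far (fun θ => cos θ * E θ) + near (fun θ => cos θ * E θ)) := by
    rw [mu_add, hsplit (fun θ => deriv h θ), hsplit (fun θ => cos θ * E θ)]
  have hi1 : - far (fun θ => deriv h θ) ≤ Cos * δ * m * VV m h + m * R1
      + 3 * (m * S) * (Cn * ((A : ℝ) / m) ^ 2) := by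
    have e1 : - far (fun θ => deriv h θ) = - mu x (fun θ => deriv h θ + cos θ * E θ)
        + near (fun θ => deriv h θ) + far (fun θ => cos θ * E θ) + near (fun θ => cos θ * E θ) := by
      rw [hF]; ring
    rw [e1]
    have e2 : - mu x (fun θ => deriv h θ + cos θ * E θ) ≤ Cos * δ * m * VV m h :=
      (neg_le_abs _).trans hos
    have e3 : near (fun θ => deriv h θ) ≤ (m * S) * (Cn * ((A : ℝ) / m) ^ 2) :=
      near_le _ _ (by positivity) (fun θ hθ =>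
        (le_abs_self _).trans (hnear θ (hθ.trans_le hKAle)).2)
    have e4 : near (fun θ => cos θ * E θ) ≤ (2 * (m * S)) * (Cn * ((A : ℝ) / m) ^ 2) :=
      near_le _ _ (by positivity) (fun θ hθ => (le_abs_self _).trans (hcosE θ hθ))
    have e5 : far (fun θ => cos θ * E θ) ≤ m * R1 := by
      rw [hR1, ← far_mul]
      apply far_mono
      intro θ hθ
      have hs0 : 0 < |sin θ| := lt_of_lt_of_le (by positivity) hθ
      have h1 : |E θ| = |h θ| / |sin θ| := by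
        rw [eq_div_iff hs0.ne', hsE θ, abs_mul (sin θ) (E θ), mul_comm]
      have h2 : |h θ| = b θ * |g θ| := by
        rw [hhbg, abs_mul, abs_of_nonneg (hb0 θ)]
      have h3 : 1 / |sin θ| ≤ m := by
        rw [div_le_iff₀ hs0]
        rw [div_le_iff₀ hm0] at hθ
        nlinarith
      calc cos θ * E θ ≤ |cos θ * E θ| := le_abs_self _
        _ = |cos θ| * |E θ| := abs_mul _ _
        _ ≤ 1 * |E θ| := mul_le_mul_of_nonneg_right (Real.abs_cos_le_one θ) (abs_nonneg _)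
        _ = (1 / |sin θ|) * |h θ| := by rw [h1]; ring
        _ ≤ m * |h θ| := mul_le_mul_of_nonneg_right h3 (abs_nonneg _)
        _ = m * (b θ * |g θ|) := by rw [h2]
    linarith
  have hi2 : far (fun θ => b θ * |deriv g θ|) ≤ 2 * m * R2 - far (fun θ => deriv h θ)
      + 6 * Nε * m * R1 := by
    have e1 : far (fun θ => b θ * |deriv g θ|) ≤ far (fun θ => (2 * m) * (b θ * max (deriv g θ / m) 0)
        + ((-1) * deriv h θ + (6 * Nε * m) * (b θ * |g θ|))) := by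
      apply far_mono
      intro θ hθ
      have h1 : |deriv g θ| = 2 * (m * max (deriv g θ / m) 0) - deriv g θ := by
        rcases le_total 0 (deriv g θ) with h | h
        · rw [abs_of_nonneg h, max_eq_left (by positivity)]
          field_simp
          ring
        · rw [abs_of_nonpos h, max_eq_right (div_nonpos_of_nonpos_of_nonneg h hm0.le)]
          ring
      have h2 := hbfar θ hθ
      have h3 : deriv b θ * g θ ≤ 6 * Nε * m * b θ * |g θ| := by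
        calc deriv b θ * g θ ≤ |deriv b θ * g θ| := le_abs_self _
          _ = |deriv b θ| * |g θ| := abs_mul _ _
          _ ≤ 6 * Nε * m * b θ * |g θ| := mul_le_mul_of_nonneg_right h2 (abs_nonneg _)
      rw [h1, hder]
      nlinarith
    refine e1.trans (le_of_eq ?_)
    rw [far_add, far_add, far_mul, far_mul, far_mul]
    ring
  -- (ii) far (|h| + |h'|/m)
  have hii : far (fun θ => |h θ| + |deriv h θ| / m) ≤ (1 + 6 * Nε) * R1
      + (1 / m) * far (fun θ => b θ * |deriv g θ|) := by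
    rw [hR1, ← far_mul, ← far_mul, ← far_add]
    apply far_mono
    intro θ hθ
    have h2 : |h θ| = b θ * |g θ| := by
      rw [hhbg, abs_mul, abs_of_nonneg (hb0 θ)]
    have h3 : |deriv h θ| ≤ 6 * Nε * m * b θ * |g θ| + b θ * |deriv g θ| := by
      rw [hder]
      refine (abs_add_le _ _).trans ?_
      rw [abs_mul, abs_mul, abs_of_nonneg (hb0 θ)]
      have := mul_le_mul_of_nonneg_right (hbfar θ hθ) (abs_nonneg (g θ))
      linarith
    have h4 : |deriv h θ| / m ≤ 6 * Nε * b θ * |g θ| + b θ * |deriv g θ| / m := by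
      rw [div_le_iff₀ hm0]
      refine h3.trans (le_of_eq ?_)
      field_simp
    rw [h2]
    have h5 : b θ * |deriv g θ| / m = 1 / m * (b θ * |deriv g θ|) := by ring
    rw [h5] at h4
    linarith
  -- combine
  have hcap' : VV m h ≤ C₀ * (far (fun θ => |h θ| + |deriv h θ| / m) + (A : ℝ) ^ 6 / m ^ 2 * S) := hcap
  refine hcap'.trans ?_
  apply mul_le_mul_of_nonneg_left _ hC₀.le
  have e1 : (1 / (m : ℝ)) * far (fun θ => b θ * |deriv g θ|) ≤ 2 * R2 + Cos * δ * VV m h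
      + (1 + 6 * Nε) * R1 + 3 * S * (Cn * ((A : ℝ) / m) ^ 2) := by
    have := hi2.trans (by linarith : _ ≤ 2 * m * R2 + (Cos * δ * m * VV m h + m * R1
      + 3 * (m * S) * (Cn * ((A : ℝ) / m) ^ 2)) + 6 * Nε * m * R1)
    calc (1 / (m : ℝ)) * far (fun θ => b θ * |deriv g θ|)
        ≤ (1 / (m : ℝ)) * (2 * m * R2 + (Cos * δ * m * VV m h + m * R1
      + 3 * (m * S) * (Cn * ((A : ℝ) / m) ^ 2)) + 6 * Nε * m * R1) :=
          mul_le_mul_of_nonneg_left this (by positivity)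
      _ = _ := by field_simp; ring
  have e2 : 3 * S * (Cn * ((A : ℝ) / m) ^ 2) ≤ 3 * Cn * (A : ℝ) ^ 6 / m ^ 2 * S := by
    have : (A : ℝ) ^ 2 ≤ (A : ℝ) ^ 6 := pow_le_pow_right₀ hA1 (by norm_num)
    calc 3 * S * (Cn * ((A : ℝ) / m) ^ 2) = (3 * Cn * S / m ^ 2) * (A : ℝ) ^ 2 := by
          field_simp
      _ ≤ (3 * Cn * S / m ^ 2) * (A : ℝ) ^ 6 := mul_le_mul_of_nonneg_left this (by positivity)
      _ = _ := by field_simp
  have e3 : (3 * Cn + 1) * (A : ℝ) ^ 6 / m ^ 2 * S = 3 * Cn * (A : ℝ) ^ 6 / m ^ 2 * S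
      + (A : ℝ) ^ 6 / m ^ 2 * S := by ring
  have e4 : 0 ≤ R2 := by
    apply mu_nonneg
    intro θ
    split_ifs
    · exact mul_nonneg (hb0 θ) (le_max_right _ _)
    · exact le_refl _
  have e5 : 0 ≤ 12 * (Nε : ℝ) * R2 := by positivity
  rw [e3]
  nlinarith [hii, e1, e2, e5]

/-- (CAP) one-sided capacity inequality -/
theorem cap (Λ : ℝ) (hΛ : 1 ≤ Λ) : ∃ (C : ℝ) (Nε A₁ : ℕ), 0 < C ∧ 1 ≤ Nε ∧ 1 ≤ A₁ ∧
    ∀ A : ℕ, A₁ ≤ A → ∃ (δ₁ : ℝ) (m₁ : ℕ), 0 < δ₁ ∧ δ₁ ≤ 1 ∧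
    ∀ (N p m q : ℕ) (x : Fin N → ℝ) (δ : ℝ) (P : Polynomial ℝ), 0 < N → 1 ≤ m → m₁ ≤ m →
    (p : ℝ) ≤ Λ * m → q + 7 * m ≤ p → 0 ≤ δ → δ ≤ δ₁ → NE p m δ x → P.natDegree ≤ q →
    VV m (hh m (Nε * A) P) ≤ C * mu x (fun θ => if (A : ℝ) / m ≤ |sin θ| then
      bb m (Nε * A) θ * (|gg m P θ| + max (deriv (gg m P) θ / m) 0) else 0) := by
  obtain ⟨C₀, K, A₀, δ₀, Cos, Cn, hC₀, hK, hA₀, hδ₀, hδ₁, hCos, hCn, H⟩ := cap_core Λ hΛ
  obtain ⟨Ca, hCa, Habs⟩ := abs_le_vv Λ hΛ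
  obtain ⟨Cb, hCb, Hvv⟩ := vv_le_VV
  obtain ⟨Cd, hCd, Hsup⟩ := sup_deriv_le Λ hΛ
  -- choice of `Nε`
  obtain ⟨Nε, hNε⟩ := exists_nat_ge (K * Real.exp (3 * Λ + 1) * 3)
  have hKe : 1 ≤ K * Real.exp (3 * Λ + 1) * 3 := by
    have : 1 ≤ Real.exp (3 * Λ + 1) := Real.one_le_exp (by linarith)
    nlinarith [mul_le_mul hK this zero_le_one (by linarith)]
  have hNε1 : (1 : ℝ) ≤ Nε := hKe.trans hNε
  have hNε1' : 1 ≤ Nε := by exact_mod_cast hNε1
  set κ : ℝ := K / Nε with hκ_def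
  have hNε0 : (0 : ℝ) < Nε := by linarith
  have hκ0 : 0 < κ := div_pos (by linarith) hNε0
  -- `κ² e^(6Λ) 8 ≤ e^(-1)`
  have hκsq : κ ^ 2 * Real.exp (6 * Λ) * 8 ≤ Real.exp (-1) := by
    have h1 : κ ≤ 1 / (Real.exp (3 * Λ + 1) * 3) := by
      rw [hκ_def, div_le_div_iff₀ hNε0 (by positivity)]
      linarith
    have h2 : κ ^ 2 ≤ (1 / (Real.exp (3 * Λ + 1) * 3)) ^ 2 := pow_le_pow_left₀ hκ0.le h1 2
    have h3 : (1 / (Real.exp (3 * Λ + 1) * 3)) ^ 2 = Real.exp (-(6 * Λ + 2)) / 9 := by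
      rw [Real.exp_neg, div_pow, mul_pow, ← Real.exp_nat_mul]
      rw [show ((2 : ℕ) : ℝ) * (3 * Λ + 1) = 6 * Λ + 2 by push_cast; ring]
      field_simp
      norm_num
    rw [h3] at h2
    calc κ ^ 2 * Real.exp (6 * Λ) * 8 ≤ (Real.exp (-(6 * Λ + 2)) / 9) * Real.exp (6 * Λ) * 8 := by
          apply mul_le_mul_of_nonneg_right _ (by norm_num)
          exact mul_le_mul_of_nonneg_right h2 (Real.exp_pos _).le
      _ = (8 / 9) * (Real.exp (-(6 * Λ + 2)) * Real.exp (6 * Λ)) := by ring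
      _ = (8 / 9) * Real.exp (-2) := by rw [← Real.exp_add]; congr 2; ring
      _ ≤ 1 * Real.exp (-1) := by
          apply mul_le_mul (by norm_num) (Real.exp_le_exp.2 (by norm_num)) (Real.exp_pos _).le
            (by norm_num)
      _ = Real.exp (-1) := one_mul _
  have hκ1 : κ ≤ 1 := by
    rw [hκ_def, div_le_one hNε0]
    have : 1 ≤ Real.exp (3 * Λ + 1) := Real.one_le_exp (by linarith)
    nlinarith
  -- choice of `A₁`
  set D : ℝ := C₀ * (3 * Cn + 1) * ((2 + Cd) * κ⁻¹ * (2 * (Ca * Cb))) with hD_def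
  obtain ⟨A₁, hA₁1, hA₁⟩ := exists_A (1 / 4) (by norm_num) D
  obtain ⟨A₂, hA₂⟩ := exists_nat_ge A₀
  refine ⟨2 * C₀ * (2 + 12 * Nε), Nε, max A₁ A₂, by positivity, hNε1',
    hA₁1.trans (le_max_left _ _), ?_⟩
  intro A hA
  have hAA₁ : A₁ ≤ A := (le_max_left _ _).trans hA
  have hAA₂ : A₀ ≤ A := hA₂.trans (by exact_mod_cast (le_max_right _ _).trans hA)
  have hA1 : 1 ≤ A := hA₁1.trans hAA₁
  have hA1' : (1 : ℝ) ≤ A := by exact_mod_cast hA1
  obtain ⟨m₁, hm₁⟩ := exists_nat_ge (2 * K * A)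
  refine ⟨min δ₀ (1 / (4 * C₀ * Cos)), max m₁ (4 * (Nε * A)), lt_min hδ₀ (by positivity),
    (min_le_left _ _).trans hδ₁, ?_⟩
  intro N p m q x δ P hN hm hmm hpΛ hq hδ hδ' hNE hP
  have hmm₁ : 2 * K * A ≤ m := hm₁.trans (by exact_mod_cast (le_max_left _ _).trans hmm)
  have hmm₂ : 4 * (Nε * A) ≤ m := (le_max_right _ _).trans hmm
  have hn : 1 ≤ Nε * A := Nat.one_le_iff_ne_zero.2 (by positivity)
  have hnm : Nε * A ≤ m := by omega
  have hm0 : (0 : ℝ) < m := by exact_mod_cast hm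
  have hqΛ : ((q + 2 * m : ℕ) : ℝ) ≤ Λ * m := by
    have : ((q + 2 * m : ℕ) : ℝ) ≤ (p : ℝ) := by exact_mod_cast (by omega : q + 2 * m ≤ p)
    exact this.trans hpΛ
  have hqΛ' : (q : ℝ) ≤ Λ * m := by
    have : (q : ℝ) ≤ (p : ℝ) := by exact_mod_cast (by omega : q ≤ p)
    exact this.trans hpΛ
  set n := Nε * A with hn_def
  set h := hh m n P with hh_def
  have hTPh : TP (q + 2 * m) h := hh_TP hn hP
  have hTPb : TP (2 * m) (bb m n) := bb_TP hn
  have hTPg : TP q (gg m P) := gg_TP hP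
  have hVV0 : 0 ≤ VV m h := by
    unfold VV
    apply intervalIntegral.integral_nonneg (by linarith [Real.pi_pos])
    intro t _
    exact mul_nonneg (vv_nonneg _ _ _) (W_pos hm t).le
  -- sup bounds
  set Mh : ℝ := Ca * (Cb * (m : ℝ) ^ 2 * VV m h) with hMh_def
  have hMh : ∀ θ, |h θ| ≤ Mh := by
    intro θ
    refine (Habs m _ h hm hqΛ hTPh θ).trans ?_
    exact mul_le_mul_of_nonneg_left (Hvv m h hm hTPh.contDiff.continuous θ) hCa.le
  set G : ℝ := 2 * Real.exp (6 * Λ * n) * 8 ^ n * Mh with hG_def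
  have hG : ∀ θ, |gg m P θ| ≤ G := gg_le_sup Λ hΛ hn hmm₂ hP hqΛ' Mh hMh
  have hMh0 : 0 ≤ Mh := by positivity
  have hG0 : 0 ≤ G := by positivity
  have hG' : ∀ θ, |deriv (gg m P) θ| ≤ Cd * m * G := Hsup m q (gg m P) G hm hqΛ' hTPg hG
  set S : ℝ := (2 + Cd) * κ ^ (2 * n - 1) * G with hS_def
  have hS0 : 0 ≤ S := by positivity
  have hKn : K * A ≤ κ * n := by
    rw [hκ_def, hn_def]
    push_cast
    apply le_of_eq
    field_simp
  have hnear : ∀ θ, |sin θ| < K * A / m → |h θ| ≤ S ∧ |deriv h θ| ≤ m * S := by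
    intro θ hθ
    obtain ⟨hb1, hb2⟩ := bb_near K κ hn (by linarith) hKn hκ0.le hθ hm
    have hb0 : 0 ≤ bb m n θ := pow_nonneg (BB_nonneg _ _) _
    have hpow : κ ^ (2 * n) ≤ κ ^ (2 * n - 1) :=
      pow_le_pow_of_le_one hκ0.le hκ1 (by omega)
    have hb1' := hb1.trans hpow
    have hk0 : 0 ≤ κ ^ (2 * n - 1) := by positivity
    constructor
    · have : |h θ| = bb m n θ * |gg m P θ| := by
        rw [hh_def]; unfold hh; rw [abs_mul, abs_of_nonneg hb0]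
      rw [this]
      calc bb m n θ * |gg m P θ| ≤ κ ^ (2 * n - 1) * G := mul_le_mul hb1' (hG θ) (abs_nonneg _) hk0
        _ ≤ (2 + Cd) * κ ^ (2 * n - 1) * G := by
            have : 0 ≤ κ ^ (2 * n - 1) * G := by positivity
            nlinarith
    · have hder : deriv h θ = deriv (bb m n) θ * gg m P θ + bb m n θ * deriv (gg m P) θ := by
        have : h = fun θ => bb m n θ * gg m P θ := rfl
        rw [this]
        exact deriv_fun_mul (hTPb.contDiff.differentiable (by simp) θ)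
          (hTPg.contDiff.differentiable (by simp) θ)
      rw [hder]
      refine (abs_add_le _ _).trans ?_
      rw [abs_mul, abs_mul, abs_of_nonneg hb0]
      have e1 : |deriv (bb m n) θ| * |gg m P θ| ≤ 2 * m * κ ^ (2 * n - 1) * G :=
        mul_le_mul hb2 (hG θ) (abs_nonneg _) (by positivity)
      have e2 : bb m n θ * |deriv (gg m P) θ| ≤ κ ^ (2 * n - 1) * (Cd * m * G) :=
        mul_le_mul hb1' (hG' θ) (abs_nonneg _) hk0
      calc _ ≤ 2 * m * κ ^ (2 * n - 1) * G + κ ^ (2 * n - 1) * (Cd * m * G) := add_le_add e1 e2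
        _ = m * S := by rw [hS_def]; ring
  have hmain := H N p m q Nε A x δ S P hN hm hNε1' hA1 hnm hAA₂ hmm₁ hpΛ hq hδ
    (hδ'.trans (min_le_left _ _)) hNE hP hS0 hnear
  set R := mu x (fun θ => if (A : ℝ) / m ≤ |sin θ| then
      bb m (Nε * A) θ * (|gg m P θ| + max (deriv (gg m P) θ / m) 0) else 0) with hR_def
  -- absorption of the `δ` term
  have a1 : C₀ * (Cos * δ * VV m h) ≤ 1 / 4 * VV m h := by
    have h1 : C₀ * Cos * δ ≤ 1 / 4 := by
      have h2 : δ ≤ 1 / (4 * C₀ * Cos) := hδ'.trans (min_le_right _ _)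
      calc C₀ * Cos * δ ≤ C₀ * Cos * (1 / (4 * C₀ * Cos)) :=
            mul_le_mul_of_nonneg_left h2 (by positivity)
        _ = 1 / 4 := by field_simp
    calc C₀ * (Cos * δ * VV m h) = (C₀ * Cos * δ) * VV m h := by ring
      _ ≤ _ := mul_le_mul_of_nonneg_right h1 hVV0
  -- absorption of the near term
  have a2 : C₀ * ((3 * Cn + 1) * (A : ℝ) ^ 6 / m ^ 2 * S) ≤ 1 / 4 * VV m h := by
    have h1 : κ ^ (2 * n - 1) * (Real.exp (6 * Λ * n) * 8 ^ n) ≤ κ⁻¹ * Real.exp (-(A : ℝ)) := by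
      have e1 : κ ^ (2 * n - 1) = κ⁻¹ * (κ ^ 2) ^ n := by
        rw [← pow_mul]
        rw [eq_comm, inv_mul_eq_iff_eq_mul₀ hκ0.ne', ← pow_succ']
        congr 1; omega
      have e2 : Real.exp (6 * Λ * n) = Real.exp (6 * Λ) ^ n := by
        rw [← Real.exp_nat_mul]; congr 1; ring
      rw [e1, e2]
      have e3 : κ⁻¹ * (κ ^ 2) ^ n * (Real.exp (6 * Λ) ^ n * 8 ^ n)
          = κ⁻¹ * (κ ^ 2 * Real.exp (6 * Λ) * 8) ^ n := by
        rw [mul_pow, mul_pow]; ring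
      rw [e3]
      apply mul_le_mul_of_nonneg_left _ (inv_nonneg.2 hκ0.le)
      calc (κ ^ 2 * Real.exp (6 * Λ) * 8) ^ n ≤ Real.exp (-1) ^ n :=
            pow_le_pow_left₀ (by positivity) hκsq n
        _ = Real.exp (-(n : ℝ)) := by rw [← Real.exp_nat_mul]; congr 1; ring
        _ ≤ Real.exp (-(A : ℝ)) := by
            apply Real.exp_le_exp.2
            have : (A : ℝ) ≤ n := by
              rw [hn_def]; push_cast; nlinarith
            linarith
    have h2 : S ≤ (2 + Cd) * (κ⁻¹ * Real.exp (-(A : ℝ))) * (2 * Mh) := by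
      calc S = (2 + Cd) * (κ ^ (2 * n - 1) * (Real.exp (6 * Λ * n) * 8 ^ n)) * (2 * Mh) := by
            rw [hS_def, hG_def]; ring
        _ ≤ _ := by
            apply mul_le_mul_of_nonneg_right _ (by positivity)
            exact mul_le_mul_of_nonneg_left h1 (by positivity)
    have h3 := hA₁ A hAA₁
    calc C₀ * ((3 * Cn + 1) * (A : ℝ) ^ 6 / m ^ 2 * S)
        ≤ C₀ * ((3 * Cn + 1) * (A : ℝ) ^ 6 / m ^ 2 *
          ((2 + Cd) * (κ⁻¹ * Real.exp (-(A : ℝ))) * (2 * Mh))) := by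
          apply mul_le_mul_of_nonneg_left _ hC₀.le
          exact mul_le_mul_of_nonneg_left h2 (by positivity)
      _ = (D * (A : ℝ) ^ 6 * Real.exp (-(A : ℝ))) * VV m h := by
          rw [hMh_def, hD_def]
          field_simp
      _ ≤ 1 / 4 * VV m h := mul_le_mul_of_nonneg_right h3 hVV0
  have : VV m h ≤ C₀ * (2 + 12 * Nε) * R + 1 / 4 * VV m h + 1 / 4 * VV m h := by
    calc VV m h ≤ _ := hmain
      _ = C₀ * (2 + 12 * Nε) * R + C₀ * (Cos * δ * VV m h)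
        + C₀ * ((3 * Cn + 1) * (A : ℝ) ^ 6 / m ^ 2 * S) := by ring
      _ ≤ _ := by linarith
  linarith

end Pool.Agent.H93.Ch
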