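import Pool.Agent.H93.Ch.Samp

/-! Helper lemmas for module C0 (`Cap0.lean`). -/

set_option autoImplicit false

namespace Pool.Agent.H93.Ch.C0

open Real MeasureTheory

/-- end-zone profile -/
noncomputable def ee (m : ℕ) (t : ℝ) : ℝ := (om m t ^ 4)⁻¹ + (om m (t - π) ^ 4)⁻¹

lemma omp (m : ℕ) (θ : ℝ) : 0 < om m θ := lt_of_lt_of_le one_pos (one_le_om m θ)

lemma ee_pos (m : ℕ) (t : ℝ) : 0 < ee m t := by
  unfold ee
  have := omp m t
  have := omp m (t - π)
  positivity

lemma ee_continuous (m : ℕ) : Continuous (ee m) := by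
  unfold ee
  refine Continuous.add (Continuous.inv₀ ((om_continuous m).pow 4) fun t => ?_)
    (Continuous.inv₀ (((om_continuous m).comp (continuous_id.sub continuous_const)).pow 4)
      fun t => ?_)
  · exact pow_ne_zero _ (omp m t).ne'
  · exact pow_ne_zero _ (omp m _).ne'

lemma om_near {m : ℕ} (hm : 1 ≤ m) {B : ℝ} (hB : 1 ≤ B) {θ : ℝ} (h : |sin θ| < B / m) :
    om m θ ≤ 2 * B ∨ om m (θ - π) ≤ 2 * B := by
  have hm' : (0 : ℝ) < m := by exact_mod_cast hm
  have hs : |sin θ| = 2 * |sin (θ / 2)| * |cos (θ / 2)| := by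
    conv_lhs => rw [show θ = 2 * (θ / 2) by ring, sin_two_mul]
    rw [abs_mul, abs_mul]; norm_num
  have hB' : m * |sin θ| < B := by
    rw [lt_div_iff₀ hm'] at h; linarith
  have h1 : |sin (θ / 2)| ^ 2 + |cos (θ / 2)| ^ 2 = 1 := by
    rw [sq_abs, sq_abs]; exact sin_sq_add_cos_sq _
  have hs0 := abs_nonneg (sin (θ / 2))
  have hc0 := abs_nonneg (cos (θ / 2))
  by_cases hc : |sin (θ / 2)| ≤ |cos (θ / 2)|
  · left
    unfold om
    have hc2 : 1 / 2 ≤ |cos (θ / 2)| := by nlinarith
    have : m * |sin (θ / 2)| ≤ m * |sin θ| := by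
      apply mul_le_mul_of_nonneg_left _ hm'.le
      rw [hs]; nlinarith
    linarith
  · right
    push Not at hc
    unfold om
    have hc2 : 1 / 2 ≤ |sin (θ / 2)| := by nlinarith
    have he : |sin ((θ - π) / 2)| = |cos (θ / 2)| := by
      rw [show (θ - π) / 2 = θ / 2 - π / 2 by ring, sin_sub_pi_div_two, abs_neg]
    rw [he]
    have : m * |cos (θ / 2)| ≤ m * |sin θ| := by
      apply mul_le_mul_of_nonneg_left _ hm'.le
      rw [hs]; nlinarith
    linarith

lemma inv_om_near {m : ℕ} (hm : 1 ≤ m) {B : ℝ} (hB : 1 ≤ B) {θ : ℝ} (h : |sin θ| < B / m)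
    (t : ℝ) : (om m (θ - t) ^ 4)⁻¹ ≤ (2 * B) ^ 4 * ee m t := by
  have hp := omp m (θ - t)
  have hsym : om m (θ - t) = om m (t - θ) := by
    rw [← om_neg, neg_sub]
  rcases om_near hm hB h with h1 | h1
  · have h2 : om m t ≤ om m (t - θ) * om m θ := by
      have := om_add_le m (t - θ) θ
      rwa [sub_add_cancel] at this
    have h3 : om m t ≤ om m (θ - t) * (2 * B) := by
      rw [hsym]; exact h2.trans (mul_le_mul_of_nonneg_left h1 (omp m _).le)
    have h4 : (om m (θ - t) ^ 4)⁻¹ ≤ (2 * B) ^ 4 * (om m t ^ 4)⁻¹ := by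
      rw [inv_le_iff_one_le_mul₀ (by positivity)]
      have h5 : om m t ^ 4 ≤ om m (θ - t) ^ 4 * (2 * B) ^ 4 := by
        rw [← mul_pow]; exact pow_le_pow_left₀ (omp m t).le h3 4
      have h6 : 0 < om m t ^ 4 := pow_pos (omp m t) 4
      rw [mul_right_comm, ← div_eq_mul_inv, le_div_iff₀ h6, one_mul]
      linarith
    refine h4.trans ?_
    apply mul_le_mul_of_nonneg_left _ (by positivity)
    unfold ee
    have := omp m (t - π)
    have : 0 < (om m (t - π) ^ 4)⁻¹ := by positivity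
    linarith
  · have h2 : om m (t - π) ≤ om m (t - θ) * om m (θ - π) := by
      have := om_add_le m (t - θ) (θ - π)
      rwa [show t - θ + (θ - π) = t - π by ring] at this
    have h3 : om m (t - π) ≤ om m (θ - t) * (2 * B) := by
      rw [hsym]; exact h2.trans (mul_le_mul_of_nonneg_left h1 (omp m _).le)
    have h4 : (om m (θ - t) ^ 4)⁻¹ ≤ (2 * B) ^ 4 * (om m (t - π) ^ 4)⁻¹ := by
      rw [inv_le_iff_one_le_mul₀ (by positivity)]
      have h5 : om m (t - π) ^ 4 ≤ om m (θ - t) ^ 4 * (2 * B) ^ 4 := by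
        rw [← mul_pow]; exact pow_le_pow_left₀ (omp m _).le h3 4
      have h6 : 0 < om m (t - π) ^ 4 := pow_pos (omp m _) 4
      rw [mul_right_comm, ← div_eq_mul_inv, le_div_iff₀ h6, one_mul]
      linarith
    refine h4.trans ?_
    apply mul_le_mul_of_nonneg_left _ (by positivity)
    unfold ee
    have := omp m t
    have : 0 < (om m t ^ 4)⁻¹ := by positivity
    linarith

/-- the two windows, both at once: `κ = Fej(· - a)²` with `a = t` or `a = t + π/m` -/
lemma window_le {m : ℕ} (hm : 1 ≤ m) (θ : ℝ) :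
    Fej m θ ^ 2 ≤ 1296 * (om m θ ^ 4)⁻¹ ∧ Fej m (θ - π / m) ^ 2 ≤ 1296 * (om m θ ^ 4)⁻¹ := by
  have hp := omp m θ
  have h4 : 0 < om m θ ^ 4 := by positivity
  have h1 := Fej_le_om hm θ
  have h2 := Fej_shift_le hm θ
  constructor
  · calc Fej m θ ^ 2 ≤ (4 / om m θ ^ 2) ^ 2 := pow_le_pow_left₀ (Fej_nonneg m θ) h1 2
      _ = 16 * (om m θ ^ 4)⁻¹ := by rw [div_pow, ← pow_mul, div_eq_mul_inv]; norm_num
      _ ≤ 1296 * (om m θ ^ 4)⁻¹ := by
          apply mul_le_mul_of_nonneg_right (by norm_num) (by positivity)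
  · calc Fej m (θ - π / m) ^ 2 ≤ (36 / om m θ ^ 2) ^ 2 :=
          pow_le_pow_left₀ (Fej_nonneg m _) h2 2
      _ = 1296 * (om m θ ^ 4)⁻¹ := by rw [div_pow, ← pow_mul, div_eq_mul_inv]; norm_num

/-- integrating the far part against `W` -/
lemma int_far {m : ℕ} (hm : 1 ≤ m) {A : ℝ} (hA : 1 ≤ A) {N : ℕ} (x : Fin N → ℝ) (H : ℝ → ℝ)
    (hH : ∀ θ, 0 ≤ H θ) :
    ∫ t in (-π)..π, mu x (fun θ => if A / m ≤ |sin θ| then
        H θ / |sin θ| * (om m (θ - t) ^ 4)⁻¹ else 0) * W m t
      ≤ 8 * π / m * mu x (fun θ => if A / m ≤ |sin θ| then H θ else 0) := by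
  have hm' : (0 : ℝ) < m := by exact_mod_cast hm
  have hcont : ∀ θ : ℝ, Continuous (fun t => (om m (θ - t) ^ 4)⁻¹ * W m t) := by
    intro θ
    refine Continuous.mul (Continuous.inv₀
      (((om_continuous m).comp (continuous_const.sub continuous_id)).pow 4) fun t => ?_)
      (W_continuous m)
    exact pow_ne_zero _ (omp m _).ne'
  -- one node
  have hone : ∀ θ : ℝ, ∫ t in (-π)..π, (if A / m ≤ |sin θ| then
        H θ / |sin θ| * (om m (θ - t) ^ 4)⁻¹ else 0) * W m t
      ≤ 8 * π / m * (if A / m ≤ |sin θ| then H θ else 0) := by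
    intro θ
    by_cases hc : A / m ≤ |sin θ|
    · simp only [hc, if_true]
      have hsin : 0 < |sin θ| := lt_of_lt_of_le (by positivity) hc
      have h1 : ∫ t in (-π)..π, H θ / |sin θ| * (om m (θ - t) ^ 4)⁻¹ * W m t
          = H θ / |sin θ| * ∫ t in (-π)..π, (om m (θ - t) ^ 4)⁻¹ * W m t := by
        rw [← intervalIntegral.integral_const_mul]
        congr 1; ext t; ring
      rw [h1]
      have h2 : ∫ t in (-π)..π, (om m (θ - t) ^ 4)⁻¹ * W m t ≤ 4 * π / m * W m θ := by
        have := int_om_W hm θ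
        have h3 : ∀ t, om m (θ - t) = om m (t - θ) := fun t => by rw [← om_neg, neg_sub]
        simpa only [h3] using this
      have h3 : W m θ ≤ 2 * |sin θ| := by
        unfold W
        have : 1 / (m : ℝ) ≤ A / m := by
          apply div_le_div_of_nonneg_right hA hm'.le
        linarith
      calc H θ / |sin θ| * ∫ t in (-π)..π, (om m (θ - t) ^ 4)⁻¹ * W m t
          ≤ H θ / |sin θ| * (4 * π / m * W m θ) :=
            mul_le_mul_of_nonneg_left h2 (div_nonneg (hH θ) hsin.le)
        _ ≤ H θ / |sin θ| * (4 * π / m * (2 * |sin θ|)) := by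
            apply mul_le_mul_of_nonneg_left _ (div_nonneg (hH θ) hsin.le)
            apply mul_le_mul_of_nonneg_left h3; positivity
        _ = 8 * π / m * H θ := by field_simp; ring
    · simp only [hc, if_false]; simp
  have hint : ∀ θ : ℝ, IntervalIntegrable (fun t => (if A / m ≤ |sin θ| then
        H θ / |sin θ| * (om m (θ - t) ^ 4)⁻¹ else 0) * W m t) volume (-π) π := by
    intro θ
    by_cases hc : A / m ≤ |sin θ|
    · simp only [hc, if_true]
      have := ((hcont θ).const_mul (H θ / |sin θ|)).intervalIntegrable (μ := volume) (-π) π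
      refine this.congr ?_
      intro t _; ring
    · simp only [hc, if_false, zero_mul]; exact intervalIntegrable_const
  unfold mu
  have hsum : (fun t => ((∑ i, ((if A / m ≤ |sin (x i)| then
        H (x i) / |sin (x i)| * (om m (x i - t) ^ 4)⁻¹ else 0)
        + (if A / m ≤ |sin (-(x i))| then
        H (-(x i)) / |sin (-(x i))| * (om m (-(x i) - t) ^ 4)⁻¹ else 0))) / (2 * N)) * W m t)
      = fun t => (∑ i, ((if A / m ≤ |sin (x i)| then
        H (x i) / |sin (x i)| * (om m (x i - t) ^ 4)⁻¹ else 0) * W m t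
        + (if A / m ≤ |sin (-(x i))| then
        H (-(x i)) / |sin (-(x i))| * (om m (-(x i) - t) ^ 4)⁻¹ else 0) * W m t)) / (2 * N) := by
    ext t
    rw [div_mul_eq_mul_div, Finset.sum_mul]
    congr 1
    exact Finset.sum_congr rfl fun i _ => by ring
  rw [hsum, intervalIntegral.integral_div, intervalIntegral.integral_finsetSum]
  · rw [← mul_div_assoc, Finset.mul_sum]
    apply div_le_div_of_nonneg_right _ (by positivity)
    apply Finset.sum_le_sum
    intro i _
    rw [intervalIntegral.integral_add (hint _) (hint _), mul_add]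
    exact add_le_add (hone _) (hone _)
  · intro i _
    exact (hint _).add (hint _)

lemma int_ee {m : ℕ} (hm : 1 ≤ m) :
    ∫ t in (-π)..π, ee m t * W m t ≤ 8 * π / m ^ 2 := by
  have hm' : (0 : ℝ) < m := by exact_mod_cast hm
  have h1 := int_om_W hm 0
  have h2 := int_om_W hm π
  have hc : ∀ s : ℝ, Continuous (fun t => (om m (t - s) ^ 4)⁻¹ * W m t) := by
    intro s
    refine Continuous.mul (Continuous.inv₀
      (((om_continuous m).comp (continuous_id.sub continuous_const)).pow 4) fun t => ?_)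
      (W_continuous m)
    exact pow_ne_zero _ (omp m _).ne'
  have h3 : ∫ t in (-π)..π, ee m t * W m t
      = (∫ t in (-π)..π, (om m (t - 0) ^ 4)⁻¹ * W m t)
        + ∫ t in (-π)..π, (om m (t - π) ^ 4)⁻¹ * W m t := by
    rw [← intervalIntegral.integral_add ((hc 0).intervalIntegrable _ _)
      ((hc π).intervalIntegrable _ _)]
    congr 1; ext t; unfold ee; rw [sub_zero]; ring
  rw [h3]
  have hW0 : W m 0 = 1 / m := by unfold W; simp
  have hWπ : W m π = 1 / m := by unfold W; simp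
  rw [hW0] at h1
  rw [hWπ] at h2
  calc _ ≤ 4 * π / m * (1 / m) + 4 * π / m * (1 / m) := add_le_add h1 h2
    _ = 8 * π / m ^ 2 := by field_simp; ring

end Pool.Agent.H93.Ch.C0
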