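import Pool.Agent.H93.Ch.Cap01

/-! Helper lemmas for module C0 (`Cap0.lean`), part 2. -/

set_option autoImplicit false

namespace Pool.Agent.H93.Ch.C0

open Real MeasureTheory

lemma MA_pos {m : ℕ} (hm : 1 ≤ m) {A : ℝ} (hA : 0 < A) (θ : ℝ) : 0 < MA m A θ := by
  have hm' : (0 : ℝ) < m := by exact_mod_cast hm
  unfold MA
  exact lt_of_lt_of_le (by positivity) (le_max_right _ _)

/-- the sampled density at `t` -/
noncomputable def PP (m : ℕ) (A : ℝ) (h : ℝ → ℝ) (t θ : ℝ) : ℝ :=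
  (h θ ^ 2 + (deriv h θ) ^ 2 / (m : ℝ) ^ 2) * kap m (θ - t) / MA m A θ

lemma kap_nonneg (m : ℕ) (θ : ℝ) : 0 ≤ kap m θ := by
  unfold kap
  have := Fej_nonneg m θ
  have := Fej_nonneg m (θ - π / m)
  positivity

lemma one_window {m d : ℕ} (hm : 1 ≤ m) {h κ : ℝ → ℝ} (hh : TP d h) (hκ : TP (2 * m) κ)
    {t Cd : ℝ} (hCd : 0 < Cd) (hk1 : ∀ θ, κ θ ^ 2 ≤ kap m (θ - t))
    (hk2 : ∀ θ, (deriv κ θ) ^ 2 ≤ Cd * (m : ℝ) ^ 2 * kap m (θ - t)) {A : ℝ} (hA : 0 < A)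
    {N : ℕ} (x : Fin N → ℝ) :
    mu x (fun θ => (h θ * κ θ) ^ 2 / MA m A θ)
      + mu x (fun θ => (deriv (fun θ => h θ * κ θ) θ) ^ 2 / MA m A θ) / (m : ℝ) ^ 2
      ≤ (3 + 2 * Cd) * mu x (PP m A h t) := by
  have hm' : (0 : ℝ) < m := by exact_mod_cast hm
  have hm2 : (0 : ℝ) < (m : ℝ) ^ 2 := by positivity
  have hdh : Differentiable ℝ h := hh.contDiff.differentiable (by simp)
  have hdκ : Differentiable ℝ κ := hκ.contDiff.differentiable (by simp)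
  have h1 : mu x (fun θ => (h θ * κ θ) ^ 2 / MA m A θ) ≤ mu x (PP m A h t) := by
    apply mu_mono
    intro θ
    unfold PP
    apply div_le_div_of_nonneg_right _ (MA_pos hm hA θ).le
    have h0 := kap_nonneg m (θ - t)
    calc (h θ * κ θ) ^ 2 = h θ ^ 2 * κ θ ^ 2 := by ring
      _ ≤ h θ ^ 2 * kap m (θ - t) := mul_le_mul_of_nonneg_left (hk1 θ) (sq_nonneg _)
      _ ≤ (h θ ^ 2 + (deriv h θ) ^ 2 / (m : ℝ) ^ 2) * kap m (θ - t) := by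
          apply mul_le_mul_of_nonneg_right _ h0
          have : 0 ≤ (deriv h θ) ^ 2 / (m : ℝ) ^ 2 := by positivity
          linarith
  have h2 : mu x (fun θ => (deriv (fun θ => h θ * κ θ) θ) ^ 2 / MA m A θ)
      ≤ (m : ℝ) ^ 2 * ((2 + 2 * Cd) * mu x (PP m A h t)) := by
    rw [← mul_assoc, ← mu_const_mul]
    apply mu_mono
    intro θ
    have hder : deriv (fun θ => h θ * κ θ) θ = deriv h θ * κ θ + h θ * deriv κ θ :=
      deriv_fun_mul (hdh θ) (hdκ θ)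
    rw [hder]
    unfold PP
    rw [← mul_div_assoc]
    apply div_le_div_of_nonneg_right _ (MA_pos hm hA θ).le
    have h0 := kap_nonneg m (θ - t)
    have e1 : (deriv h θ * κ θ + h θ * deriv κ θ) ^ 2
        ≤ 2 * ((deriv h θ) ^ 2 * κ θ ^ 2) + 2 * (h θ ^ 2 * (deriv κ θ) ^ 2) := by
      nlinarith [sq_nonneg (deriv h θ * κ θ - h θ * deriv κ θ)]
    have e2 : (deriv h θ) ^ 2 * κ θ ^ 2 ≤ (deriv h θ) ^ 2 * kap m (θ - t) :=
      mul_le_mul_of_nonneg_left (hk1 θ) (sq_nonneg _)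
    have e3 : h θ ^ 2 * (deriv κ θ) ^ 2 ≤ h θ ^ 2 * (Cd * (m : ℝ) ^ 2 * kap m (θ - t)) :=
      mul_le_mul_of_nonneg_left (hk2 θ) (sq_nonneg _)
    have e4 : (m : ℝ) ^ 2 * (2 + 2 * Cd) *
        ((h θ ^ 2 + (deriv h θ) ^ 2 / (m : ℝ) ^ 2) * kap m (θ - t))
        = 2 * (h θ ^ 2 * (Cd * (m : ℝ) ^ 2 * kap m (θ - t)))
          + 2 * ((deriv h θ) ^ 2 * kap m (θ - t))
          + 2 * Cd * (deriv h θ) ^ 2 * kap m (θ - t) + 2 * (m : ℝ) ^ 2 * h θ ^ 2 * kap m (θ - t)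
          := by
      field_simp; ring
    rw [e4]
    have e5 : 0 ≤ 2 * Cd * (deriv h θ) ^ 2 * kap m (θ - t) := by positivity
    have e6 : 0 ≤ 2 * (m : ℝ) ^ 2 * h θ ^ 2 * kap m (θ - t) := by positivity
    linarith
  have h3 : mu x (fun θ => (deriv (fun θ => h θ * κ θ) θ) ^ 2 / MA m A θ) / (m : ℝ) ^ 2
      ≤ (2 + 2 * Cd) * mu x (PP m A h t) := by
    rw [div_le_iff₀ hm2]; linarith
  linarith

/-- splitting the sampled density in a near and a far part -/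
lemma PP_le {m : ℕ} (hm : 1 ≤ m) {A K Ck c2 S : ℝ} (hA : 1 ≤ A) (hK : 1 ≤ K) (hCk : 0 < Ck)
    (hkap : ∀ θ : ℝ, kap m θ ≤ Ck / om m θ ^ 8) {h : ℝ → ℝ} (_hS : 0 ≤ S)
    (hnear : ∀ θ, |sin θ| < K * A / m → |h θ| ≤ S ∧ |deriv h θ| ≤ m * S) {t : ℝ}
    (hc2 : ∀ θ, |h θ| + |deriv h θ| / m ≤ c2 * om m (θ - t) ^ 4) (θ : ℝ) :
    PP m A h t θ ≤
      2 * S ^ 2 * Ck * ((2 * (K * A)) ^ 4 * ee m t) ^ 2 * (m / A)
        * (if |sin θ| < A / m then 1 else 0)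
      + Ck * c2 * (if A / m ≤ |sin θ| then
        (|h θ| + |deriv h θ| / m) / |sin θ| * (om m (θ - t) ^ 4)⁻¹ else 0) := by
  have hm' : (0 : ℝ) < m := by exact_mod_cast hm
  have hA0 : 0 < A := by linarith
  have hK0 : 0 < K := by linarith
  have hop := omp m (θ - t)
  have hKA : 1 ≤ K * A := by nlinarith
  by_cases hc : |sin θ| < A / m
  · have hc' : ¬ A / m ≤ |sin θ| := not_le.mpr hc
    simp only [hc, hc', if_true, if_false, mul_one, mul_zero, add_zero]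
    have hc2' : |sin θ| < K * A / m := by
      refine lt_of_lt_of_le hc ?_
      apply div_le_div_of_nonneg_right _ hm'.le
      nlinarith
    obtain ⟨n1, n2⟩ := hnear θ hc2'
    have hMA : MA m A θ = A / m := by
      unfold MA; exact max_eq_right hc.le
    unfold PP
    rw [hMA]
    have e1 : h θ ^ 2 ≤ S ^ 2 := by
      rw [← sq_abs]; exact pow_le_pow_left₀ (abs_nonneg _) n1 2
    have e2 : (deriv h θ) ^ 2 / (m : ℝ) ^ 2 ≤ S ^ 2 := by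
      rw [div_le_iff₀ (by positivity), ← sq_abs]
      calc |deriv h θ| ^ 2 ≤ (m * S) ^ 2 := pow_le_pow_left₀ (abs_nonneg _) n2 2
        _ = S ^ 2 * (m : ℝ) ^ 2 := by ring
    have e3 : kap m (θ - t) ≤ Ck * ((2 * (K * A)) ^ 4 * ee m t) ^ 2 := by
      refine (hkap _).trans ?_
      rw [div_eq_mul_inv]
      apply mul_le_mul_of_nonneg_left _ hCk.le
      have := inv_om_near hm hKA hc2' t
      calc (om m (θ - t) ^ 8)⁻¹ = ((om m (θ - t) ^ 4)⁻¹) ^ 2 := by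
            rw [inv_pow, ← pow_mul]
        _ ≤ ((2 * (K * A)) ^ 4 * ee m t) ^ 2 := by
            apply pow_le_pow_left₀ (by positivity) this
    rw [div_div_eq_mul_div, div_eq_mul_inv, div_eq_mul_inv (m : ℝ) A, ← mul_assoc]
    apply mul_le_mul_of_nonneg_right _ (by positivity)
    apply mul_le_mul_of_nonneg_right _ hm'.le
    calc (h θ ^ 2 + (deriv h θ) ^ 2 / (m : ℝ) ^ 2) * kap m (θ - t)
        ≤ (S ^ 2 + S ^ 2) * (Ck * ((2 * (K * A)) ^ 4 * ee m t) ^ 2) :=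
          mul_le_mul (add_le_add e1 e2) e3 (kap_nonneg _ _) (by positivity)
      _ = 2 * S ^ 2 * Ck * ((2 * (K * A)) ^ 4 * ee m t) ^ 2 := by ring
  · have hc' : A / m ≤ |sin θ| := not_lt.mp hc
    simp only [hc, hc', if_true, if_false, mul_zero, zero_add]
    have hsin : 0 < |sin θ| := lt_of_lt_of_le (by positivity) hc'
    have hMA : MA m A θ = |sin θ| := by
      unfold MA; exact max_eq_left hc'
    unfold PP
    rw [hMA]
    set H := |h θ| + |deriv h θ| / m with hH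
    have hH0 : 0 ≤ H := by positivity
    have e1 : h θ ^ 2 + (deriv h θ) ^ 2 / (m : ℝ) ^ 2 ≤ H * H := by
      rw [hH]
      have : (deriv h θ) ^ 2 / (m : ℝ) ^ 2 = (|deriv h θ| / m) ^ 2 := by
        rw [div_pow, sq_abs]
      rw [this, ← sq_abs (h θ)]
      have : 0 ≤ |h θ| * (|deriv h θ| / m) := by positivity
      nlinarith
    have hk8 := hkap (θ - t)
    have e2 : (h θ ^ 2 + (deriv h θ) ^ 2 / (m : ℝ) ^ 2) * kap m (θ - t)
        ≤ Ck * c2 * (H * (om m (θ - t) ^ 4)⁻¹) := by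
      calc (h θ ^ 2 + (deriv h θ) ^ 2 / (m : ℝ) ^ 2) * kap m (θ - t)
          ≤ (H * H) * (Ck / om m (θ - t) ^ 8) :=
            mul_le_mul e1 hk8 (kap_nonneg _ _) (by positivity)
        _ ≤ (H * (c2 * om m (θ - t) ^ 4)) * (Ck / om m (θ - t) ^ 8) := by
            apply mul_le_mul_of_nonneg_right _ (by positivity)
            exact mul_le_mul_of_nonneg_left (hc2 θ) hH0
        _ = Ck * c2 * (H * (om m (θ - t) ^ 4)⁻¹) := by
            field_simp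
    calc _ ≤ Ck * c2 * (H * (om m (θ - t) ^ 4)⁻¹) / |sin θ| :=
          div_le_div_of_nonneg_right e2 hsin.le
      _ = _ := by ring

lemma le_of_sq_le {v a b : ℝ} (_hv : 0 ≤ v) (ha : 0 ≤ a) (hb : 0 ≤ b)
    (h : v ^ 2 ≤ a * v + b ^ 2) : v ≤ a + b := by
  by_contra hc
  push Not at hc
  nlinarith

lemma num_bound {A K C₁ Cd Ck Cm S e : ℝ} (hA1 : 1 ≤ A) (hK : 0 < K) (hC₁ : 0 < C₁)
    (hCd : 0 < Cd) (hCk : 0 < Ck) (hCm : 0 < Cm) {D E : ℝ}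
    (hD : D = 4 * C₁ * (3 + 2 * Cd) * Ck * Cm * (2 * K) ^ 8 + 2 * 1296 ^ 2 * C₁ * (2 * K) ^ 8)
    (hE : E = (2 * (K * A)) ^ 4 * e) :
    (4 * C₁ * (3 + 2 * Cd) * Ck * Cm * (A * E ^ 2)
            + 2 * 1296 ^ 2 * C₁ * (A ^ 3 * E ^ 2)) * S ^ 2
          ≤ ((1 + D) * (A ^ 6 * S * e)) ^ 2 := by
  have hA0 : 0 < A := by linarith
  have hD0 : 0 < D := by rw [hD]; positivity
  have t1 : E ^ 2 = (2 * K) ^ 8 * A ^ 8 * e ^ 2 := by rw [hE]; ring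
  have t2 : A * E ^ 2 ≤ (2 * K) ^ 8 * (A ^ 12 * e ^ 2) := by
    have h1 : A ^ 9 ≤ A ^ 12 := pow_le_pow_right₀ hA1 (by norm_num)
    have h2 : A * E ^ 2 = (2 * K) ^ 8 * e ^ 2 * A ^ 9 := by rw [t1]; ring
    have h3 : (2 * K) ^ 8 * (A ^ 12 * e ^ 2) = (2 * K) ^ 8 * e ^ 2 * A ^ 12 := by ring
    rw [h2, h3]
    exact mul_le_mul_of_nonneg_left h1 (by positivity)
  have t3 : A ^ 3 * E ^ 2 ≤ (2 * K) ^ 8 * (A ^ 12 * e ^ 2) := by
    have h1 : A ^ 11 ≤ A ^ 12 := pow_le_pow_right₀ hA1 (by norm_num)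
    have h2 : A ^ 3 * E ^ 2 = (2 * K) ^ 8 * e ^ 2 * A ^ 11 := by rw [t1]; ring
    have h3 : (2 * K) ^ 8 * (A ^ 12 * e ^ 2) = (2 * K) ^ 8 * e ^ 2 * A ^ 12 := by ring
    rw [h2, h3]
    exact mul_le_mul_of_nonneg_left h1 (by positivity)
  have hX : 0 ≤ A ^ 12 * e ^ 2 := by positivity
  have t4 : 4 * C₁ * (3 + 2 * Cd) * Ck * Cm * (A * E ^ 2)
            + 2 * 1296 ^ 2 * C₁ * (A ^ 3 * E ^ 2) ≤ D * (A ^ 12 * e ^ 2) := by
    have h1 := mul_le_mul_of_nonneg_left t2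
      (show 0 ≤ 4 * C₁ * (3 + 2 * Cd) * Ck * Cm by positivity)
    have h2 := mul_le_mul_of_nonneg_left t3
      (show 0 ≤ 2 * 1296 ^ 2 * C₁ by positivity)
    have h3 : D * (A ^ 12 * e ^ 2)
        = 4 * C₁ * (3 + 2 * Cd) * Ck * Cm * ((2 * K) ^ 8 * (A ^ 12 * e ^ 2))
          + 2 * 1296 ^ 2 * C₁ * ((2 * K) ^ 8 * (A ^ 12 * e ^ 2)) := by rw [hD]; ring
    rw [h3]
    exact add_le_add h1 h2
  have t5 : D ≤ (1 + D) ^ 2 := by nlinarith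
  have t6 : D * (A ^ 12 * e ^ 2) ≤ (1 + D) ^ 2 * (A ^ 12 * e ^ 2) :=
    mul_le_mul_of_nonneg_right t5 hX
  have t7 := mul_le_mul_of_nonneg_right (t4.trans t6) (sq_nonneg S)
  have t8 : (1 + D) ^ 2 * (A ^ 12 * e ^ 2) * S ^ 2 = ((1 + D) * (A ^ 6 * S * e)) ^ 2 := by ring
  rw [← t8]
  exact t7

lemma num_eq {A C₁ Cd Ck Cm Q E S I v m : ℝ} (_hA : A ≠ 0) (_hm : m ≠ 0) :
    m * (2 * (C₁ * ((3 + 2 * Cd) * (2 * S ^ 2 * Ck * E ^ 2 * (m / A) * (Cm * (A / m) ^ 2)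
      + Ck * (Q * v) * I) + A ^ 3 / m * (S * (1296 * E)) ^ 2)))
        = (2 * C₁ * (3 + 2 * Cd) * (Ck * Q) * (m * I)) * v
          + (4 * C₁ * (3 + 2 * Cd) * Ck * Cm * (A * E ^ 2)
            + 2 * 1296 ^ 2 * C₁ * (A ^ 3 * E ^ 2)) * S ^ 2 := by
  field_simp
  ring

end Pool.Agent.H93.Ch.C0
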