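import Pool.Agent.H93.Ch.Kill
import Pool.Agent.H93.Ch.VM

/-! Definitions for modules C, L, P. -/

set_option autoImplicit false

namespace Pool.Agent.H93.Ch

open Real MeasureTheory

/-- the test function `f(θ) = P(cos θ)` -/
noncomputable def ff (P : Polynomial ℝ) (θ : ℝ) : ℝ := P.eval (cos θ)

/-- normalised derivative `g = f'/m` -/
noncomputable def gg (m : ℕ) (P : Polynomial ℝ) (θ : ℝ) : ℝ := -(sin θ * P.derivative.eval (cos θ)) / m

/-- killing factor `b = B_r^n`, `r = m / n` -/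
noncomputable def bb (m n : ℕ) (θ : ℝ) : ℝ := BB (m / n) θ ^ n

/-- `h = b g` -/
noncomputable def hh (m n : ℕ) (P : Polynomial ℝ) (θ : ℝ) : ℝ := bb m n θ * gg m P θ

end Pool.Agent.H93.Ch
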