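import Mathlib

/-!
Definitions for the proof that `N_I(p) / p^2` converges (MP_1f4776_an).
All functions of an angle are functions `ℝ → ℝ` (or `ℝ → ℂ`), `2π`-periodic.
-/

set_option autoImplicit false

namespace Pool.Agent.H93.Ch

open Real MeasureTheory

/-- complex trigonometric polynomial with frequencies in `[a,b]` -/
def TPI (a b : ℤ) (h : ℝ → ℂ) : Prop :=
  ∃ c : ℤ → ℂ, ∀ θ : ℝ, h θ = ∑ k ∈ Finset.Icc a b, c k * Complex.exp ((k : ℂ) * θ * Complex.I)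

/-- real trigonometric polynomial of degree at most `d` -/
def TP (d : ℕ) (h : ℝ → ℝ) : Prop := TPI (-(d : ℤ)) (d : ℤ) (fun θ => (h θ : ℂ))

/-- normalised Fejer kernel, value `1` at `0` -/
noncomputable def Fej (m : ℕ) (θ : ℝ) : ℝ :=
  ‖∑ k ∈ Finset.range m, Complex.exp ((k : ℂ) * θ * Complex.I)‖ ^ 2 / (m : ℝ) ^ 2

/-- `om m θ = 1 + m |sin (θ/2)|`, a submultiplicative weight at scale `1/m` -/
noncomputable def om (m : ℕ) (θ : ℝ) : ℝ := 1 + m * |sin (θ / 2)|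

/-- the weight `|sin θ| + 1/m` -/
noncomputable def W (m : ℕ) (θ : ℝ) : ℝ := |sin θ| + 1 / m

/-- two-sided window `F_m(θ)^4 + F_m(θ - π/m)^4`, comparable with `om^(-8)` -/
noncomputable def kap (m : ℕ) (θ : ℝ) : ℝ := Fej m θ ^ 4 + Fej m (θ - π / m) ^ 4

/-- local `L²` size of `h` near `t` at scale `1/m` -/
noncomputable def vv (m : ℕ) (h : ℝ → ℝ) (t : ℝ) : ℝ :=
  Real.sqrt (m * ∫ s in (-π)..π, (h s) ^ 2 * kap m (s - t))

/-- weighted `L¹` norm of the local size -/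
noncomputable def VV (m : ℕ) (h : ℝ → ℝ) : ℝ := ∫ t in (-π)..π, vv m h t * W m t

/-- average over the symmetrised nodes `± x i` -/
noncomputable def mu {N : ℕ} (x : Fin N → ℝ) (F : ℝ → ℝ) : ℝ :=
  (∑ i, (F (x i) + F (-(x i)))) / (2 * N)

/-- the target functional: `½∫_0^π F sin` for even `F` -/
noncomputable def sg (F : ℝ → ℝ) : ℝ := (1 / 4) * ∫ θ in (-π)..π, F θ * |sin θ|

/-- near exactness of the nodes to degree `p` at scale `m` -/
def NE {N : ℕ} (p m : ℕ) (δ : ℝ) (x : Fin N → ℝ) : Prop :=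
  ∀ F : ℝ → ℝ, TP p F → |mu x F - sg F| ≤ δ / m * ∫ θ in (-π)..π, |deriv F θ| * W m θ

/-- the truncated sine `max (|sin θ|) (A/m)` -/
noncomputable def MA (m : ℕ) (A : ℝ) (θ : ℝ) : ℝ := max |sin θ| (A / m)

end Pool.Agent.H93.Ch
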