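import Pool.Agent.H93.Ch.TPB

/-! Module K: the weight `om`, the weight `W`, Fejer kernels and windows. -/

set_option autoImplicit false

namespace Pool.Agent.H93.Ch

open Real MeasureTheory

theorem one_le_om (m : ℕ) (θ : ℝ) : 1 ≤ om m θ := by
  unfold om; have : 0 ≤ (m : ℝ) * |sin (θ / 2)| := by positivity
  linarith

theorem om_pos (m : ℕ) (θ : ℝ) : 0 < om m θ := lt_of_lt_of_le one_pos (one_le_om m θ)

theorem om_neg (m : ℕ) (θ : ℝ) : om m (-θ) = om m θ := by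
  unfold om; rw [neg_div, sin_neg, abs_neg]

theorem om_periodic (m : ℕ) : Function.Periodic (om m) (2 * π) := by
  intro θ
  unfold om
  have : (θ + 2 * π) / 2 = θ / 2 + π := by ring
  rw [this, sin_add_pi, abs_neg]

theorem om_continuous (m : ℕ) : Continuous (om m) := by
  unfold om; fun_prop

theorem om_add_le (m : ℕ) (a b : ℝ) : om m (a + b) ≤ om m a * om m b := by
  unfold om
  have h1 : |sin ((a + b) / 2)| ≤ |sin (a / 2)| + |sin (b / 2)| := by
    rw [add_div, sin_add]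
    refine (abs_add_le _ _).trans ?_
    rw [abs_mul, abs_mul]
    have h2 := abs_cos_le_one (b / 2)
    have h3 := abs_cos_le_one (a / 2)
    have h4 := abs_nonneg (sin (a / 2))
    have h5 := abs_nonneg (sin (b / 2))
    nlinarith
  have hm : (0 : ℝ) ≤ m := Nat.cast_nonneg m
  have h4 := abs_nonneg (sin (a / 2))
  have h5 := abs_nonneg (sin (b / 2))
  have h6 : (m : ℝ) * |sin ((a + b) / 2)| ≤ m * (|sin (a / 2)| + |sin (b / 2)|) :=
    mul_le_mul_of_nonneg_left h1 hm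
  have h7 : 0 ≤ ((m : ℝ) * |sin (a / 2)|) * (m * |sin (b / 2)|) := by positivity
  nlinarith

theorem om_le_of_abs_le (m : ℕ) {θ c : ℝ} (h : |θ| ≤ c / m) (hm : 1 ≤ m) : om m θ ≤ 1 + c / 2 := by
  unfold om
  have hm0 : (0 : ℝ) < m := by exact_mod_cast hm
  have h1 : |sin (θ / 2)| ≤ |θ / 2| := abs_sin_le_abs
  rw [abs_div, abs_two] at h1
  have h2 : |sin (θ / 2)| ≤ c / m / 2 := by linarith
  have h3 : (m : ℝ) * |sin (θ / 2)| ≤ m * (c / m / 2) := mul_le_mul_of_nonneg_left h2 hm0.le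
  have h4 : (m : ℝ) * (c / m / 2) = c / 2 := by field_simp
  linarith

theorem W_pos {m : ℕ} (hm : 1 ≤ m) (θ : ℝ) : 0 < W m θ := by
  have hm0 : (0 : ℝ) < m := by exact_mod_cast hm
  unfold W; positivity

theorem W_continuous (m : ℕ) : Continuous (W m) := by
  unfold W; fun_prop

theorem W_le {m : ℕ} (hm : 1 ≤ m) (θ s : ℝ) : W m θ ≤ 2 * om m (θ - s) * W m s := by
  have hm0 : (0 : ℝ) < m := by exact_mod_cast hm
  unfold W om
  set u := |sin ((θ - s) / 2)| with hu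
  have hu0 : 0 ≤ u := abs_nonneg _
  have h1 : |sin θ| ≤ 2 * u + |sin s| := by
    have e1 : sin θ - sin s = 2 * sin ((θ - s) / 2) * cos ((θ + s) / 2) := sin_sub_sin θ s
    have e2 : |sin θ - sin s| ≤ 2 * u := by
      rw [e1, abs_mul, abs_mul, abs_two]
      have := abs_cos_le_one ((θ + s) / 2)
      nlinarith
    have e3 : |sin θ| - |sin s| ≤ |sin θ - sin s| := abs_sub_abs_le_abs_sub _ _
    linarith
  have h2 := abs_nonneg (sin s)
  have h3 : 2 * (1 + (m : ℝ) * u) * (|sin s| + 1 / m)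
      = 2 * |sin s| + 2 * (1 / m) + 2 * (m * u * |sin s|) + 2 * u := by
    field_simp
    ring
  rw [h3]
  have h4 : 0 ≤ (m : ℝ) * u * |sin s| := by positivity
  have h5 : 0 < 1 / (m : ℝ) := by positivity
  linarith

theorem om_ge (m : ℕ) {θ : ℝ} (h : |θ| ≤ π) : 1 + m * |θ| / π ≤ om m θ := by
  unfold om
  have h1 : |θ| / π ≤ |sin (θ / 2)| := by
    have h2 : |sin (θ / 2)| = sin (|θ| / 2) := by
      rcases abs_cases θ with ⟨e, h0⟩ | ⟨e, h0⟩
      · rw [e, abs_of_nonneg]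
        apply sin_nonneg_of_nonneg_of_le_pi <;> [linarith; (rw [e] at h; linarith [pi_pos])]
      · rw [e, neg_div, sin_neg, abs_of_nonpos]
        have : 0 ≤ sin (-(θ / 2)) := by
          apply sin_nonneg_of_nonneg_of_le_pi <;> [linarith; (rw [e] at h; linarith [pi_pos])]
        rw [sin_neg] at this; linarith
    rw [h2]
    have h3 := Real.mul_le_sin (x := |θ| / 2) (by positivity) (by linarith)
    calc |θ| / π = 2 / π * (|θ| / 2) := by field_simp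
      _ ≤ _ := h3
  have hm0 : (0 : ℝ) ≤ m := Nat.cast_nonneg m
  have h2 : (m : ℝ) * |θ| / π = m * (|θ| / π) := by ring
  rw [h2]
  have := mul_le_mul_of_nonneg_left h1 hm0
  linarith

theorem om_shift_inv_periodic (m k : ℕ) : Function.Periodic (fun θ => (om m θ ^ k)⁻¹) (2 * π) := by
  intro θ
  simp only [om_periodic m θ]

theorem om_inv_continuous (m k : ℕ) (t : ℝ) : Continuous fun θ => (om m (θ - t) ^ k)⁻¹ := by
  apply Continuous.inv₀
  · exact ((om_continuous m).comp (continuous_id.sub continuous_const)).pow k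
  · intro θ
    exact (pow_pos (om_pos m _) k).ne'

theorem int_om_sq {m : ℕ} (hm : 1 ≤ m) (t : ℝ) :
    ∫ θ in (-π)..π, (om m (θ - t) ^ 2)⁻¹ ≤ 2 * π / m := by
  have hm0 : (0 : ℝ) < m := by exact_mod_cast hm
  rw [int_shift (om_shift_inv_periodic m 2) t]
  have hcont : Continuous fun θ => (om m θ ^ 2)⁻¹ := by
    simpa using om_inv_continuous m 2 0
  have hsplit : ∫ θ in (-π)..π, (om m θ ^ 2)⁻¹ = 2 * ∫ θ in (0 : ℝ)..π, (om m θ ^ 2)⁻¹ := by
    rw [← intervalIntegral.integral_add_adjacent_intervals (b := 0)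
      (hcont.intervalIntegrable _ _) (hcont.intervalIntegrable _ _)]
    have : ∫ θ in (-π)..0, (om m θ ^ 2)⁻¹ = ∫ θ in (0 : ℝ)..π, (om m θ ^ 2)⁻¹ := by
      have := intervalIntegral.integral_comp_neg (a := 0) (b := π) (fun θ => (om m θ ^ 2)⁻¹)
      simp only [om_neg, neg_zero] at this
      exact this.symm
    rw [this]; ring
  rw [hsplit]
  have hlin : ∀ θ : ℝ, HasDerivAt (fun θ : ℝ => 1 + (m : ℝ) / π * θ) ((m : ℝ) / π) θ := by
    intro θ
    simpa using ((hasDerivAt_id θ).const_mul ((m : ℝ) / π)).const_add 1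
  have hposl : ∀ θ ∈ Set.Icc (0 : ℝ) π, 0 < 1 + (m : ℝ) / π * θ := by
    intro θ hθ
    have := hθ.1
    have := pi_pos
    positivity
  have hb : ∫ θ in (0 : ℝ)..π, ((1 + (m : ℝ) / π * θ) ^ 2)⁻¹ ≤ π / m := by
    have hder : ∀ θ ∈ Set.uIcc (0 : ℝ) π, HasDerivAt
        (fun θ : ℝ => -(π / m) * (1 + (m : ℝ) / π * θ)⁻¹) (((1 + (m : ℝ) / π * θ) ^ 2)⁻¹) θ := by
      intro θ hθ
      rw [Set.uIcc_of_le pi_pos.le] at hθ
      have h0 := (hposl θ hθ).ne'
      have := ((hlin θ).inv h0).const_mul (-(π / m))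
      refine this.congr_deriv ?_
      have := pi_pos.ne'
      field_simp
    have hci : IntervalIntegrable (fun θ : ℝ => ((1 + (m : ℝ) / π * θ) ^ 2)⁻¹) volume 0 π := by
      apply ContinuousOn.intervalIntegrable
      rw [Set.uIcc_of_le pi_pos.le]
      apply ContinuousOn.inv₀
      · fun_prop
      · intro θ hθ
        exact (pow_pos (hposl θ hθ) 2).ne'
    rw [intervalIntegral.integral_eq_sub_of_hasDerivAt hder hci]
    have h1 : 0 < (1 + (m : ℝ) / π * π)⁻¹ := inv_pos.2 (hposl π ⟨pi_pos.le, le_rfl⟩)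
    have h2 : 0 < π / (m : ℝ) := by have := pi_pos; positivity
    simp only [mul_zero, add_zero, inv_one, mul_one]
    nlinarith [mul_pos h1 h2]
  have hle : ∫ θ in (0 : ℝ)..π, (om m θ ^ 2)⁻¹ ≤ ∫ θ in (0 : ℝ)..π, ((1 + (m : ℝ) / π * θ) ^ 2)⁻¹ := by
    apply intervalIntegral.integral_mono_on pi_pos.le (hcont.intervalIntegrable _ _)
    · apply ContinuousOn.intervalIntegrable
      rw [Set.uIcc_of_le pi_pos.le]
      apply ContinuousOn.inv₀
      · fun_prop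
      · intro θ hθ
        exact (pow_pos (hposl θ hθ) 2).ne'
    · intro θ hθ
      have h1 := om_ge m (θ := θ) (by rw [abs_of_nonneg hθ.1]; exact hθ.2)
      rw [abs_of_nonneg hθ.1] at h1
      have h2 := hposl θ hθ
      have h3 : 1 + (m : ℝ) / π * θ ≤ om m θ := by
        calc 1 + (m : ℝ) / π * θ = 1 + m * θ / π := by ring
          _ ≤ _ := h1
      gcongr
  calc 2 * ∫ θ in (0 : ℝ)..π, (om m θ ^ 2)⁻¹ ≤ 2 * (π / m) := by linarith
    _ = 2 * π / m := by ring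

theorem int_om_W {m : ℕ} (hm : 1 ≤ m) (s : ℝ) :
    ∫ θ in (-π)..π, (om m (θ - s) ^ 4)⁻¹ * W m θ ≤ 4 * π / m * W m s := by
  have hπ : -π ≤ π := by linarith [pi_pos]
  have h1 : ∫ θ in (-π)..π, (om m (θ - s) ^ 4)⁻¹ * W m θ
      ≤ ∫ θ in (-π)..π, 2 * W m s * (om m (θ - s) ^ 2)⁻¹ := by
    apply intervalIntegral.integral_mono_on hπ
    · exact (((om_inv_continuous m 4 s)).mul (W_continuous m)).intervalIntegrable _ _
    · exact (continuous_const.mul (om_inv_continuous m 2 s)).intervalIntegrable _ _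
    · intro θ _
      have hW := W_le hm θ s
      have ho := one_le_om m (θ - s)
      have ho0 := om_pos m (θ - s)
      have hWs := W_pos hm s
      calc (om m (θ - s) ^ 4)⁻¹ * W m θ ≤ (om m (θ - s) ^ 4)⁻¹ * (2 * om m (θ - s) * W m s) := by
            gcongr
        _ = 2 * W m s * (om m (θ - s) ^ 3)⁻¹ := by field_simp
        _ ≤ 2 * W m s * (om m (θ - s) ^ 2)⁻¹ := by
            apply mul_le_mul_of_nonneg_left _ (by positivity)
            apply inv_anti₀ (by positivity)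
            exact pow_le_pow_right₀ ho (by norm_num)
  refine h1.trans ?_
  rw [intervalIntegral.integral_const_mul]
  have h2 := int_om_sq hm s
  have hWs := W_pos hm s
  calc 2 * W m s * ∫ θ in (-π)..π, (om m (θ - s) ^ 2)⁻¹ ≤ 2 * W m s * (2 * π / m) := by gcongr
    _ = 4 * π / m * W m s := by ring

theorem le_int_om {m : ℕ} (hm : 1 ≤ m) (t : ℝ) :
    1 / (20 * m) ≤ ∫ θ in (-π)..π, (om m (θ - t) ^ 8)⁻¹ := by
  have hm0 : (0 : ℝ) < m := by exact_mod_cast hm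
  have hm1 : (1 : ℝ) ≤ m := by exact_mod_cast hm
  rw [int_shift (om_shift_inv_periodic m 8) t]
  have hcont : Continuous fun θ => (om m θ ^ 8)⁻¹ := by
    simpa using om_inv_continuous m 8 0
  have hinv : 1 / (m : ℝ) ≤ π := by
    have : 1 / (m : ℝ) ≤ 1 := by rw [div_le_one hm0]; exact hm1
    linarith [pi_gt_three]
  have hpos : 0 < 1 / (m : ℝ) := by positivity
  have h1 : ∫ θ in (-(1 / (m : ℝ)))..(1 / m), (om m θ ^ 8)⁻¹ ≤ ∫ θ in (-π)..π, (om m θ ^ 8)⁻¹ := by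
    apply intervalIntegral.integral_mono_interval (by linarith) (by linarith) hinv
    · exact Filter.Eventually.of_forall fun θ => by
        have := om_pos m θ
        simp only [Pi.zero_apply]
        positivity
    · exact hcont.intervalIntegrable _ _
  refine le_trans ?_ h1
  have h2 : ∫ _θ in (-(1 / (m : ℝ)))..(1 / m), (1 / 40 : ℝ) ≤
      ∫ θ in (-(1 / (m : ℝ)))..(1 / m), (om m θ ^ 8)⁻¹ := by
    apply intervalIntegral.integral_mono_on (by linarith)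
    · exact continuous_const.intervalIntegrable _ _
    · exact hcont.intervalIntegrable _ _
    · intro θ hθ
      have h3 : |θ| ≤ 1 / m := abs_le.2 hθ
      have h4 := om_le_of_abs_le m h3 hm
      have h5 := om_pos m θ
      have h6 : om m θ ^ 8 ≤ 40 := by
        calc om m θ ^ 8 ≤ (1 + 1 / 2) ^ 8 := by gcongr
          _ ≤ 40 := by norm_num
      rw [one_div]
      apply inv_anti₀ (by positivity) h6
  refine le_trans ?_ h2
  rw [intervalIntegral.integral_const, smul_eq_mul]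
  have : (1 / (m : ℝ) - -(1 / m)) * (1 / 40) = 1 / (20 * m) := by field_simp; norm_num
  rw [this]

/-! ### Fejer kernels -/

/-- the Dirichlet type sum -/
noncomputable def DD (m : ℕ) (θ : ℝ) : ℂ :=
  ∑ k ∈ Finset.range m, Complex.exp ((k : ℂ) * θ * Complex.I)

theorem Fej_eq (m : ℕ) (θ : ℝ) : Fej m θ = ‖DD m θ‖ ^ 2 / (m : ℝ) ^ 2 := rfl

theorem norm_exp_term (k : ℂ) (hk : k.im = 0) (θ : ℝ) : ‖Complex.exp (k * θ * Complex.I)‖ = 1 := by
  have : k = ((k.re : ℝ) : ℂ) := by apply Complex.ext <;> simp [hk]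
  rw [this, ← Complex.ofReal_mul, Complex.norm_exp_ofReal_mul_I]

theorem norm_DD_le (m : ℕ) (θ : ℝ) : ‖DD m θ‖ ≤ m := by
  unfold DD
  refine (norm_sum_le _ _).trans ?_
  have : ∀ k ∈ Finset.range m, ‖Complex.exp ((k : ℂ) * θ * Complex.I)‖ = 1 := by
    intro k _
    exact norm_exp_term _ (by simp) θ
  rw [Finset.sum_congr rfl this]
  simp

theorem Fej_TP {m : ℕ} (hm : 1 ≤ m) : TP (m - 1) (Fej m) := by
  have hz : TPI 0 ((m : ℤ) - 1) (DD m) := by
    refine ⟨fun _ => 1, fun θ => ?_⟩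
    unfold DD
    have : Finset.Icc (0 : ℤ) ((m : ℤ) - 1) = (Finset.range m).map Nat.castEmbedding := by
      ext k
      simp only [Finset.mem_Icc, Finset.mem_map, Finset.mem_range, Nat.castEmbedding_apply]
      constructor
      · rintro ⟨h1, h2⟩
        exact ⟨k.toNat, by omega, by omega⟩
      · rintro ⟨a, ha, rfl⟩
        omega
    rw [this, Finset.sum_map]
    simp
  have h1 := (TPI.normSq hz).const_mul (1 / (m : ℝ) ^ 2)
  have h2 : ((m : ℤ) - 1 - 0).toNat = m - 1 := by omega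
  rw [h2] at h1
  have h3 : Fej m = fun θ => 1 / (m : ℝ) ^ 2 * ‖DD m θ‖ ^ 2 := by
    ext θ
    rw [Fej_eq]; ring
  rw [h3]
  exact h1

theorem Fej_nonneg (m : ℕ) (θ : ℝ) : 0 ≤ Fej m θ := by
  unfold Fej; positivity

theorem Fej_le_one (m : ℕ) (θ : ℝ) : Fej m θ ≤ 1 := by
  rw [Fej_eq]
  apply div_le_one_of_le₀ _ (by positivity)
  exact pow_le_pow_left₀ (norm_nonneg _) (norm_DD_le m θ) 2

theorem Fej_zero {m : ℕ} (hm : 1 ≤ m) : Fej m 0 = 1 := by
  have hm0 : (m : ℝ) ≠ 0 := by exact_mod_cast (show m ≠ 0 by omega)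
  rw [Fej_eq]
  have : DD m 0 = m := by
    unfold DD; simp
  rw [this]
  simp only [Complex.norm_natCast]
  exact div_self (pow_ne_zero 2 hm0)

theorem DD_neg (m : ℕ) (θ : ℝ) : DD m (-θ) = (starRingEnd ℂ) (DD m θ) := by
  unfold DD
  rw [map_sum]
  refine Finset.sum_congr rfl fun k _ => ?_
  rw [← Complex.exp_conj]
  congr 1
  simp

theorem Fej_neg (m : ℕ) (θ : ℝ) : Fej m (-θ) = Fej m θ := by
  rw [Fej_eq, Fej_eq, DD_neg, RCLike.norm_conj]

theorem norm_exp_sub_one_sq (φ : ℝ) : ‖Complex.exp (φ * Complex.I) - 1‖ ^ 2 = 4 * sin (φ / 2) ^ 2 := by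
  rw [← Complex.normSq_eq_norm_sq, Complex.normSq_apply]
  simp only [Complex.sub_re, Complex.sub_im, Complex.one_re, Complex.one_im, sub_zero]
  rw [Complex.exp_ofReal_mul_I_re, Complex.exp_ofReal_mul_I_im]
  have h1 : cos φ = 1 - 2 * sin (φ / 2) ^ 2 := by
    have := cos_sq' (φ / 2)
    have h2 := cos_two_mul (φ / 2)
    have h3 : 2 * (φ / 2) = φ := by ring
    rw [h3] at h2
    linarith
  have h2 := sin_sq_add_cos_sq φ
  nlinarith

theorem DD_mul (m : ℕ) (θ : ℝ) :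
    (Complex.exp (θ * Complex.I) - 1) * DD m θ = Complex.exp ((m * θ : ℝ) * Complex.I) - 1 := by
  have h1 : DD m θ = ∑ k ∈ Finset.range m, (Complex.exp (θ * Complex.I)) ^ k := by
    unfold DD
    refine Finset.sum_congr rfl fun k _ => ?_
    rw [← Complex.exp_nat_mul]
    ring_nf
  rw [h1, mul_geom_sum]
  rw [← Complex.exp_nat_mul]
  push_cast
  ring_nf

theorem Fej_mul_sin (m : ℕ) (hm : 1 ≤ m) (θ : ℝ) :
    Fej m θ * (m * sin (θ / 2)) ^ 2 = sin (m * θ / 2) ^ 2 := by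
  have hm0 : (m : ℝ) ≠ 0 := by exact_mod_cast (show m ≠ 0 by omega)
  have h := congrArg (fun z => ‖z‖ ^ 2) (DD_mul m θ)
  simp only [norm_mul, mul_pow] at h
  rw [norm_exp_sub_one_sq, norm_exp_sub_one_sq] at h
  rw [Fej_eq]
  have e : ‖DD m θ‖ ^ 2 / (m : ℝ) ^ 2 * (m * sin (θ / 2)) ^ 2 = sin (θ / 2) ^ 2 * ‖DD m θ‖ ^ 2 := by
    field_simp
  rw [e]
  linarith

theorem abs_sin_nat_mul_le (n : ℕ) (x : ℝ) : |sin (n * x)| ≤ n * |sin x| := by
  induction n with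
  | zero => simp
  | succ n ih =>
    push_cast
    rw [add_mul, one_mul, sin_add]
    refine (abs_add_le _ _).trans ?_
    rw [abs_mul, abs_mul]
    have h2 := abs_cos_le_one x
    have h3 := abs_cos_le_one (n * x)
    have h4 := abs_nonneg (sin x)
    have h5 := abs_nonneg (sin (n * x))
    nlinarith

theorem normSq_DD (m : ℕ) (θ : ℝ) :
    ‖DD m θ‖ ^ 2 = ∑ j ∈ Finset.range m, ∑ k ∈ Finset.range m, cos (((j : ℝ) - k) * θ) := by
  have h1 : ((‖DD m θ‖ ^ 2 : ℝ) : ℂ) = DD m θ * (starRingEnd ℂ) (DD m θ) := by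
    rw [Complex.mul_conj, Complex.normSq_eq_norm_sq]
  have h2 : DD m θ * (starRingEnd ℂ) (DD m θ)
      = ∑ j ∈ Finset.range m, ∑ k ∈ Finset.range m,
        Complex.exp (((((j : ℝ) - k) * θ : ℝ) : ℂ) * Complex.I) := by
    rw [← DD_neg]
    unfold DD
    rw [Finset.sum_mul_sum]
    refine Finset.sum_congr rfl fun j _ => Finset.sum_congr rfl fun k _ => ?_
    rw [← Complex.exp_add]
    congr 1
    push_cast
    ring
  have h3 := congrArg Complex.re (h1.trans h2)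
  rw [Complex.ofReal_re] at h3
  rw [h3]
  simp only [Complex.re_sum]
  refine Finset.sum_congr rfl fun j _ => Finset.sum_congr rfl fun k _ => ?_
  rw [Complex.exp_ofReal_mul_I_re]

theorem one_sub_Fej_le (m : ℕ) (hm : 1 ≤ m) (θ : ℝ) :
    1 - Fej m θ ≤ 2 * (m * sin (θ / 2)) ^ 2 := by
  have hm0 : (0 : ℝ) < m := by exact_mod_cast hm
  rw [Fej_eq, normSq_DD]
  have hterm : ∀ j ∈ Finset.range m, ∀ k ∈ Finset.range m,
      1 - 2 * (m * sin (θ / 2)) ^ 2 ≤ cos (((j : ℝ) - k) * θ) := by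
    intro j hj k hk
    rw [Finset.mem_range] at hj hk
    have h1 : cos (((j : ℝ) - k) * θ) = 1 - 2 * sin (((j : ℝ) - k) * (θ / 2)) ^ 2 := by
      have h2 := cos_two_mul (((j : ℝ) - k) * (θ / 2))
      have h3 : 2 * (((j : ℝ) - k) * (θ / 2)) = ((j : ℝ) - k) * θ := by ring
      rw [h3] at h2
      have := cos_sq' (((j : ℝ) - k) * (θ / 2))
      linarith
    rw [h1]
    have h2 : |sin (((j : ℝ) - k) * (θ / 2))| ≤ m * |sin (θ / 2)| := by
      rcases le_total k j with hkj | hkj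
      · have e : ((j : ℝ) - k) = ((j - k : ℕ) : ℝ) := by push_cast [hkj]; ring
        rw [e]
        refine (abs_sin_nat_mul_le _ _).trans ?_
        have : ((j - k : ℕ) : ℝ) ≤ m := by exact_mod_cast (show j - k ≤ m by omega)
        exact mul_le_mul_of_nonneg_right this (abs_nonneg _)
      · have e : ((j : ℝ) - k) = -((k - j : ℕ) : ℝ) := by push_cast [hkj]; ring
        rw [e, neg_mul, sin_neg, abs_neg]
        refine (abs_sin_nat_mul_le _ _).trans ?_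
        have : ((k - j : ℕ) : ℝ) ≤ m := by exact_mod_cast (show k - j ≤ m by omega)
        exact mul_le_mul_of_nonneg_right this (abs_nonneg _)
    have h3 : sin (((j : ℝ) - k) * (θ / 2)) ^ 2 ≤ (m * sin (θ / 2)) ^ 2 := by
      rw [← sq_abs, ← sq_abs (m * sin (θ / 2)), abs_mul, Nat.abs_cast]
      exact pow_le_pow_left₀ (abs_nonneg _) h2 2
    linarith
  have hsum : (m : ℝ) ^ 2 * (1 - 2 * (m * sin (θ / 2)) ^ 2) ≤
      ∑ j ∈ Finset.range m, ∑ k ∈ Finset.range m, cos (((j : ℝ) - k) * θ) := by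
    have h1 : (m : ℝ) ^ 2 * (1 - 2 * (m * sin (θ / 2)) ^ 2)
        = ∑ _j ∈ Finset.range m, ∑ _k ∈ Finset.range m, (1 - 2 * (m * sin (θ / 2)) ^ 2) := by
      simp only [Finset.sum_const, Finset.card_range, nsmul_eq_mul]
      ring
    rw [h1]
    exact Finset.sum_le_sum fun j hj => Finset.sum_le_sum fun k hk => hterm j hj k hk
  have h2 : 1 - 2 * (m * sin (θ / 2)) ^ 2 ≤
      (∑ j ∈ Finset.range m, ∑ k ∈ Finset.range m, cos (((j : ℝ) - k) * θ)) / (m : ℝ) ^ 2 := by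
    rw [le_div_iff₀ (by positivity)]
    linarith
  linarith

theorem int_Fej {m : ℕ} (hm : 1 ≤ m) : ∫ θ in (-π)..π, Fej m θ = 2 * π / m := by
  have hm0 : (m : ℝ) ≠ 0 := by exact_mod_cast (show m ≠ 0 by omega)
  have h1 : ∀ θ, Fej m θ = (1 / (m : ℝ) ^ 2) *
      ∑ j ∈ Finset.range m, ∑ k ∈ Finset.range m, cos (((j : ℝ) - k) * θ) := by
    intro θ
    rw [Fej_eq, normSq_DD]; ring
  simp_rw [h1]
  rw [intervalIntegral.integral_const_mul]
  have hint : ∀ (j k : ℕ), ∫ θ in (-π)..π, cos (((j : ℝ) - k) * θ) = if j = k then 2 * π else 0 := by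
    intro j k
    split_ifs with hjk
    · subst hjk
      simp
      ring
    · have hne : ((j : ℝ) - k) ≠ 0 := by
        rw [sub_ne_zero]; exact_mod_cast hjk
      rw [intervalIntegral.integral_comp_mul_left (fun x => cos x) hne, integral_cos]
      have e1 : ((j : ℝ) - k) * π = (((j : ℤ) - k : ℤ) : ℝ) * π := by push_cast; ring
      have e2 : ((j : ℝ) - k) * -π = -((((j : ℤ) - k : ℤ) : ℝ) * π) := by push_cast; ring
      rw [e1, e2, sin_neg, sin_int_mul_pi]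
      simp
  have h2 : ∫ θ in (-π)..π, ∑ j ∈ Finset.range m, ∑ k ∈ Finset.range m, cos (((j : ℝ) - k) * θ)
      = ∑ j ∈ Finset.range m, ∑ k ∈ Finset.range m, (if j = k then 2 * π else 0) := by
    rw [intervalIntegral.integral_finsetSum]
    · refine Finset.sum_congr rfl fun j _ => ?_
      rw [intervalIntegral.integral_finsetSum]
      · exact Finset.sum_congr rfl fun k _ => hint j k
      · intro k _
        exact Continuous.intervalIntegrable (by fun_prop) _ _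
    · intro j _
      exact Continuous.intervalIntegrable (by fun_prop) _ _
  rw [h2]
  simp only [Finset.sum_ite_eq, Finset.mem_range]
  rw [Finset.sum_congr rfl (g := fun _ => 2 * π) (fun j hj => if_pos (Finset.mem_range.1 hj))]
  rw [Finset.sum_const, Finset.card_range, nsmul_eq_mul]
  field_simp

theorem Fej_le_om {m : ℕ} (hm : 1 ≤ m) (θ : ℝ) : Fej m θ ≤ 4 / om m θ ^ 2 := by
  rw [le_div_iff₀ (pow_pos (om_pos m θ) 2)]
  unfold om
  set u := (m : ℝ) * |sin (θ / 2)| with hu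
  have h1 := Fej_le_one m θ
  have h0 := Fej_nonneg m θ
  have h2 : Fej m θ * u ^ 2 ≤ 1 := by
    have h3 := Fej_mul_sin m hm θ
    have h4 : u ^ 2 = (m * sin (θ / 2)) ^ 2 := by
      rw [hu, mul_pow, mul_pow, sq_abs]
    rw [h4, h3]
    exact sin_sq_le_one _
  have h3 : (1 + u) ^ 2 ≤ 2 + 2 * u ^ 2 := by nlinarith [sq_nonneg (1 - u)]
  calc Fej m θ * (1 + u) ^ 2 ≤ Fej m θ * (2 + 2 * u ^ 2) := mul_le_mul_of_nonneg_left h3 h0
    _ = 2 * Fej m θ + 2 * (Fej m θ * u ^ 2) := by ring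
    _ ≤ 4 := by linarith

/-- the derivative of the Dirichlet type sum -/
noncomputable def DE (m : ℕ) (θ : ℝ) : ℂ :=
  ∑ k ∈ Finset.range m, (k : ℂ) * Complex.exp ((k : ℂ) * θ * Complex.I)

theorem hasDerivAt_DD (m : ℕ) (θ : ℝ) : HasDerivAt (DD m) (Complex.I * DE m θ) θ := by
  unfold DD DE
  rw [Finset.mul_sum]
  apply HasDerivAt.fun_sum
  intro k _
  have h1 : HasDerivAt (fun θ : ℝ => ((θ : ℝ) : ℂ)) 1 θ := Complex.ofRealCLM.hasDerivAt
  have h2 := ((h1.const_mul (k : ℂ)).mul_const Complex.I).cexp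
  refine h2.congr_deriv ?_
  ring

theorem norm_DE_le (m : ℕ) (θ : ℝ) : ‖DE m θ‖ ≤ (m : ℝ) ^ 2 / 2 := by
  unfold DE
  refine (norm_sum_le _ _).trans ?_
  have : ∀ k ∈ Finset.range m, ‖(k : ℂ) * Complex.exp ((k : ℂ) * θ * Complex.I)‖ = k := by
    intro k _
    rw [norm_mul, norm_exp_term _ (by simp) θ]
    simp
  rw [Finset.sum_congr rfl this]
  have h2 : ∀ m : ℕ, ∑ k ∈ Finset.range m, (k : ℝ) ≤ (m : ℝ) ^ 2 / 2 := by
    intro m
    induction m with
    | zero => simp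
    | succ n ih =>
      rw [Finset.sum_range_succ]
      push_cast
      nlinarith
  exact h2 m

theorem DE_mul (m : ℕ) (θ : ℝ) :
    (Complex.exp (θ * Complex.I) - 1) * DE m θ
      = ((m : ℂ) - 1) * Complex.exp ((m : ℂ) * θ * Complex.I) + 1 - DD m θ := by
  unfold DE DD
  induction m with
  | zero =>
    simp
  | succ n ih =>
    rw [Finset.sum_range_succ, Finset.sum_range_succ, mul_add, ih]
    have e : Complex.exp (((n + 1 : ℕ) : ℂ) * θ * Complex.I)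
        = Complex.exp ((n : ℂ) * θ * Complex.I) * Complex.exp (θ * Complex.I) := by
      rw [← Complex.exp_add]
      congr 1
      push_cast
      ring
    rw [e]
    push_cast
    ring

theorem norm_DE_mul_le {m : ℕ} (hm : 1 ≤ m) (θ : ℝ) : ‖DE m θ‖ * |sin (θ / 2)| ≤ m := by
  have h1 := congrArg norm (DE_mul m θ)
  rw [norm_mul] at h1
  have h2 : ‖Complex.exp (θ * Complex.I) - 1‖ = 2 * |sin (θ / 2)| := by
    have h3 := norm_exp_sub_one_sq θ
    have h4 : (2 * |sin (θ / 2)|) ^ 2 = 4 * sin (θ / 2) ^ 2 := by rw [mul_pow, sq_abs]; norm_num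
    rw [← h4] at h3
    exact (pow_left_inj₀ (norm_nonneg _) (by positivity) (by norm_num)).1 h3
  have hm1 : (1 : ℝ) ≤ m := by exact_mod_cast hm
  have h3 : ‖((m : ℂ) - 1) * Complex.exp ((m : ℂ) * θ * Complex.I) + 1 - DD m θ‖ ≤ 2 * m := by
    refine (norm_sub_le _ _).trans ?_
    have h4 := norm_DD_le m θ
    have h5 : ‖((m : ℂ) - 1) * Complex.exp ((m : ℂ) * θ * Complex.I) + 1‖ ≤ (m - 1) + 1 := by
      refine (norm_add_le _ _).trans ?_
      rw [norm_mul, norm_exp_term _ (by simp) θ, norm_one, mul_one]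
      have : ((m : ℂ) - 1) = (((m : ℝ) - 1 : ℝ) : ℂ) := by push_cast; ring
      rw [this, Complex.norm_real, Real.norm_eq_abs, abs_of_nonneg (by linarith)]
    linarith
  rw [h2] at h1
  linarith

theorem norm_DD_mul_le {m : ℕ} (θ : ℝ) : ‖DD m θ‖ * |sin (θ / 2)| ≤ 1 := by
  have h1 := congrArg norm (DD_mul m θ)
  rw [norm_mul] at h1
  have h2 : ∀ φ : ℝ, ‖Complex.exp (φ * Complex.I) - 1‖ = 2 * |sin (φ / 2)| := by
    intro φ
    have h3 := norm_exp_sub_one_sq φ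
    have h4 : (2 * |sin (φ / 2)|) ^ 2 = 4 * sin (φ / 2) ^ 2 := by rw [mul_pow, sq_abs]; norm_num
    rw [← h4] at h3
    exact (pow_left_inj₀ (norm_nonneg _) (by positivity) (by norm_num)).1 h3
  rw [h2, h2] at h1
  have h3 := abs_sin_le_one (m * θ / 2)
  linarith

theorem hasDerivAt_Fej (m : ℕ) (θ : ℝ) :
    HasDerivAt (Fej m) (2 * (inner ℝ (DD m θ) (Complex.I * DE m θ)) / (m : ℝ) ^ 2) θ := by
  have h := (hasDerivAt_DD m θ).norm_sq
  exact h.div_const _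

theorem abs_deriv_Fej_le' {m : ℕ} (hm : 1 ≤ m) (θ : ℝ) :
    |deriv (Fej m) θ| ≤ 2 * (‖DD m θ‖ * ‖DE m θ‖) / (m : ℝ) ^ 2 := by
  rw [(hasDerivAt_Fej m θ).deriv, abs_div, abs_mul, abs_two, abs_of_nonneg (by positivity : (0:ℝ) ≤ (m : ℝ) ^ 2)]
  have h1 : |inner ℝ (DD m θ) (Complex.I * DE m θ)| ≤ ‖DD m θ‖ * ‖DE m θ‖ := by
    refine (abs_real_inner_le_norm _ _).trans ?_
    rw [norm_mul, Complex.norm_I, one_mul]
  have hm0 : (0 : ℝ) < m := by exact_mod_cast hm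
  gcongr

theorem deriv_Fej_le {m : ℕ} (hm : 1 ≤ m) (θ : ℝ) :
    |deriv (Fej m) θ| ≤ 8 * m / om m θ ^ 2 := by
  have hm0 : (0 : ℝ) < m := by exact_mod_cast hm
  refine (abs_deriv_Fej_le' hm θ).trans ?_
  rw [div_le_div_iff₀ (by positivity) (pow_pos (om_pos m θ) 2)]
  have h1 : ‖DD m θ‖ * om m θ ≤ 2 * m := by
    unfold om
    have h2 := norm_DD_le m θ
    have h3 := norm_DD_mul_le (m := m) θ
    have h4 : (m : ℝ) * (‖DD m θ‖ * |sin (θ / 2)|) ≤ m * 1 := mul_le_mul_of_nonneg_left h3 hm0.le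
    calc ‖DD m θ‖ * (1 + m * |sin (θ / 2)|) = ‖DD m θ‖ + m * (‖DD m θ‖ * |sin (θ / 2)|) := by ring
      _ ≤ 2 * m := by linarith
  have h2 : ‖DE m θ‖ * om m θ ≤ 3 / 2 * (m : ℝ) ^ 2 := by
    unfold om
    have h2 := norm_DE_le m θ
    have h3 := norm_DE_mul_le hm θ
    have h4 : (m : ℝ) * (‖DE m θ‖ * |sin (θ / 2)|) ≤ m * m := mul_le_mul_of_nonneg_left h3 hm0.le
    calc ‖DE m θ‖ * (1 + m * |sin (θ / 2)|) = ‖DE m θ‖ + m * (‖DE m θ‖ * |sin (θ / 2)|) := by ring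
      _ ≤ 3 / 2 * (m : ℝ) ^ 2 := by nlinarith
  have h3 : (‖DD m θ‖ * om m θ) * (‖DE m θ‖ * om m θ) ≤ (2 * m) * (3 / 2 * (m : ℝ) ^ 2) :=
    mul_le_mul h1 h2 (mul_nonneg (norm_nonneg _) (om_pos m θ).le) (by positivity)
  have h4 : (0 : ℝ) ≤ (m : ℝ) ^ 3 := by positivity
  calc 2 * (‖DD m θ‖ * ‖DE m θ‖) * om m θ ^ 2
      = 2 * ((‖DD m θ‖ * om m θ) * (‖DE m θ‖ * om m θ)) := by ring
    _ ≤ 2 * ((2 * m) * (3 / 2 * (m : ℝ) ^ 2)) := by linarith
    _ = 6 * (m : ℝ) ^ 3 := by ring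
    _ ≤ 8 * (m : ℝ) ^ 3 := by linarith
    _ = 8 * m * (m : ℝ) ^ 2 := by ring

/-- two shifted Fejer kernels are bounded below together -/
theorem Fej_shift_ge {m : ℕ} (hm : 1 ≤ m) (θ : ℝ) :
    4 / π ^ 2 / om m θ ^ 2 ≤ Fej m θ + Fej m (θ - π / m) := by
  have hm0 : (0 : ℝ) < m := by exact_mod_cast hm
  have hπ := pi_pos
  have h3π := pi_gt_three
  set u := (m : ℝ) * |sin (θ / 2)| with hu
  set v := (m : ℝ) * |sin ((θ - π / m) / 2)| with hv
  have hu0 : 0 ≤ u := by positivity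
  have hv0 : 0 ≤ v := by positivity
  have hvle : v ≤ u + π / 2 := by
    have h1 : |sin ((θ - π / m) / 2)| ≤ |sin (θ / 2)| + π / m / 2 := by
      have e : (θ - π / m) / 2 = θ / 2 - π / m / 2 := by ring
      have h2 : |sin (θ / 2 - π / m / 2) - sin (θ / 2)| ≤ |(θ / 2 - π / m / 2) - θ / 2| :=
        abs_sin_sub_sin_le _ _
      have h3 : |(θ / 2 - π / m / 2) - θ / 2| = π / m / 2 := by
        have : (θ / 2 - π / m / 2) - θ / 2 = -(π / m / 2) := by ring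
        rw [this, abs_neg, abs_of_nonneg (by positivity)]
      rw [e]
      have h4 := abs_sub_abs_le_abs_sub (sin (θ / 2 - π / m / 2)) (sin (θ / 2))
      linarith
    have h2 := mul_le_mul_of_nonneg_left h1 hm0.le
    have h3 : (m : ℝ) * (|sin (θ / 2)| + π / m / 2) = u + π / 2 := by
      rw [mul_add]; congr 1; field_simp
    rw [h3] at h2
    exact h2
  have hF1 : Fej m θ * u ^ 2 = sin (m * θ / 2) ^ 2 := by
    have := Fej_mul_sin m hm θ
    rw [mul_pow] at this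
    rw [hu, mul_pow, sq_abs]; exact this
  have hF2 : Fej m (θ - π / m) * v ^ 2 = cos (m * θ / 2) ^ 2 := by
    have := Fej_mul_sin m hm (θ - π / m)
    rw [mul_pow] at this
    rw [hv, mul_pow, sq_abs, this]
    have e : (m : ℝ) * (θ - π / m) / 2 = m * θ / 2 - π / 2 := by field_simp
    rw [e, sin_sub_pi_div_two, neg_sq]
  have h0 := Fej_nonneg m θ
  have h0' := Fej_nonneg m (θ - π / m)
  have hA : Fej m θ * u ^ 2 ≤ Fej m θ * (u + π / 2) ^ 2 := by
    apply mul_le_mul_of_nonneg_left _ h0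
    exact pow_le_pow_left₀ hu0 (by linarith) 2
  have hB : Fej m (θ - π / m) * v ^ 2 ≤ Fej m (θ - π / m) * (u + π / 2) ^ 2 := by
    apply mul_le_mul_of_nonneg_left _ h0'
    exact pow_le_pow_left₀ hv0 hvle 2
  have hC : 1 ≤ (Fej m θ + Fej m (θ - π / m)) * (u + π / 2) ^ 2 := by
    have := sin_sq_add_cos_sq (m * θ / 2)
    nlinarith
  have hD : (u + π / 2) ^ 2 ≤ (π / 2 * (1 + u)) ^ 2 := by
    apply pow_le_pow_left₀ (by positivity)
    nlinarith
  have hom : om m θ = 1 + u := rfl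
  rw [hom, div_div, div_le_iff₀ (by positivity)]
  have hE : (Fej m θ + Fej m (θ - π / m)) * (u + π / 2) ^ 2 ≤
      (Fej m θ + Fej m (θ - π / m)) * (π / 2 * (1 + u)) ^ 2 :=
    mul_le_mul_of_nonneg_left hD (by linarith)
  have e : (π / 2 * (1 + u)) ^ 2 = π ^ 2 * (1 + u) ^ 2 / 4 := by ring
  rw [e] at hE
  linarith

theorem om_shift_le {m : ℕ} (hm : 1 ≤ m) (θ : ℝ) : om m θ ≤ 3 * om m (θ - π / m) := by
  have h1 := om_add_le m (θ - π / m) (π / m)
  have e : θ - π / m + π / m = θ := by ring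
  rw [e] at h1
  have h2 : om m (π / m) ≤ 1 + π / 2 := by
    apply om_le_of_abs_le m _ hm
    rw [abs_of_nonneg (by positivity)]
  have h3 : om m (π / m) ≤ 3 := by linarith [pi_le_four]
  have h4 := om_pos m (θ - π / m)
  nlinarith

theorem inv_om_shift_le {m : ℕ} (hm : 1 ≤ m) (θ : ℝ) :
    1 / om m (θ - π / m) ^ 2 ≤ 9 / om m θ ^ 2 := by
  rw [div_le_div_iff₀ (pow_pos (om_pos _ _) 2) (pow_pos (om_pos _ _) 2)]
  have h1 := om_shift_le hm θ
  have h2 := om_pos m θ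
  have h3 := pow_le_pow_left₀ h2.le h1 2
  rw [mul_pow] at h3
  linarith

theorem Fej_shift_le {m : ℕ} (hm : 1 ≤ m) (θ : ℝ) :
    Fej m (θ - π / m) ≤ 36 / om m θ ^ 2 := by
  have h1 := Fej_le_om hm (θ - π / m)
  have h2 := inv_om_shift_le hm θ
  calc Fej m (θ - π / m) ≤ 4 / om m (θ - π / m) ^ 2 := h1
    _ = 4 * (1 / om m (θ - π / m) ^ 2) := by ring
    _ ≤ 4 * (9 / om m θ ^ 2) := by linarith
    _ = 36 / om m θ ^ 2 := by ring

theorem deriv_Fej_shift_le {m : ℕ} (hm : 1 ≤ m) (θ : ℝ) :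
    |deriv (Fej m) (θ - π / m)| ≤ 72 * m / om m θ ^ 2 := by
  have hm0 : (0 : ℝ) < m := by exact_mod_cast hm
  have h1 := deriv_Fej_le hm (θ - π / m)
  have h2 := inv_om_shift_le hm θ
  calc |deriv (Fej m) (θ - π / m)| ≤ 8 * m / om m (θ - π / m) ^ 2 := h1
    _ = 8 * m * (1 / om m (θ - π / m) ^ 2) := by ring
    _ ≤ 8 * m * (9 / om m θ ^ 2) := by gcongr
    _ = 72 * m / om m θ ^ 2 := by ring

theorem kap_TP {m : ℕ} (hm : 1 ≤ m) : TP (4 * m) (kap m) := by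
  have h1 := (Fej_TP hm).pow 4
  have h2 := ((Fej_TP hm).comp_sub (π / m)).pow 4
  have h3 := h1.add h2
  exact h3.mono (by omega)

theorem kap_le : ∃ C : ℝ, 0 < C ∧ ∀ m : ℕ, 1 ≤ m → ∀ θ : ℝ, kap m θ ≤ C / om m θ ^ 8 := by
  refine ⟨4 ^ 4 + 36 ^ 4, by norm_num, fun m hm θ => ?_⟩
  have h1 := pow_le_pow_left₀ (Fej_nonneg m θ) (Fej_le_om hm θ) 4
  have h2 := pow_le_pow_left₀ (Fej_nonneg m _) (Fej_shift_le hm θ) 4
  unfold kap
  have h3 : (4 / om m θ ^ 2) ^ 4 + (36 / om m θ ^ 2) ^ 4 = (4 ^ 4 + 36 ^ 4) / om m θ ^ 8 := by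
    rw [div_pow, div_pow, ← pow_mul]; ring
  rw [← h3]
  exact add_le_add h1 h2

theorem le_kap' {m : ℕ} (hm : 1 ≤ m) (θ : ℝ) :
    ((4 / π ^ 2) ^ 4 / 8) / om m θ ^ 8 ≤ kap m θ := by
  have h1 := Fej_shift_ge hm θ
  have ha := Fej_nonneg m θ
  have hb := Fej_nonneg m (θ - π / m)
  unfold kap
  set a := Fej m θ
  set b := Fej m (θ - π / m)
  have h2 : (a + b) ^ 4 ≤ 8 * (a ^ 4 + b ^ 4) := by
    have h3 : (a + b) ^ 2 ≤ 2 * (a ^ 2 + b ^ 2) := by nlinarith [sq_nonneg (a - b)]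
    have h4 : (a ^ 2 + b ^ 2) ^ 2 ≤ 2 * (a ^ 4 + b ^ 4) := by nlinarith [sq_nonneg (a ^ 2 - b ^ 2)]
    have h5 : ((a + b) ^ 2) ^ 2 ≤ (2 * (a ^ 2 + b ^ 2)) ^ 2 := pow_le_pow_left₀ (by positivity) h3 2
    nlinarith
  have hom := om_pos m θ
  have h3 := pow_le_pow_left₀ (by have := pi_pos; positivity) h1 4
  have h4 : (4 / π ^ 2) ^ 4 / 8 / om m θ ^ 8 = (4 / π ^ 2 / om m θ ^ 2) ^ 4 / 8 := by
    rw [div_pow (4 / π ^ 2) (om m θ ^ 2) 4, ← pow_mul]
    ring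
  rw [h4]
  linarith

theorem le_kap : ∃ c : ℝ, 0 < c ∧ ∀ m : ℕ, 1 ≤ m → ∀ θ : ℝ, c / om m θ ^ 8 ≤ kap m θ :=
  ⟨(4 / π ^ 2) ^ 4 / 8, by have := pi_pos; positivity, fun _ hm θ => le_kap' hm θ⟩

theorem Fej_differentiable (m : ℕ) : Differentiable ℝ (Fej m) :=
  fun θ => (hasDerivAt_Fej m θ).differentiableAt

theorem hasDerivAt_Fej' (m : ℕ) (θ : ℝ) : HasDerivAt (Fej m) (deriv (Fej m) θ) θ :=
  (Fej_differentiable m θ).hasDerivAt

theorem hasDerivAt_Fej_shift (m : ℕ) (θ : ℝ) :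
    HasDerivAt (fun θ => Fej m (θ - π / m)) (deriv (Fej m) (θ - π / m)) θ := by
  have h := (hasDerivAt_Fej' m (θ - π / m)).comp_sub_const θ (π / m)
  exact h

theorem deriv_Fej_sq (m : ℕ) (θ : ℝ) :
    deriv (fun θ => Fej m θ ^ 2) θ = 2 * Fej m θ * deriv (Fej m) θ := by
  have h := (hasDerivAt_Fej' m θ).fun_pow 2
  rw [h.deriv]
  ring

theorem deriv_Fej_shift_sq (m : ℕ) (θ : ℝ) :
    deriv (fun θ => Fej m (θ - π / m) ^ 2) θ
      = 2 * Fej m (θ - π / m) * deriv (Fej m) (θ - π / m) := by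
  have h := (hasDerivAt_Fej_shift m θ).fun_pow 2
  rw [h.deriv]
  ring

theorem abs_deriv_Fej_sq_le {m : ℕ} (hm : 1 ≤ m) (θ : ℝ) :
    |deriv (fun θ => Fej m θ ^ 2) θ| ≤ 64 * m / om m θ ^ 4 := by
  rw [deriv_Fej_sq, abs_mul, abs_mul, abs_two, abs_of_nonneg (Fej_nonneg m θ)]
  have h1 := Fej_le_om hm θ
  have h2 := deriv_Fej_le hm θ
  have hom := om_pos m θ
  have h3 : Fej m θ * |deriv (Fej m) θ| ≤ (4 / om m θ ^ 2) * (8 * m / om m θ ^ 2) :=
    mul_le_mul h1 h2 (abs_nonneg _) (by positivity)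
  calc 2 * Fej m θ * |deriv (Fej m) θ| = 2 * (Fej m θ * |deriv (Fej m) θ|) := by ring
    _ ≤ 2 * ((4 / om m θ ^ 2) * (8 * m / om m θ ^ 2)) := by linarith
    _ = 64 * m / om m θ ^ 4 := by field_simp; ring

theorem abs_deriv_Fej_shift_sq_le {m : ℕ} (hm : 1 ≤ m) (θ : ℝ) :
    |deriv (fun θ => Fej m (θ - π / m) ^ 2) θ| ≤ 5184 * m / om m θ ^ 4 := by
  rw [deriv_Fej_shift_sq, abs_mul, abs_mul, abs_two, abs_of_nonneg (Fej_nonneg m _)]
  have h1 := Fej_shift_le hm θ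
  have h2 := deriv_Fej_shift_le hm θ
  have hom := om_pos m θ
  have h3 : Fej m (θ - π / m) * |deriv (Fej m) (θ - π / m)|
      ≤ (36 / om m θ ^ 2) * (72 * m / om m θ ^ 2) :=
    mul_le_mul h1 h2 (abs_nonneg _) (by positivity)
  calc 2 * Fej m (θ - π / m) * |deriv (Fej m) (θ - π / m)|
      = 2 * (Fej m (θ - π / m) * |deriv (Fej m) (θ - π / m)|) := by ring
    _ ≤ 2 * ((36 / om m θ ^ 2) * (72 * m / om m θ ^ 2)) := by linarith
    _ = 5184 * m / om m θ ^ 4 := by field_simp; ring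

/-- derivative of the first window `Fej^2` against `kap` -/
theorem deriv_win_le : ∃ C : ℝ, 0 < C ∧ ∀ m : ℕ, 1 ≤ m → ∀ θ : ℝ,
    (deriv (fun θ => Fej m θ ^ 2) θ) ^ 2 ≤ C * (m : ℝ) ^ 2 * kap m θ ∧
    (deriv (fun θ => Fej m (θ - π / m) ^ 2) θ) ^ 2 ≤ C * (m : ℝ) ^ 2 * kap m θ := by
  obtain ⟨c, hc, hk⟩ := le_kap
  refine ⟨5184 ^ 2 / c, by positivity, fun m hm θ => ?_⟩
  have hom := om_pos m θ
  have hm0 : (0 : ℝ) < m := by exact_mod_cast hm
  have key : ∀ x : ℝ, |x| ≤ 5184 * m / om m θ ^ 4 → x ^ 2 ≤ 5184 ^ 2 / c * (m : ℝ) ^ 2 * kap m θ := by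
    intro x hx
    have h1 : x ^ 2 ≤ (5184 * m / om m θ ^ 4) ^ 2 := by
      rw [← sq_abs]; exact pow_le_pow_left₀ (abs_nonneg _) hx 2
    refine h1.trans ?_
    have h2 := hk m hm θ
    calc (5184 * m / om m θ ^ 4) ^ 2 = 5184 ^ 2 / c * (m : ℝ) ^ 2 * (c / om m θ ^ 8) := by
          field_simp
      _ ≤ 5184 ^ 2 / c * (m : ℝ) ^ 2 * kap m θ := by gcongr
  refine ⟨key _ ?_, key _ (abs_deriv_Fej_shift_sq_le hm θ)⟩
  refine (abs_deriv_Fej_sq_le hm θ).trans ?_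
  gcongr
  norm_num

/-- the unshifted kernel `F^2 + F(.-π/m)^2` comparable to `om^(-4)`, with derivative bound -/
theorem kern4 : ∃ c C : ℝ, 0 < c ∧ 0 < C ∧ ∀ m : ℕ, 1 ≤ m → ∃ k : ℝ → ℝ, TP (2 * m) k ∧
    ∀ θ : ℝ, c / om m θ ^ 4 ≤ k θ ∧ k θ ≤ C / om m θ ^ 4 ∧ |deriv k θ| ≤ C * m / om m θ ^ 4 := by
  refine ⟨(4 / π ^ 2) ^ 2 / 2, 10000, by have := pi_pos; positivity, by norm_num, fun m hm => ?_⟩
  refine ⟨fun θ => Fej m θ ^ 2 + Fej m (θ - π / m) ^ 2, ?_, fun θ => ⟨?_, ?_, ?_⟩⟩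
  · have h1 := (Fej_TP hm).pow 2
    have h2 := ((Fej_TP hm).comp_sub (π / m)).pow 2
    exact (h1.add h2).mono (by omega)
  · have h1 := Fej_shift_ge hm θ
    set a := Fej m θ
    set b := Fej m (θ - π / m)
    have h2 : (a + b) ^ 2 ≤ 2 * (a ^ 2 + b ^ 2) := by nlinarith [sq_nonneg (a - b)]
    have hom := om_pos m θ
    have h3 := pow_le_pow_left₀ (by have := pi_pos; positivity) h1 2
    have h4 : (4 / π ^ 2) ^ 2 / 2 / om m θ ^ 4 = (4 / π ^ 2 / om m θ ^ 2) ^ 2 / 2 := by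
      rw [div_pow (4 / π ^ 2) (om m θ ^ 2) 2, ← pow_mul]
      ring
    rw [h4]
    linarith
  · have h1 := pow_le_pow_left₀ (Fej_nonneg m θ) (Fej_le_om hm θ) 2
    have h2 := pow_le_pow_left₀ (Fej_nonneg m _) (Fej_shift_le hm θ) 2
    have hom := om_pos m θ
    calc Fej m θ ^ 2 + Fej m (θ - π / m) ^ 2 ≤ (4 / om m θ ^ 2) ^ 2 + (36 / om m θ ^ 2) ^ 2 :=
          add_le_add h1 h2
      _ = 1312 / om m θ ^ 4 := by
          rw [div_pow, div_pow, ← pow_mul]; ring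
      _ ≤ 10000 / om m θ ^ 4 := by gcongr; norm_num
  · have hm0 : (0 : ℝ) < m := by exact_mod_cast hm
    have hom := om_pos m θ
    have hd : deriv (fun θ => Fej m θ ^ 2 + Fej m (θ - π / m) ^ 2) θ
        = deriv (fun θ => Fej m θ ^ 2) θ + deriv (fun θ => Fej m (θ - π / m) ^ 2) θ := by
      apply deriv_fun_add
      · exact ((hasDerivAt_Fej' m θ).fun_pow 2).differentiableAt
      · exact ((hasDerivAt_Fej_shift m θ).fun_pow 2).differentiableAt
    rw [hd]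
    refine (abs_add_le _ _).trans ?_
    have h1 := abs_deriv_Fej_sq_le hm θ
    have h2 := abs_deriv_Fej_shift_sq_le hm θ
    calc _ ≤ 64 * m / om m θ ^ 4 + 5184 * m / om m θ ^ 4 := add_le_add h1 h2
      _ = 5248 * (m / om m θ ^ 4) := by ring
      _ ≤ 10000 * (m / om m θ ^ 4) := by gcongr; norm_num
      _ = 10000 * m / om m θ ^ 4 := by ring

end Pool.Agent.H93.Ch
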