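import Pool.Agent.H93.Ch.VM

/-! Module M: upper counting estimates for the node measure under near exactness, and the
flattening weight. -/

set_option autoImplicit false

namespace Pool.Agent.H93.Ch

open Real MeasureTheory

theorem mu_nonneg {N : ℕ} {x : Fin N → ℝ} {F : ℝ → ℝ} (hF : ∀ θ, 0 ≤ F θ) : 0 ≤ mu x F := by
  unfold mu
  exact div_nonneg (Finset.sum_nonneg fun i _ => add_nonneg (hF _) (hF _)) (by positivity)

theorem mu_mono {N : ℕ} {x : Fin N → ℝ} {F G : ℝ → ℝ} (h : ∀ θ, F θ ≤ G θ) :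
    mu x F ≤ mu x G := by
  unfold mu
  exact div_le_div_of_nonneg_right (Finset.sum_le_sum fun i _ => add_le_add (h _) (h _))
    (by positivity)

theorem mu_add {N : ℕ} (x : Fin N → ℝ) (F G : ℝ → ℝ) :
    mu x (fun θ => F θ + G θ) = mu x F + mu x G := by
  unfold mu
  rw [← add_div, ← Finset.sum_add_distrib]
  congr 1
  exact Finset.sum_congr rfl fun i _ => by ring

theorem mu_const_mul {N : ℕ} (x : Fin N → ℝ) (c : ℝ) (F : ℝ → ℝ) :
    mu x (fun θ => c * F θ) = c * mu x F := by
  unfold mu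
  rw [← mul_div_assoc, Finset.mul_sum]
  congr 1
  exact Finset.sum_congr rfl fun i _ => by ring

theorem mu_cauchy_schwarz {N : ℕ} (x : Fin N → ℝ) (w F G : ℝ → ℝ) (hw : ∀ θ, 0 ≤ w θ) :
    (mu x (fun θ => w θ * F θ * G θ)) ^ 2
      ≤ mu x (fun θ => w θ * F θ ^ 2) * mu x (fun θ => w θ * G θ ^ 2) := by
  have key : ∀ H : ℝ → ℝ, mu x H = (∑ j : Fin N ⊕ Fin N, H (Sum.elim x (fun i => -(x i)) j))
      / (2 * N) := by
    intro H
    unfold mu
    rw [Fintype.sum_sum_type, ← Finset.sum_add_distrib]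
    rfl
  rw [key, key, key, div_pow, div_mul_div_comm, ← sq]
  apply div_le_div_of_nonneg_right _ (by positivity)
  apply Finset.sum_sq_le_sum_mul_sum_of_sq_le_mul
  · intro i _; exact mul_nonneg (hw _) (sq_nonneg _)
  · intro i _; exact mul_nonneg (hw _) (sq_nonneg _)
  · intro i _; exact le_of_eq (by ring)

/-- (M1) Proof: `ω(.-s)^(-4) ≤ C k(.-s)` with `k` from `kern4` (degree `2m ≤ p`), near
exactness for `k(.-s)`, `sg (k(.-s)) ≤ C ∫ ω(θ-s)^(-4) W ≤ C W(s)/m` by `int_om_W`, and the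
same for the error term. -/
theorem mu_om : ∃ C : ℝ, 0 < C ∧ ∀ (N p m : ℕ) (x : Fin N → ℝ) (δ : ℝ), 1 ≤ m → 2 * m ≤ p →
    0 ≤ δ → δ ≤ 1 → NE p m δ x → ∀ s, mu x (fun θ => (om m (θ - s) ^ 4)⁻¹) ≤ C / m * W m s := by
  obtain ⟨c, C, hc, hC, hk⟩ := kern4
  refine ⟨5 * π * C / c, by positivity, ?_⟩
  intro N p m x δ hm hmp hδ0 hδ1 hNE s
  obtain ⟨k, hkT, hk⟩ := hk m hm
  have hm0 : (0 : ℝ) < m := by exact_mod_cast hm
  obtain ⟨F, hF⟩ : ∃ F : ℝ → ℝ, F = fun θ => k (θ - s) := ⟨_, rfl⟩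
  have hFT : TP p F := by rw [hF]; exact (hkT.mono hmp).comp_sub s
  have hne := hNE F hFT
  have hkd : Differentiable ℝ k := hkT.contDiff.differentiable (by simp)
  have hdF : ∀ θ, deriv F θ = deriv k (θ - s) := by
    intro θ
    rw [hF, deriv_comp_sub_const]
  have hompos : ∀ θ, 0 < om m θ := fun θ => lt_of_lt_of_le one_pos (one_le_om m θ)
  have hcom : Continuous fun θ => (om m (θ - s) ^ 4)⁻¹ := by
    apply Continuous.inv₀
    · exact ((om_continuous m).comp (continuous_id.sub continuous_const)).pow 4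
    · intro θ; exact (pow_pos (hompos _) 4).ne'
  have hcW := W_continuous m
  have hint : IntervalIntegrable (fun θ => (om m (θ - s) ^ 4)⁻¹ * W m θ) volume (-π) π :=
    (hcom.mul hcW).intervalIntegrable _ _
  have hFc : Continuous F := hFT.contDiff.continuous
  have hFdc : Continuous (deriv F) := hFT.deriv.contDiff.continuous
  have hpi : (-π : ℝ) ≤ π := by linarith [pi_pos]
  have hiW := int_om_W hm s
  -- sg F
  have h1 : sg F ≤ C * π / m * W m s := by
    unfold sg
    have : ∫ θ in (-π)..π, F θ * |sin θ| ≤ ∫ θ in (-π)..π, C * ((om m (θ - s) ^ 4)⁻¹ * W m θ) := by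
      apply intervalIntegral.integral_mono_on hpi
      · exact (hFc.mul (continuous_sin.abs)).intervalIntegrable _ _
      · exact hint.const_mul C
      · intro θ _
        have h2 := (hk (θ - s)).2.1
        have h3 : |sin θ| ≤ W m θ := by unfold W; linarith [show 0 ≤ 1 / (m : ℝ) by positivity]
        have h4 : F θ ≤ C / om m (θ - s) ^ 4 := by rw [hF]; exact h2
        calc F θ * |sin θ| ≤ C / om m (θ - s) ^ 4 * W m θ := by
              apply mul_le_mul h4 h3 (abs_nonneg _)
              have := hompos (θ - s)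
              positivity
          _ = C * ((om m (θ - s) ^ 4)⁻¹ * W m θ) := by ring
    rw [intervalIntegral.integral_const_mul] at this
    calc 1 / 4 * ∫ θ in (-π)..π, F θ * |sin θ|
        ≤ 1 / 4 * (C * (4 * π / m * W m s)) := by
          apply mul_le_mul_of_nonneg_left _ (by norm_num)
          exact this.trans (mul_le_mul_of_nonneg_left hiW hC.le)
      _ = C * π / m * W m s := by ring
  have h2 : δ / m * ∫ θ in (-π)..π, |deriv F θ| * W m θ ≤ 4 * C * π / m * W m s := by
    have h3 : ∫ θ in (-π)..π, |deriv F θ| * W m θ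
        ≤ ∫ θ in (-π)..π, (C * m) * ((om m (θ - s) ^ 4)⁻¹ * W m θ) := by
      apply intervalIntegral.integral_mono_on hpi
      · exact (hFdc.abs.mul hcW).intervalIntegrable _ _
      · exact hint.const_mul (C * m)
      · intro θ _
        have h4 := (hk (θ - s)).2.2
        have h5 := (W_pos hm θ).le
        rw [hdF]
        calc |deriv k (θ - s)| * W m θ ≤ C * m / om m (θ - s) ^ 4 * W m θ :=
              mul_le_mul_of_nonneg_right h4 h5
          _ = (C * m) * ((om m (θ - s) ^ 4)⁻¹ * W m θ) := by ring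
    rw [intervalIntegral.integral_const_mul] at h3
    have h6 : 0 ≤ ∫ θ in (-π)..π, |deriv F θ| * W m θ := by
      apply intervalIntegral.integral_nonneg hpi
      intro θ _
      exact mul_nonneg (abs_nonneg _) (W_pos hm θ).le
    calc δ / m * ∫ θ in (-π)..π, |deriv F θ| * W m θ
        ≤ 1 / m * ∫ θ in (-π)..π, |deriv F θ| * W m θ := by gcongr
      _ ≤ 1 / m * ((C * m) * (4 * π / m * W m s)) := by
          apply mul_le_mul_of_nonneg_left _ (by positivity)
          exact h3.trans (mul_le_mul_of_nonneg_left hiW (by positivity))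
      _ = 4 * C * π / m * W m s := by field_simp
  have h3 : mu x F ≤ 5 * C * π / m * W m s := by
    have h4 := (abs_le.1 hne).2
    have : mu x F ≤ sg F + δ / m * ∫ θ in (-π)..π, |deriv F θ| * W m θ := by linarith
    calc mu x F ≤ C * π / m * W m s + 4 * C * π / m * W m s := this.trans (add_le_add h1 h2)
      _ = 5 * C * π / m * W m s := by ring
  have h4 : mu x (fun θ => (om m (θ - s) ^ 4)⁻¹) ≤ mu x (fun θ => (1 / c) * F θ) := by
    apply mu_mono
    intro θ
    have h5 := (hk (θ - s)).1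
    rw [hF]
    calc (om m (θ - s) ^ 4)⁻¹ = 1 / c * (c / om m (θ - s) ^ 4) := by field_simp
      _ ≤ 1 / c * k (θ - s) := mul_le_mul_of_nonneg_left h5 (by positivity)
  rw [mu_const_mul] at h4
  calc mu x (fun θ => (om m (θ - s) ^ 4)⁻¹) ≤ 1 / c * mu x F := h4
    _ ≤ 1 / c * (5 * C * π / m * W m s) := mul_le_mul_of_nonneg_left h3 (by positivity)
    _ = 5 * π * C / c / m * W m s := by ring

theorem mu_sum {N : ℕ} (x : Fin N → ℝ) {ι : Type*} (S : Finset ι) (F : ι → ℝ → ℝ) :
    mu x (fun θ => ∑ j ∈ S, F j θ) = ∑ j ∈ S, mu x (F j) := by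
  unfold mu
  rw [← Finset.sum_div]
  congr 1
  simp only [← Finset.sum_add_distrib]
  rw [Finset.sum_comm]

theorem mu_one_le {N : ℕ} (x : Fin N → ℝ) : mu x (fun _ => 1) ≤ 1 := by
  unfold mu
  simp only [Finset.sum_const, Finset.card_univ, Fintype.card_fin, nsmul_eq_mul]
  rcases Nat.eq_zero_or_pos N with h | h
  · subst h; simp
  · have : (0 : ℝ) < N := by exact_mod_cast h
    rw [div_le_one (by positivity)]
    linarith

/-- covering of the end zones by the bumps `ω^(-4)` at the points `j/m`, `π + j/m` -/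
theorem end_cover {m : ℕ} (hm : 1 ≤ m) {a : ℝ} (ha : 1 ≤ a) {θ : ℝ} (hθ : |sin θ| < a / m) :
    1 ≤ (5 / 4 : ℝ) ^ 4 * ∑ j ∈ Finset.Icc (-⌈3 * a⌉) ⌈3 * a⌉,
      ((om m (θ - (j : ℝ) / m) ^ 4)⁻¹ + (om m (θ - (π + (j : ℝ) / m)) ^ 4)⁻¹) := by
  have hm0 : (0 : ℝ) < m := by exact_mod_cast hm
  have hompos : ∀ θ, 0 < om m θ := fun θ => lt_of_lt_of_le one_pos (one_le_om m θ)
  obtain ⟨k, hk⟩ : ∃ k : ℤ, k = round (θ / π) := ⟨_, rfl⟩
  obtain ⟨r, hr⟩ : ∃ r : ℝ, r = θ - k * π := ⟨_, rfl⟩
  have hπ := pi_pos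
  have hr1 : |r| ≤ π / 2 := by
    have h1 := abs_sub_round (θ / π)
    rw [← hk] at h1
    have h2 : r = (θ / π - k) * π := by rw [hr]; field_simp
    rw [h2, abs_mul, abs_of_pos hπ]
    nlinarith
  have hsin : |sin θ| = |sin r| := by
    have : θ = r + k * π := by rw [hr]; ring
    rw [this, sin_add_int_mul_pi]
    rw [abs_mul]
    have h1 : |((-1 : ℝ)) ^ k| = 1 := by
      rw [abs_zpow]; simp
    rw [h1, one_mul]
  have hr2 : 2 / π * |r| ≤ |sin r| := by
    have := mul_abs_le_abs_sin hr1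
    linarith
  have hr3 : |r| * m ≤ 2 * a := by
    have h1 : 2 / π * |r| < a / m := by rw [hsin] at hθ; linarith
    have h2 : |r| < a / m * (π / 2) := by
      have h3 : 2 / π * |r| * (π / 2) = |r| := by field_simp
      rw [← h3]
      exact mul_lt_mul_of_pos_right h1 (by positivity)
    have h4 : |r| * m < a * (π / 2) := by
      have h5 : a / m * (π / 2) * m = a * (π / 2) := by field_simp
      rw [← h5]
      exact mul_lt_mul_of_pos_right h2 hm0
    have h6 := pi_le_four
    nlinarith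
  obtain ⟨j, hj⟩ : ∃ j : ℤ, j = round (r * m) := ⟨_, rfl⟩
  have hj1 : |r * m - j| ≤ 1 / 2 := by rw [hj]; exact abs_sub_round _
  have hj2 : |(j : ℝ)| ≤ 3 * a := by
    have h1 : |(j : ℝ)| ≤ |r * m| + |r * m - j| := by
      have := abs_sub_abs_le_abs_sub (j : ℝ) (r * m)
      rw [abs_sub_comm] at this
      linarith
    rw [abs_mul, abs_of_pos hm0] at h1
    linarith
  have hjmem : j ∈ Finset.Icc (-⌈3 * a⌉) ⌈3 * a⌉ := by
    rw [Finset.mem_Icc]
    have h1 := Int.le_ceil (3 * a)
    obtain ⟨h2, h3⟩ := abs_le.1 hj2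
    constructor
    · have : -((⌈3 * a⌉ : ℤ) : ℝ) ≤ (j : ℝ) := by linarith
      exact_mod_cast this
    · have : (j : ℝ) ≤ ((⌈3 * a⌉ : ℤ) : ℝ) := by linarith
      exact_mod_cast this
  have hrj : om m (r - (j : ℝ) / m) ≤ 5 / 4 := by
    have h1 : |r - (j : ℝ) / m| ≤ (1 / 2) / m := by
      have h2 : r - (j : ℝ) / m = (r * m - j) / m := by field_simp
      rw [h2, abs_div, abs_of_pos hm0]
      exact div_le_div_of_nonneg_right hj1 hm0.le
    have := om_le_of_abs_le m h1 hm
    linarith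
  have hrj2 : (1 : ℝ) ≤ (5 / 4) ^ 4 * (om m (r - (j : ℝ) / m) ^ 4)⁻¹ := by
    have h1 := hompos (r - (j : ℝ) / m)
    rw [← div_eq_mul_inv, le_div_iff₀ (by positivity), one_mul]
    exact pow_le_pow_left₀ h1.le hrj 4
  have hnn : ∀ i ∈ Finset.Icc (-⌈3 * a⌉) ⌈3 * a⌉,
      (0 : ℝ) ≤ (om m (θ - (i : ℝ) / m) ^ 4)⁻¹ + (om m (θ - (π + (i : ℝ) / m)) ^ 4)⁻¹ := by
    intro i _
    have h1 := hompos (θ - (i : ℝ) / m)
    have h2 := hompos (θ - (π + (i : ℝ) / m))
    positivity
  have hsingle := Finset.single_le_sum hnn hjmem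
  have hcase : (om m (r - (j : ℝ) / m) ^ 4)⁻¹ ≤
      (om m (θ - (j : ℝ) / m) ^ 4)⁻¹ + (om m (θ - (π + (j : ℝ) / m)) ^ 4)⁻¹ := by
    have p1 := hompos (θ - (j : ℝ) / m)
    have p2 := hompos (θ - (π + (j : ℝ) / m))
    rcases Int.even_or_odd' k with ⟨l, hl | hl⟩
    · have : om m (θ - (j : ℝ) / m) = om m (r - (j : ℝ) / m) := by
        have h1 : θ - (j : ℝ) / m = (r - (j : ℝ) / m) + l * (2 * π) := by
          rw [hr, hl]; push_cast; ring
        rw [h1, (om_periodic m).int_mul l]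
      rw [this]
      have : 0 ≤ (om m (θ - (π + (j : ℝ) / m)) ^ 4)⁻¹ := by positivity
      linarith
    · have : om m (θ - (π + (j : ℝ) / m)) = om m (r - (j : ℝ) / m) := by
        have h1 : θ - (π + (j : ℝ) / m) = (r - (j : ℝ) / m) + l * (2 * π) := by
          rw [hr, hl]; push_cast; ring
        rw [h1, (om_periodic m).int_mul l]
      rw [this]
      have : 0 ≤ (om m (θ - (j : ℝ) / m) ^ 4)⁻¹ := by positivity
      linarith
  calc (1 : ℝ) ≤ (5 / 4) ^ 4 * (om m (r - (j : ℝ) / m) ^ 4)⁻¹ := hrj2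
    _ ≤ _ := mul_le_mul_of_nonneg_left (hcase.trans hsingle) (by norm_num)

/-- (M2) mass of the end zones -/
theorem mu_near : ∃ C : ℝ, 0 < C ∧ ∀ (N p m : ℕ) (x : Fin N → ℝ) (δ : ℝ), 1 ≤ m → 2 * m ≤ p →
    0 ≤ δ → δ ≤ 1 → NE p m δ x → ∀ a : ℝ, 1 ≤ a →
    mu x (fun θ => if |sin θ| < a / m then 1 else 0) ≤ C * (a / m) ^ 2 := by
  obtain ⟨C, hC, hmu⟩ := mu_om
  refine ⟨(5 / 4) ^ 4 * C * 90, by positivity, ?_⟩
  intro N p m x δ hm hmp hδ0 hδ1 hNE a ha
  have hm0 : (0 : ℝ) < m := by exact_mod_cast hm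
  have hompos : ∀ θ, 0 < om m θ := fun θ => lt_of_lt_of_le one_pos (one_le_om m θ)
  obtain ⟨S, hS⟩ : ∃ S : Finset ℤ, S = Finset.Icc (-⌈3 * a⌉) ⌈3 * a⌉ := ⟨_, rfl⟩
  have h1 : mu x (fun θ => if |sin θ| < a / m then 1 else 0) ≤
      mu x (fun θ => (5 / 4 : ℝ) ^ 4 * ∑ j ∈ S,
      ((om m (θ - (j : ℝ) / m) ^ 4)⁻¹ + (om m (θ - (π + (j : ℝ) / m)) ^ 4)⁻¹)) := by
    apply mu_mono
    intro θ
    split_ifs with h
    · rw [hS]; exact end_cover hm ha h
    · apply mul_nonneg (by norm_num)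
      apply Finset.sum_nonneg
      intro i _
      have h1 := hompos (θ - (i : ℝ) / m)
      have h2 := hompos (θ - (π + (i : ℝ) / m))
      positivity
  rw [mu_const_mul, mu_sum] at h1
  have h2 : ∀ j ∈ S, mu x (fun θ => (om m (θ - (j : ℝ) / m) ^ 4)⁻¹
      + (om m (θ - (π + (j : ℝ) / m)) ^ 4)⁻¹) ≤ C / m * (10 * a / m) := by
    intro j hj
    rw [mu_add]
    have e1 := hmu N p m x δ hm hmp hδ0 hδ1 hNE ((j : ℝ) / m)
    have e2 := hmu N p m x δ hm hmp hδ0 hδ1 hNE (π + (j : ℝ) / m)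
    have hjb : |(j : ℝ)| ≤ 4 * a := by
      rw [hS, Finset.mem_Icc] at hj
      have h3 := Int.ceil_lt_add_one (3 * a)
      have h4 : ((j : ℤ) : ℝ) ≤ ((⌈3 * a⌉ : ℤ) : ℝ) := by exact_mod_cast hj.2
      have h5 : -((⌈3 * a⌉ : ℤ) : ℝ) ≤ ((j : ℤ) : ℝ) := by exact_mod_cast hj.1
      rw [abs_le]
      constructor <;> linarith
    have hW1 : W m ((j : ℝ) / m) ≤ 5 * a / m := by
      unfold W
      have h6 : |sin ((j : ℝ) / m)| ≤ 4 * a / m := by
        refine abs_sin_le_abs.trans ?_
        rw [abs_div, abs_of_pos hm0]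
        exact div_le_div_of_nonneg_right hjb hm0.le
      have h7 : (1 : ℝ) / m ≤ a / m := div_le_div_of_nonneg_right ha hm0.le
      calc |sin ((j : ℝ) / m)| + 1 / m ≤ 4 * a / m + a / m := add_le_add h6 h7
        _ = 5 * a / m := by ring
    have hW2 : W m (π + (j : ℝ) / m) ≤ 5 * a / m := by
      have : W m (π + (j : ℝ) / m) = W m ((j : ℝ) / m) := by
        unfold W
        rw [add_comm π, sin_add_pi, abs_neg]
      rw [this]; exact hW1
    calc _ ≤ C / m * W m ((j : ℝ) / m) + C / m * W m (π + (j : ℝ) / m) := add_le_add e1 e2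
      _ ≤ C / m * (5 * a / m) + C / m * (5 * a / m) := by gcongr
      _ = C / m * (10 * a / m) := by ring
  have h3 : (S.card : ℝ) ≤ 9 * a := by
    rw [hS, Int.card_Icc]
    have h3 := Int.ceil_lt_add_one (3 * a)
    have h4 : (0 : ℤ) ≤ ⌈3 * a⌉ + 1 - -⌈3 * a⌉ := by
      have : 0 ≤ ⌈3 * a⌉ := Int.ceil_nonneg (by linarith)
      omega
    have h5 : (((⌈3 * a⌉ + 1 - -⌈3 * a⌉).toNat : ℕ) : ℝ) = ((⌈3 * a⌉ + 1 - -⌈3 * a⌉ : ℤ) : ℝ) := by
      exact_mod_cast Int.toNat_of_nonneg h4
    rw [h5]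
    push_cast
    linarith
  have h4 := h1.trans (mul_le_mul_of_nonneg_left (Finset.sum_le_sum h2) (by norm_num))
  rw [Finset.sum_const, nsmul_eq_mul] at h4
  refine h4.trans ?_
  calc (5 / 4 : ℝ) ^ 4 * ((S.card : ℝ) * (C / m * (10 * a / m)))
      ≤ (5 / 4 : ℝ) ^ 4 * ((9 * a) * (C / m * (10 * a / m))) := by gcongr
    _ = (5 / 4) ^ 4 * C * 90 * (a / m) ^ 2 := by field_simp; ring

theorem mu_integral {N : ℕ} (x : Fin N → ℝ) (g : ℝ → ℝ → ℝ) {a b : ℝ}
    (hg : ∀ t, IntervalIntegrable (g t) volume a b) :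
    mu x (fun t => ∫ s in a..b, g t s) = ∫ s in a..b, mu x (fun t => g t s) := by
  unfold mu
  rw [intervalIntegral.integral_div, intervalIntegral.integral_finsetSum]
  · congr 1
    refine Finset.sum_congr rfl fun i _ => ?_
    rw [intervalIntegral.integral_add (hg _) (hg _)]
  · intro i _
    exact (hg _).add (hg _)

/-- (M3) `mu v ≤ C ∫ v W`: from (V3), (M1) -/
theorem mu_vv_le : ∃ C : ℝ, 0 < C ∧ ∀ (N p m : ℕ) (x : Fin N → ℝ) (δ : ℝ) (h : ℝ → ℝ), 1 ≤ m →
    2 * m ≤ p → 0 ≤ δ → δ ≤ 1 → NE p m δ x → Continuous h → Function.Periodic h (2 * π) →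
    mu x (vv m h) ≤ C * VV m h := by
  obtain ⟨C₁, hC₁, hv⟩ := vv_le_avg
  obtain ⟨C₂, hC₂, hmu⟩ := mu_om
  refine ⟨C₁ * C₂, by positivity, ?_⟩
  intro N p m x δ h hm hmp hδ0 hδ1 hNE hh _
  have hm0 : (0 : ℝ) < m := by exact_mod_cast hm
  have hompos : ∀ θ, 0 < om m θ := fun θ => lt_of_lt_of_le one_pos (one_le_om m θ)
  have hvc := vv_continuous hm hh
  have hpi : (-π : ℝ) ≤ π := by linarith [pi_pos]
  have hc1 : ∀ t, Continuous fun s => vv m h s * (om m (t - s) ^ 4)⁻¹ := by
    intro t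
    apply hvc.mul
    apply Continuous.inv₀
    · exact ((om_continuous m).comp (continuous_const.sub continuous_id)).pow 4
    · intro θ; exact (pow_pos (hompos _) 4).ne'
  have h1 : mu x (vv m h) ≤ mu x (fun t => (C₁ * m) * ∫ s in (-π)..π,
      vv m h s * (om m (t - s) ^ 4)⁻¹) := mu_mono fun t => hv m h hm hh t
  rw [mu_const_mul, mu_integral x (fun t s => vv m h s * (om m (t - s) ^ 4)⁻¹)
    (fun t => (hc1 t).intervalIntegrable _ _)] at h1
  have h2 : ∫ s in (-π)..π, mu x (fun t => vv m h s * (om m (t - s) ^ 4)⁻¹)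
      ≤ ∫ s in (-π)..π, (C₂ / m) * (vv m h s * W m s) := by
    apply intervalIntegral.integral_mono_on hpi
    · apply Continuous.intervalIntegrable
      unfold mu
      apply Continuous.div_const
      apply continuous_finsetSum
      intro i _
      exact (hc1 _).add (hc1 _)
    · apply Continuous.intervalIntegrable
      exact continuous_const.mul (hvc.mul (W_continuous m))
    · intro s _
      rw [mu_const_mul]
      calc vv m h s * mu x (fun t => (om m (t - s) ^ 4)⁻¹)
          ≤ vv m h s * (C₂ / m * W m s) :=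
            mul_le_mul_of_nonneg_left (hmu N p m x δ hm hmp hδ0 hδ1 hNE s) (vv_nonneg _ _ _)
        _ = (C₂ / m) * (vv m h s * W m s) := by ring
  rw [intervalIntegral.integral_const_mul] at h2
  calc mu x (vv m h) ≤ C₁ * m * (C₂ / m * VV m h) :=
        h1.trans (mul_le_mul_of_nonneg_left h2 (by positivity))
    _ = C₁ * C₂ * VV m h := by field_simp

/-! ### flattening weight -/

theorem abs_sin_sub_sin_le (a b : ℝ) : |sin a - sin b| ≤ 2 * |sin ((a - b) / 2)| := by
  rw [sin_sub_sin, abs_mul, abs_mul, abs_two]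
  have h := abs_cos_le_one ((a + b) / 2)
  have h2 := abs_nonneg (sin ((a - b) / 2))
  nlinarith

theorem MA_pos {m : ℕ} {A : ℝ} (hm : 1 ≤ m) (hA : 1 ≤ A) (θ : ℝ) : 0 < MA m A θ := by
  unfold MA
  have hm0 : (0 : ℝ) < m := by exact_mod_cast hm
  exact lt_of_lt_of_le (by positivity) (le_max_right _ _)

theorem MA_continuous (m : ℕ) (A : ℝ) : Continuous (MA m A) := by
  unfold MA
  exact continuous_sin.abs.max continuous_const

theorem MA_sub_le (m : ℕ) (A : ℝ) (a b : ℝ) :
    |MA m A a - MA m A b| ≤ 2 * |sin ((a - b) / 2)| := by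
  unfold MA
  refine (abs_max_sub_max_le_abs _ _ _).trans ?_
  exact (abs_abs_sub_abs_le _ _).trans (abs_sin_sub_sin_le a b)

theorem inv_MA_sub_le {m : ℕ} {A : ℝ} (hm : 1 ≤ m) (hA : 1 ≤ A) (a b : ℝ) :
    |(MA m A a)⁻¹ - (MA m A b)⁻¹| ≤ 2 * |sin ((a - b) / 2)| * (m / A) * (MA m A b)⁻¹ := by
  have hm0 : (0 : ℝ) < m := by exact_mod_cast hm
  have h1 := MA_pos hm hA a
  have h2 := MA_pos hm hA b
  have h3 : (MA m A a)⁻¹ ≤ m / A := by
    rw [inv_le_comm₀ h1 (by positivity), inv_div]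
    exact le_max_right _ _
  have h4 : (MA m A a)⁻¹ - (MA m A b)⁻¹
      = (MA m A b - MA m A a) * (MA m A a)⁻¹ * (MA m A b)⁻¹ := by
    field_simp
  rw [h4, abs_mul, abs_mul, abs_of_pos (inv_pos.2 h1), abs_of_pos (inv_pos.2 h2), abs_sub_comm]
  apply mul_le_mul_of_nonneg_right _ (inv_pos.2 h2).le
  exact mul_le_mul (MA_sub_le m A a b) h3 (inv_pos.2 h1).le (by positivity)

theorem int_Fej_sq_ge {m : ℕ} (hm : 1 ≤ m) : 1 / (2 * m) ≤ ∫ θ in (-π)..π, Fej m θ ^ 2 := by
  have hm0 : (0 : ℝ) < m := by exact_mod_cast hm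
  have hm1 : (1 : ℝ) ≤ m := by exact_mod_cast hm
  have hFc : Continuous (Fej m) := (Fej_TP hm).contDiff.continuous
  have hc : Continuous fun θ => Fej m θ ^ 2 := hFc.pow 2
  have h1m : 1 / (m : ℝ) ≤ 1 := by rw [div_le_one hm0]; exact hm1
  have hpi3 := pi_gt_three
  have h1 : ∫ θ in (-(1 / (m : ℝ)))..(1 / m), Fej m θ ^ 2 ≤ ∫ θ in (-π)..π, Fej m θ ^ 2 := by
    apply intervalIntegral.integral_mono_interval
    · linarith
    · linarith [show 0 ≤ 1 / (m : ℝ) by positivity]
    · linarith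
    · exact Filter.Eventually.of_forall fun θ => by positivity
    · exact hc.intervalIntegrable _ _
  have h2 : ∫ θ in (-(1 / (m : ℝ)))..(1 / m), (1 / 4 : ℝ)
      ≤ ∫ θ in (-(1 / (m : ℝ)))..(1 / m), Fej m θ ^ 2 := by
    apply intervalIntegral.integral_mono_on
    · linarith [show 0 ≤ 1 / (m : ℝ) by positivity]
    · exact intervalIntegrable_const
    · exact hc.intervalIntegrable _ _
    · intro θ hθ
      have h3 := one_sub_Fej_le m hm θ
      have h4 : |sin (θ / 2)| ≤ 1 / (2 * m) := by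
        refine abs_sin_le_abs.trans ?_
        rw [abs_div, abs_two]
        have : |θ| ≤ 1 / m := abs_le.2 hθ
        calc |θ| / 2 ≤ (1 / m) / 2 := by linarith
          _ = 1 / (2 * m) := by field_simp
      have h5 : (m * sin (θ / 2)) ^ 2 ≤ 1 / 4 := by
        have h6 : |m * sin (θ / 2)| ≤ 1 / 2 := by
          rw [abs_mul, abs_of_pos hm0]
          calc (m : ℝ) * |sin (θ / 2)| ≤ m * (1 / (2 * m)) :=
                mul_le_mul_of_nonneg_left h4 hm0.le
            _ = 1 / 2 := by field_simp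
        rw [← sq_abs]
        nlinarith [abs_nonneg (m * sin (θ / 2))]
      nlinarith
  rw [intervalIntegral.integral_const, smul_eq_mul] at h2
  refine le_trans (le_of_eq ?_) (h2.trans h1)
  field_simp
  norm_num

theorem int_sin_Fej_sq_le {m : ℕ} (hm : 1 ≤ m) :
    ∫ θ in (-π)..π, |sin (θ / 2)| * Fej m θ ^ 2 ≤ 32 * π / m ^ 2 := by
  have hm0 : (0 : ℝ) < m := by exact_mod_cast hm
  have hompos : ∀ θ, 0 < om m θ := fun θ => lt_of_lt_of_le one_pos (one_le_om m θ)
  have hFc : Continuous (Fej m) := (Fej_TP hm).contDiff.continuous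
  have hpi : (-π : ℝ) ≤ π := by linarith [pi_pos]
  have hc1 : Continuous fun θ => (om m (θ - 0) ^ 2)⁻¹ := by
    apply Continuous.inv₀
    · exact ((om_continuous m).comp (continuous_id.sub continuous_const)).pow 2
    · intro θ; exact (pow_pos (hompos _) 2).ne'
  have h1 : ∫ θ in (-π)..π, |sin (θ / 2)| * Fej m θ ^ 2
      ≤ ∫ θ in (-π)..π, (16 / m : ℝ) * (om m (θ - 0) ^ 2)⁻¹ := by
    apply intervalIntegral.integral_mono_on hpi
    · apply Continuous.intervalIntegrable
      exact ((continuous_sin.comp (continuous_id.div_const 2)).abs).mul (hFc.pow 2)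
    · exact (continuous_const.mul hc1).intervalIntegrable _ _
    · intro θ _
      rw [sub_zero]
      have h2 := Fej_le_om hm θ
      have h3 := Fej_nonneg m θ
      have h4 := hompos θ
      have h5 : |sin (θ / 2)| ≤ om m θ / m := by
        rw [le_div_iff₀ hm0]
        unfold om
        linarith
      have h6 : Fej m θ ^ 2 ≤ 16 / om m θ ^ 4 := by
        calc Fej m θ ^ 2 ≤ (4 / om m θ ^ 2) ^ 2 := pow_le_pow_left₀ h3 h2 2
          _ = 16 / om m θ ^ 4 := by ring
      have h7 := one_le_om m θ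
      calc |sin (θ / 2)| * Fej m θ ^ 2 ≤ (om m θ / m) * (16 / om m θ ^ 4) :=
            mul_le_mul h5 h6 (by positivity) (by positivity)
        _ = (16 / m) * (om m θ ^ 3)⁻¹ := by field_simp
        _ ≤ (16 / m) * (om m θ ^ 2)⁻¹ := by
            apply mul_le_mul_of_nonneg_left _ (by positivity)
            apply inv_anti₀ (by positivity)
            exact pow_le_pow_right₀ h7 (by norm_num)
  rw [intervalIntegral.integral_const_mul] at h1
  have h2 := int_om_sq hm 0
  calc _ ≤ 16 / m * (2 * π / m) := h1.trans (mul_le_mul_of_nonneg_left h2 (by positivity))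
    _ = 32 * π / m ^ 2 := by field_simp; ring

/-- convolution with a trigonometric polynomial is a trigonometric polynomial -/
theorem TP.conv {d : ℕ} {J : ℝ → ℝ} (hJ : TP d J) {F : ℝ → ℝ} (hF : Continuous F) :
    TP d (fun θ => ∫ s in (-π)..π, F s * J (θ - s)) := by
  obtain ⟨c, hc⟩ := hJ
  refine ⟨fun k => c k * ∫ s in (-π)..π, (F s : ℂ) * Complex.exp (-((k : ℂ) * s * Complex.I)), ?_⟩
  intro θ
  change (((∫ s in (-π)..π, F s * J (θ - s)) : ℝ) : ℂ) = ∑ k ∈ Finset.Icc (-(d : ℤ)) d,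
    (c k * ∫ s in (-π)..π, (F s : ℂ) * Complex.exp (-((k : ℂ) * s * Complex.I)))
      * Complex.exp ((k : ℂ) * θ * Complex.I)
  rw [← intervalIntegral.integral_ofReal]
  have h1 : ∀ s : ℝ, ((F s * J (θ - s) : ℝ) : ℂ)
      = ∑ k ∈ Finset.Icc (-(d : ℤ)) d, (c k * Complex.exp ((k : ℂ) * θ * Complex.I))
          * ((F s : ℂ) * Complex.exp (-((k : ℂ) * s * Complex.I))) := by
    intro s
    push_cast
    have := hc (θ - s)
    simp only at this
    rw [this, Finset.mul_sum]
    refine Finset.sum_congr rfl fun k _ => ?_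
    have h2 : Complex.exp ((k : ℂ) * ((θ - s : ℝ) : ℂ) * Complex.I)
        = Complex.exp ((k : ℂ) * θ * Complex.I) * Complex.exp (-((k : ℂ) * s * Complex.I)) := by
      rw [← Complex.exp_add]
      congr 1
      push_cast
      ring
    rw [h2]
    ring
  simp_rw [h1]
  rw [intervalIntegral.integral_finsetSum]
  · refine Finset.sum_congr rfl fun k _ => ?_
    rw [intervalIntegral.integral_const_mul]
    ring
  · intro k _
    apply Continuous.intervalIntegrable
    fun_prop

theorem flat : ∃ C : ℝ, 0 < C ∧ ∀ (m : ℕ) (A : ℝ), 1 ≤ m → 1 ≤ A → ∃ u : ℝ → ℝ,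
    TP (2 * m) u ∧ (∀ θ, 0 < u θ) ∧ (∀ θ, |u θ * MA m A θ - 1| ≤ C / A) ∧
    (∀ θ, |deriv u θ| ≤ m / A * u θ) := by
  refine ⟨128 * π, by positivity, ?_⟩
  intro m A hm hA
  have hm0 : (0 : ℝ) < m := by exact_mod_cast hm
  have hA0 : (0 : ℝ) < A := by linarith
  have hpi : (-π : ℝ) ≤ π := by linarith [pi_pos]
  obtain ⟨I, hI⟩ : ∃ I : ℝ, I = ∫ θ in (-π)..π, Fej m θ ^ 2 := ⟨_, rfl⟩
  have hIge : 1 / (2 * m) ≤ I := by rw [hI]; exact int_Fej_sq_ge hm
  have hIpos : 0 < I := lt_of_lt_of_le (by positivity) hIge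
  obtain ⟨J, hJ⟩ : ∃ J : ℝ → ℝ, J = fun θ => I⁻¹ * Fej m θ ^ 2 := ⟨_, rfl⟩
  have hJT : TP (2 * m) J := by
    rw [hJ]
    apply TP.const_mul
    exact ((Fej_TP hm).pow 2).mono (by omega)
  have hJc : Continuous J := hJT.contDiff.continuous
  have hJp := hJT.periodic
  have hJnn : ∀ θ, 0 ≤ J θ := fun θ => by rw [hJ]; positivity
  have hJint : ∫ θ in (-π)..π, J θ = 1 := by
    rw [hJ, intervalIntegral.integral_const_mul, ← hI]
    field_simp
  obtain ⟨F, hF⟩ : ∃ F : ℝ → ℝ, F = fun θ => (MA m A θ)⁻¹ := ⟨_, rfl⟩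
  have hMc := MA_continuous m A
  have hMpos := MA_pos hm hA
  have hFc : Continuous F := by
    rw [hF]; exact hMc.inv₀ fun θ => (hMpos θ).ne'
  have hFpos : ∀ θ, 0 < F θ := fun θ => by rw [hF]; exact inv_pos.2 (hMpos θ)
  have hFp : Function.Periodic F (2 * π) := by
    intro θ
    rw [hF]
    simp only [MA, sin_add_two_pi]
  have hFsub : ∀ a b, |F a - F b| ≤ 2 * |sin ((a - b) / 2)| * (m / A) * F b := by
    intro a b; rw [hF]; exact inv_MA_sub_le hm hA a b
  obtain ⟨u, hu⟩ : ∃ u : ℝ → ℝ, u = fun θ => ∫ s in (-π)..π, F s * J (θ - s) := ⟨_, rfl⟩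
  have huT : TP (2 * m) u := by rw [hu]; exact hJT.conv hFc
  have hu2 : ∀ θ, u θ = ∫ s in (-π)..π, F (θ - s) * J s := by
    intro θ
    rw [hu]
    have hper : Function.Periodic (fun s => F (θ - s) * J s) (2 * π) := by
      intro s
      have h1 : F (θ - (s + 2 * π)) = F (θ - s) := by
        rw [← hFp (θ - (s + 2 * π))]; congr 1; ring
      simp only [h1, hJp s]
    rw [← int_reflect hper θ]
    apply intervalIntegral.integral_congr
    intro s _
    simp only [sub_sub_cancel]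
  have hcs : ∀ θ, Continuous fun s => F (θ - s) * J s := fun θ =>
    (hFc.comp (continuous_const.sub continuous_id)).mul hJc
  have hFlow : ∀ θ, F θ - u θ = ∫ s in (-π)..π, (F θ - F (θ - s)) * J s := by
    intro θ
    rw [hu2]
    have : F θ = ∫ s in (-π)..π, F θ * J s := by
      rw [intervalIntegral.integral_const_mul, hJint, mul_one]
    rw [this, ← intervalIntegral.integral_sub]
    · apply intervalIntegral.integral_congr
      intro s _
      simp only
      rw [← this]
      ring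
    · exact (continuous_const.mul hJc).intervalIntegrable _ _
    · exact (hcs θ).intervalIntegrable _ _
  refine ⟨u, huT, ?_, ?_, ?_⟩
  · intro θ
    rw [hu2]
    -- lower bound by a constant
    obtain ⟨κ, hκ⟩ : ∃ κ : ℝ, κ = (max 1 (A / m))⁻¹ := ⟨_, rfl⟩
    have hκpos : 0 < κ := by
      rw [hκ]; exact inv_pos.2 (lt_of_lt_of_le one_pos (le_max_left _ _))
    have hκF : ∀ s, κ ≤ F s := by
      intro s
      rw [hκ, hF]
      apply inv_anti₀ (hMpos s)
      exact max_le_max (abs_sin_le_one s) le_rfl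
    calc (0 : ℝ) < κ * 1 := by linarith
      _ = ∫ s in (-π)..π, κ * J s := by rw [intervalIntegral.integral_const_mul, hJint]
      _ ≤ ∫ s in (-π)..π, F (θ - s) * J s := by
          apply intervalIntegral.integral_mono_on hpi
          · exact (continuous_const.mul hJc).intervalIntegrable _ _
          · exact (hcs θ).intervalIntegrable _ _
          · intro s _
            exact mul_le_mul_of_nonneg_right (hκF _) (hJnn _)
  · intro θ
    have h1 : |F θ - u θ| ≤ 128 * π / A * F θ := by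
      rw [hFlow]
      have hF0 := (hFpos θ).le
      have h2 : ∀ s ∈ Set.Icc (-π) π, |(F θ - F (θ - s)) * J s|
          ≤ (2 * (m / A) * F θ * I⁻¹) * (|sin (s / 2)| * Fej m s ^ 2) := by
        intro s _
        rw [abs_mul, abs_of_nonneg (hJnn s), abs_sub_comm]
        have h3 := hFsub (θ - s) θ
        have h4 : (θ - s - θ) / 2 = -(s / 2) := by ring
        rw [h4, sin_neg, abs_neg] at h3
        calc |F (θ - s) - F θ| * J s ≤ 2 * |sin (s / 2)| * (m / A) * F θ * J s :=
              mul_le_mul_of_nonneg_right h3 (hJnn s)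
          _ = (2 * (m / A) * F θ * I⁻¹) * (|sin (s / 2)| * Fej m s ^ 2) := by
              rw [hJ]; ring
      have h5 : |∫ s in (-π)..π, (F θ - F (θ - s)) * J s|
          ≤ ∫ s in (-π)..π, (2 * (m / A) * F θ * I⁻¹) * (|sin (s / 2)| * Fej m s ^ 2) := by
        refine (intervalIntegral.abs_integral_le_integral_abs hpi).trans ?_
        apply intervalIntegral.integral_mono_on hpi
        · apply Continuous.intervalIntegrable
          exact ((continuous_const.sub (hFc.comp (continuous_const.sub continuous_id))).mul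
            hJc).abs
        · apply Continuous.intervalIntegrable
          exact continuous_const.mul (((continuous_sin.comp (continuous_id.div_const 2)).abs).mul
            (((Fej_TP hm).contDiff.continuous).pow 2))
        · exact h2
      rw [intervalIntegral.integral_const_mul] at h5
      have h6 : I⁻¹ ≤ 2 * m := by
        rw [inv_le_comm₀ hIpos (by positivity)]
        simpa using hIge
      refine h5.trans ?_
      calc 2 * (m / A) * F θ * I⁻¹ * ∫ s in (-π)..π, |sin (s / 2)| * Fej m s ^ 2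
          ≤ 2 * (m / A) * F θ * I⁻¹ * (32 * π / m ^ 2) := by
            apply mul_le_mul_of_nonneg_left (int_sin_Fej_sq_le hm)
            have := inv_pos.2 hIpos
            positivity
        _ ≤ 2 * (m / A) * F θ * (2 * m) * (32 * π / m ^ 2) := by
            apply mul_le_mul_of_nonneg_right _ (by positivity)
            apply mul_le_mul_of_nonneg_left h6 (by positivity)
        _ = 128 * π / A * F θ := by field_simp; ring
    have h3 : u θ * MA m A θ - 1 = (u θ - F θ) * MA m A θ := by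
      rw [hF]
      have := (hMpos θ).ne'
      field_simp
    rw [h3, abs_mul, abs_of_pos (hMpos θ), abs_sub_comm]
    calc |F θ - u θ| * MA m A θ ≤ 128 * π / A * F θ * MA m A θ :=
          mul_le_mul_of_nonneg_right h1 (hMpos θ).le
      _ = 128 * π / A := by
          rw [hF]
          have := (hMpos θ).ne'
          field_simp
  · intro θ
    have hupos : 0 ≤ u θ := by
      rw [hu2]
      apply intervalIntegral.integral_nonneg hpi
      intro s _
      exact mul_nonneg (hFpos _).le (hJnn _)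
    have : ‖deriv u θ‖ ≤ m / A * u θ := by
      apply norm_deriv_le_of_lip' (by positivity)
      apply Filter.Eventually.of_forall
      intro t
      rw [Real.norm_eq_abs, Real.norm_eq_abs, hu2, hu2, ← intervalIntegral.integral_sub
        ((hcs t).intervalIntegrable _ _) ((hcs θ).intervalIntegrable _ _)]
      have h2 : ∀ s ∈ Set.Icc (-π) π, |F (t - s) * J s - F (θ - s) * J s|
          ≤ (m / A * |t - θ|) * (F (θ - s) * J s) := by
        intro s _
        rw [← sub_mul, abs_mul, abs_of_nonneg (hJnn s)]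
        have h3 := hFsub (t - s) (θ - s)
        have h4 : (t - s - (θ - s)) / 2 = (t - θ) / 2 := by ring
        rw [h4] at h3
        have h5 : 2 * |sin ((t - θ) / 2)| ≤ |t - θ| := by
          have := @abs_sin_le_abs ((t - θ) / 2)
          rw [abs_div, abs_two] at this
          linarith
        calc |F (t - s) - F (θ - s)| * J s
            ≤ 2 * |sin ((t - θ) / 2)| * (m / A) * F (θ - s) * J s :=
              mul_le_mul_of_nonneg_right h3 (hJnn s)
          _ ≤ |t - θ| * (m / A) * F (θ - s) * J s := by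
              have := (hFpos (θ - s)).le
              have := hJnn s
              gcongr
          _ = (m / A * |t - θ|) * (F (θ - s) * J s) := by ring
      refine (intervalIntegral.abs_integral_le_integral_abs hpi).trans ?_
      calc ∫ s in (-π)..π, |F (t - s) * J s - F (θ - s) * J s|
          ≤ ∫ s in (-π)..π, (m / A * |t - θ|) * (F (θ - s) * J s) := by
            apply intervalIntegral.integral_mono_on hpi
            · exact ((hcs t).sub (hcs θ)).abs.intervalIntegrable _ _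
            · exact (continuous_const.mul (hcs θ)).intervalIntegrable _ _
            · exact h2
        _ = m / A * (∫ s in (-π)..π, F (θ - s) * J s) * |t - θ| := by
            rw [intervalIntegral.integral_const_mul]; ring
    exact this

end Pool.Agent.H93.Ch
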