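import Pool.Agent.H93.Ch.Meas

/-! Module S: the `L²` Hermite sampling inequality. -/

set_option autoImplicit false

namespace Pool.Agent.H93.Ch

open Real MeasureTheory

namespace Samp

/-! ### `L²` norm on a period -/

/-- `L²` norm over a period -/
noncomputable def nm (f : ℝ → ℝ) : ℝ := Real.sqrt (∫ θ in (-π)..π, f θ ^ 2)

theorem pi_le : -π ≤ π := by linarith [pi_pos]

theorem nm_nonneg (f : ℝ → ℝ) : 0 ≤ nm f := Real.sqrt_nonneg _

theorem int_sq_nonneg (f : ℝ → ℝ) : 0 ≤ ∫ θ in (-π)..π, f θ ^ 2 :=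
  intervalIntegral.integral_nonneg pi_le fun _ _ => sq_nonneg _

theorem nm_sq (f : ℝ → ℝ) : nm f ^ 2 = ∫ θ in (-π)..π, f θ ^ 2 := Real.sq_sqrt (int_sq_nonneg f)

theorem nm_le {f : ℝ → ℝ} {c : ℝ} (hc : 0 ≤ c) (h : ∫ θ in (-π)..π, f θ ^ 2 ≤ c ^ 2) :
    nm f ≤ c := Real.sqrt_le_iff.2 ⟨hc, h⟩

theorem cs {f g : ℝ → ℝ} (hf : Continuous f) (hg : Continuous g) :
    |∫ θ in (-π)..π, f θ * g θ| ≤ nm f * nm g := by
  have h : ∀ t : ℝ, 0 ≤ (∫ θ in (-π)..π, f θ ^ 2) * (t * t) +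
      (2 * ∫ θ in (-π)..π, f θ * g θ) * t + ∫ θ in (-π)..π, g θ ^ 2 := by
    intro t
    have h0 := int_sq_nonneg fun θ => t * f θ + g θ
    have e : ∀ θ, (t * f θ + g θ) ^ 2 = (t * t * f θ ^ 2 + 2 * t * (f θ * g θ)) + g θ ^ 2 :=
      fun θ => by ring
    simp only [e] at h0
    have i1 : IntervalIntegrable (fun θ => t * t * f θ ^ 2) volume (-π) π :=
      (continuous_const.mul (hf.pow 2)).intervalIntegrable _ _
    have i2 : IntervalIntegrable (fun θ => 2 * t * (f θ * g θ)) volume (-π) π :=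
      (continuous_const.mul (hf.mul hg)).intervalIntegrable _ _
    have i3 : IntervalIntegrable (fun θ => g θ ^ 2) volume (-π) π :=
      (hg.pow 2).intervalIntegrable _ _
    rw [intervalIntegral.integral_add (i1.add i2) i3, intervalIntegral.integral_add i1 i2,
      intervalIntegral.integral_const_mul, intervalIntegral.integral_const_mul] at h0
    linarith
  have h1 := discrim_le_zero h
  unfold discrim at h1
  have h2 : (∫ θ in (-π)..π, f θ * g θ) ^ 2 ≤ (nm f * nm g) ^ 2 := by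
    rw [mul_pow, nm_sq, nm_sq]
    nlinarith
  exact abs_le_of_sq_le_sq h2 (mul_nonneg (nm_nonneg _) (nm_nonneg _))

theorem nm_abs (f : ℝ → ℝ) : nm (fun θ => |f θ|) = nm f := by
  unfold nm; simp only [sq_abs]

theorem cs_abs {f g : ℝ → ℝ} (hf : Continuous f) (hg : Continuous g) :
    ∫ θ in (-π)..π, |f θ| * |g θ| ≤ nm f * nm g := by
  have := cs hf.abs hg.abs
  rw [nm_abs, nm_abs] at this
  exact (le_abs_self _).trans this

theorem int_mono {f g : ℝ → ℝ} (hf : Continuous f) (hg : Continuous g) (h : ∀ θ, f θ ≤ g θ) :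
    ∫ θ in (-π)..π, f θ ≤ ∫ θ in (-π)..π, g θ :=
  intervalIntegral.integral_mono_on pi_le (hf.intervalIntegrable _ _) (hg.intervalIntegrable _ _)
    fun θ _ => h θ

theorem int_add {f g : ℝ → ℝ} (hf : Continuous f) (hg : Continuous g) :
    ∫ θ in (-π)..π, (f θ + g θ) = (∫ θ in (-π)..π, f θ) + ∫ θ in (-π)..π, g θ :=
  intervalIntegral.integral_add (hf.intervalIntegrable _ _) (hg.intervalIntegrable _ _)

theorem int_sub {f g : ℝ → ℝ} (hf : Continuous f) (hg : Continuous g) :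
    ∫ θ in (-π)..π, (f θ - g θ) = (∫ θ in (-π)..π, f θ) - ∫ θ in (-π)..π, g θ :=
  intervalIntegral.integral_sub (hf.intervalIntegrable _ _) (hg.intervalIntegrable _ _)

/-! ### near kernels -/

/-- continuous majorant of the indicator of `|sin| < a`, `M = ⌊1/a⌋` -/
noncomputable def nk (M : ℕ) (θ : ℝ) : ℝ := 4 * (om M θ ^ 2)⁻¹ + 4 * (om M (θ - π) ^ 2)⁻¹

theorem om_pos (M : ℕ) (θ : ℝ) : 0 < om M θ := lt_of_lt_of_le one_pos (one_le_om M θ)

theorem nk_nonneg (M : ℕ) (θ : ℝ) : 0 ≤ nk M θ := by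
  unfold nk
  have := om_pos M θ
  have := om_pos M (θ - π)
  positivity

theorem om_inv_cont (M : ℕ) : Continuous fun θ => (om M θ ^ 2)⁻¹ :=
  ((om_continuous M).pow 2).inv₀ fun θ => (pow_pos (om_pos M θ) 2).ne'

theorem nk_cont (M : ℕ) : Continuous (nk M) :=
  (continuous_const.mul (om_inv_cont M)).add
    (continuous_const.mul ((om_inv_cont M).comp (continuous_id.sub continuous_const)))

theorem one_le_nk {M : ℕ} {a θ : ℝ} (ha : (M : ℝ) * a ≤ 1) (h : |sin θ| < a) : 1 ≤ nk M θ := by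
  have ha0 : 0 < a := lt_of_le_of_lt (abs_nonneg _) h
  have key : ∀ φ : ℝ, |sin (φ / 2)| ≤ a → 1 ≤ 4 * (om M φ ^ 2)⁻¹ := by
    intro φ hφ
    have h1 : om M φ ≤ 2 := by
      unfold om
      have : (M : ℝ) * |sin (φ / 2)| ≤ M * a := mul_le_mul_of_nonneg_left hφ (Nat.cast_nonneg _)
      linarith
    have h2 := om_pos M φ
    rw [← div_eq_mul_inv, le_div_iff₀ (by positivity)]
    nlinarith
  have hs : sin θ = 2 * sin (θ / 2) * cos (θ / 2) := by
    rw [← sin_two_mul]; congr 1; ring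
  have hc : sin ((θ - π) / 2) = - cos (θ / 2) := by
    rw [show (θ - π) / 2 = θ / 2 - π / 2 by ring, sin_sub_pi_div_two]
  have hpy := sin_sq_add_cos_sq (θ / 2)
  have hn1 : 0 ≤ 4 * (om M θ ^ 2)⁻¹ := by have := om_pos M θ; positivity
  have hn2 : 0 ≤ 4 * (om M (θ - π) ^ 2)⁻¹ := by have := om_pos M (θ - π); positivity
  unfold nk
  by_cases h1 : |sin (θ / 2)| ≤ a
  · linarith [key θ h1]
  · have h2 : |sin ((θ - π) / 2)| ≤ a := by
      rw [hc, abs_neg]
      by_contra h3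
      push Not at h1 h3
      have h4 : |sin θ| = 2 * |sin (θ / 2)| * |cos (θ / 2)| := by
        rw [hs, abs_mul, abs_mul]; norm_num
      have h5 : sin (θ / 2) ^ 2 = |sin (θ / 2)| ^ 2 := (sq_abs _).symm
      have h6 : cos (θ / 2) ^ 2 = |cos (θ / 2)| ^ 2 := (sq_abs _).symm
      rw [h5, h6] at hpy
      set X := |sin (θ / 2)|
      set Y := |cos (θ / 2)|
      rw [h4] at h
      -- `2 X Y < a`, `a < X`, `a < Y`, `X² + Y² = 1`
      rcases le_total X Y with hXY | hXY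
      · have : 1 / 2 ≤ Y := by nlinarith
        nlinarith
      · have : 1 / 2 ≤ X := by nlinarith
        nlinarith
    linarith [key (θ - π) h2]

theorem int_nk {M : ℕ} (hM : 1 ≤ M) : ∫ θ in (-π)..π, nk M θ ≤ 16 * π / M := by
  unfold nk
  have c1 : Continuous fun θ => 4 * (om M θ ^ 2)⁻¹ := continuous_const.mul (om_inv_cont M)
  have c2 : Continuous fun θ => 4 * (om M (θ - π) ^ 2)⁻¹ :=
    continuous_const.mul ((om_inv_cont M).comp (continuous_id.sub continuous_const))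
  rw [int_add c1 c2, intervalIntegral.integral_const_mul, intervalIntegral.integral_const_mul]
  have h1 := int_om_sq hM 0
  have h2 := int_om_sq hM π
  simp only [sub_zero] at h1
  have e : 16 * π / M = 4 * (2 * π / M) + 4 * (2 * π / M) := by ring
  rw [e]
  linarith

theorem floor_ge {y : ℝ} (hy : 2 ≤ y) : y / 2 ≤ (⌊y⌋₊ : ℝ) := by
  have := Nat.lt_floor_add_one y
  linarith

theorem floor_le' {y : ℝ} (hy : 0 ≤ y) : (⌊y⌋₊ : ℝ) ≤ y := Nat.floor_le hy

theorem int_nk_floor {y : ℝ} (hy : 2 ≤ y) : ∫ θ in (-π)..π, nk ⌊y⌋₊ θ ≤ 32 * π / y := by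
  have hM : 1 ≤ ⌊y⌋₊ := Nat.le_floor (by push_cast; linarith)
  refine (int_nk hM).trans ?_
  have h1 := floor_ge hy
  rw [div_le_div_iff₀ (by positivity) (by positivity)]
  nlinarith [pi_pos]

theorem one_le_nk_floor {y θ : ℝ} (hy : 2 ≤ y) (h : |sin θ| < 1 / y) : 1 ≤ nk ⌊y⌋₊ θ := by
  refine one_le_nk (a := 1 / y) ?_ h
  have := floor_le' (by linarith : (0 : ℝ) ≤ y)
  rw [mul_one_div, div_le_one (by linarith)]
  exact this

/-! ### near bound of the analytic part -/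

theorem near_bound {m n : ℕ} {K A S : ℝ} (hm : 1 ≤ m) (hK : 2 ≤ K) (hA : 1 ≤ A)
    (hKA : 2 * K * A ≤ m) {G : ℝ → ℝ} (hG : Continuous G) (hS : 0 ≤ S)
    (hGS : ∀ θ, |sin θ| < K * A / m → |G θ| ≤ S) {D : ℝ → ℂ} (hD : Continuous D)
    (hD1 : ∀ θ, ‖D θ‖ ≤ n) (hD2 : ∀ θ, ‖D θ‖ * |sin (θ / 2)| ≤ 1) {z : ℝ → ℂ}
    (hz : ∀ s, z s = 1 / (2 * π) * ∫ t in (-π)..π, (G t : ℂ) * D (s - t))
    {s : ℝ} (hs : |sin s| < A / m) :
    ‖z s‖ ≤ 16 * n * (K * A / m) * S + 4 * Real.sqrt (m / (K * A)) * nm G := by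
  have hm0 : (0 : ℝ) < m := by exact_mod_cast hm
  have hKA0 : 0 < K * A := by positivity
  set y : ℝ := m / (K * A) with hy
  have hy0 : 0 < y := by positivity
  have hy2 : 2 ≤ y := by
    rw [hy, le_div_iff₀ hKA0]; linarith
  have hyi : K * A / m = 1 / y := by rw [hy]; field_simp
  have hAm : A / m ≤ 1 / (2 * y) := by
    have h1 : A / m ≤ K * A / m / 2 := by
      rw [div_div, div_le_div_iff₀ hm0 (by positivity)]
      have h2 := mul_le_mul_of_nonneg_right hK (by positivity : 0 ≤ A * m)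
      linarith
    rw [hyi] at h1
    calc A / m ≤ 1 / y / 2 := h1
      _ = 1 / (2 * y) := by field_simp
  set M := ⌊y⌋₊ with hM
  have hM1 : y / 2 ≤ M := floor_ge hy2
  have hM2 : (M : ℝ) ≤ y := floor_le' hy0.le
  have hM0 : (0 : ℝ) < M := by linarith
  have hMn : 1 ≤ M := by
    have : (1 : ℝ) ≤ M := by linarith
    exact_mod_cast this
  -- pointwise bound
  have hpt : ∀ t, ‖(G t : ℂ) * D (s - t)‖ ≤
      S * n * nk M t + 9 * M * (|G t| * |(om M (t - s))⁻¹|) := by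
    intro t
    rw [norm_mul, Complex.norm_real, Real.norm_eq_abs]
    have ho := om_pos M (t - s)
    have hn := nk_nonneg M t
    by_cases ht : |sin t| < K * A / m
    · have h1 : |G t| * ‖D (s - t)‖ ≤ S * n :=
        mul_le_mul (hGS t ht) (hD1 _) (norm_nonneg _) hS
      have h2 : 1 ≤ nk M t := one_le_nk_floor hy2 (by rwa [hyi] at ht)
      have h3 : S * n * 1 ≤ S * n * nk M t :=
        mul_le_mul_of_nonneg_left h2 (by positivity)
      have h4 : 0 ≤ 9 * M * (|G t| * |(om M (t - s))⁻¹|) := by positivity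
      linarith
    · push Not at ht
      rw [hyi] at ht
      set X := |sin ((s - t) / 2)| with hX
      have hX1 : 1 / (4 * y) ≤ X := by
        have e1 : sin t = sin s * cos (s - t) - cos s * sin (s - t) := by
          rw [← sin_sub]; congr 1; ring
        have h1 : |sin t| ≤ |sin s| + |sin (s - t)| := by
          rw [e1]
          refine (abs_sub _ _).trans ?_
          rw [abs_mul, abs_mul]
          have := abs_cos_le_one (s - t)
          have := abs_cos_le_one s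
          nlinarith [abs_nonneg (sin s), abs_nonneg (sin (s - t))]
        have h2 : |sin (s - t)| ≤ 2 * X := by
          have e2 : sin (s - t) = 2 * sin ((s - t) / 2) * cos ((s - t) / 2) := by
            rw [← sin_two_mul]; congr 1; ring
          rw [e2, abs_mul, abs_mul]
          have := abs_cos_le_one ((s - t) / 2)
          have h3 : |(2 : ℝ)| = 2 := by norm_num
          rw [h3]
          nlinarith [abs_nonneg (sin ((s - t) / 2))]
        have h3 : 1 / y - 1 / (2 * y) ≤ 2 * X := by linarith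
        have h4 : 1 / y - 1 / (2 * y) = 2 * (1 / (4 * y)) := by field_simp; ring
        linarith
      have hMX : 1 / 8 ≤ M * X := by
        have h1 : y / 2 * (1 / (4 * y)) ≤ M * X :=
          mul_le_mul hM1 hX1 (by positivity) hM0.le
        have h2 : y / 2 * (1 / (4 * y)) = 1 / 8 := by field_simp; norm_num
        linarith
      have hom : om M (t - s) = 1 + M * X := by
        unfold om
        rw [hX, show (s - t) / 2 = -((t - s) / 2) by ring, sin_neg, abs_neg]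
      have h5 : ‖D (s - t)‖ ≤ 9 * M * |(om M (t - s))⁻¹| := by
        rw [abs_of_pos (inv_pos.2 ho), ← div_eq_mul_inv, le_div_iff₀ ho, hom]
        have h6 := hD2 (s - t)
        have h7 : 0 ≤ ‖D (s - t)‖ := norm_nonneg _
        calc ‖D (s - t)‖ * (1 + M * X) ≤ ‖D (s - t)‖ * (9 * (M * X)) :=
              mul_le_mul_of_nonneg_left (by linarith) h7
          _ = 9 * M * (‖D (s - t)‖ * X) := by ring
          _ ≤ 9 * M * 1 := mul_le_mul_of_nonneg_left h6 (by positivity)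
          _ = 9 * M := mul_one _
      have h8 : |G t| * ‖D (s - t)‖ ≤ |G t| * (9 * M * |(om M (t - s))⁻¹|) :=
        mul_le_mul_of_nonneg_left h5 (abs_nonneg _)
      have h9 : 0 ≤ S * n * nk M t := by positivity
      linarith
  have co : Continuous fun t => (om M (t - s))⁻¹ :=
    ((om_continuous M).comp (continuous_id.sub continuous_const)).inv₀
      fun t => (om_pos M (t - s)).ne'
  have cF : Continuous fun t => (G t : ℂ) * D (s - t) :=
    (Complex.continuous_ofReal.comp hG).mul (hD.comp (continuous_const.sub continuous_id))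
  have c1 : Continuous fun t => S * n * nk M t := continuous_const.mul (nk_cont M)
  have c2 : Continuous fun t => 9 * M * (|G t| * |(om M (t - s))⁻¹|) :=
    continuous_const.mul (hG.abs.mul co.abs)
  have hnm : nm (fun t => (om M (t - s))⁻¹) ≤ Real.sqrt (2 * π / M) := by
    unfold nm
    apply Real.sqrt_le_sqrt
    have := int_om_sq hMn s
    simpa [inv_pow] using this
  have hint : ∫ t in (-π)..π, ‖(G t : ℂ) * D (s - t)‖ ≤
      S * n * (32 * π / y) + 9 * M * (nm G * Real.sqrt (2 * π / M)) := by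
    have c12 : Continuous fun t => S * n * nk M t + 9 * M * (|G t| * |(om M (t - s))⁻¹|) :=
      c1.add c2
    refine (int_mono cF.norm c12 hpt).trans ?_
    rw [int_add c1 c2, intervalIntegral.integral_const_mul, intervalIntegral.integral_const_mul]
    have h1 := int_nk_floor hy2
    have h2 := cs_abs hG co
    have h3 : nm G * nm (fun t => (om M (t - s))⁻¹) ≤ nm G * Real.sqrt (2 * π / M) :=
      mul_le_mul_of_nonneg_left hnm (nm_nonneg _)
    have h4 := mul_le_mul_of_nonneg_left h1 (by positivity : 0 ≤ S * n)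
    have h5 := mul_le_mul_of_nonneg_left (h2.trans h3) (by positivity : (0 : ℝ) ≤ 9 * M)
    linarith
  have hq : 9 * M * Real.sqrt (2 * π / M) ≤ 2 * π * (4 * Real.sqrt y) := by
    have h1 : (9 * M * Real.sqrt (2 * π / M)) ^ 2 ≤ (2 * π * (4 * Real.sqrt y)) ^ 2 := by
      rw [mul_pow, mul_pow (2 * π), mul_pow 4, Real.sq_sqrt (by positivity),
        Real.sq_sqrt hy0.le]
      have e1 : (9 * (M : ℝ)) ^ 2 * (2 * π / M) = 162 * π * M := by field_simp; ring
      have e2 : (2 * π) ^ 2 * (4 ^ 2 * y) = 64 * π * (π * y) := by ring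
      rw [e1, e2]
      have h2 : 3 * y ≤ π * y := mul_le_mul_of_nonneg_right (by linarith [pi_gt_three]) hy0.le
      have h3 : 0 < π := pi_pos
      nlinarith
    have h2 := abs_le_of_sq_le_sq h1 (by positivity)
    exact (le_abs_self _).trans h2
  rw [hz s, norm_mul]
  have hn1 : ‖(1 / (2 * π) : ℂ)‖ = 1 / (2 * π) := by
    rw [norm_div, norm_mul, norm_one, Complex.norm_real, Real.norm_eq_abs, abs_of_pos pi_pos]
    norm_num
  rw [hn1]
  have hn2 : ‖∫ t in (-π)..π, (G t : ℂ) * D (s - t)‖ ≤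
      S * n * (32 * π / y) + 9 * M * (nm G * Real.sqrt (2 * π / M)) :=
    (intervalIntegral.norm_integral_le_integral_norm pi_le).trans hint
  have h1 : 1 / (2 * π) * ‖∫ t in (-π)..π, (G t : ℂ) * D (s - t)‖ ≤
      1 / (2 * π) * (S * n * (32 * π / y) + 9 * M * (nm G * Real.sqrt (2 * π / M))) :=
    mul_le_mul_of_nonneg_left hn2 (by positivity)
  refine h1.trans ?_
  have h2 : 9 * M * (nm G * Real.sqrt (2 * π / M)) ≤ nm G * (2 * π * (4 * Real.sqrt y)) := by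
    calc 9 * M * (nm G * Real.sqrt (2 * π / M)) = nm G * (9 * M * Real.sqrt (2 * π / M)) := by ring
      _ ≤ _ := mul_le_mul_of_nonneg_left hq (nm_nonneg _)
  calc 1 / (2 * π) * (S * n * (32 * π / y) + 9 * M * (nm G * Real.sqrt (2 * π / M)))
      ≤ 1 / (2 * π) * (S * n * (32 * π / y) + nm G * (2 * π * (4 * Real.sqrt y))) := by
        apply mul_le_mul_of_nonneg_left _ (by positivity)
        linarith
    _ = 16 * n * (K * A / m) * S + 4 * Real.sqrt y * nm G := by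
        rw [hyi]
        have := pi_pos
        field_simp
        ring

/-! ### the discrete norm -/

/-- discrete weighted `L²` norm `(4 mu (u F²))^(1/2)` -/
noncomputable def rn {N : ℕ} (x : Fin N → ℝ) (u F : ℝ → ℝ) : ℝ :=
  Real.sqrt (4 * mu x (fun θ => u θ * F θ ^ 2))

theorem rn_nonneg {N : ℕ} (x : Fin N → ℝ) (u F : ℝ → ℝ) : 0 ≤ rn x u F := Real.sqrt_nonneg _

theorem rn_sq {N : ℕ} (x : Fin N → ℝ) {u : ℝ → ℝ} (hu : ∀ θ, 0 < u θ) (F : ℝ → ℝ) :
    rn x u F ^ 2 = 4 * mu x (fun θ => u θ * F θ ^ 2) := by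
  apply Real.sq_sqrt
  have : 0 ≤ mu x (fun θ => u θ * F θ ^ 2) :=
    mu_nonneg fun θ => mul_nonneg (hu θ).le (sq_nonneg _)
  linarith

theorem rn_cs {N : ℕ} (x : Fin N → ℝ) {u : ℝ → ℝ} (hu : ∀ θ, 0 < u θ) (F G : ℝ → ℝ) :
    |4 * mu x (fun θ => u θ * F θ * G θ)| ≤ rn x u F * rn x u G := by
  apply abs_le_of_sq_le_sq _ (mul_nonneg (rn_nonneg _ _ _) (rn_nonneg _ _ _))
  rw [mul_pow, mul_pow, rn_sq x hu, rn_sq x hu]
  have := mu_cauchy_schwarz x u F G fun θ => (hu θ).le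
  linarith

theorem rn_mono {N : ℕ} (x : Fin N → ℝ) {u : ℝ → ℝ} (hu : ∀ θ, 0 < u θ) {F G : ℝ → ℝ}
    (h : ∀ θ, |F θ| ≤ G θ) : rn x u F ≤ rn x u G := by
  apply Real.sqrt_le_sqrt
  have : mu x (fun θ => u θ * F θ ^ 2) ≤ mu x (fun θ => u θ * G θ ^ 2) := by
    apply mu_mono
    intro θ
    apply mul_le_mul_of_nonneg_left _ (hu θ).le
    rw [← sq_abs (F θ)]
    exact pow_le_pow_left₀ (abs_nonneg _) (h θ) 2
  linarith

theorem rn_add {N : ℕ} (x : Fin N → ℝ) {u : ℝ → ℝ} (hu : ∀ θ, 0 < u θ) (F G : ℝ → ℝ) :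
    rn x u (fun θ => F θ + G θ) ≤ rn x u F + rn x u G := by
  have h0 : 0 ≤ rn x u F + rn x u G := add_nonneg (rn_nonneg _ _ _) (rn_nonneg _ _ _)
  have h1 : rn x u (fun θ => F θ + G θ) ^ 2 ≤ (rn x u F + rn x u G) ^ 2 := by
    rw [rn_sq x hu]
    have e : (fun θ => u θ * (F θ + G θ) ^ 2) =
        fun θ => (u θ * F θ ^ 2 + 2 * (u θ * F θ * G θ)) + u θ * G θ ^ 2 := by
      ext θ; ring
    rw [e, mu_add x (fun θ => u θ * F θ ^ 2 + 2 * (u θ * F θ * G θ)),
      mu_add x (fun θ => u θ * F θ ^ 2), mu_const_mul x 2]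
    have h2 := (le_abs_self _).trans (rn_cs x hu F G)
    have h3 := rn_sq x hu F
    have h4 := rn_sq x hu G
    nlinarith
  have h2 := abs_le_of_sq_le_sq h1 h0
  exact (le_abs_self _).trans h2

theorem rn_const_mul {N : ℕ} (x : Fin N → ℝ) {u : ℝ → ℝ} (hu : ∀ θ, 0 < u θ) {c : ℝ} (hc : 0 ≤ c)
    (F : ℝ → ℝ) : rn x u (fun θ => c * F θ) = c * rn x u F := by
  have h1 : rn x u (fun θ => c * F θ) ^ 2 = (c * rn x u F) ^ 2 := by
    rw [mul_pow, rn_sq x hu, rn_sq x hu]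
    have e : (fun θ => u θ * (c * F θ) ^ 2) = fun θ => c ^ 2 * (u θ * F θ ^ 2) := by
      ext θ; ring
    rw [e, mu_const_mul]
    ring
  exact (pow_left_inj₀ (rn_nonneg _ _ _) (mul_nonneg hc (rn_nonneg _ _ _)) two_ne_zero).1 h1

theorem rn_abs {N : ℕ} (x : Fin N → ℝ) (u F : ℝ → ℝ) : rn x u (fun θ => |F θ|) = rn x u F := by
  unfold rn; simp only [sq_abs]

/-! ### the error of the quadrature against the flattening weight -/

structure Setup {N : ℕ} (p m : ℕ) (x : Fin N → ℝ) (A δ ε : ℝ) (u : ℝ → ℝ) : Prop where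
  hm : 1 ≤ m
  hA : 1 ≤ A
  hδ : 0 ≤ δ
  hne : NE p m δ x
  hε0 : 0 ≤ ε
  hε : ε ≤ 1
  hu : TP (2 * m) u
  hu0 : ∀ θ, 0 < u θ
  hu1 : ∀ θ, |u θ * MA m A θ - 1| ≤ ε
  hu2 : ∀ θ, |deriv u θ| ≤ m / A * u θ

variable {N p m : ℕ} {x : Fin N → ℝ} {A δ ε : ℝ} {u : ℝ → ℝ}

theorem Setup.hm0 (h : Setup p m x A δ ε u) : (0 : ℝ) < m := by exact_mod_cast h.hm

theorem Setup.MA_pos (h : Setup p m x A δ ε u) (θ : ℝ) : 0 < MA m A θ := by
  have := h.hm0
  have := h.hA
  exact lt_of_lt_of_le (by positivity : 0 < A / m) (le_max_right _ _)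

theorem Setup.uMA_le (h : Setup p m x A δ ε u) (θ : ℝ) : u θ * MA m A θ ≤ 1 + ε := by
  have := (abs_le.1 (h.hu1 θ)).2
  linarith

theorem Setup.uW_le (h : Setup p m x A δ ε u) (θ : ℝ) : u θ * W m θ ≤ 4 := by
  have hm0 := h.hm0
  have hA := h.hA
  have h1 : W m θ ≤ 2 * MA m A θ := by
    unfold W
    have h2 : |sin θ| ≤ MA m A θ := le_max_left _ _
    have h3 : A / m ≤ MA m A θ := le_max_right _ _
    have h4 : 1 / (m : ℝ) ≤ A / m := by gcongr
    linarith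
  have h2 := h.uMA_le θ
  have h3 : u θ * W m θ ≤ u θ * (2 * MA m A θ) := mul_le_mul_of_nonneg_left h1 (h.hu0 θ).le
  have h4 := h.hε
  linarith

theorem Setup.usin_nonneg (h : Setup p m x A δ ε u) (θ : ℝ) : 0 ≤ u θ * |sin θ| :=
  mul_nonneg (h.hu0 θ).le (abs_nonneg _)

theorem Setup.usin_le (h : Setup p m x A δ ε u) (θ : ℝ) : u θ * |sin θ| ≤ 1 + ε :=
  (mul_le_mul_of_nonneg_left (le_max_left _ _) (h.hu0 θ).le).trans (h.uMA_le θ)

theorem Setup.usin_far (h : Setup p m x A δ ε u) {θ : ℝ} (hθ : A / m ≤ |sin θ|) :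
    |u θ * |sin θ| - 1| ≤ ε := by
  have := h.hu1 θ
  unfold MA at this
  rwa [max_eq_left hθ] at this

theorem Setup.uc (h : Setup p m x A δ ε u) : Continuous u := h.hu.contDiff.continuous

theorem Setup.usinc (h : Setup p m x A δ ε u) : Continuous fun θ => u θ * |sin θ| :=
  h.uc.mul continuous_sin.abs

theorem Setup.err (h : Setup p m x A δ ε u) {d : ℕ} {F : ℝ → ℝ} (hF : TP d F)
    (hd : d + 2 * m ≤ p) :
    |4 * mu x (fun θ => u θ * F θ) - ∫ θ in (-π)..π, F θ * (u θ * |sin θ|)| ≤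
      16 * δ * ∫ θ in (-π)..π, (|F θ| + |deriv F θ| / m) := by
  have hm0 := h.hm0
  have hA := h.hA
  have hFu : TP p (fun θ => u θ * F θ) := TP.mono (by omega) (h.hu.mul hF)
  have h1 := h.hne _ hFu
  have e1 : sg (fun θ => u θ * F θ) = 1 / 4 * ∫ θ in (-π)..π, F θ * (u θ * |sin θ|) := by
    unfold sg
    congr 2
    ext θ
    ring
  rw [e1] at h1
  have hF1 : Differentiable ℝ F := hF.contDiff.differentiable (by simp)
  have hu1 : Differentiable ℝ u := h.hu.contDiff.differentiable (by simp)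
  have cdu : Continuous (deriv fun θ => u θ * F θ) := hFu.deriv.contDiff.continuous
  have cdF : Continuous (deriv F) := hF.deriv.contDiff.continuous
  have h2 : ∫ θ in (-π)..π, |deriv (fun θ => u θ * F θ) θ| * W m θ ≤
      ∫ θ in (-π)..π, 4 * m * (|F θ| + |deriv F θ| / m) := by
    have c1 : Continuous fun θ => |deriv (fun θ => u θ * F θ) θ| * W m θ :=
      cdu.abs.mul (W_continuous m)
    have c2 : Continuous fun θ => 4 * m * (|F θ| + |deriv F θ| / m) :=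
      continuous_const.mul (hF.contDiff.continuous.abs.add (cdF.abs.div_const _))
    apply int_mono c1 c2
    intro θ
    have e2 : deriv (fun θ => u θ * F θ) θ = deriv u θ * F θ + u θ * deriv F θ :=
      deriv_fun_mul (hu1 θ) (hF1 θ)
    rw [e2]
    have hW := h.uW_le θ
    have hW0 := (W_pos h.hm θ).le
    have hu0 := (h.hu0 θ).le
    have k1 : |deriv u θ * F θ + u θ * deriv F θ| ≤ m * u θ * |F θ| + u θ * |deriv F θ| := by
      refine (abs_add_le _ _).trans ?_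
      rw [abs_mul, abs_mul, abs_of_nonneg hu0]
      have k2 : |deriv u θ| ≤ m * u θ := by
        refine (h.hu2 θ).trans ?_
        apply mul_le_mul_of_nonneg_right _ hu0
        exact div_le_self hm0.le hA
      have := mul_le_mul_of_nonneg_right k2 (abs_nonneg (F θ))
      linarith
    have k3 := mul_le_mul_of_nonneg_right k1 hW0
    refine k3.trans ?_
    have k4 : (m * u θ * |F θ| + u θ * |deriv F θ|) * W m θ =
        (u θ * W m θ) * (m * |F θ| + |deriv F θ|) := by ring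
    have k5 : 4 * m * (|F θ| + |deriv F θ| / m) = 4 * (m * |F θ| + |deriv F θ|) := by
      field_simp
    rw [k4, k5]
    exact mul_le_mul_of_nonneg_right hW (by positivity)
  rw [intervalIntegral.integral_const_mul] at h2
  have h3 : δ / m * ∫ θ in (-π)..π, |deriv (fun θ => u θ * F θ) θ| * W m θ ≤
      δ / m * (4 * m * ∫ θ in (-π)..π, (|F θ| + |deriv F θ| / m)) :=
    mul_le_mul_of_nonneg_left h2 (div_nonneg h.hδ hm0.le)
  have e3 : δ / m * (4 * m * ∫ θ in (-π)..π, (|F θ| + |deriv F θ| / m)) =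
      4 * δ * ∫ θ in (-π)..π, (|F θ| + |deriv F θ| / m) := by
    field_simp
  rw [e3] at h3
  have h4 := h1.trans h3
  rw [abs_le] at h4 ⊢
  constructor <;> linarith [h4.1, h4.2]

theorem nm_deriv {a : ℕ} {f : ℝ → ℝ} (hf : TP a f) : nm (deriv f) ≤ a * nm f := by
  apply nm_le (mul_nonneg (Nat.cast_nonneg _) (nm_nonneg _))
  rw [mul_pow, nm_sq]
  exact hf.L2_deriv

theorem Setup.err_mul (h : Setup p m x A δ ε u) {Λ : ℝ} {a b : ℕ} {f g : ℝ → ℝ}
    (hf : TP a f) (hg : TP b g) (ha : (a : ℝ) ≤ Λ * m) (hb : (b : ℝ) ≤ Λ * m)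
    (hd : a + b + 2 * m ≤ p) :
    |4 * mu x (fun θ => u θ * (f θ * g θ)) - ∫ θ in (-π)..π, f θ * g θ * (u θ * |sin θ|)| ≤
      16 * (1 + 2 * Λ) * δ * (nm f * nm g) := by
  have hm0 := h.hm0
  have h1 := h.err (hf.mul hg) hd
  refine h1.trans ?_
  have cf : Continuous f := hf.contDiff.continuous
  have cg : Continuous g := hg.contDiff.continuous
  have cf' : Continuous (deriv f) := hf.deriv.contDiff.continuous
  have cg' : Continuous (deriv g) := hg.deriv.contDiff.continuous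
  have cd : Continuous (deriv fun θ => f θ * g θ) := (hf.mul hg).deriv.contDiff.continuous
  have hf1 : Differentiable ℝ f := hf.contDiff.differentiable (by simp)
  have hg1 : Differentiable ℝ g := hg.contDiff.differentiable (by simp)
  have c1 : Continuous fun θ => |f θ * g θ| + |deriv (fun θ => f θ * g θ) θ| / m :=
    (cf.mul cg).abs.add (cd.abs.div_const _)
  have k1 : Continuous fun θ => |f θ| * |g θ| := cf.abs.mul cg.abs
  have k2 : Continuous fun θ => 1 / (m : ℝ) * (|deriv f θ| * |g θ|) :=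
    continuous_const.mul (cf'.abs.mul cg.abs)
  have k3 : Continuous fun θ => 1 / (m : ℝ) * (|f θ| * |deriv g θ|) :=
    continuous_const.mul (cf.abs.mul cg'.abs)
  have h2 : ∫ θ in (-π)..π, (|f θ * g θ| + |deriv (fun θ => f θ * g θ) θ| / m) ≤
      ∫ θ in (-π)..π, (|f θ| * |g θ| + (1 / (m : ℝ) * (|deriv f θ| * |g θ|) +
        1 / (m : ℝ) * (|f θ| * |deriv g θ|))) := by
    refine int_mono c1 (k1.add (k2.add k3)) ?_
    intro θ
    have e2 : deriv (fun θ => f θ * g θ) θ = deriv f θ * g θ + f θ * deriv g θ :=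
      deriv_fun_mul (hf1 θ) (hg1 θ)
    have h3 : |deriv (fun θ => f θ * g θ) θ| ≤ |deriv f θ| * |g θ| + |f θ| * |deriv g θ| := by
      rw [e2]
      refine (abs_add_le _ _).trans ?_
      rw [abs_mul, abs_mul]
    have h4 : |deriv (fun θ => f θ * g θ) θ| / m ≤
        (|deriv f θ| * |g θ| + |f θ| * |deriv g θ|) / m := by gcongr
    have e3 : (|deriv f θ| * |g θ| + |f θ| * |deriv g θ|) / m =
        1 / (m : ℝ) * (|deriv f θ| * |g θ|) + 1 / (m : ℝ) * (|f θ| * |deriv g θ|) := by ring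
    rw [abs_mul (f θ)]
    linarith
  have h5 : ∫ θ in (-π)..π, (|f θ| * |g θ| + (1 / (m : ℝ) * (|deriv f θ| * |g θ|) +
        1 / (m : ℝ) * (|f θ| * |deriv g θ|))) ≤ (1 + 2 * Λ) * (nm f * nm g) := by
    have e := int_add k1 (k2.add k3)
    simp only [Pi.add_apply] at e
    rw [e, int_add k2 k3, intervalIntegral.integral_const_mul,
      intervalIntegral.integral_const_mul]
    have n1 := cs_abs cf cg
    have n2 := cs_abs cf' cg
    have n3 := cs_abs cf cg'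
    have d1 : nm (deriv f) ≤ Λ * m * nm f :=
      (nm_deriv hf).trans (mul_le_mul_of_nonneg_right ha (nm_nonneg _))
    have d2 : nm (deriv g) ≤ Λ * m * nm g :=
      (nm_deriv hg).trans (mul_le_mul_of_nonneg_right hb (nm_nonneg _))
    have m1 : 1 / (m : ℝ) * ∫ θ in (-π)..π, |deriv f θ| * |g θ| ≤ Λ * (nm f * nm g) := by
      rw [one_div, inv_mul_le_iff₀ hm0]
      refine n2.trans ((mul_le_mul_of_nonneg_right d1 (nm_nonneg _)).trans (le_of_eq ?_))
      ring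
    have m2 : 1 / (m : ℝ) * ∫ θ in (-π)..π, |f θ| * |deriv g θ| ≤ Λ * (nm f * nm g) := by
      rw [one_div, inv_mul_le_iff₀ hm0]
      refine n3.trans ((mul_le_mul_of_nonneg_left d2 (nm_nonneg _)).trans (le_of_eq ?_))
      ring
    linarith
  have h6 := mul_le_mul_of_nonneg_left (h2.trans h5) (by have := h.hδ; positivity : 0 ≤ 16 * δ)
  calc _ ≤ _ := h6
    _ = _ := by ring

theorem Setup.err_z (h : Setup p m x A δ ε u) {Λ : ℝ} {a b : ℤ} {z : ℝ → ℂ}
    (hz : TPI a b z) {M : ℝ} (ha : -M ≤ a) (hb : (b : ℝ) ≤ M) (hM0 : 0 ≤ M) (hM : M ≤ Λ * m)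
    (hd : (b - a).toNat + 2 * m ≤ p) :
    |4 * mu x (fun θ => u θ * ‖z θ‖ ^ 2) - ∫ θ in (-π)..π, ‖z θ‖ ^ 2 * (u θ * |sin θ|)| ≤
      16 * (1 + 2 * Λ) * δ * nm (fun θ => ‖z θ‖) ^ 2 := by
  have hm0 := h.hm0
  refine (h.err hz.normSq hd).trans ?_
  have cz : Continuous z := hz.contDiff.continuous
  have cz' : Continuous (deriv z) := hz.deriv.contDiff.continuous
  have hz1 : Differentiable ℝ z := hz.contDiff.differentiable (by simp)
  have cd : Continuous (deriv fun θ => ‖z θ‖ ^ 2) := hz.normSq.deriv.contDiff.continuous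
  have c1 : Continuous fun θ => |‖z θ‖ ^ 2| + |deriv (fun θ => ‖z θ‖ ^ 2) θ| / m :=
    (cz.norm.pow 2).abs.add (cd.abs.div_const _)
  have k1 : Continuous fun θ => |‖z θ‖| * |‖z θ‖| := cz.norm.abs.mul cz.norm.abs
  have k2 : Continuous fun θ => 2 / (m : ℝ) * (|‖z θ‖| * |‖deriv z θ‖|) :=
    continuous_const.mul (cz.norm.abs.mul cz'.norm.abs)
  have h2 : ∫ θ in (-π)..π, (|‖z θ‖ ^ 2| + |deriv (fun θ => ‖z θ‖ ^ 2) θ| / m) ≤
      ∫ θ in (-π)..π, (|‖z θ‖| * |‖z θ‖| + 2 / (m : ℝ) * (|‖z θ‖| * |‖deriv z θ‖|)) := by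
    refine int_mono c1 (k1.add k2) ?_
    intro θ
    have e2 : deriv (fun θ => ‖z θ‖ ^ 2) θ = 2 * inner ℝ (z θ) (deriv z θ) :=
      ((hz1 θ).hasDerivAt.norm_sq).deriv
    have h3 : |deriv (fun θ => ‖z θ‖ ^ 2) θ| ≤ 2 * (|‖z θ‖| * |‖deriv z θ‖|) := by
      rw [e2, abs_mul, abs_norm, abs_norm]
      have := abs_real_inner_le_norm (z θ) (deriv z θ)
      have h2 : |(2 : ℝ)| = 2 := by norm_num
      rw [h2]
      linarith
    have h4 : |deriv (fun θ => ‖z θ‖ ^ 2) θ| / m ≤ 2 * (|‖z θ‖| * |‖deriv z θ‖|) / m := by gcongr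
    have e3 : 2 * (|‖z θ‖| * |‖deriv z θ‖|) / m = 2 / (m : ℝ) * (|‖z θ‖| * |‖deriv z θ‖|) := by ring
    have e4 : |‖z θ‖ ^ 2| = |‖z θ‖| * |‖z θ‖| := by rw [abs_pow, sq]
    rw [e4]
    linarith
  have h5 : ∫ θ in (-π)..π, (|‖z θ‖| * |‖z θ‖| + 2 / (m : ℝ) * (|‖z θ‖| * |‖deriv z θ‖|)) ≤
      (1 + 2 * Λ) * nm (fun θ => ‖z θ‖) ^ 2 := by
    rw [int_add k1 k2, intervalIntegral.integral_const_mul]
    have n1 := cs_abs cz.norm cz.norm
    have n2 := cs_abs cz.norm cz'.norm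
    have d1 : nm (fun θ => ‖deriv z θ‖) ≤ Λ * m * nm (fun θ => ‖z θ‖) := by
      have : nm (fun θ => ‖deriv z θ‖) ≤ M * nm (fun θ => ‖z θ‖) := by
        apply nm_le (mul_nonneg hM0 (nm_nonneg _))
        rw [mul_pow, nm_sq]
        exact hz.L2_deriv ha hb
      exact this.trans (mul_le_mul_of_nonneg_right hM (nm_nonneg _))
    have m1 : 2 / (m : ℝ) * ∫ θ in (-π)..π, |‖z θ‖| * |‖deriv z θ‖| ≤
        2 * Λ * nm (fun θ => ‖z θ‖) ^ 2 := by
      have e : 2 / (m : ℝ) = (m : ℝ)⁻¹ * 2 := by ring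
      rw [e, mul_assoc, inv_mul_le_iff₀ hm0]
      have := n2.trans (mul_le_mul_of_nonneg_left d1 (nm_nonneg _))
      calc 2 * ∫ θ in (-π)..π, |‖z θ‖| * |‖deriv z θ‖| ≤
          2 * (nm (fun θ => ‖z θ‖) * (Λ * m * nm (fun θ => ‖z θ‖))) := by linarith
        _ = _ := by ring
    have e2 : nm (fun θ => ‖z θ‖) ^ 2 = nm (fun θ => ‖z θ‖) * nm (fun θ => ‖z θ‖) := sq _
    linarith
  have h6 := mul_le_mul_of_nonneg_left (h2.trans h5) (by have := h.hδ; positivity : 0 ≤ 16 * δ)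
  calc _ ≤ _ := h6
    _ = _ := by ring

theorem Setup.int_usin_le (h : Setup p m x A δ ε u) {f : ℝ → ℝ} (hf : Continuous f) :
    ∫ θ in (-π)..π, f θ ^ 2 * (u θ * |sin θ|) ≤ (1 + ε) * nm f ^ 2 := by
  rw [nm_sq, ← intervalIntegral.integral_const_mul]
  refine int_mono ((hf.pow 2).mul h.usinc) (continuous_const.mul (hf.pow 2)) ?_
  intro θ
  have := mul_le_mul_of_nonneg_left (h.usin_le θ) (sq_nonneg (f θ))
  calc _ ≤ _ := this
    _ = _ := mul_comm _ _

theorem Setup.rn_le (h : Setup p m x A δ ε u) {Λ : ℝ} {a : ℕ} {f : ℝ → ℝ}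
    (hf : TP a f) (ha : (a : ℝ) ≤ Λ * m) (hd : a + a + 2 * m ≤ p) :
    rn x u f ^ 2 ≤ (1 + (ε + 16 * (1 + 2 * Λ) * δ)) * nm f ^ 2 := by
  have h1 := h.err_mul hf hf ha ha hd
  have h2 := h.int_usin_le hf.contDiff.continuous
  rw [rn_sq x h.hu0]
  have e : ∀ θ, f θ * f θ = f θ ^ 2 := fun θ => (sq _).symm
  simp only [e] at h1
  rw [← sq (nm f)] at h1
  have h3 := (abs_le.1 h1).2
  linarith

theorem Setup.rn_z_le (h : Setup p m x A δ ε u) {Λ : ℝ} {a b : ℤ} {z : ℝ → ℂ}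
    (hz : TPI a b z) {M : ℝ} (ha : -M ≤ a) (hb : (b : ℝ) ≤ M) (hM0 : 0 ≤ M) (hM : M ≤ Λ * m)
    (hd : (b - a).toNat + 2 * m ≤ p) :
    rn x u (fun θ => ‖z θ‖) ^ 2 ≤
      (1 + (ε + 16 * (1 + 2 * Λ) * δ)) * nm (fun θ => ‖z θ‖) ^ 2 := by
  have h1 := h.err_z hz ha hb hM0 hM hd
  have h2 := h.int_usin_le hz.contDiff.continuous.norm
  rw [rn_sq x h.hu0]
  have h3 := (abs_le.1 h1).2
  linarith

/-- lower bound, with the near part -/
theorem Setup.le_rn_z (h : Setup p m x A δ ε u) {Λ : ℝ} {a b : ℤ} {z : ℝ → ℂ}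
    (hz : TPI a b z) {M : ℝ} (ha : -M ≤ a) (hb : (b : ℝ) ≤ M) (hM0 : 0 ≤ M) (hM : M ≤ Λ * m)
    (hd : (b - a).toNat + 2 * m ≤ p) (hA2 : 2 * A ≤ m) {B : ℝ}
    (hB : ∀ θ, |sin θ| < A / m → ‖z θ‖ ≤ B) :
    (1 - (ε + 16 * (1 + 2 * Λ) * δ)) * nm (fun θ => ‖z θ‖) ^ 2 - B ^ 2 * (32 * π * A / m) ≤
      rn x u (fun θ => ‖z θ‖) ^ 2 := by
  have hm0 := h.hm0
  have hA := h.hA
  have hA0 : 0 < A := by linarith
  have h1 := h.err_z hz ha hb hM0 hM hd
  rw [rn_sq x h.hu0]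
  have h3 := (abs_le.1 h1).1
  have cz : Continuous z := hz.contDiff.continuous
  have hy : (2 : ℝ) ≤ m / A := by rw [le_div_iff₀ hA0]; exact hA2
  have h4 : ∫ θ in (-π)..π, ((1 - ε) * ‖z θ‖ ^ 2 - B ^ 2 * nk ⌊(m : ℝ) / A⌋₊ θ) ≤
      ∫ θ in (-π)..π, ‖z θ‖ ^ 2 * (u θ * |sin θ|) := by
    refine int_mono ((continuous_const.mul (cz.norm.pow 2)).sub
      (continuous_const.mul (nk_cont _))) ((cz.norm.pow 2).mul h.usinc) ?_
    intro θ
    have hk := nk_nonneg ⌊(m : ℝ) / A⌋₊ θ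
    have hz2 : 0 ≤ ‖z θ‖ ^ 2 := sq_nonneg _
    rcases lt_or_ge |sin θ| (A / m) with hθ | hθ
    · have h5 : ‖z θ‖ ^ 2 ≤ B ^ 2 := pow_le_pow_left₀ (norm_nonneg _) (hB θ hθ) 2
      have h6 : 1 ≤ nk ⌊(m : ℝ) / A⌋₊ θ := one_le_nk_floor hy (by rwa [one_div_div])
      have h7 : B ^ 2 * 1 ≤ B ^ 2 * nk ⌊(m : ℝ) / A⌋₊ θ :=
        mul_le_mul_of_nonneg_left h6 (sq_nonneg _)
      have h8 : 0 ≤ ‖z θ‖ ^ 2 * (u θ * |sin θ|) := mul_nonneg hz2 (h.usin_nonneg θ)
      have h9 : (1 - ε) * ‖z θ‖ ^ 2 ≤ 1 * ‖z θ‖ ^ 2 :=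
        mul_le_mul_of_nonneg_right (by linarith [h.hε0]) hz2
      linarith
    · have h5 := (abs_le.1 (h.usin_far hθ)).1
      have h6 : (1 - ε) * ‖z θ‖ ^ 2 ≤ (u θ * |sin θ|) * ‖z θ‖ ^ 2 :=
        mul_le_mul_of_nonneg_right (by linarith) hz2
      have h7 : 0 ≤ B ^ 2 * nk ⌊(m : ℝ) / A⌋₊ θ := by positivity
      linarith
  have e1 := int_sub (f := fun θ => (1 - ε) * ‖z θ‖ ^ 2)
    (g := fun θ => B ^ 2 * nk ⌊(m : ℝ) / A⌋₊ θ) (continuous_const.mul (cz.norm.pow 2))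
    (continuous_const.mul (nk_cont _))
  rw [e1, intervalIntegral.integral_const_mul, intervalIntegral.integral_const_mul] at h4
  have e2 : ∫ θ in (-π)..π, ‖z θ‖ ^ 2 = nm (fun θ => ‖z θ‖) ^ 2 := (nm_sq _).symm
  rw [e2] at h4
  have h5 := int_nk_floor hy
  have e3 : 32 * π / (m / A) = 32 * π * A / m := by field_simp
  rw [e3] at h5
  have h6 := mul_le_mul_of_nonneg_left h5 (sq_nonneg B)
  linarith

theorem le_of_mul_self {a b : ℝ} (ha : 0 ≤ a) (hb : 0 ≤ b) (h : a ^ 2 ≤ b * a) : a ≤ b := by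
  rcases ha.eq_or_lt with h0 | h0
  · rw [← h0]; exact hb
  · have : a * a ≤ b * a := by rw [← sq]; exact h
    exact le_of_mul_le_mul_right this h0

/-- low frequencies -/
theorem Setup.low (h : Setup p m x A δ ε u) {Λ : ℝ} (hΛ : 1 ≤ Λ) {n : ℕ} {G Gl : ℝ → ℝ}
    (hG : TP n G) (hGl : TP m Gl) (hmn : m ≤ n) (hn : (n : ℝ) ≤ Λ * m) (hd : n + 3 * m ≤ p)
    (hA2 : 2 * A ≤ m) (hτ : ε + 16 * (1 + 2 * Λ) * δ ≤ 1) {S : ℝ} (hS : 0 ≤ S)
    (hGS : ∀ θ, |sin θ| < A / m → |G θ| ≤ S)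
    (horth : ∫ θ in (-π)..π, G θ * Gl θ = ∫ θ in (-π)..π, (Gl θ) ^ 2) :
    nm Gl ≤ 2 * rn x u G + (ε + 16 * (1 + 2 * Λ) * δ) * nm G +
      S * Real.sqrt (32 * π * A / m) := by
  have hm0 := h.hm0
  have hA := h.hA
  have hA0 : 0 < A := by linarith
  have hε0 := h.hε0
  have hδ := h.hδ
  have hmΛ : (m : ℝ) ≤ Λ * m := by nlinarith
  have cG : Continuous G := hG.contDiff.continuous
  have cl : Continuous Gl := hGl.contDiff.continuous
  have hy : (2 : ℝ) ≤ m / A := by rw [le_div_iff₀ hA0]; exact hA2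
  have hL0 := nm_nonneg Gl
  have hX0 := nm_nonneg G
  have hR0 := rn_nonneg x u G
  have hq0 := Real.sqrt_nonneg (32 * π * A / m)
  have hqs : Real.sqrt (32 * π * A / m) ^ 2 = 32 * π * A / m := Real.sq_sqrt (by positivity)
  -- the discrete norm of the low part
  have hrl : rn x u Gl ≤ 2 * nm Gl := by
    have h1 := h.rn_le hGl hmΛ (by omega)
    have h2 : rn x u Gl ^ 2 ≤ (2 * nm Gl) ^ 2 := by
      refine h1.trans ?_
      rw [mul_pow]
      exact mul_le_mul_of_nonneg_right (by linarith) (sq_nonneg _)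
    have h3 := abs_le_of_sq_le_sq h2 (by positivity)
    exact (le_abs_self _).trans h3
  -- the part `G (1 - u |sin|)`
  have ce : Continuous fun θ => G θ * (1 - u θ * |sin θ|) := cG.mul (continuous_const.sub h.usinc)
  have hη : nm (fun θ => G θ * (1 - u θ * |sin θ|)) ≤
      ε * nm G + S * Real.sqrt (32 * π * A / m) := by
    apply nm_le (by positivity)
    have h1 : ∫ θ in (-π)..π, (G θ * (1 - u θ * |sin θ|)) ^ 2 ≤
        ∫ θ in (-π)..π, (ε ^ 2 * G θ ^ 2 + S ^ 2 * nk ⌊(m : ℝ) / A⌋₊ θ) := by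
      refine int_mono (ce.pow 2) ((continuous_const.mul (cG.pow 2)).add
        (continuous_const.mul (nk_cont _))) ?_
      intro θ
      have hk := nk_nonneg ⌊(m : ℝ) / A⌋₊ θ
      have hG2 : 0 ≤ G θ ^ 2 := sq_nonneg _
      rcases lt_or_ge |sin θ| (A / m) with hθ | hθ
      · have h5 : G θ ^ 2 ≤ S ^ 2 := by
          rw [← sq_abs (G θ)]
          exact pow_le_pow_left₀ (abs_nonneg _) (hGS θ hθ) 2
        have h6 : 1 ≤ nk ⌊(m : ℝ) / A⌋₊ θ := one_le_nk_floor hy (by rwa [one_div_div])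
        have h7 : S ^ 2 * 1 ≤ S ^ 2 * nk ⌊(m : ℝ) / A⌋₊ θ :=
          mul_le_mul_of_nonneg_left h6 (sq_nonneg _)
        have h8 : (1 - u θ * |sin θ|) ^ 2 ≤ 1 := by
          have k1 := h.usin_nonneg θ
          have k2 := h.usin_le θ
          have k3 := h.hε
          rw [sq_le_one_iff_abs_le_one, abs_le]
          constructor <;> linarith
        have h9 : G θ ^ 2 * (1 - u θ * |sin θ|) ^ 2 ≤ G θ ^ 2 * 1 :=
          mul_le_mul_of_nonneg_left h8 hG2
        have h10 : 0 ≤ ε ^ 2 * G θ ^ 2 := by positivity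
        rw [mul_pow]
        linarith
      · have h5 : (1 - u θ * |sin θ|) ^ 2 ≤ ε ^ 2 := by
          rw [sq_le_sq, abs_of_nonneg hε0, abs_sub_comm]
          exact h.usin_far hθ
        have h6 : G θ ^ 2 * (1 - u θ * |sin θ|) ^ 2 ≤ G θ ^ 2 * ε ^ 2 :=
          mul_le_mul_of_nonneg_left h5 hG2
        have h7 : 0 ≤ S ^ 2 * nk ⌊(m : ℝ) / A⌋₊ θ := by positivity
        rw [mul_pow]
        linarith
    have e1 := int_add (f := fun θ => ε ^ 2 * G θ ^ 2) (g := fun θ => S ^ 2 * nk ⌊(m : ℝ) / A⌋₊ θ)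
      (continuous_const.mul (cG.pow 2)) (continuous_const.mul (nk_cont _))
    rw [e1, intervalIntegral.integral_const_mul, intervalIntegral.integral_const_mul,
      ← nm_sq G] at h1
    have h5 := int_nk_floor hy
    have e3 : 32 * π / (m / A) = 32 * π * A / m := by field_simp
    rw [e3] at h5
    have h6 := mul_le_mul_of_nonneg_left h5 (sq_nonneg S)
    rw [← hqs] at h6
    have h7 : 0 ≤ 2 * (ε * nm G) * (S * Real.sqrt (32 * π * A / m)) := by positivity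
    calc _ ≤ ε ^ 2 * nm G ^ 2 + S ^ 2 * Real.sqrt (32 * π * A / m) ^ 2 := by linarith
      _ ≤ _ := by nlinarith
  -- combination
  have h1 := h.err_mul hG hGl hn hmΛ (by omega)
  have h2 : (4 * mu x fun θ => u θ * (G θ * Gl θ)) ≤ rn x u G * (2 * nm Gl) := by
    have := rn_cs x h.hu0 G Gl
    have e : (fun θ => u θ * (G θ * Gl θ)) = fun θ => u θ * G θ * Gl θ := by ext θ; ring
    rw [e]
    exact ((le_abs_self _).trans this).trans (mul_le_mul_of_nonneg_left hrl hR0)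
  have h3 : ∫ θ in (-π)..π, (G θ * (1 - u θ * |sin θ|)) * Gl θ ≤
      (ε * nm G + S * Real.sqrt (32 * π * A / m)) * nm Gl :=
    ((le_abs_self _).trans (cs ce cl)).trans (mul_le_mul_of_nonneg_right hη hL0)
  have h4 : nm Gl ^ 2 = (∫ θ in (-π)..π, G θ * Gl θ * (u θ * |sin θ|)) +
      ∫ θ in (-π)..π, (G θ * (1 - u θ * |sin θ|)) * Gl θ := by
    have e1 := int_add (f := fun θ => G θ * Gl θ * (u θ * |sin θ|))
      (g := fun θ => (G θ * (1 - u θ * |sin θ|)) * Gl θ) ((cG.mul cl).mul h.usinc) (ce.mul cl)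
    rw [nm_sq, ← horth, ← e1]
    congr 1
    ext θ
    ring
  have h5 := (abs_le.1 h1).1
  apply le_of_mul_self hL0 (by positivity)
  rw [h4]
  have e5 : (2 * rn x u G + (ε + 16 * (1 + 2 * Λ) * δ) * nm G +
      S * Real.sqrt (32 * π * A / m)) * nm Gl = rn x u G * (2 * nm Gl) +
      16 * (1 + 2 * Λ) * δ * (nm G * nm Gl) +
      (ε * nm G + S * Real.sqrt (32 * π * A / m)) * nm Gl := by ring
  rw [e5]
  linarith

/-- high frequencies -/
theorem Setup.high (h : Setup p m x A δ ε u) {Λ : ℝ} (hΛ : 1 ≤ Λ) {n : ℕ} {G Gl : ℝ → ℝ}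
    {z : ℝ → ℂ} (hG : TP n G) (hGl : TP m Gl) (hz : TPI (m + 1) n z) (hmn : m < n)
    (hn : (n : ℝ) ≤ Λ * m) (hd : n + 3 * m ≤ p) (hA2 : 2 * A ≤ m)
    (hτ : (ε + 16 * (1 + 2 * Λ) * δ) * (2 * Λ) ≤ 1) {B : ℝ} (hB0 : 0 ≤ B)
    (hB : ∀ θ, |sin θ| < A / m → ‖z θ‖ ≤ B) (hdec : ∀ θ, G θ = Gl θ + 2 * (z θ).re) :
    nm (fun θ => ‖z θ‖) ≤ 2 * Λ * (B * Real.sqrt (32 * π * A / m)) + Λ * rn x u G +
      rn x u (deriv G) / m + 4 * Λ * nm Gl := by
  have hm0 := h.hm0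
  have hA := h.hA
  have hA0 : 0 < A := by linarith
  have hε0 := h.hε0
  have hδ := h.hδ
  set τ := ε + 16 * (1 + 2 * Λ) * δ with hτd
  have hτ0 : 0 ≤ τ := by positivity
  have hτ1 : τ ≤ 1 := by
    have := mul_le_mul_of_nonneg_left hΛ hτ0
    linarith
  have hmΛ : (m : ℝ) ≤ Λ * m := by nlinarith
  have hn1 : (m : ℝ) + 1 ≤ n := by exact_mod_cast hmn
  have hq0 := Real.sqrt_nonneg (32 * π * A / m)
  have hqs : Real.sqrt (32 * π * A / m) ^ 2 = 32 * π * A / m := Real.sq_sqrt (by positivity)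
  set q := Real.sqrt (32 * π * A / m) with hq
  set Z := nm (fun θ => ‖z θ‖) with hZ
  have hZ0 : 0 ≤ Z := nm_nonneg _
  have hL0 := nm_nonneg Gl
  have ha : -(n : ℝ) ≤ (((m : ℤ) + 1 : ℤ) : ℝ) := by push_cast; linarith
  have hb : (((n : ℤ)) : ℝ) ≤ (n : ℝ) := by simp
  have hdn : (((n : ℤ)) - ((m : ℤ) + 1)).toNat + 2 * m ≤ p := by omega
  -- discrete norms of the low part
  have hr2 : ∀ f : ℝ → ℝ, TP m f → rn x u f ≤ 2 * nm f := by
    intro f hf
    have h1 := h.rn_le hf hmΛ (by omega)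
    have h2 : rn x u f ^ 2 ≤ (2 * nm f) ^ 2 := by
      refine h1.trans ?_
      rw [mul_pow]
      exact mul_le_mul_of_nonneg_right (by linarith) (sq_nonneg _)
    have h3 := abs_le_of_sq_le_sq h2 (mul_nonneg zero_le_two (nm_nonneg _))
    exact (le_abs_self _).trans h3
  have hrl := hr2 Gl hGl
  have hrl' : rn x u (deriv Gl) ≤ 2 * (m * nm Gl) :=
    (hr2 _ hGl.deriv).trans (mul_le_mul_of_nonneg_left (nm_deriv hGl) zero_le_two)
  -- lower bound for `z`
  have hzl : (1 - τ) * Z - B * q ≤ rn x u (fun θ => ‖z θ‖) := by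
    have h1 := h.le_rn_z hz ha hb (Nat.cast_nonneg _) hn hdn hA2 hB
    rw [← hτd, ← hqs, ← hZ] at h1
    by_contra h2
    push Not at h2
    have h3 := rn_nonneg x u (fun θ => ‖z θ‖)
    set r := rn x u (fun θ => ‖z θ‖)
    have h4 : r ^ 2 < ((1 - τ) * Z - B * q) ^ 2 := pow_lt_pow_left₀ h2 h3 two_ne_zero
    have h5 : 0 ≤ (1 - τ) * Z := mul_nonneg (by linarith) hZ0
    have h6 : 0 ≤ B * q := mul_nonneg hB0 hq0
    have h7 : ((1 - τ) * Z) ^ 2 ≤ (1 - τ) * Z ^ 2 := by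
      have : 0 ≤ (1 - τ) * (τ * Z ^ 2) := by
        apply mul_nonneg (by linarith); positivity
      have e : (1 - τ) * Z ^ 2 - ((1 - τ) * Z) ^ 2 = (1 - τ) * (τ * Z ^ 2) := by ring
      linarith
    have h8 : 2 * (B * q) * ((1 - τ) * Z) ≥ 2 * (B * q) * (B * q) := by
      apply mul_le_mul_of_nonneg_left _ (by positivity)
      linarith
    have e1 : ((1 - τ) * Z - B * q) ^ 2 =
        ((1 - τ) * Z) ^ 2 - 2 * (B * q) * ((1 - τ) * Z) + B ^ 2 * q ^ 2 := by ring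
    have e2 : 2 * (B * q) * (B * q) = 2 * (B ^ 2 * q ^ 2) := by ring
    linarith
  -- the shifted derivative
  set μ : ℝ := ((((m : ℤ) + 1 : ℤ) : ℝ) + (n : ℤ)) / 2 with hμ
  have hμ' : μ = ((m : ℝ) + 1 + n) / 2 := by rw [hμ]; push_cast; ring
  have hμ0 : 0 ≤ μ := by rw [hμ']; positivity
  have hμn : μ ≤ Λ * m := by rw [hμ']; linarith
  have hw : TPI (m + 1) n (fun θ => deriv z θ - Complex.I * μ * z θ) := hz.shifted μ
  have hw2 := hz.L2_shifted (by omega)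
  rw [← hμ] at hw2
  have hwn : nm (fun θ => ‖deriv z θ - Complex.I * μ * z θ‖) ≤ ((n : ℝ) - m - 1) / 2 * Z := by
    apply nm_le (mul_nonneg (by linarith) hZ0)
    refine hw2.trans (le_of_eq ?_)
    rw [mul_pow, hZ, nm_sq]
    push_cast
    ring
  have hwr : rn x u (fun θ => ‖deriv z θ - Complex.I * μ * z θ‖) ≤
      (1 + τ) * (((n : ℝ) - m - 1) / 2 * Z) := by
    have h1 := h.rn_z_le hw ha hb (Nat.cast_nonneg _) hn hdn
    rw [← hτd] at h1
    have h0 : 0 ≤ (1 + τ) * nm (fun θ => ‖deriv z θ - Complex.I * μ * z θ‖) :=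
      mul_nonneg (by linarith) (nm_nonneg _)
    have h2 : rn x u (fun θ => ‖deriv z θ - Complex.I * μ * z θ‖) ^ 2 ≤
        ((1 + τ) * nm (fun θ => ‖deriv z θ - Complex.I * μ * z θ‖)) ^ 2 := by
      refine h1.trans ?_
      rw [mul_pow]
      apply mul_le_mul_of_nonneg_right _ (sq_nonneg _)
      have e1 : (1 + τ) ^ 2 = (1 + τ) + τ * (1 + τ) := by ring
      have e2 : 0 ≤ τ * (1 + τ) := by positivity
      linarith
    have h3 := (le_abs_self _).trans (abs_le_of_sq_le_sq h2 h0)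
    exact h3.trans (mul_le_mul_of_nonneg_left hwn (by linarith))
  -- pointwise
  have dz : Differentiable ℝ z := hz.contDiff.differentiable (by simp)
  have dG : Differentiable ℝ G := hG.contDiff.differentiable (by simp)
  have dGl : Differentiable ℝ Gl := hGl.contDiff.differentiable (by simp)
  have hpt : ∀ θ, |μ * ‖z θ‖| ≤ μ / 2 * |G θ| + (μ / 2 * |Gl θ| + (1 / 2 * |deriv G θ| +
      (1 / 2 * |deriv Gl θ| + ‖deriv z θ - Complex.I * μ * z θ‖))) := by
    intro θ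
    have e1 : (z θ).re = (G θ - Gl θ) / 2 := by rw [hdec θ]; ring
    have e2 : deriv G θ = deriv Gl θ + 2 * (deriv z θ).re := by
      have h1 : HasDerivAt (fun θ => (z θ).re) (deriv z θ).re θ := by
        have := Complex.reCLM.hasFDerivAt.comp_hasDerivAt θ (dz θ).hasDerivAt
        exact this
      have h2 : HasDerivAt G (deriv Gl θ + 2 * (deriv z θ).re) θ := by
        have h3 := (dGl θ).hasDerivAt.add (h1.const_mul 2)
        have e : G = fun θ => Gl θ + 2 * (z θ).re := funext hdec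
        rw [e]
        exact h3
      exact h2.deriv
    set w := deriv z θ - Complex.I * μ * z θ with hwd
    have e3 : w.re = (deriv z θ).re + μ * (z θ).im := by
      rw [hwd]
      simp [Complex.sub_re, Complex.mul_re, Complex.mul_im]
    have h1 : |w.re| ≤ ‖w‖ := Complex.abs_re_le_norm w
    have h2 : ‖z θ‖ ≤ |(z θ).re| + |(z θ).im| := Complex.norm_le_abs_re_add_abs_im _
    rw [abs_of_nonneg (mul_nonneg hμ0 (norm_nonneg _))]
    have h3 : μ * ‖z θ‖ ≤ μ * |(z θ).re| + μ * |(z θ).im| := by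
      have := mul_le_mul_of_nonneg_left h2 hμ0
      linarith
    have h4 : μ * |(z θ).re| ≤ μ / 2 * |G θ| + μ / 2 * |Gl θ| := by
      have h5 : |(z θ).re| ≤ (|G θ| + |Gl θ|) / 2 := by
        rw [e1, abs_div, abs_two]
        have := abs_sub (G θ) (Gl θ)
        linarith
      have := mul_le_mul_of_nonneg_left h5 hμ0
      linarith
    have h5 : μ * |(z θ).im| ≤ 1 / 2 * |deriv G θ| + 1 / 2 * |deriv Gl θ| + ‖w‖ := by
      have e4 : μ * (z θ).im = w.re - (deriv G θ - deriv Gl θ) / 2 := by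
        rw [e3, e2]; ring
      have e5 : μ * |(z θ).im| = |w.re - (deriv G θ - deriv Gl θ) / 2| := by
        rw [← e4, abs_mul, abs_of_nonneg hμ0]
      rw [e5]
      refine (abs_sub _ _).trans ?_
      have : |(deriv G θ - deriv Gl θ) / 2| ≤ 1 / 2 * |deriv G θ| + 1 / 2 * |deriv Gl θ| := by
        rw [abs_div, abs_two]
        have := abs_sub (deriv G θ) (deriv Gl θ)
        linarith
      linarith
    linarith
  have hμ2 : 0 ≤ μ / 2 := by positivity
  have hrn : μ * rn x u (fun θ => ‖z θ‖) ≤ μ / 2 * rn x u G + (μ / 2 * rn x u Gl +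
      (1 / 2 * rn x u (deriv G) + (1 / 2 * rn x u (deriv Gl) +
        rn x u (fun θ => ‖deriv z θ - Complex.I * μ * z θ‖)))) := by
    have h1 := rn_mono x h.hu0 hpt
    rw [rn_const_mul x h.hu0 hμ0] at h1
    refine h1.trans ?_
    refine (rn_add x h.hu0 _ _).trans ?_
    rw [rn_const_mul x h.hu0 hμ2, rn_abs]
    refine add_le_add le_rfl ((rn_add x h.hu0 _ _).trans ?_)
    rw [rn_const_mul x h.hu0 hμ2, rn_abs]
    refine add_le_add le_rfl ((rn_add x h.hu0 _ _).trans ?_)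
    rw [rn_const_mul x h.hu0 (by norm_num), rn_abs]
    refine add_le_add le_rfl ((rn_add x h.hu0 _ _).trans ?_)
    rw [rn_const_mul x h.hu0 (by norm_num), rn_abs]
  -- combination
  set R := rn x u G
  set R1 := rn x u (deriv G)
  set L := nm Gl
  have k1 := mul_le_mul_of_nonneg_left hzl hμ0
  have k2 : μ / 2 * rn x u Gl ≤ μ / 2 * (2 * L) := mul_le_mul_of_nonneg_left hrl hμ2
  have k3 : μ * ((1 - τ) * Z - B * q) ≤ μ / 2 * R + (μ / 2 * (2 * L) +
      (1 / 2 * R1 + (1 / 2 * (2 * (m * L)) + (1 + τ) * (((n : ℝ) - m - 1) / 2 * Z)))) := by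
    linarith
  have k4 : ((m : ℝ) + 1 - τ * n) * Z ≤ μ * (B * q) + μ / 2 * R + μ * L + 1 / 2 * R1 + m * L := by
    have e : μ * ((1 - τ) * Z - B * q) - (1 + τ) * (((n : ℝ) - m - 1) / 2 * Z) =
        ((m : ℝ) + 1 - τ * n) * Z - μ * (B * q) := by
      rw [hμ']; ring
    linarith
  have k5 : τ * n ≤ m / 2 := by
    have := mul_le_mul_of_nonneg_left hn hτ0
    have h2 : τ * (Λ * m) ≤ m / 2 := by
      have h3 := mul_le_mul_of_nonneg_right hτ hm0.le
      linarith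
    linarith
  have k6 : (m : ℝ) / 2 * Z ≤ ((m : ℝ) + 1 - τ * n) * Z :=
    mul_le_mul_of_nonneg_right (by linarith) hZ0
  have hR0 : 0 ≤ R := rn_nonneg _ _ _
  have hR10 : 0 ≤ R1 := rn_nonneg _ _ _
  have hBq : 0 ≤ B * q := mul_nonneg hB0 hq0
  have k7 : μ * (B * q) ≤ Λ * m * (B * q) := mul_le_mul_of_nonneg_right hμn hBq
  have k8 : μ / 2 * R ≤ Λ * m / 2 * R := mul_le_mul_of_nonneg_right (by linarith) hR0
  have k9 : μ * L ≤ Λ * m * L := mul_le_mul_of_nonneg_right hμn hL0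
  have k10 : m * L ≤ Λ * m * L := mul_le_mul_of_nonneg_right hmΛ hL0
  have k11 : (m : ℝ) / 2 * Z ≤ m / 2 * (2 * Λ * (B * q) + Λ * R + R1 / m + 4 * Λ * L) := by
    have e : (m : ℝ) / 2 * (2 * Λ * (B * q) + Λ * R + R1 / m + 4 * Λ * L) =
        Λ * m * (B * q) + Λ * m / 2 * R + 1 / 2 * R1 + 2 * (Λ * m * L) := by
      field_simp
      ring
    rw [e]
    linarith
  exact le_of_mul_le_mul_left k11 (by positivity)

theorem three_sq (a b c : ℝ) : (a + b + c) ^ 2 ≤ 3 * (a ^ 2 + b ^ 2 + c ^ 2) := by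
  nlinarith [sq_nonneg (a - b), sq_nonneg (a - c), sq_nonneg (b - c)]

/-- the discrete norm and the weight `1 / MA` -/
theorem Setup.rn_sq_le (h : Setup p m x A δ ε u) (F : ℝ → ℝ) :
    rn x u F ^ 2 ≤ 8 * mu x (fun θ => F θ ^ 2 / MA m A θ) := by
  rw [rn_sq x h.hu0]
  have h1 : mu x (fun θ => u θ * F θ ^ 2) ≤ mu x (fun θ => 2 * (F θ ^ 2 / MA m A θ)) := by
    apply mu_mono
    intro θ
    have h2 := h.MA_pos θ
    have h3 : u θ ≤ 2 / MA m A θ := by
      rw [le_div_iff₀ h2]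
      have := h.uMA_le θ
      have := h.hε
      linarith
    calc u θ * F θ ^ 2 ≤ 2 / MA m A θ * F θ ^ 2 := mul_le_mul_of_nonneg_right h3 (sq_nonneg _)
      _ = 2 * (F θ ^ 2 / MA m A θ) := by ring
  rw [mu_const_mul] at h1
  linarith

end Samp

open Samp

theorem samp (Λ : ℝ) (hΛ : 1 ≤ Λ) : ∃ C K A₀ δ₀ : ℝ, 0 < C ∧ 1 ≤ K ∧ 1 ≤ A₀ ∧ 0 < δ₀ ∧ δ₀ ≤ 1 ∧
    ∀ (N p m n : ℕ) (x : Fin N → ℝ) (A δ S : ℝ) (G : ℝ → ℝ), 0 < N → 1 ≤ m →
    (p : ℝ) ≤ Λ * m → n + 3 * m ≤ p → m ≤ n → A₀ ≤ A → 2 * K * A ≤ m → 0 ≤ δ → δ ≤ δ₀ →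
    NE p m δ x → TP n G → 0 ≤ S → (∀ θ, |sin θ| < K * A / m → |G θ| ≤ S) →
    ∫ θ in (-π)..π, (G θ) ^ 2 ≤
      C * (mu x (fun θ => G θ ^ 2 / MA m A θ) + mu x (fun θ => (deriv G θ) ^ 2 / MA m A θ) / m ^ 2
        + A ^ 3 / m * S ^ 2) := by
  obtain ⟨C₀, hC₀, hflat⟩ := flat
  have hΛ0 : 0 < Λ := by linarith
  set K : ℝ := (704 * Λ) ^ 2 with hK
  have hK1 : 495616 ≤ K := by
    have h1 : 1 ≤ Λ ^ 2 := one_le_pow₀ hΛ
    have h2 : K = 495616 * Λ ^ 2 := by rw [hK]; ring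
    linarith
  have hK0 : 0 < K := by linarith
  refine ⟨3 * (1606 * (Λ ^ 2 * K)) ^ 2, K, max 1 (72 * Λ * C₀), 1 / (72 * Λ * (16 * (1 + 2 * Λ))),
    by positivity, by linarith, le_max_left _ _, by positivity, ?_, ?_⟩
  · rw [div_le_one (by positivity)]
    nlinarith
  intro N p m n x A δ S G hN hm hp hnp hmn hA hKA hδ0 hδ hne hG hS hGS
  have hm0 : (0 : ℝ) < m := by exact_mod_cast hm
  have hA1 : 1 ≤ A := (le_max_left _ _).trans hA
  have hA0 : 0 < A := by linarith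
  have hA2 : 72 * Λ * C₀ ≤ A := (le_max_right _ _).trans hA
  obtain ⟨u, hu, hu0, hu1, hu2⟩ := hflat m A hm hA1
  have hε : C₀ / A ≤ 1 / (72 * Λ) := by
    rw [div_le_div_iff₀ hA0 (by positivity)]; linarith
  have hε1 : 1 / (72 * Λ) ≤ 1 / 72 := by
    apply one_div_le_one_div_of_le (by norm_num); linarith
  have hs : Setup p m x A δ (C₀ / A) u :=
    ⟨hm, hA1, hδ0, hne, by positivity, by linarith, hu, hu0, hu1, hu2⟩
  set τ := C₀ / A + 16 * (1 + 2 * Λ) * δ with hτ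
  have hτ0 : 0 ≤ τ := by positivity
  have hτ1 : τ ≤ 1 / (36 * Λ) := by
    have h1 : 16 * (1 + 2 * Λ) * δ ≤ 1 / (72 * Λ) := by
      have h2 := mul_le_mul_of_nonneg_left hδ (by positivity : 0 ≤ 16 * (1 + 2 * Λ))
      refine h2.trans (le_of_eq ?_)
      field_simp
    have h2 : 1 / (36 * Λ) = 1 / (72 * Λ) + 1 / (72 * Λ) := by field_simp; norm_num
    linarith
  have hτΛ : τ * Λ ≤ 1 / 36 := by
    have := mul_le_mul_of_nonneg_right hτ1 hΛ0.le
    have e : 1 / (36 * Λ) * Λ = 1 / 36 := by field_simp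
    linarith
  have hnp' : (n : ℝ) ≤ p := by exact_mod_cast (by omega : n ≤ p)
  have hn : (n : ℝ) ≤ Λ * m := hnp'.trans hp
  have hAK : A ≤ K * A := by
    have := mul_le_mul_of_nonneg_right (by linarith : 1 ≤ K) hA0.le
    linarith
  have hA2m : 2 * A ≤ m := by linarith
  obtain ⟨Gl, z, D, hGl, hz, hdec, horth, hpy, hD, hD1, hD2, hzD⟩ := TP.split hmn hG
  have cG : Continuous G := hG.contDiff.continuous
  -- `|G| ≤ S` near
  have hGSA : ∀ θ, |sin θ| < A / m → |G θ| ≤ S := by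
    intro θ hθ
    apply hGS θ (hθ.trans_le _)
    gcongr
  set X := nm G with hX
  set L := nm Gl with hL
  set Z := nm (fun θ => ‖z θ‖) with hZ
  set R := rn x u G with hR
  set R1 := rn x u (deriv G) with hR1
  have hX0 : 0 ≤ X := nm_nonneg _
  have hL0 : 0 ≤ L := nm_nonneg _
  have hZ0 : 0 ≤ Z := nm_nonneg _
  have hR0 : 0 ≤ R := rn_nonneg _ _ _
  have hR10 : 0 ≤ R1 := rn_nonneg _ _ _
  set q := Real.sqrt (32 * π * A / m) with hq
  have hq0 : 0 ≤ q := Real.sqrt_nonneg _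
  have hqs : q ^ 2 = 32 * π * A / m := Real.sq_sqrt (by positivity)
  set σ := Real.sqrt (A ^ 3 / m) with hσ
  have hσ0 : 0 ≤ σ := Real.sqrt_nonneg _
  have hσs : σ ^ 2 = A ^ 3 / m := Real.sq_sqrt (by positivity)
  have hπ : π ≤ 3.15 := by linarith [pi_lt_d2]
  have hAq : A * q ≤ 11 * σ := by
    have h1 : (A * q) ^ 2 ≤ (11 * σ) ^ 2 := by
      rw [mul_pow, mul_pow, hqs, hσs]
      have e : A ^ 2 * (32 * π * A / m) = 32 * π * (A ^ 3 / m) := by ring
      rw [e]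
      have : 0 ≤ A ^ 3 / m := by positivity
      exact mul_le_mul_of_nonneg_right (by linarith) this
    exact (le_abs_self _).trans (abs_le_of_sq_le_sq h1 (by positivity))
  have hq11 : q ≤ 11 * σ := by
    have := mul_le_mul_of_nonneg_right hA1 hq0
    linarith
  have hτ2 : τ ≤ 1 := by
    have := mul_le_mul_of_nonneg_left hΛ hτ0
    linarith
  have hlow := hs.low hΛ hG hGl hmn hn hnp hA2m hτ2 hS hGSA horth
  rw [← hτ, ← hq, ← hR, ← hX, ← hL] at hlow
  have hSq : S * q ≤ 11 * (S * σ) := by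
    have := mul_le_mul_of_nonneg_left hq11 hS
    linarith
  have hSσ : 0 ≤ S * σ := mul_nonneg hS hσ0
  -- the high part
  have hhigh : Z ≤ 352 * (Λ ^ 2 * K) * (S * σ) + X / 8 + Λ * R + R1 / m + 4 * Λ * L := by
    rcases hmn.eq_or_lt with h0 | h0
    · -- `n = m`: `z = 0`
      have hz0 : ∀ θ, z θ = 0 := by
        obtain ⟨c, hc⟩ := hz
        intro θ
        rw [hc θ, Finset.Icc_eq_empty (by omega), Finset.sum_empty]
      have : Z = 0 := by
        rw [hZ]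
        unfold nm
        simp [hz0]
      rw [this]
      positivity
    · set B := 16 * n * (K * A / m) * S + 4 * Real.sqrt (m / (K * A)) * X with hB
      have hB0 : 0 ≤ B := by positivity
      have hBz : ∀ θ, |sin θ| < A / m → ‖z θ‖ ≤ B := fun θ hθ =>
        near_bound hm (by linarith) hA1 hKA cG hS hGS hD hD1 hD2 hzD hθ
      have h1 := hs.high hΛ hG hGl hz h0 hn hnp hA2m (by rw [← hτ]; linarith) hB0 hBz hdec
      rw [← hq, ← hR, ← hR1, ← hL, ← hZ] at h1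
      have hBq : B * q ≤ 176 * (Λ * K) * (S * σ) + X / (16 * Λ) := by
        have e : B * q = 16 * (n * (K * A / m)) * S * q +
            4 * Real.sqrt (m / (K * A)) * q * X := by rw [hB]; ring
        have h2 : (n : ℝ) * (K * A / m) ≤ Λ * K * A := by
          have := mul_le_mul_of_nonneg_right hn (by positivity : 0 ≤ K * A / m)
          refine this.trans (le_of_eq ?_)
          field_simp
        have h3 : 16 * (n * (K * A / m)) * S * q ≤ 176 * (Λ * K) * (S * σ) := by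
          have h4 := mul_le_mul_of_nonneg_right h2 (by positivity : 0 ≤ 16 * S * q)
          have h5 := mul_le_mul_of_nonneg_left hAq (by positivity : 0 ≤ 16 * Λ * K * S)
          calc 16 * (n * (K * A / m)) * S * q = n * (K * A / m) * (16 * S * q) := by ring
            _ ≤ Λ * K * A * (16 * S * q) := h4
            _ = 16 * Λ * K * S * (A * q) := by ring
            _ ≤ 16 * Λ * K * S * (11 * σ) := h5
            _ = 176 * (Λ * K) * (S * σ) := by ring
        have h6 : 4 * Real.sqrt (m / (K * A)) * q ≤ 1 / (16 * Λ) := by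
          have h7 : (4 * Real.sqrt (m / (K * A)) * q) ^ 2 ≤ (1 / (16 * Λ)) ^ 2 := by
            rw [mul_pow, mul_pow, hqs, Real.sq_sqrt (by positivity)]
            have e1 : (4 : ℝ) ^ 2 * (m / (K * A)) * (32 * π * A / m) = 512 * π / K := by
              field_simp
              ring
            rw [e1, hK, div_pow, div_le_div_iff₀ (by positivity) (by positivity)]
            have h9 : 0 ≤ Λ ^ 2 := sq_nonneg _
            have h10 := mul_le_mul_of_nonneg_right (by linarith : 131072 * π ≤ 495616) h9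
            have e4 : 512 * π * (16 * Λ) ^ 2 = 131072 * π * Λ ^ 2 := by ring
            have e5 : (1 : ℝ) ^ 2 * (704 * Λ) ^ 2 = 495616 * Λ ^ 2 := by ring
            rw [e4, e5]
            exact h10
          exact (le_abs_self _).trans (abs_le_of_sq_le_sq h7 (by positivity))
        rw [e]
        have h8 := mul_le_mul_of_nonneg_right h6 hX0
        have e2 : 1 / (16 * Λ) * X = X / (16 * Λ) := by ring
        linarith
      have h2 := mul_le_mul_of_nonneg_left hBq (by positivity : 0 ≤ 2 * Λ)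
      have e3 : 2 * Λ * (176 * (Λ * K) * (S * σ) + X / (16 * Λ)) =
          352 * (Λ ^ 2 * K) * (S * σ) + X / 8 := by
        field_simp
        ring
      linarith
  -- `X ≤ L + 2 Z`
  have hXL : X ≤ L + 2 * Z := by
    have h1 : X ^ 2 ≤ (L + 2 * Z) ^ 2 := by
      rw [hX, nm_sq, hpy, ← nm_sq Gl]
      have e : ∫ θ in (-π)..π, ‖z θ‖ ^ 2 = Z ^ 2 := (nm_sq _).symm
      rw [e, ← hL]
      have e2 : (L + 2 * Z) ^ 2 = L ^ 2 + 2 * Z ^ 2 + (4 * (L * Z) + 2 * Z ^ 2) := by ring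
      have e3 : 0 ≤ 4 * (L * Z) + 2 * Z ^ 2 := by positivity
      linarith
    exact (le_abs_self _).trans (abs_le_of_sq_le_sq h1 (by positivity))
  have hΛK1 : 1 ≤ Λ * K := one_le_mul_of_one_le_of_one_le hΛ (by linarith)
  have hΛ2K : Λ ≤ Λ ^ 2 * K := by
    have := mul_le_mul_of_nonneg_left hΛK1 hΛ0.le
    calc Λ = Λ * 1 := (mul_one _).symm
      _ ≤ Λ * (Λ * K) := this
      _ = Λ ^ 2 * K := by ring
  have hΛK : 1 ≤ Λ ^ 2 * K := hΛ.trans hΛ2K
  have hX1 : X ≤ 40 * Λ * R + 4 * (R1 / m) + 1606 * (Λ ^ 2 * K) * (S * σ) := by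
    have h1 : L ≤ 2 * R + τ * X + 11 * (S * σ) := by linarith
    have h2 : 9 * Λ * L ≤ 18 * Λ * R + X / 4 + 99 * (Λ ^ 2 * K) * (S * σ) := by
      have h3 := mul_le_mul_of_nonneg_left h1 (by positivity : 0 ≤ 9 * Λ)
      have h4 := mul_le_mul_of_nonneg_right hτΛ hX0
      have h5 := mul_le_mul_of_nonneg_right hΛ2K hSσ
      have e : 9 * Λ * (2 * R + τ * X + 11 * (S * σ)) =
          18 * Λ * R + 9 * (τ * Λ * X) + 99 * (Λ * (S * σ)) := by ring
      linarith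
    have h3 : L ≤ Λ * L := by
      have := mul_le_mul_of_nonneg_right hΛ hL0
      linarith
    linarith
  have hR1m : 0 ≤ R1 / m := by positivity
  have hfin : X ^ 2 ≤ 3 * ((40 * Λ * R) ^ 2 + (4 * (R1 / m)) ^ 2 +
      (1606 * (Λ ^ 2 * K) * (S * σ)) ^ 2) := by
    have h1 : X ^ 2 ≤ (40 * Λ * R + 4 * (R1 / m) + 1606 * (Λ ^ 2 * K) * (S * σ)) ^ 2 :=
      pow_le_pow_left₀ hX0 hX1 2
    exact h1.trans (three_sq _ _ _)
  have hRs : R ^ 2 ≤ 8 * mu x (fun θ => G θ ^ 2 / MA m A θ) := hs.rn_sq_le G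
  have hR1s : R1 ^ 2 ≤ 8 * mu x (fun θ => (deriv G θ) ^ 2 / MA m A θ) := hs.rn_sq_le (deriv G)
  set m1 := mu x (fun θ => G θ ^ 2 / MA m A θ) with hm1
  set m2 := mu x (fun θ => (deriv G θ) ^ 2 / MA m A θ) with hm2
  have hm10 : 0 ≤ m1 := by linarith [sq_nonneg R]
  have hm20 : 0 ≤ m2 := by linarith [sq_nonneg R1]
  rw [← nm_sq, ← hX]
  refine hfin.trans ?_
  have e1 : (40 * Λ * R) ^ 2 ≤ (1606 * (Λ ^ 2 * K)) ^ 2 * m1 := by
    have h1 : (40 * Λ * R) ^ 2 = 1600 * Λ ^ 2 * R ^ 2 := by ring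
    rw [h1]
    have h2 := mul_le_mul_of_nonneg_left hRs (by positivity : 0 ≤ 1600 * Λ ^ 2)
    have h3 : 12800 * Λ ^ 2 ≤ (1606 * (Λ ^ 2 * K)) ^ 2 := by
      have h4 : Λ ^ 2 ≤ (Λ ^ 2 * K) ^ 2 := pow_le_pow_left₀ hΛ0.le hΛ2K 2
      have e : (1606 * (Λ ^ 2 * K)) ^ 2 = 2579236 * (Λ ^ 2 * K) ^ 2 := by ring
      linarith [sq_nonneg (Λ ^ 2 * K)]
    have h4 := mul_le_mul_of_nonneg_right h3 hm10
    linarith
  have e2 : (4 * (R1 / m)) ^ 2 ≤ (1606 * (Λ ^ 2 * K)) ^ 2 * (m2 / m ^ 2) := by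
    have h1 : (4 * (R1 / m)) ^ 2 = 16 * (R1 ^ 2 / m ^ 2) := by ring
    rw [h1]
    have h2 : R1 ^ 2 / (m : ℝ) ^ 2 ≤ 8 * m2 / m ^ 2 := by gcongr
    have h3 : (128 : ℝ) ≤ (1606 * (Λ ^ 2 * K)) ^ 2 := by
      have h4 : 1 ≤ (Λ ^ 2 * K) ^ 2 := one_le_pow₀ hΛK
      have e : (1606 * (Λ ^ 2 * K)) ^ 2 = 2579236 * (Λ ^ 2 * K) ^ 2 := by ring
      linarith
    have h4 := mul_le_mul_of_nonneg_right h3 (by positivity : 0 ≤ m2 / (m : ℝ) ^ 2)
    have e : 8 * m2 / (m : ℝ) ^ 2 = 8 * (m2 / m ^ 2) := by ring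
    linarith
  have e3 : (1606 * (Λ ^ 2 * K) * (S * σ)) ^ 2 =
      (1606 * (Λ ^ 2 * K)) ^ 2 * (A ^ 3 / m * S ^ 2) := by
    rw [mul_pow, mul_pow S, hσs]; ring
  rw [e3]
  linarith

end Pool.Agent.H93.Ch
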