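import Pool.Agent.H93.Ch.Defs

/-! Module T: toolbox for trigonometric polynomials. (proved by helper95) -/

set_option autoImplicit false

namespace Pool.Agent.H93.Ch

open Real MeasureTheory

/-! ### exponentials and spans -/

/-- the exponential `e^{ikθ}` -/
noncomputable def ex (k : ℤ) (θ : ℝ) : ℂ := Complex.exp ((k : ℂ) * θ * Complex.I)

theorem ex_def (k : ℤ) (θ : ℝ) : ex k θ = Complex.exp ((k : ℂ) * θ * Complex.I) := rfl

theorem ex_zero (θ : ℝ) : ex 0 θ = 1 := by simp [ex]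

theorem ex_add (k l : ℤ) (θ : ℝ) : ex (k + l) θ = ex k θ * ex l θ := by
  rw [ex, ex, ex, ← Complex.exp_add]
  congr 1
  push_cast
  ring

theorem ex_add_arg (k : ℤ) (s t : ℝ) : ex k (s + t) = ex k s * ex k t := by
  rw [ex, ex, ex, ← Complex.exp_add]
  congr 1
  push_cast
  ring

theorem norm_ex (k : ℤ) (θ : ℝ) : ‖ex k θ‖ = 1 := by
  rw [ex]
  have : (k : ℂ) * θ * Complex.I = ((k * θ : ℝ) : ℂ) * Complex.I := by push_cast; ring
  rw [this, Complex.norm_exp_ofReal_mul_I]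

theorem conj_ex (k : ℤ) (θ : ℝ) : (starRingEnd ℂ) (ex k θ) = ex (-k) θ := by
  rw [ex, ex, ← Complex.exp_conj]
  congr 1
  simp

theorem ex_eq_cos (k : ℤ) (θ : ℝ) : ex k θ = (cos (k * θ) : ℝ) + (sin (k * θ) : ℝ) * Complex.I := by
  rw [ex]
  have : (k : ℂ) * θ * Complex.I = ((k * θ : ℝ) : ℂ) * Complex.I := by push_cast; ring
  rw [this, Complex.exp_mul_I, Complex.ofReal_cos, Complex.ofReal_sin]

theorem contDiff_ex (k : ℤ) : ContDiff ℝ (⊤ : ℕ∞) (ex k) := by
  unfold ex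
  have : ContDiff ℝ (⊤ : ℕ∞) (fun θ : ℝ => (k : ℂ) * (θ : ℂ) * Complex.I) :=
    (contDiff_const.mul Complex.ofRealCLM.contDiff).mul contDiff_const
  exact this.cexp

theorem continuous_ex (k : ℤ) : Continuous (ex k) := (contDiff_ex k).continuous

theorem hasDerivAt_ex (k : ℤ) (θ : ℝ) : HasDerivAt (ex k) (k * Complex.I * ex k θ) θ := by
  have h1 : HasDerivAt (fun θ : ℝ => (k : ℂ) * (θ : ℂ) * Complex.I) (k * Complex.I) θ := by
    have h := (Complex.ofRealCLM.hasDerivAt (x := θ)).const_mul (k : ℂ) |>.mul_const Complex.I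
    simpa using h
  have h2 := h1.cexp
  rw [mul_comm] at h2
  exact h2

theorem integral_ex (k : ℤ) : ∫ θ in (-π)..π, ex k θ = if k = 0 then (2 * (π : ℂ)) else 0 := by
  split_ifs with hk
  · subst hk
    simp only [ex_zero, intervalIntegral.integral_const, sub_neg_eq_add]
    simp
    ring
  · have hc : (k : ℂ) * Complex.I ≠ 0 := by
      simp [hk]
    have h := integral_exp_mul_complex (a := -π) (b := π) hc
    have e : ∫ θ in (-π)..π, ex k θ = ∫ x in (-π)..π, Complex.exp ((k : ℂ) * Complex.I * x) := by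
      congr 1
      funext θ
      rw [ex]
      ring_nf
    rw [e, h]
    have e2 : Complex.exp ((k : ℂ) * Complex.I * (π : ℝ)) =
        Complex.exp ((k : ℂ) * Complex.I * ((-π : ℝ) : ℂ)) := by
      rw [Complex.exp_eq_exp_iff_exists_int]
      exact ⟨k, by push_cast; ring⟩
    rw [e2, sub_self, zero_div]

/-- span of the exponentials with frequencies in `[a,b]` -/
noncomputable def SP (a b : ℤ) : Submodule ℂ (ℝ → ℂ) :=
  Submodule.span ℂ (ex '' (Finset.Icc a b : Finset ℤ))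

theorem tpi_iff {a b : ℤ} {h : ℝ → ℂ} : TPI a b h ↔ h ∈ SP a b := by
  rw [SP, Submodule.mem_span_image_finset_iff_exists_fun', TPI]
  constructor
  · rintro ⟨c, hc⟩
    refine ⟨c, ?_⟩
    funext θ
    rw [hc θ, Finset.sum_apply]
    rfl
  · rintro ⟨c, hc⟩
    refine ⟨c, fun θ => ?_⟩
    rw [← hc, Finset.sum_apply]
    rfl

theorem ex_mem {a b k : ℤ} (h1 : a ≤ k) (h2 : k ≤ b) : ex k ∈ SP a b :=
  Submodule.subset_span ⟨k, by simpa using ⟨h1, h2⟩, rfl⟩

theorem SP_mono {a b a' b' : ℤ} (h1 : a' ≤ a) (h2 : b ≤ b') : SP a b ≤ SP a' b' := by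
  refine Submodule.span_mono (Set.image_mono ?_)
  intro k hk
  simp only [Finset.coe_Icc, Set.mem_Icc] at hk ⊢
  omega

theorem SP_mul {a b c d : ℤ} {x y : ℝ → ℂ} (hx : x ∈ SP a b) (hy : y ∈ SP c d) :
    x * y ∈ SP (a + c) (b + d) := by
  have h := Submodule.mul_mem_mul hx hy
  rw [SP, SP, Submodule.span_mul_span] at h
  refine (Submodule.span_le.2 ?_) h
  rintro z ⟨u, ⟨k, hk, rfl⟩, v, ⟨l, hl, rfl⟩, rfl⟩
  simp only [Finset.coe_Icc, Set.mem_Icc] at hk hl
  have : (fun x1 x2 : ℝ → ℂ => x1 * x2) (ex k) (ex l) = ex (k + l) := by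
    funext θ
    simp [ex_add]
  rw [this]
  exact ex_mem (by omega) (by omega)

theorem SP_comp {a b a' b' : ℤ} {x : ℝ → ℂ} (hx : x ∈ SP a b) (f : ℝ → ℝ)
    (hf : ∀ k, a ≤ k → k ≤ b → (fun θ => ex k (f θ)) ∈ SP a' b') :
    (fun θ => x (f θ)) ∈ SP a' b' := by
  have h : (LinearMap.funLeft ℂ ℂ f) x ∈ (SP a b).map (LinearMap.funLeft ℂ ℂ f) :=
    Submodule.mem_map_of_mem hx
  rw [SP, Submodule.map_span] at h
  refine (Submodule.span_le.2 ?_) h
  rintro z ⟨u, ⟨k, hk, rfl⟩, rfl⟩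
  simp only [Finset.coe_Icc, Set.mem_Icc] at hk
  exact hf k hk.1 hk.2

theorem tp_iff {d : ℕ} {h : ℝ → ℝ} : TP d h ↔ (fun θ => (h θ : ℂ)) ∈ SP (-(d : ℤ)) d := tpi_iff

/-! ### coefficients -/

/-- Fourier coefficient -/
noncomputable def fc (f : ℝ → ℂ) (k : ℤ) : ℂ :=
  1 / (2 * π) * ∫ θ in (-π)..π, f θ * ex (-k) θ

theorem continuous_sum {s : Finset ℤ} (c : ℤ → ℂ) :
    Continuous (fun θ => ∑ k ∈ s, c k * ex k θ) :=
  continuous_finsetSum _ fun k _ => continuous_const.mul (continuous_ex k)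

theorem fc_sum (s : Finset ℤ) (c : ℤ → ℂ) (j : ℤ) :
    fc (fun θ => ∑ k ∈ s, c k * ex k θ) j = if j ∈ s then c j else 0 := by
  rw [fc]
  have e : ∀ θ, (∑ k ∈ s, c k * ex k θ) * ex (-j) θ = ∑ k ∈ s, c k * ex (k - j) θ := by
    intro θ
    rw [Finset.sum_mul]
    refine Finset.sum_congr rfl fun k _ => ?_
    rw [sub_eq_add_neg, ex_add]
    ring
  simp_rw [e]
  rw [intervalIntegral.integral_finsetSum]
  · simp_rw [intervalIntegral.integral_const_mul, integral_ex]
    have e2 : ∀ k ∈ s, c k * (if k - j = 0 then (2 * (π : ℂ)) else 0) =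
        if j = k then c j * (2 * π) else 0 := by
      intro k _
      by_cases h : j = k
      · subst h; simp
      · have : k - j ≠ 0 := by omega
        simp [h, this]
    rw [Finset.sum_congr rfl e2, Finset.sum_ite_eq]
    have hpi : (π : ℂ) ≠ 0 := by exact_mod_cast pi_ne_zero
    split_ifs
    · field_simp
    · simp
  · intro k _
    exact (continuous_const.mul (continuous_ex _)).intervalIntegrable _ _

theorem eq_sum_fc {a b : ℤ} {h : ℝ → ℂ} (hh : TPI a b h) (θ : ℝ) :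
    h θ = ∑ k ∈ Finset.Icc a b, fc h k * ex k θ := by
  obtain ⟨c, hc⟩ := hh
  have hc' : h = fun θ => ∑ k ∈ Finset.Icc a b, c k * ex k θ := funext hc
  have : ∀ k ∈ Finset.Icc a b, fc h k = c k := by
    intro k hk
    rw [hc', fc_sum, if_pos hk]
  rw [hc θ]
  exact Finset.sum_congr rfl fun k hk => by rw [this k hk]; rfl

theorem int_conj (F : ℝ → ℂ) :
    (starRingEnd ℂ) (∫ θ in (-π)..π, F θ) = ∫ θ in (-π)..π, (starRingEnd ℂ) (F θ) := by
  have hpi : (-π) ≤ π := by linarith [pi_pos]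
  rw [intervalIntegral.integral_of_le hpi, intervalIntegral.integral_of_le hpi, integral_conj]

theorem fc_conj (f : ℝ → ℝ) (k : ℤ) :
    (starRingEnd ℂ) (fc (fun θ => (f θ : ℂ)) k) = fc (fun θ => (f θ : ℂ)) (-k) := by
  rw [fc, fc, map_mul, int_conj]
  congr 1
  · have : (1 / (2 * (π : ℂ))) = ((1 / (2 * π) : ℝ) : ℂ) := by push_cast; ring
    rw [this, Complex.conj_ofReal]
  · congr 1
    funext θ
    rw [map_mul, conj_ex, Complex.conj_ofReal]

/-- Parseval, sesquilinear form. -/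
theorem parseval (s : Finset ℤ) (c d : ℤ → ℂ) :
    ∫ θ in (-π)..π, (∑ k ∈ s, c k * ex k θ) * (starRingEnd ℂ) (∑ k ∈ s, d k * ex k θ) =
      2 * π * ∑ k ∈ s, c k * (starRingEnd ℂ) (d k) := by
  have e : ∀ θ, (∑ k ∈ s, c k * ex k θ) * (starRingEnd ℂ) (∑ k ∈ s, d k * ex k θ) =
      ∑ j ∈ s, (starRingEnd ℂ) (d j) * ((∑ k ∈ s, c k * ex k θ) * ex (-j) θ) := by
    intro θ
    rw [map_sum, Finset.mul_sum]
    refine Finset.sum_congr rfl fun j _ => ?_
    rw [map_mul, conj_ex]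
    ring
  simp_rw [e]
  rw [intervalIntegral.integral_finsetSum]
  · rw [Finset.mul_sum]
    refine Finset.sum_congr rfl fun j hj => ?_
    rw [intervalIntegral.integral_const_mul]
    have h := fc_sum s c j
    rw [if_pos hj, fc] at h
    have hpi : (π : ℂ) ≠ 0 := by exact_mod_cast pi_ne_zero
    have h2 : ∫ θ in (-π)..π, (∑ k ∈ s, c k * ex k θ) * ex (-j) θ = 2 * π * c j := by
      rw [← h]; field_simp
    rw [h2]
    ring
  · intro j _
    exact (continuous_const.mul ((continuous_sum c).mul (continuous_ex _))).intervalIntegrable _ _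

theorem parseval_norm (s : Finset ℤ) (c : ℤ → ℂ) :
    ∫ θ in (-π)..π, ‖∑ k ∈ s, c k * ex k θ‖ ^ 2 = 2 * π * ∑ k ∈ s, ‖c k‖ ^ 2 := by
  have h := parseval s c c
  have e : ∀ z : ℂ, z * (starRingEnd ℂ) z = ((‖z‖ ^ 2 : ℝ) : ℂ) := by
    intro z
    rw [Complex.mul_conj, Complex.normSq_eq_norm_sq]
  simp_rw [e] at h
  rw [intervalIntegral.integral_ofReal] at h
  exact_mod_cast h

/-! ### closure properties -/

theorem TP.mono {d e : ℕ} {h : ℝ → ℝ} (hde : d ≤ e) (hh : TP d h) : TP e h := by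
  rw [tp_iff] at *
  exact SP_mono (by omega) (by omega) hh

theorem TP.add {d : ℕ} {h k : ℝ → ℝ} (hh : TP d h) (hk : TP d k) :
    TP d (fun θ => h θ + k θ) := by
  rw [tp_iff] at *
  have := (SP _ _).add_mem hh hk
  convert this using 1
  funext θ
  simp

theorem TP.const_mul {d : ℕ} {h : ℝ → ℝ} (c : ℝ) (hh : TP d h) :
    TP d (fun θ => c * h θ) := by
  rw [tp_iff] at *
  have := (SP _ _).smul_mem (c : ℂ) hh
  convert this using 1
  funext θ
  simp

theorem TP.sub {d : ℕ} {h k : ℝ → ℝ} (hh : TP d h) (hk : TP d k) :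
    TP d (fun θ => h θ - k θ) := by
  have := hh.add (hk.const_mul (-1))
  convert this using 2
  ring

theorem TP.const (d : ℕ) (c : ℝ) : TP d (fun _ => c) := by
  rw [tp_iff]
  have h1 : ex 0 ∈ SP (-(d : ℤ)) d := ex_mem (by omega) (by omega)
  have := (SP _ _).smul_mem (c : ℂ) h1
  convert this using 1
  funext θ
  simp [ex_zero]

theorem TP.sum {ι : Type*} {d : ℕ} (s : Finset ι) (f : ι → ℝ → ℝ)
    (hf : ∀ i ∈ s, TP d (f i)) : TP d (fun θ => ∑ i ∈ s, f i θ) := by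
  classical
  induction s using Finset.induction_on with
  | empty => simpa using TP.const d 0
  | insert a s ha ih =>
    simp only [Finset.sum_insert ha]
    exact (hf a (Finset.mem_insert_self _ _)).add
      (ih fun i hi => hf i (Finset.mem_insert_of_mem hi))

theorem TP.mul {d e : ℕ} {h k : ℝ → ℝ} (hh : TP d h) (hk : TP e k) :
    TP (d + e) (fun θ => h θ * k θ) := by
  rw [tp_iff] at *
  have := SP_mul hh hk
  have h2 := SP_mono (a' := -((d + e : ℕ) : ℤ)) (b' := ((d + e : ℕ) : ℤ)) (by push_cast; omega)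
    (by push_cast; omega) this
  convert h2 using 1
  funext θ
  simp

theorem TP.pow {d : ℕ} {h : ℝ → ℝ} (hh : TP d h) (n : ℕ) :
    TP (n * d) (fun θ => h θ ^ n) := by
  induction n with
  | zero => simpa using TP.const (0 * d) 1
  | succ n ih =>
    have := ih.mul hh
    have e : n * d + d = (n + 1) * d := by ring
    rw [e] at this
    convert this using 2
    rw [pow_succ]

theorem TP.comp_sub {d : ℕ} {h : ℝ → ℝ} (hh : TP d h) (t : ℝ) :
    TP d (fun θ => h (θ - t)) := by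
  rw [tp_iff] at *
  refine SP_comp hh (fun θ => θ - t) fun k h1 h2 => ?_
  have e : (fun θ => ex k (θ - t)) = ex k (-t) • ex k := by
    funext θ
    rw [sub_eq_add_neg, ex_add_arg, Pi.smul_apply, smul_eq_mul, mul_comm]
  rw [e]
  exact (SP _ _).smul_mem _ (ex_mem h1 h2)

theorem TP.comp_neg {d : ℕ} {h : ℝ → ℝ} (hh : TP d h) : TP d (fun θ => h (-θ)) := by
  rw [tp_iff] at *
  refine SP_comp hh (fun θ => -θ) fun k h1 h2 => ?_
  have e : (fun θ => ex k (-θ)) = ex (-k) := by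
    funext θ
    rw [ex, ex]
    congr 1
    push_cast
    ring
  rw [e]
  exact ex_mem (by omega) (by omega)

theorem TP.comp_nat_mul {d : ℕ} {h : ℝ → ℝ} (hh : TP d h) (k : ℕ) :
    TP (k * d) (fun θ => h (k * θ)) := by
  rw [tp_iff] at *
  refine SP_comp hh (fun θ => k * θ) fun l h1 h2 => ?_
  have e : (fun θ => ex l (k * θ)) = ex (k * l) := by
    funext θ
    rw [ex, ex]
    congr 1
    push_cast
    ring
  rw [e]
  have hk : (0 : ℤ) ≤ k := by positivity
  refine ex_mem ?_ ?_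
  · push_cast
    nlinarith
  · push_cast
    nlinarith

theorem TPI.contDiff {a b : ℤ} {z : ℝ → ℂ} (hz : TPI a b z) : ContDiff ℝ (⊤ : ℕ∞) z := by
  obtain ⟨c, hc⟩ := hz
  have : z = fun θ => ∑ k ∈ Finset.Icc a b, c k * ex k θ := funext hc
  rw [this]
  exact ContDiff.sum fun k _ => contDiff_const.mul (contDiff_ex k)

theorem TP.contDiff {d : ℕ} {h : ℝ → ℝ} (hh : TP d h) : ContDiff ℝ (⊤ : ℕ∞) h := by
  have h1 := TPI.contDiff hh
  have h2 := Complex.reCLM.contDiff.comp h1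
  have e : (Complex.reCLM ∘ fun θ => (h θ : ℂ)) = h := by
    funext θ
    simp
  rw [e] at h2
  exact h2

theorem hasDerivAt_sum (s : Finset ℤ) (c : ℤ → ℂ) (θ : ℝ) :
    HasDerivAt (fun θ => ∑ k ∈ s, c k * ex k θ) (∑ k ∈ s, (c k * (k * Complex.I)) * ex k θ) θ := by
  have h := HasDerivAt.fun_sum (u := s) (A := fun k θ => c k * ex k θ)
    (A' := fun k => c k * (k * Complex.I * ex k θ)) (x := θ)
    (fun k _ => (hasDerivAt_ex k θ).const_mul (c k))
  refine h.congr_deriv ?_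
  refine Finset.sum_congr rfl fun k _ => ?_
  ring

theorem TPI.deriv_eq {a b : ℤ} {z : ℝ → ℂ} {c : ℤ → ℂ}
    (hc : ∀ θ, z θ = ∑ k ∈ Finset.Icc a b, c k * ex k θ) (θ : ℝ) :
    _root_.deriv z θ = ∑ k ∈ Finset.Icc a b, (c k * (k * Complex.I)) * ex k θ := by
  have : z = fun θ => ∑ k ∈ Finset.Icc a b, c k * ex k θ := funext hc
  rw [this]
  exact (hasDerivAt_sum _ _ θ).deriv

theorem TPI.deriv {a b : ℤ} {z : ℝ → ℂ} (hz : TPI a b z) : TPI a b (_root_.deriv z) := by
  obtain ⟨c, hc⟩ := hz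
  exact ⟨fun k => c k * (k * Complex.I), fun θ => TPI.deriv_eq hc θ⟩

theorem deriv_ofReal {h : ℝ → ℝ} (hh : Differentiable ℝ h) (θ : ℝ) :
    _root_.deriv (fun θ => (h θ : ℂ)) θ = ((_root_.deriv h θ : ℝ) : ℂ) :=
  (hh θ).hasDerivAt.ofReal_comp.deriv

theorem TP.deriv {d : ℕ} {h : ℝ → ℝ} (hh : TP d h) : TP d (_root_.deriv h) := by
  have h1 := TPI.deriv hh
  have hd : Differentiable ℝ h := hh.contDiff.differentiable (by simp)
  have e : _root_.deriv (fun θ => (h θ : ℂ)) = fun θ => ((_root_.deriv h θ : ℝ) : ℂ) :=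
    funext fun θ => deriv_ofReal hd θ
  rw [e] at h1
  exact h1

theorem ex_periodic (k : ℤ) : Function.Periodic (ex k) (2 * π) := by
  intro θ
  rw [ex, ex, Complex.exp_eq_exp_iff_exists_int]
  exact ⟨k, by push_cast; ring⟩

theorem TP.periodic {d : ℕ} {h : ℝ → ℝ} (hh : TP d h) : Function.Periodic h (2 * π) := by
  intro θ
  obtain ⟨c, hc⟩ := hh
  have h1 : ((h (θ + 2 * π) : ℝ) : ℂ) = _ := hc (θ + 2 * π)
  have h2 : ((h θ : ℝ) : ℂ) = _ := hc θ
  have e : ∀ k ∈ Finset.Icc (-(d : ℤ)) d, c k * ex k (θ + 2 * π) = c k * ex k θ := fun k _ => by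
    rw [ex_periodic k θ]
  have h3 : ((h (θ + 2 * π) : ℝ) : ℂ) = (h θ : ℂ) := by
    rw [h1, h2]
    exact Finset.sum_congr rfl e
  exact_mod_cast h3

theorem TP.cos_mul (k : ℕ) : TP k (fun θ => cos (k * θ)) := by
  rw [tp_iff]
  have h1 : ex k ∈ SP (-(k : ℤ)) k := ex_mem (by omega) (by omega)
  have h2 : ex (-k) ∈ SP (-(k : ℤ)) k := ex_mem (by omega) (by omega)
  have := (SP _ _).smul_mem (1 / 2 : ℂ) ((SP _ _).add_mem h1 h2)
  convert this using 1
  funext θ
  simp only [Pi.smul_apply, Pi.add_apply, smul_eq_mul, ex_eq_cos]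
  push_cast
  rw [neg_mul, Complex.cos_neg, Complex.sin_neg]
  ring

theorem TP.sin_mul (k : ℕ) : TP k (fun θ => sin (k * θ)) := by
  rw [tp_iff]
  have h1 : ex k ∈ SP (-(k : ℤ)) k := ex_mem (by omega) (by omega)
  have h2 : ex (-k) ∈ SP (-(k : ℤ)) k := ex_mem (by omega) (by omega)
  have := (SP _ _).smul_mem (1 / (2 * Complex.I) : ℂ) ((SP _ _).sub_mem h1 h2)
  convert this using 1
  funext θ
  simp only [Pi.smul_apply, Pi.sub_apply, smul_eq_mul, ex_eq_cos]
  push_cast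
  rw [neg_mul, Complex.cos_neg, Complex.sin_neg]
  field_simp
  ring

theorem TP.poly_cos {d : ℕ} (P : Polynomial ℝ) (hP : P.natDegree ≤ d) :
    TP d (fun θ => P.eval (cos θ)) := by
  have h1 : TP 1 (fun θ => cos θ) := by
    have := TP.cos_mul 1
    simpa using this
  have h2 : TP d (fun θ => ∑ i ∈ Finset.range (P.natDegree + 1), P.coeff i * cos θ ^ i) := by
    refine TP.sum _ _ fun i hi => ?_
    have h3 := (h1.pow i).const_mul (P.coeff i)
    refine h3.mono ?_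
    rw [Finset.mem_range] at hi
    omega
  convert h2 using 2
  rw [Polynomial.eval_eq_sum_range]

/-- an even real trigonometric polynomial is a polynomial in `cos θ` -/
theorem TP.even_eq_poly {d : ℕ} {h : ℝ → ℝ} (hh : TP d h) (he : ∀ θ, h (-θ) = h θ) :
    ∃ P : Polynomial ℝ, P.natDegree ≤ d ∧ ∀ θ, h θ = P.eval (cos θ) := by
  obtain ⟨c, hc⟩ := hh
  refine ⟨∑ k ∈ Finset.Icc (-(d : ℤ)) d, Polynomial.C (c k).re * Polynomial.Chebyshev.T ℝ k,
    ?_, ?_⟩
  · refine Polynomial.natDegree_sum_le_of_forall_le _ _ fun k hk => ?_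
    refine (Polynomial.natDegree_C_mul_le _ _).trans ?_
    rw [Polynomial.Chebyshev.natDegree_T]
    rw [Finset.mem_Icc] at hk
    omega
  · intro θ
    have h1 : ((h θ : ℝ) : ℂ) = _ := hc θ
    have h2 : ((h (-θ) : ℝ) : ℂ) = _ := hc (-θ)
    rw [he] at h2
    have h3 : ((h θ : ℝ) : ℂ) = ∑ k ∈ Finset.Icc (-(d : ℤ)) d, c k * (cos (k * θ) : ℝ) := by
      have h4 : (2 : ℂ) * (h θ : ℝ) = 2 * ∑ k ∈ Finset.Icc (-(d : ℤ)) d, c k * (cos (k * θ) : ℝ) := by
        rw [two_mul]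
        nth_rewrite 1 [h1]
        rw [h2, ← Finset.sum_add_distrib, Finset.mul_sum]
        refine Finset.sum_congr rfl fun k _ => ?_
        have e1 : Complex.exp ((k : ℂ) * θ * Complex.I) = ex k θ := rfl
        have e2 : Complex.exp ((k : ℂ) * ((-θ : ℝ) : ℂ) * Complex.I) = ex k (-θ) := rfl
        rw [e1, e2, ex_eq_cos, ex_eq_cos, mul_neg, Real.cos_neg, Real.sin_neg]
        push_cast
        ring
      exact mul_left_cancel₀ two_ne_zero h4
    have h5 := congrArg Complex.re h3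
    rw [Complex.ofReal_re, Complex.re_sum] at h5
    rw [h5, Polynomial.eval_finsetSum]
    refine Finset.sum_congr rfl fun k _ => ?_
    rw [Polynomial.eval_mul, Polynomial.eval_C, Polynomial.Chebyshev.T_real_cos,
      Complex.re_mul_ofReal]

/-- translation invariance of the integral over a period (for any periodic function) -/
theorem int_shift {f : ℝ → ℝ} (hf : Function.Periodic f (2 * π)) (t : ℝ) :
    ∫ θ in (-π)..π, f (θ - t) = ∫ θ in (-π)..π, f θ := by
  rw [intervalIntegral.integral_comp_sub_right]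
  have h := hf.intervalIntegral_add_eq (-π - t) (-π)
  rw [show -π - t + 2 * π = π - t by ring, show -π + 2 * π = π by ring] at h
  exact h

/-- reflection: `∫ f (t - θ) dθ = ∫ f` over a period -/
theorem int_reflect {f : ℝ → ℝ} (hf : Function.Periodic f (2 * π)) (t : ℝ) :
    ∫ θ in (-π)..π, f (t - θ) = ∫ θ in (-π)..π, f θ := by
  rw [intervalIntegral.integral_comp_sub_left]
  have h := hf.intervalIntegral_add_eq (t - π) (-π)
  rw [show t - π + 2 * π = t - -π by ring, show -π + 2 * π = π by ring] at h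
  exact h

/-! ### `L²` inequalities -/

theorem TPI.L2_general {a b : ℤ} {z : ℝ → ℂ} (hz : TPI a b z) (μ M : ℝ)
    (hM : ∀ k : ℤ, a ≤ k → k ≤ b → |(k : ℝ) - μ| ≤ M) :
    ∫ θ in (-π)..π, ‖_root_.deriv z θ - Complex.I * μ * z θ‖ ^ 2
      ≤ M ^ 2 * ∫ θ in (-π)..π, ‖z θ‖ ^ 2 := by
  obtain ⟨c, hc⟩ := hz
  have hc' : ∀ θ, z θ = ∑ k ∈ Finset.Icc a b, c k * ex k θ := hc
  have e1 : ∀ θ, _root_.deriv z θ - Complex.I * μ * z θ =
      ∑ k ∈ Finset.Icc a b, (c k * ((k - μ) * Complex.I)) * ex k θ := by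
    intro θ
    rw [TPI.deriv_eq hc' θ, hc' θ, Finset.mul_sum, ← Finset.sum_sub_distrib]
    refine Finset.sum_congr rfl fun k _ => ?_
    ring
  simp_rw [e1, hc']
  rw [parseval_norm, parseval_norm]
  have hpi := pi_pos
  have key : ∑ k ∈ Finset.Icc a b, ‖c k * ((k - μ) * Complex.I)‖ ^ 2 ≤
      M ^ 2 * ∑ k ∈ Finset.Icc a b, ‖c k‖ ^ 2 := by
    rw [Finset.mul_sum]
    refine Finset.sum_le_sum fun k hk => ?_
    rw [Finset.mem_Icc] at hk
    have h1 := hM k hk.1 hk.2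
    have h2 : ‖((k : ℂ) - μ)‖ = |(k : ℝ) - μ| := by
      have : ((k : ℂ) - μ) = (((k : ℝ) - μ : ℝ) : ℂ) := by push_cast; ring
      rw [this, Complex.norm_real, Real.norm_eq_abs]
    rw [norm_mul, norm_mul, Complex.norm_I, mul_one, h2, mul_pow]
    have h3 : |(k : ℝ) - μ| ^ 2 ≤ M ^ 2 := by
      gcongr
    nlinarith [sq_nonneg ‖c k‖]
  calc 2 * π * ∑ k ∈ Finset.Icc a b, ‖c k * ((k - μ) * Complex.I)‖ ^ 2
      ≤ 2 * π * (M ^ 2 * ∑ k ∈ Finset.Icc a b, ‖c k‖ ^ 2) := by gcongr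
    _ = _ := by ring

theorem TPI.L2_deriv {a b : ℤ} {M : ℝ} (ha : -M ≤ a) (hb : (b : ℝ) ≤ M) {z : ℝ → ℂ}
    (hz : TPI a b z) :
    ∫ θ in (-π)..π, ‖_root_.deriv z θ‖ ^ 2 ≤ M ^ 2 * ∫ θ in (-π)..π, ‖z θ‖ ^ 2 := by
  have h := hz.L2_general 0 M fun k h1 h2 => by
    have h1' : (a : ℝ) ≤ k := by exact_mod_cast h1
    have h2' : (k : ℝ) ≤ b := by exact_mod_cast h2
    rw [sub_zero, abs_le]
    constructor <;> linarith
  simpa using h

theorem TPI.L2_shifted {a b : ℤ} (_hab : a ≤ b) {z : ℝ → ℂ} (hz : TPI a b z) :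
    ∫ θ in (-π)..π, ‖_root_.deriv z θ - Complex.I * (((a : ℝ) + b) / 2 : ℝ) * z θ‖ ^ 2
      ≤ (((b : ℝ) - a) / 2) ^ 2 * ∫ θ in (-π)..π, ‖z θ‖ ^ 2 := by
  have h := hz.L2_general (((a : ℝ) + b) / 2) (((b : ℝ) - a) / 2) fun k h1 h2 => by
    have h1' : (a : ℝ) ≤ k := by exact_mod_cast h1
    have h2' : (k : ℝ) ≤ b := by exact_mod_cast h2
    rw [abs_le]
    constructor <;> linarith
  exact h

/-- `L²` Bernstein inequality -/
theorem TP.L2_deriv {d : ℕ} {h : ℝ → ℝ} (hh : TP d h) :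
    ∫ θ in (-π)..π, (_root_.deriv h θ) ^ 2 ≤ (d : ℝ) ^ 2 * ∫ θ in (-π)..π, (h θ) ^ 2 := by
  have h1 := TPI.L2_deriv (M := d) (by simp) (by simp) hh
  have hd : Differentiable ℝ h := hh.contDiff.differentiable (by simp)
  simp only [deriv_ofReal hd, Complex.norm_real, Real.norm_eq_abs, sq_abs] at h1
  exact h1

/-- reproduction by the Dirichlet kernel -/
theorem dirichlet (d : ℕ) : ∃ D : ℝ → ℝ, Continuous D ∧ (∀ θ, |D θ| ≤ 2 * d + 1) ∧
    ∀ h : ℝ → ℝ, TP d h → ∀ t, h t = 1 / (2 * π) * ∫ s in (-π)..π, h s * D (t - s) := by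
  have hreal : ∀ θ : ℝ, ∑ k ∈ Finset.Icc (-(d : ℤ)) d, ex k θ =
      ((∑ k ∈ Finset.Icc (-(d : ℤ)) d, cos (k * θ) : ℝ) : ℂ) := by
    intro θ
    have h1 : ∑ k ∈ Finset.Icc (-(d : ℤ)) d, ex k θ = ∑ k ∈ Finset.Icc (-(d : ℤ)) d, ex (-k) θ := by
      refine Finset.sum_nbij' (fun k => -k) (fun k => -k) ?_ ?_ ?_ ?_ ?_
      · intro k hk; rw [Finset.mem_Icc] at *; omega
      · intro k hk; rw [Finset.mem_Icc] at *; omega
      · intro k _; simp
      · intro k _; simp
      · intro k _; simp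
    have h2 : (2 : ℂ) * ∑ k ∈ Finset.Icc (-(d : ℤ)) d, ex k θ =
        2 * ((∑ k ∈ Finset.Icc (-(d : ℤ)) d, cos (k * θ) : ℝ) : ℂ) := by
      rw [two_mul]
      nth_rewrite 2 [h1]
      rw [← Finset.sum_add_distrib, Complex.ofReal_sum, Finset.mul_sum]
      refine Finset.sum_congr rfl fun k _ => ?_
      rw [ex_eq_cos, ex_eq_cos]
      push_cast
      rw [neg_mul, Complex.cos_neg, Complex.sin_neg]
      ring
    exact mul_left_cancel₀ two_ne_zero h2
  refine ⟨fun θ => ∑ k ∈ Finset.Icc (-(d : ℤ)) d, cos (k * θ), ?_, ?_, ?_⟩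
  · exact continuous_finsetSum _ fun k _ => by fun_prop
  · intro θ
    refine (Finset.abs_sum_le_sum_abs _ _).trans ?_
    have : ∑ k ∈ Finset.Icc (-(d : ℤ)) d, |cos (k * θ)| ≤ ∑ k ∈ Finset.Icc (-(d : ℤ)) d, (1 : ℝ) :=
      Finset.sum_le_sum fun k _ => abs_cos_le_one _
    refine this.trans ?_
    rw [Finset.sum_const, Int.card_Icc, nsmul_eq_mul, mul_one]
    have : ((d : ℤ) + 1 - -(d : ℤ)).toNat = 2 * d + 1 := by omega
    rw [this]
    push_cast
    exact le_rfl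
  · intro h hh t
    have h1 := eq_sum_fc hh t
    have h2 : ∀ k ∈ Finset.Icc (-(d : ℤ)) d, fc (fun θ => (h θ : ℂ)) k * ex k t =
        1 / (2 * π) * ∫ s in (-π)..π, (h s : ℂ) * ex k (t - s) := by
      intro k _
      rw [fc, mul_assoc, ← intervalIntegral.integral_mul_const]
      congr 2
      funext s
      have : ex k (t - s) = ex (-k) s * ex k t := by
        rw [sub_eq_add_neg, ex_add_arg, mul_comm]
        congr 1
        rw [ex, ex]
        congr 1
        push_cast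
        ring
      rw [this]
      ring
    have hcont : Continuous h := hh.contDiff.continuous
    have h3 : ((h t : ℝ) : ℂ) = 1 / (2 * π) * ∫ s in (-π)..π,
        ∑ k ∈ Finset.Icc (-(d : ℤ)) d, (h s : ℂ) * ex k (t - s) := by
      rw [h1, Finset.sum_congr rfl h2, ← Finset.mul_sum, intervalIntegral.integral_finsetSum]
      intro k _
      refine Continuous.intervalIntegrable ?_ _ _
      exact (Complex.continuous_ofReal.comp hcont).mul ((continuous_ex k).comp (by fun_prop))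
    have h4 : ∀ s, ∑ k ∈ Finset.Icc (-(d : ℤ)) d, (h s : ℂ) * ex k (t - s) =
        ((h s * ∑ k ∈ Finset.Icc (-(d : ℤ)) d, cos (k * (t - s)) : ℝ) : ℂ) := by
      intro s
      rw [← Finset.mul_sum, hreal, Complex.ofReal_mul]
    simp_rw [h4] at h3
    rw [intervalIntegral.integral_ofReal] at h3
    exact_mod_cast h3

/-- the shifted derivative `z' - i μ z`, `μ = (a+b)/2` -/
theorem TPI.shifted {a b : ℤ} {z : ℝ → ℂ} (hz : TPI a b z) (μ : ℝ) :
    TPI a b (fun θ => _root_.deriv z θ - Complex.I * μ * z θ) := by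
  have h1 := tpi_iff.1 hz.deriv
  have h2 := tpi_iff.1 hz
  rw [tpi_iff]
  have := (SP a b).sub_mem h1 ((SP a b).smul_mem (Complex.I * μ) h2)
  exact this

theorem TPI.normSq {a b : ℤ} {z : ℝ → ℂ} (hz : TPI a b z) :
    TP (b - a).toNat (fun θ => ‖z θ‖ ^ 2) := by
  obtain ⟨c, hc⟩ := hz
  have hz' : z ∈ SP a b := tpi_iff.1 ⟨c, hc⟩
  by_cases hab : b < a
  · have h0 : ∀ θ, z θ = 0 := fun θ => by
      rw [hc θ, Finset.Icc_eq_empty (by omega), Finset.sum_empty]
    have : (fun θ => ‖z θ‖ ^ 2) = fun _ => (0 : ℝ) := by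
      funext θ; rw [h0 θ]; simp
    rw [this]
    exact TP.const _ 0
  · have hconj : (fun θ => (starRingEnd ℂ) (z θ)) ∈ SP (-b) (-a) := by
      have : (fun θ => (starRingEnd ℂ) (z θ)) =
          ∑ k ∈ Finset.Icc a b, (starRingEnd ℂ) (c k) • ex (-k) := by
        funext θ
        rw [hc θ, map_sum, Finset.sum_apply]
        refine Finset.sum_congr rfl fun k _ => ?_
        rw [map_mul, Pi.smul_apply, smul_eq_mul, ← conj_ex]
        rfl
      rw [this]
      refine (SP _ _).sum_mem fun k hk => (SP _ _).smul_mem _ ?_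
      rw [Finset.mem_Icc] at hk
      exact ex_mem (by omega) (by omega)
    have h := SP_mul hz' hconj
    rw [tp_iff]
    have h2 := SP_mono (a' := -((b - a).toNat : ℤ)) (b' := ((b - a).toNat : ℤ)) (by omega)
      (by omega) h
    convert h2 using 1
    funext θ
    rw [Pi.mul_apply, Complex.mul_conj, Complex.normSq_eq_norm_sq]

/-- splitting of a real trigonometric polynomial into low frequencies and the analytic
high-frequency part, with the kernel representation of the latter -/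
theorem TP.split {n L : ℕ} (hLn : L ≤ n) {G : ℝ → ℝ} (hG : TP n G) :
    ∃ (Gl : ℝ → ℝ) (z : ℝ → ℂ) (D : ℝ → ℂ), TP L Gl ∧ TPI (L + 1) n z ∧
      (∀ θ, G θ = Gl θ + 2 * (z θ).re) ∧
      (∫ θ in (-π)..π, G θ * Gl θ = ∫ θ in (-π)..π, (Gl θ) ^ 2) ∧
      (∫ θ in (-π)..π, (G θ) ^ 2
        = (∫ θ in (-π)..π, (Gl θ) ^ 2) + 2 * ∫ θ in (-π)..π, ‖z θ‖ ^ 2) ∧
      Continuous D ∧ (∀ θ, ‖D θ‖ ≤ n) ∧ (∀ θ, ‖D θ‖ * |sin (θ / 2)| ≤ 1) ∧
      ∀ s, z s = 1 / (2 * π) * ∫ t in (-π)..π, (G t : ℂ) * D (s - t) := by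
  set g : ℝ → ℂ := fun θ => (G θ : ℂ) with hg
  set c : ℤ → ℂ := fc g with hc
  have hGs : ∀ θ, (G θ : ℂ) = ∑ k ∈ Finset.Icc (-(n : ℤ)) n, c k * ex k θ := eq_sum_fc hG
  have hcc : ∀ k, (starRingEnd ℂ) (c k) = c (-k) := fun k => fc_conj G k
  set SL := Finset.Icc (-(L : ℤ)) L with hSL
  set SH := Finset.Icc ((L : ℤ) + 1) n with hSH
  set SN := Finset.Icc (-(n : ℤ)) (-(L : ℤ) - 1) with hSN
  have hdec : ∀ f : ℤ → ℂ, ∑ k ∈ Finset.Icc (-(n : ℤ)) n, f k =
      (∑ k ∈ SL, f k) + ((∑ k ∈ SH, f k) + ∑ k ∈ SN, f k) := by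
    intro f
    have hU : Finset.Icc (-(n : ℤ)) n = SL ∪ (SH ∪ SN) := by
      ext k
      simp only [hSL, hSH, hSN, Finset.mem_union, Finset.mem_Icc]
      omega
    rw [hU, Finset.sum_union, Finset.sum_union]
    · rw [Finset.disjoint_left]
      intro k h1 h2
      simp only [hSH, hSN, Finset.mem_Icc] at h1 h2
      omega
    · rw [Finset.disjoint_left]
      intro k h1 h2
      simp only [hSL, hSH, hSN, Finset.mem_union, Finset.mem_Icc] at h1 h2
      omega
  have hneg : ∀ f : ℤ → ℂ, ∑ k ∈ SN, f k = ∑ k ∈ SH, f (-k) := by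
    intro f
    refine Finset.sum_nbij' (fun k => -k) (fun k => -k) ?_ ?_ ?_ ?_ ?_
    · intro k hk; simp only [hSH, hSN, Finset.mem_Icc] at *; omega
    · intro k hk; simp only [hSH, hSN, Finset.mem_Icc] at *; omega
    · intro k _; simp
    · intro k _; simp
    · intro k _; simp
  have hnegL : ∀ f : ℤ → ℂ, ∑ k ∈ SL, f k = ∑ k ∈ SL, f (-k) := by
    intro f
    refine Finset.sum_nbij' (fun k => -k) (fun k => -k) ?_ ?_ ?_ ?_ ?_
    · intro k hk; simp only [hSL, Finset.mem_Icc] at *; omega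
    · intro k hk; simp only [hSL, Finset.mem_Icc] at *; omega
    · intro k _; simp
    · intro k _; simp
    · intro k _; simp
  set z : ℝ → ℂ := fun θ => ∑ k ∈ SH, c k * ex k θ with hz
  set gl : ℝ → ℂ := fun θ => ∑ k ∈ SL, c k * ex k θ with hgl
  set Gl : ℝ → ℝ := fun θ => (gl θ).re with hGl
  have hglr : ∀ θ, gl θ = (Gl θ : ℂ) := by
    intro θ
    have h1 : (starRingEnd ℂ) (gl θ) = gl θ := by
      simp only [hgl]
      rw [map_sum, hnegL]
      refine Finset.sum_congr rfl fun k _ => ?_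
      rw [map_mul, hcc, conj_ex, neg_neg]
    exact (Complex.conj_eq_iff_re.1 h1).symm
  have hsplit : ∀ θ, (G θ : ℂ) = Gl θ + (z θ + (starRingEnd ℂ) (z θ)) := by
    intro θ
    rw [hGs θ, hdec, ← hglr, hneg]
    congr 2
    simp only [hz]
    rw [map_sum]
    refine Finset.sum_congr rfl fun k _ => ?_
    rw [map_mul, hcc, conj_ex]
  have hcL : ∀ θ, gl θ = ∑ k ∈ Finset.Icc (-(n : ℤ)) n, (if k ∈ SL then c k else 0) * ex k θ := by
    intro θ
    have : ∀ k ∈ Finset.Icc (-(n : ℤ)) n, (if k ∈ SL then c k else 0) * ex k θ =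
        if k ∈ SL then c k * ex k θ else 0 := fun k _ => by split_ifs <;> simp
    rw [Finset.sum_congr rfl this, ← Finset.sum_filter]
    simp only [hgl]
    refine Finset.sum_congr ?_ fun _ _ => rfl
    ext k
    simp only [hSL, Finset.mem_filter, Finset.mem_Icc]
    omega
  refine ⟨Gl, z, fun θ => ∑ k ∈ SH, ex k θ, ?_, ⟨c, fun θ => rfl⟩, ?_, ?_, ?_, ?_, ?_, ?_, ?_⟩
  · exact ⟨c, fun θ => (hglr θ).symm⟩
  · intro θ
    have h1 := congrArg Complex.re (hsplit θ)
    simp only [Complex.add_re, Complex.ofReal_re, Complex.conj_re] at h1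
    linarith
  · -- ∫ G Gl = ∫ Gl²
    have h1 := parseval (Finset.Icc (-(n : ℤ)) n) c (fun k => if k ∈ SL then c k else 0)
    have h2 := parseval (Finset.Icc (-(n : ℤ)) n) (fun k => if k ∈ SL then c k else 0)
      (fun k => if k ∈ SL then c k else 0)
    have h3 : ∑ k ∈ Finset.Icc (-(n : ℤ)) n, c k * (starRingEnd ℂ) (if k ∈ SL then c k else 0) =
        ∑ k ∈ Finset.Icc (-(n : ℤ)) n, (if k ∈ SL then c k else 0) *
          (starRingEnd ℂ) (if k ∈ SL then c k else 0) := by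
      refine Finset.sum_congr rfl fun k _ => ?_
      split_ifs <;> simp
    rw [h3, ← h2] at h1
    simp_rw [← hcL, ← hGs, hglr, Complex.conj_ofReal, ← Complex.ofReal_mul] at h1
    rw [intervalIntegral.integral_ofReal, intervalIntegral.integral_ofReal] at h1
    have h4 : ∫ θ in (-π)..π, G θ * Gl θ = ∫ θ in (-π)..π, Gl θ * Gl θ := by exact_mod_cast h1
    rw [h4]
    congr 1
    funext θ
    ring
  · -- Parseval
    have h1 := parseval_norm (Finset.Icc (-(n : ℤ)) n) c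
    have h2 := parseval_norm SL c
    have h3 := parseval_norm SH c
    simp_rw [← hGs] at h1
    have e1 : ∀ θ, ‖(G θ : ℂ)‖ ^ 2 = G θ ^ 2 := fun θ => by
      rw [Complex.norm_real, Real.norm_eq_abs, sq_abs]
    have e2 : ∀ θ, ‖∑ k ∈ SL, c k * ex k θ‖ ^ 2 = Gl θ ^ 2 := fun θ => by
      have : ∑ k ∈ SL, c k * ex k θ = (Gl θ : ℂ) := hglr θ
      rw [this, Complex.norm_real, Real.norm_eq_abs, sq_abs]
    simp_rw [e1] at h1
    simp_rw [e2] at h2
    have h4 : ∑ k ∈ Finset.Icc (-(n : ℤ)) n, ‖c k‖ ^ 2 =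
        (∑ k ∈ SL, ‖c k‖ ^ 2) + 2 * ∑ k ∈ SH, ‖c k‖ ^ 2 := by
      have h5 := hdec (fun k => ((‖c k‖ ^ 2 : ℝ) : ℂ))
      rw [hneg] at h5
      have h6 : ∑ k ∈ SH, ((‖c (-k)‖ ^ 2 : ℝ) : ℂ) = ∑ k ∈ SH, ((‖c k‖ ^ 2 : ℝ) : ℂ) := by
        refine Finset.sum_congr rfl fun k _ => ?_
        rw [← hcc, Complex.norm_conj]
      rw [h6] at h5
      have h7 : ((∑ k ∈ Finset.Icc (-(n : ℤ)) n, ‖c k‖ ^ 2 : ℝ) : ℂ) =
          (((∑ k ∈ SL, ‖c k‖ ^ 2) + 2 * ∑ k ∈ SH, ‖c k‖ ^ 2 : ℝ) : ℂ) := by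
        push_cast at h5 ⊢
        rw [h5]
        ring
      exact_mod_cast h7
    rw [h1, h2, h4]
    have e3 : ∫ θ in (-π)..π, ‖z θ‖ ^ 2 = 2 * π * ∑ k ∈ SH, ‖c k‖ ^ 2 := h3
    rw [e3]
    ring
  · exact continuous_finsetSum _ fun k _ => continuous_ex k
  · intro θ
    refine (norm_sum_le _ _).trans ?_
    simp only [norm_ex, Finset.sum_const, hSH, Int.card_Icc, nsmul_eq_mul, mul_one]
    have : ((n : ℤ) + 1 - ((L : ℤ) + 1)).toNat ≤ n := by omega
    exact_mod_cast this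
  · intro θ
    have htel : (∑ k ∈ SH, ex k θ) * (ex 1 θ - 1) = ex (n + 1) θ - ex (L + 1) θ := by
      have hgen : ∀ m : ℕ, (∑ k ∈ Finset.Icc ((L : ℤ) + 1) (L + m), ex k θ) * (ex 1 θ - 1) =
          ex (L + m + 1) θ - ex (L + 1) θ := by
        intro m
        induction m with
        | zero =>
          rw [Finset.Icc_eq_empty (by push_cast; omega)]
          simp
        | succ m ih =>
          have hU : Finset.Icc ((L : ℤ) + 1) (L + (m + 1 : ℕ)) =
              insert ((L : ℤ) + m + 1) (Finset.Icc ((L : ℤ) + 1) (L + m)) := by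
            ext k
            simp only [Finset.mem_insert, Finset.mem_Icc]
            push_cast
            omega
          rw [hU, Finset.sum_insert (by rw [Finset.mem_Icc]; omega), add_mul, ih, mul_sub,
            ← ex_add]
          push_cast
          rw [mul_one]
          have : (L : ℤ) + m + 1 + 1 = L + (m + 1) + 1 := by ring
          rw [this]
          ring
      have := hgen (n - L)
      have e : ((L : ℤ) + ((n - L : ℕ) : ℤ)) = n := by
        have : ((n - L : ℕ) : ℤ) = n - L := by omega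
        rw [this]; ring
      rw [e] at this
      exact this
    have h1 : ‖ex 1 θ - 1‖ = 2 * |sin (θ / 2)| := by
      have e : ex 1 θ - 1 = ex 1 (θ / 2) * (ex 1 (θ / 2) - ex (-1) (θ / 2)) := by
        have e1 : ex 1 θ = ex 1 (θ / 2) * ex 1 (θ / 2) := by
          rw [← ex_add_arg]; congr 1; ring
        have e2 : ex 1 (θ / 2) * ex (-1) (θ / 2) = 1 := by
          rw [← ex_add]; simp [ex_zero]
        rw [mul_sub, e2, e1]
      rw [e, norm_mul, norm_ex, one_mul, ex_eq_cos, ex_eq_cos]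
      have : ((cos (((1 : ℤ) : ℝ) * (θ / 2)) : ℝ) : ℂ) + ((sin (((1 : ℤ) : ℝ) * (θ / 2)) : ℝ) : ℂ) *
          Complex.I - (((cos (((-1 : ℤ) : ℝ) * (θ / 2)) : ℝ) : ℂ) +
          ((sin (((-1 : ℤ) : ℝ) * (θ / 2)) : ℝ) : ℂ) * Complex.I) =
          ((2 * sin (θ / 2) : ℝ) : ℂ) * Complex.I := by
        push_cast
        rw [neg_mul, Complex.cos_neg, Complex.sin_neg, one_mul]
        ring
      rw [this, norm_mul, Complex.norm_I, mul_one, Complex.norm_real, Real.norm_eq_abs, abs_mul,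
        abs_two]
    have h2 := congrArg norm htel
    rw [norm_mul, h1] at h2
    have h3 : ‖ex (n + 1) θ - ex (L + 1) θ‖ ≤ 2 := by
      refine (norm_sub_le _ _).trans ?_
      rw [norm_ex, norm_ex]; norm_num
    have h4 : ‖∑ k ∈ SH, ex k θ‖ * (2 * |sin (θ / 2)|) ≤ 2 := h2.trans_le h3
    simp only
    linarith
  · intro s
    have h2 : ∀ k ∈ SH, c k * ex k s = 1 / (2 * π) * ∫ t in (-π)..π, (G t : ℂ) * ex k (s - t) := by
      intro k _
      rw [hc, fc, mul_assoc, ← intervalIntegral.integral_mul_const]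
      congr 2
      funext t
      have : ex k (s - t) = ex (-k) t * ex k s := by
        rw [sub_eq_add_neg, ex_add_arg, mul_comm]
        congr 1
        rw [ex, ex]
        congr 1
        push_cast
        ring
      rw [this, hg]
      ring
    have hcont : Continuous G := hG.contDiff.continuous
    simp only [hz]
    rw [Finset.sum_congr rfl h2, ← Finset.mul_sum, ← intervalIntegral.integral_finsetSum]
    · congr 2
      funext t
      rw [Finset.mul_sum]
    · intro k _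
      refine Continuous.intervalIntegrable ?_ _ _
      exact (Complex.continuous_ofReal.comp hcont).mul ((continuous_ex k).comp (by fun_prop))

end Pool.Agent.H93.Ch
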